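import Pool.Agent.Helper52K9.CG.Stm

/-!
# A1: the abelianisation modulo torsion
-/

set_option autoImplicit false

namespace Pool.Agent.Helper52K9.CG

theorem a1 : S_A1 := by
  intro Γ _ hfg
  let M := Additive (Abelianization Γ)
  have hof : Function.Surjective (Abelianization.of (G := Γ)) := by
    intro x
    induction x using QuotientGroup.induction_on with
    | H z => exact ⟨z, rfl⟩
  have hab : Group.FG (Abelianization Γ) := Group.fg_of_surjective hof
  have : AddGroup.FG M := by
    exact (AddGroup.fg_iff_addMonoid_fg).mpr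
      (Monoid.fg_iff_add_fg.mp ((Group.fg_iff_monoid_fg).mp hab))
  have : Module.Finite ℤ M := Module.Finite.iff_addGroup_fg.mpr inferInstance
  let N := M ⧸ Submodule.torsion ℤ M
  have : Module.IsTorsionFree ℤ N := Submodule.QuotientTorsion.instIsTorsionFree
  have : Module.Free ℤ N := inferInstance
  let e := Module.finBasis ℤ N
  let pr : Γ → N := fun g => (Submodule.torsion ℤ M).mkQ (Additive.ofMul (Abelianization.of g))
  have hpr : ∀ g h, pr (g * h) = pr g + pr h := by
    intro g h
    simp only [pr, map_mul, ofMul_mul, map_add]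
  refine ⟨Module.finrank ℤ N, fun g i => e.repr (pr g) i, ?_, ?_, ?_⟩
  · intro g h
    funext i
    simp only [hpr, map_add, Finsupp.add_apply, Pi.add_apply]
  · intro y
    obtain ⟨x, hx⟩ : ∃ x : N, e.repr x = Finsupp.equivFunOnFinite.symm y :=
      ⟨e.repr.symm (Finsupp.equivFunOnFinite.symm y), by simp⟩
    obtain ⟨a, ha⟩ := (Submodule.torsion ℤ M).mkQ_surjective x
    obtain ⟨g, hg⟩ := hof (Additive.toMul a)
    refine ⟨g, funext fun i => ?_⟩
    have h1 : pr g = x := by
      simp only [pr, hg]
      exact ha
    simp only [h1, hx]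
    rfl
  · intro T hT
    let T1 : Γ →* Multiplicative ℝ :=
      { toFun := fun g => Multiplicative.ofAdd (T g)
        map_one' := by
          have := hT 1 1
          rw [one_mul] at this
          have h0 : T 1 = 0 := by linarith
          rw [h0]; rfl
        map_mul' := fun g h => by rw [hT, ofAdd_add] }
    let T2 : Abelianization Γ →* Multiplicative ℝ := Abelianization.lift T1
    let T3 : M →+ ℝ := MonoidHom.toAdditiveLeft T2
    let T4 : M →ₗ[ℤ] ℝ := T3.toIntLinearMap
    have hker : Submodule.torsion ℤ M ≤ LinearMap.ker T4 := by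
      intro x hx
      obtain ⟨a, ha⟩ := (Submodule.mem_torsion_iff x).mp hx
      rw [LinearMap.mem_ker]
      have h1 : T4 ((a : ℤ) • x) = 0 := by
        have : (a : ℤ) • x = 0 := ha
        rw [this, map_zero]
      rw [map_smul] at h1
      have h2 : (a : ℤ) ≠ 0 := nonZeroDivisors.coe_ne_zero a
      rcases smul_eq_zero.mp h1 with h3 | h3
      · exact absurd h3 h2
      · exact h3
    let T5 : N →ₗ[ℤ] ℝ := (Submodule.torsion ℤ M).liftQ T4 hker
    refine ⟨fun i => T5 (e i), fun g => ?_⟩
    have h1 : T g = T5 (pr g) := by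
      simp only [T5, pr, Submodule.mkQ_apply]
      rfl
    rw [h1]
    conv_lhs => rw [← e.sum_repr (pr g)]
    rw [map_sum]
    refine Finset.sum_congr rfl fun i _ => ?_
    rw [map_smul, zsmul_eq_mul, mul_comm]

end Pool.Agent.Helper52K9.CG
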