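import Pool.Agent.Helper52K9.CG.Stm

set_option autoImplicit false

/-! # [A2]: lower bound for the growth -/

namespace Pool.Agent.Helper52K9.CG

open scoped Pointwise

namespace A2L

variable {Γ : Type} [Group Γ]

/-! ### word length -/

theorem mem_mul {S : Set Γ} {a b : ℕ} {x y : Γ} (hx : x ∈ S ^ a) (hy : y ∈ S ^ b) :
    x * y ∈ S ^ (a + b) := by
  rw [pow_add]
  exact Set.mul_mem_mul hx hy

theorem mem_mono {S : Set Γ} (h1 : (1 : Γ) ∈ S) {a b : ℕ} (hab : a ≤ b) {x : Γ}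
    (hx : x ∈ S ^ a) : x ∈ S ^ b :=
  Set.pow_subset_pow_right h1 hab hx

theorem mem_inv {S : Set Γ} (hinv : ∀ x ∈ S, x⁻¹ ∈ S) {a : ℕ} : ∀ {x : Γ}, x ∈ S ^ a →
    x⁻¹ ∈ S ^ a := by
  induction a with
  | zero =>
    intro x hx
    rw [pow_zero, Set.mem_one] at hx ⊢
    rw [hx, inv_one]
  | succ a ih =>
    intro x hx
    rw [pow_succ] at hx
    obtain ⟨y, hy, z, hz, rfl⟩ := Set.mem_mul.1 hx
    rw [mul_inv_rev, pow_succ']
    exact Set.mul_mem_mul (hinv z hz) (ih hy)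

theorem mem_pow {S : Set Γ} {a : ℕ} {x : Γ} (hx : x ∈ S ^ a) (n : ℕ) : x ^ n ∈ S ^ (a * n) := by
  rw [pow_mul]
  exact Set.pow_mem_pow hx

theorem mem_list {S : Set Γ} {a : ℕ} (L : List Γ) (hL : ∀ x ∈ L, x ∈ S ^ a) :
    L.prod ∈ S ^ (a * L.length) := by
  induction L with
  | nil => simp
  | cons y L ih =>
    rw [List.prod_cons, List.length_cons, mul_add, mul_one, add_comm (a * L.length)]
    exact mem_mul (hL y List.mem_cons_self) (ih fun x hx => hL x (List.mem_cons_of_mem _ hx))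

theorem exists_len {S : Set Γ} (hinv : ∀ x ∈ S, x⁻¹ ∈ S) (hgen : Subgroup.closure S = ⊤) (g : Γ) :
    ∃ n : ℕ, g ∈ S ^ n := by
  have hg : g ∈ Subgroup.closure S := hgen ▸ Subgroup.mem_top g
  induction hg using Subgroup.closure_induction with
  | mem x hx => exact ⟨1, by rwa [pow_one]⟩
  | one => exact ⟨0, by simp⟩
  | mul x y _ _ hx hy =>
    obtain ⟨a, ha⟩ := hx
    obtain ⟨b, hb⟩ := hy
    exact ⟨a + b, mem_mul ha hb⟩
  | inv x _ hx =>
    obtain ⟨a, ha⟩ := hx
    exact ⟨a, mem_inv hinv ha⟩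

/-! ### the homomorphism to `ℤ ^ m` -/

section psi

variable {m : ℕ} {ψ : Γ → Fin m → ℤ} (hψ : ∀ g h, ψ (g * h) = ψ g + ψ h)

include hψ

theorem psi_one : ψ 1 = 0 := by
  have h := hψ 1 1
  rw [mul_one] at h
  simpa using h

theorem psi_inv (g : Γ) : ψ g⁻¹ = - ψ g := by
  have h := hψ g g⁻¹
  rw [mul_inv_cancel, psi_one hψ] at h
  exact (neg_eq_of_add_eq_zero_right h.symm).symm

theorem psi_pow (g : Γ) (n : ℕ) : ψ (g ^ n) = n • ψ g := by
  induction n with
  | zero => rw [pow_zero, psi_one hψ, zero_smul]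
  | succ n ih => rw [pow_succ, hψ, ih, succ_nsmul]

theorem psi_comm (g h : Γ) : ψ (g * h * g⁻¹ * h⁻¹) = 0 := by
  rw [hψ, hψ, hψ, psi_inv hψ, psi_inv hψ]
  abel

theorem psi_list (L : List Γ) : ψ L.prod = (L.map ψ).sum := by
  induction L with
  | nil => rw [List.prod_nil, psi_one hψ]; rfl
  | cons x L ih => rw [List.prod_cons, hψ, ih, List.map_cons, List.sum_cons]

end psi

/-! ### the quadratic part -/

/-- the bilinear form of a matrix -/
def bil {m : ℕ} (B : Matrix (Fin m) (Fin m) ℝ) (x y : Fin m → ℤ) : ℝ :=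
  ∑ i, ∑ j, B i j * (x i : ℝ) * (y j : ℝ)

theorem bil_zero_left {m : ℕ} (B : Matrix (Fin m) (Fin m) ℝ) (y : Fin m → ℤ) : bil B 0 y = 0 := by
  unfold bil
  simp

theorem bil_zero_right {m : ℕ} (B : Matrix (Fin m) (Fin m) ℝ) (y : Fin m → ℤ) :
    bil B y 0 = 0 := by
  unfold bil
  simp

theorem bil_single {m : ℕ} (B : Matrix (Fin m) (Fin m) ℝ) (p q : Fin m) (r s : ℕ) :
    bil B (r • Pi.single p 1) (s • Pi.single q 1) = B p q * r * s := by
  unfold bil
  rw [Finset.sum_eq_single p, Finset.sum_eq_single q]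
  · simp
  · intro j _ hj
    simp [Pi.single_eq_of_ne hj]
  · intro h
    exact absurd (Finset.mem_univ q) h
  · intro i _ hi
    refine Finset.sum_eq_zero fun j _ => ?_
    simp [Pi.single_eq_of_ne hi]
  · intro h
    exact absurd (Finset.mem_univ p) h

section phi

variable {m : ℕ} {ψ : Γ → Fin m → ℤ} (hψ : ∀ g h, ψ (g * h) = ψ g + ψ h)
  {B : Matrix (Fin m) (Fin m) ℝ} {Φ : Γ → ℝ}
  (hΦ : ∀ g h, Φ (g * h) = Φ g + Φ h + bil B (ψ g) (ψ h))

include hψ hΦ

omit hψ in
theorem phi_right {g h : Γ} (h0 : ψ h = 0) : Φ (g * h) = Φ g + Φ h := by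
  rw [hΦ, h0, bil_zero_right, add_zero]

theorem phi_one : Φ 1 = 0 := by
  have h := hΦ 1 1
  rw [mul_one, psi_one hψ, bil_zero_left, add_zero] at h
  linarith

theorem phi_comm (g h : Γ) :
    Φ (g * h * g⁻¹ * h⁻¹) = bil B (ψ g) (ψ h) - bil B (ψ h) (ψ g) := by
  have h1 := hΦ (g * h * g⁻¹ * h⁻¹) (h * g)
  have h2 : g * h * g⁻¹ * h⁻¹ * (h * g) = g * h := by group
  rw [h2, psi_comm hψ, bil_zero_left, hΦ g h, hΦ h g] at h1
  linarith

theorem phi_list (L : List Γ) (hL : ∀ x ∈ L, ψ x = 0) : Φ L.prod = (L.map Φ).sum := by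
  induction L with
  | nil => rw [List.prod_nil, phi_one hψ hΦ]; rfl
  | cons x L ih =>
    rw [List.prod_cons, hΦ, hL x List.mem_cons_self, bil_zero_left, add_zero,
      ih fun y hy => hL y (List.mem_cons_of_mem _ hy), List.map_cons, List.sum_cons]

end phi

/-- a basis of values -/
theorem exists_basis {m k : ℕ} (Ω : Fin k → Matrix (Fin m) (Fin m) ℝ)
    (hΩ : LinearIndependent ℝ Ω) :
    ∃ p q : Fin k → Fin m, LinearIndependent ℝ (fun j (a : Fin k) => Ω a (p j) (q j)) := by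
  obtain ⟨κ, f, hf, hspan, hlin⟩ := exists_linearIndependent' ℝ
    (fun (z : Fin m × Fin m) (a : Fin k) => Ω a z.1 z.2)
  have htop : Submodule.span ℝ (Set.range fun (z : Fin m × Fin m) (a : Fin k) => Ω a z.1 z.2) =
      ⊤ := by
    by_contra hne
    obtain ⟨F, hF, hker⟩ := Submodule.exists_le_ker_of_lt_top _ (lt_top_iff_ne_top.2 hne)
    apply hF
    have h1 : ∀ v : Fin k → ℝ, F v = ∑ a, F (Pi.single a 1) * v a := by
      intro v
      conv_lhs => rw [← Finset.univ_sum_single v]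
      rw [map_sum]
      refine Finset.sum_congr rfl fun a _ => ?_
      have h2 : (Pi.single a (v a) : Fin k → ℝ) = v a • Pi.single a 1 := by
        rw [← Pi.single_smul, smul_eq_mul, mul_one]
      rw [h2, map_smul, smul_eq_mul, mul_comm]
    have h2 : ∀ a, F (Pi.single a 1) = 0 := by
      refine Fintype.linearIndependent_iff.1 hΩ (fun a => F (Pi.single a 1)) ?_
      ext i j
      have h3 : F (fun a => Ω a i j) = 0 :=
        hker (Submodule.subset_span ⟨(i, j), rfl⟩)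
      rw [h1] at h3
      rw [Matrix.sum_apply]
      simpa using h3
    ext v
    simp [h2]
  rw [htop] at hspan
  have hfin : Finite κ := Finite.of_injective f hf
  have : Fintype κ := Fintype.ofFinite κ
  have hcard : Fintype.card κ = k := by
    rw [← finrank_span_eq_card hlin, hspan, finrank_top, Module.finrank_fin_fun]
  have e : Fin k ≃ κ := (Fintype.equivFinOfCardEq hcard).symm
  exact ⟨fun j => (f (e j)).1, fun j => (f (e j)).2, hlin.comp e e.injective⟩

/-- many elements in the balls -/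
theorem count {S : Set Γ} (hfin : S.Finite) (h1 : (1 : Γ) ∈ S) (hinv : ∀ x ∈ S, x⁻¹ ∈ S)
    (hgen : Subgroup.closure S = ⊤) {m : ℕ} {ψ : Γ → Fin m → ℤ}
    (hψ : ∀ g h, ψ (g * h) = ψ g + ψ h) (hsurj : Function.Surjective ψ) {k : ℕ}
    {B : Fin k → Matrix (Fin m) (Fin m) ℝ} {Φ : Fin k → Γ → ℝ}
    (hΦ : ∀ a g h, Φ a (g * h) = Φ a g + Φ a h + bil (B a) (ψ g) (ψ h))
    (hlin : LinearIndependent ℝ (fun a => B a - (B a).transpose)) :
    ∃ L : ℕ, ∀ r : ℕ, 1 ≤ r → r ^ (m + 2 * k) ≤ (S ^ (L * r)).ncard := by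
  obtain ⟨p, q, hpq⟩ := exists_basis _ hlin
  choose x hx using fun i : Fin m => hsurj (Pi.single i 1)
  -- a common length
  obtain ⟨l, hl⟩ : ∃ l, ∀ i, x i ∈ S ^ l := by
    choose n hn using fun i => exists_len hinv hgen (x i)
    exact ⟨∑ i, n i, fun i => mem_mono h1 (Finset.single_le_sum (f := n)
      (fun _ _ => Nat.zero_le _) (Finset.mem_univ i)) (hn i)⟩
  refine ⟨l * m + 8 * l * k, fun r hr => ?_⟩
  obtain ⟨Pf, hPf⟩ : ∃ Pf : (Fin m → Fin r) → Γ,
    ∀ n, Pf n = (List.ofFn fun i => x i ^ (n i : ℕ)).prod := ⟨_, fun _ => rfl⟩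
  obtain ⟨cf', hcf⟩ : ∃ cf' : Fin r → Fin r → Fin k → Γ, ∀ s t j, cf' s t j =
    (x (p j) ^ r * x (q j) ^ (s : ℕ) * (x (p j) ^ r)⁻¹ * (x (q j) ^ (s : ℕ))⁻¹) *
    (x (p j) ^ 1 * x (q j) ^ (t : ℕ) * (x (p j) ^ 1)⁻¹ * (x (q j) ^ (t : ℕ))⁻¹) :=
    ⟨_, fun _ _ _ => rfl⟩
  obtain ⟨Qf, hQf⟩ : ∃ Qf : (Fin k → Fin r) → (Fin k → Fin r) → Γ,
    ∀ s t, Qf s t = (List.ofFn fun j => cf' (s j) (t j) j).prod := ⟨_, fun _ _ => rfl⟩
  have hψP : ∀ n, ψ (Pf n) = fun i => ((n i : ℕ) : ℤ) := by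
    intro n
    rw [hPf, psi_list hψ, List.map_ofFn, List.sum_ofFn]
    funext i
    rw [Finset.sum_apply, Finset.sum_eq_single i]
    · simp only [Function.comp_apply, psi_pow hψ, hx, Pi.smul_apply, Pi.single_eq_same]
      simp
    · intro j _ hj
      simp only [Function.comp_apply, psi_pow hψ, hx, Pi.smul_apply, Pi.single_eq_of_ne hj.symm,
        smul_zero]
    · intro h
      exact absurd (Finset.mem_univ i) h
  have hψc : ∀ s t j, ψ (cf' s t j) = 0 := by
    intro s t j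
    rw [hcf, hψ, psi_comm hψ, psi_comm hψ, add_zero]
  have hψQ : ∀ s t, ψ (Qf s t) = 0 := by
    intro s t
    rw [hQf, psi_list hψ, List.map_ofFn, List.sum_ofFn]
    exact Finset.sum_eq_zero fun j _ => hψc _ _ _
  have hΦc : ∀ a s t j, Φ a (cf' s t j) =
      ((r * (s : ℕ) + (t : ℕ) : ℕ) : ℝ) * (B a - (B a).transpose) (p j) (q j) := by
    intro a s t j
    rw [hcf, phi_right (hΦ a) (psi_comm hψ _ _), phi_comm hψ (hΦ a), phi_comm hψ (hΦ a)]
    simp only [psi_pow hψ, hx]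
    rw [bil_single, bil_single, bil_single, bil_single, Matrix.sub_apply, Matrix.transpose_apply]
    push_cast
    ring
  have hΦQ : ∀ a s t, Φ a (Qf s t) = ∑ j, ((r * (s j : ℕ) + (t j : ℕ) : ℕ) : ℝ) *
      (B a - (B a).transpose) (p j) (q j) := by
    intro a s t
    rw [hQf, phi_list hψ (hΦ a), List.map_ofFn, List.sum_ofFn]
    · exact Finset.sum_congr rfl fun j _ => hΦc _ _ _ _
    · intro y hy
      obtain ⟨j, rfl⟩ := (List.mem_ofFn' _ _).1 hy
      exact hψc _ _ _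
  have hinj : Function.Injective fun z : (Fin m → Fin r) × (Fin k → Fin r) × (Fin k → Fin r) =>
      Pf z.1 * Qf z.2.1 z.2.2 := by
    rintro ⟨n, s, t⟩ ⟨n', s', t'⟩ he
    simp only at he
    have e1 : n = n' := by
      have h2 := congrArg ψ he
      rw [hψ, hψ, hψQ, hψQ, add_zero, add_zero, hψP, hψP] at h2
      funext i
      have h3 := congrFun h2 i
      exact Fin.ext (by exact_mod_cast h3)
    subst e1
    have h4 := mul_left_cancel he
    have h5 : ∀ j, ((r * (s j : ℕ) + (t j : ℕ) : ℕ) : ℝ) =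
        ((r * (s' j : ℕ) + (t' j : ℕ) : ℕ) : ℝ) := by
      have h6 := Fintype.linearIndependent_iff.1 hpq
        (fun j => ((r * (s j : ℕ) + (t j : ℕ) : ℕ) : ℝ) -
          ((r * (s' j : ℕ) + (t' j : ℕ) : ℕ) : ℝ)) (by
        funext a
        rw [Finset.sum_apply]
        simp only [Pi.smul_apply, smul_eq_mul, sub_mul, Pi.zero_apply]
        rw [Finset.sum_sub_distrib, ← hΦQ, ← hΦQ, h4, sub_self])
      intro j
      exact sub_eq_zero.1 (h6 j)
    have h7 : ∀ j, s j = s' j ∧ t j = t' j := by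
      intro j
      have h8 : r * (s j : ℕ) + (t j : ℕ) = r * (s' j : ℕ) + (t' j : ℕ) := by
        exact_mod_cast h5 j
      have h9 : (t j : ℕ) = (t' j : ℕ) := by
        have h10 := congrArg (· % r) h8
        simp only [Nat.mul_add_mod, Nat.mod_eq_of_lt (t j).2, Nat.mod_eq_of_lt (t' j).2] at h10
        exact h10
      rw [h9] at h8
      have h11 := Nat.eq_of_mul_eq_mul_left hr (Nat.add_right_cancel h8)
      exact ⟨Fin.ext h11, Fin.ext h9⟩
    rw [Prod.mk.injEq, Prod.mk.injEq]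
    exact ⟨rfl, funext fun j => (h7 j).1, funext fun j => (h7 j).2⟩
  have hmem : ∀ z : (Fin m → Fin r) × (Fin k → Fin r) × (Fin k → Fin r),
      Pf z.1 * Qf z.2.1 z.2.2 ∈ S ^ ((l * m + 8 * l * k) * r) := by
    rintro ⟨n, s, t⟩
    have hxp : ∀ i (e : ℕ), e ≤ r → x i ^ e ∈ S ^ (l * r) := fun i e he =>
      mem_mono h1 (Nat.mul_le_mul_left l he) (mem_pow (hl i) e)
    have hP : Pf n ∈ S ^ (l * r * m) := by
      rw [hPf]
      have h2 := mem_list (S := S) (a := l * r) (List.ofFn fun i => x i ^ (n i : ℕ)) (by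
        intro y hy
        obtain ⟨i, rfl⟩ := (List.mem_ofFn' _ _).1 hy
        exact hxp i _ (n i).2.le)
      rwa [List.length_ofFn] at h2
    have hc : ∀ (u v : Γ), u ∈ S ^ (l * r) → v ∈ S ^ (l * r) →
        u * v * u⁻¹ * v⁻¹ ∈ S ^ (l * r * 4) := by
      intro u v hu hv
      have h2 := mem_mul (mem_mul (mem_mul hu hv) (mem_inv hinv hu)) (mem_inv hinv hv)
      have e : l * r + l * r + l * r + l * r = l * r * 4 := by ring
      rwa [e] at h2
    have hQ : Qf s t ∈ S ^ (l * r * 8 * k) := by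
      rw [hQf]
      have h2 := mem_list (S := S) (a := l * r * 8) (List.ofFn fun j => cf' (s j) (t j) j) (by
        intro y hy
        obtain ⟨j, rfl⟩ := (List.mem_ofFn' _ _).1 hy
        show cf' (s j) (t j) j ∈ _
        rw [hcf]
        have h3 := mem_mul (hc _ _ (hxp (p j) r le_rfl) (hxp (q j) _ (s j).2.le))
          (hc _ _ (hxp (p j) 1 hr) (hxp (q j) _ (t j).2.le))
        have e : l * r * 4 + l * r * 4 = l * r * 8 := by ring
        rwa [e] at h3)
      rwa [List.length_ofFn] at h2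
    have h2 := mem_mul hP hQ
    have e : l * r * m + l * r * 8 * k = (l * m + 8 * l * k) * r := by ring
    rwa [e] at h2
  have hSf : ∀ n : ℕ, (S ^ n).Finite := by
    intro n
    induction n with
    | zero => rw [pow_zero]; exact Set.finite_one
    | succ n ih => rw [pow_succ]; exact ih.mul hfin
  have hcard : (Set.range fun z : (Fin m → Fin r) × (Fin k → Fin r) × (Fin k → Fin r) =>
      Pf z.1 * Qf z.2.1 z.2.2).ncard = r ^ (m + 2 * k) := by
    rw [← Set.image_univ, hinj.injOn.ncard_image, Set.ncard_univ, Nat.card_eq_fintype_card]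
    simp only [Fintype.card_prod, Fintype.card_fun, Fintype.card_fin]
    ring
  rw [← hcard]
  refine Set.ncard_le_ncard ?_ (hSf _)
  rintro y ⟨z, rfl⟩
  exact hmem z

end A2L

open A2L in
theorem a2 : S_A2 := by
  intro Γ _ S h1 hinv hgen m ψ hψ hsurj k B hB hlin
  choose ζ hζ using hB
  obtain ⟨L, hL⟩ := count (S := (S : Set Γ)) S.finite_toSet (by exact_mod_cast h1)
    (fun x hx => by exact_mod_cast hinv x (by exact_mod_cast hx)) hgen hψ hsurj
    (B := B) (Φ := fun a g => - ζ a g) (fun a g h => by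
      have h2 := hζ a g h
      unfold bil
      linarith) hlin
  have hSf : ∀ n : ℕ, ((S : Set Γ) ^ n).Finite := by
    intro n
    induction n with
    | zero => rw [pow_zero]; exact Set.finite_one
    | succ n ih => rw [pow_succ]; exact ih.mul S.finite_toSet
  have h1' : (1 : Γ) ∈ (S : Set Γ) := by exact_mod_cast h1
  refine ⟨(1 / (2 * (L + 1))) ^ (m + 2 * k), by positivity, fun n => ?_⟩
  rw [← mul_pow]
  have hL0 : (0 : ℝ) < L + 1 := by positivity
  rcases Nat.lt_or_ge n (L + 1) with hn | hn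
  · have h2 : (1 : ℝ) ≤ (((S : Set Γ) ^ n).ncard : ℝ) := by
      have h3 : 0 < ((S : Set Γ) ^ n).ncard := by
        rw [Set.ncard_pos (hSf n)]
        exact ⟨1, mem_mono h1' (Nat.zero_le n) (by simp)⟩
      exact_mod_cast h3
    refine le_trans (pow_le_one₀ (by positivity) ?_) h2
    have h3 : (n : ℝ) ≤ L + 1 := by exact_mod_cast hn.le
    rw [one_div, inv_mul_le_iff₀ (by positivity)]
    linarith
  · obtain ⟨r, hr⟩ : ∃ r, r = n / (L + 1) := ⟨_, rfl⟩
    have hr1 : 1 ≤ r := by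
      rw [hr]
      exact (Nat.one_le_div_iff (Nat.succ_pos L)).2 hn
    have h2 : (L + 1) * r ≤ n := by
      rw [hr]
      exact Nat.mul_div_le n (L + 1)
    have h3 : n < (L + 1) * (r + 1) := by
      rw [hr]
      exact Nat.lt_mul_div_succ n (Nat.succ_pos L)
    have h4 : (r : ℝ) ^ (m + 2 * k) ≤ (((S : Set Γ) ^ n).ncard : ℝ) := by
      have h5 := hL r hr1
      have h6 : ((S : Set Γ) ^ (L * r)).ncard ≤ ((S : Set Γ) ^ n).ncard := by
        refine Set.ncard_le_ncard (Set.pow_subset_pow_right h1' ?_) (hSf n)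
        calc L * r ≤ (L + 1) * r := Nat.mul_le_mul_right r (Nat.le_succ L)
          _ ≤ n := h2
      exact_mod_cast h5.trans h6
    refine le_trans (pow_le_pow_left₀ (by positivity) ?_ _) h4
    have h7 : (n : ℝ) ≤ (L + 1) * (r + 1) := by exact_mod_cast h3.le
    have h8 : (1 : ℝ) ≤ r := by exact_mod_cast hr1
    rw [one_div, inv_mul_le_iff₀ (by positivity)]
    nlinarith

end Pool.Agent.Helper52K9.CG
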