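import Pool.Agent.Helper52K9.CG.Fin

/-!
# Project CG: the two-step structure is rational
-/

set_option autoImplicit false

namespace Pool.Agent.Helper52K9.CG

open scoped Pointwise
open Module

namespace A4L

open FinL

variable {Γ : Type} [Group Γ] {m : ℕ}

/-- the cochain of a matrix -/
def Nl (ψ : Γ → Fin m → ℤ) (B : Matrix (Fin m) (Fin m) ℝ) : Prop :=
  Null fun g h => ∑ i, ∑ j, B i j * (ψ g i : ℝ) * (ψ h j : ℝ)

lemma Nl.map {ψ : Γ → Fin m → ℤ} {B : Matrix (Fin m) (Fin m) ℝ} (hB : Nl ψ B)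
    (φ : ℝ →ₗ[ℚ] ℚ) : Nl ψ (B.map fun x => ((φ x : ℚ) : ℝ)) := by
  obtain ⟨ζ, hζ⟩ := hB
  refine ⟨fun g => ((φ (ζ g) : ℚ) : ℝ), fun g h => ?_⟩
  have h1 := congrArg φ (hζ g h)
  rw [map_sub, map_add, map_sum] at h1
  have h2 : ∀ i, φ (∑ j, B i j * (ψ g i : ℝ) * (ψ h j : ℝ)) =
      ∑ j, φ (B i j) * (ψ g i : ℚ) * (ψ h j : ℚ) := by
    intro i
    rw [map_sum]
    refine Finset.sum_congr rfl fun j _ => ?_
    have h3 : B i j * (ψ g i : ℝ) * (ψ h j : ℝ) = ((ψ g i : ℚ) * (ψ h j : ℚ)) • B i j := by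
      rw [Rat.smul_def]
      push_cast
      ring
    rw [h3, map_smul, smul_eq_mul]
    ring
  simp only [h2] at h1
  have h4 := congrArg (fun x : ℚ => (x : ℝ)) h1
  push_cast at h4
  simp only [Matrix.map_apply]
  exact h4

/-- the comparison of the growth -/
lemma le_of_growth {δ : ℝ} (hδ : 0 < δ) {a C : ℕ} (h : ∀ n : ℕ, δ * (n : ℝ) ^ a ≤
    (C : ℝ) * ((n : ℝ) + 1) ^ 12) : a ≤ 12 := by
  by_contra hcon
  push Not at hcon
  obtain ⟨N, hN⟩ := exists_nat_gt (4096 * (C : ℝ) / δ)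
  have h1 := h (N + 1)
  have hx : (1 : ℝ) ≤ ((N + 1 : ℕ) : ℝ) := by
    push_cast
    have : (0 : ℝ) ≤ N := Nat.cast_nonneg N
    linarith
  have hxN : (N : ℝ) ≤ ((N + 1 : ℕ) : ℝ) := by push_cast; linarith
  generalize ((N + 1 : ℕ) : ℝ) = x at h1 hx hxN
  have h2 : x ^ 13 ≤ x ^ a := pow_le_pow_right₀ hx hcon
  have h3 : (x + 1) ^ 12 ≤ (2 * x) ^ 12 := by
    apply pow_le_pow_left₀ (by linarith)
    linarith
  have h4 : δ * x ^ 13 ≤ (C : ℝ) * (2 * x) ^ 12 :=
    (mul_le_mul_of_nonneg_left h2 hδ.le).trans (h1.trans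
      (mul_le_mul_of_nonneg_left h3 (Nat.cast_nonneg C)))
  have h5 : (δ * x) * x ^ 12 ≤ (4096 * C) * x ^ 12 := by
    calc (δ * x) * x ^ 12 = δ * x ^ 13 := by ring
      _ ≤ _ := h4
      _ = _ := by ring
  have h6 := le_of_mul_le_mul_right h5 (by positivity)
  rw [div_lt_iff₀ hδ] at hN
  nlinarith

variable (l : ℝ) (τ : Matrix (Fin 4 ⊕ Fin 4) (Fin m) ℝ)

/-- the forms -/
noncomputable def Bk (k : Fin 2) : Matrix (Fin m) (Fin m) ℝ := fun a b =>
  ∑ i, cf l k i * τ (Sum.inl i) a * τ (Sum.inr i) b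

lemma Bk_anti (k : Fin 2) : Bk l τ k - (Bk l τ k).transpose = τ.transpose * Wm l k * τ := by
  ext a b
  rw [Matrix.sub_apply, Matrix.transpose_apply, Matrix.mul_apply, Fintype.sum_sum_type]
  simp only [Matrix.mul_apply, Fintype.sum_sum_type, Wm, Matrix.fromBlocks_apply₁₁,
    Matrix.fromBlocks_apply₁₂, Matrix.fromBlocks_apply₂₁, Matrix.fromBlocks_apply₂₂,
    Matrix.transpose_apply, Matrix.zero_apply, mul_zero, Finset.sum_const_zero, zero_add,
    add_zero, Matrix.neg_apply, Matrix.diagonal_apply, mul_neg, mul_ite, Finset.sum_neg_distrib,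
    Finset.sum_ite_eq', Finset.sum_ite_eq, Finset.mem_univ, if_true, Bk]
  rw [← Finset.sum_add_distrib, ← Finset.sum_sub_distrib]
  refine Finset.sum_congr rfl fun i _ => ?_
  ring

lemma exists_right_inv (hτ : LinearIndependent ℝ τ.row) :
    ∃ N : Matrix (Fin m) (Fin 4 ⊕ Fin 4) ℝ, τ * N = 1 := by
  rw [← Matrix.mulVec_surjective_iff_exists_right_inverse]
  have h1 := hτ.rank_matrix
  have h2 : LinearMap.range τ.mulVecLin = ⊤ := by
    apply Submodule.eq_top_of_finrank_eq
    rw [finrank_fintype_fun_eq_card]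
    exact h1
  have h3 := LinearMap.range_eq_top.1 h2
  exact h3

lemma Om_indep {N : Matrix (Fin m) (Fin 4 ⊕ Fin 4) ℝ} (hN : τ * N = 1) :
    LinearIndependent ℝ fun k => τ.transpose * Wm l k * τ := by
  rw [Fintype.linearIndependent_iff]
  intro s hs
  have h1 : ∑ k, s k • (τ.transpose * Wm l k * τ) =
      τ.transpose * Wc (fun i => ∑ k, s k * cf l k i) * τ := by
    rw [← sum_Wm, Matrix.mul_sum, Matrix.sum_mul]
    refine Finset.sum_congr rfl fun k _ => ?_
    rw [Matrix.mul_smul, Matrix.smul_mul]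
  rw [h1] at hs
  have h2 : N.transpose * (τ.transpose * Wc (fun i => ∑ k, s k * cf l k i) * τ) * N =
      Wc (fun i => ∑ k, s k * cf l k i) := by
    have h3 : N.transpose * τ.transpose = 1 := by
      rw [← Matrix.transpose_mul, hN, Matrix.transpose_one]
    rw [← Matrix.mul_assoc, ← Matrix.mul_assoc, h3, Matrix.one_mul, Matrix.mul_assoc, hN,
      Matrix.mul_one]
  rw [hs, Matrix.mul_zero, Matrix.zero_mul] at h2
  have h4 : ∀ i, ∑ k, s k * cf l k i = 0 := by
    intro i
    have h5 := congrFun (congrFun h2 (Sum.inl i)) (Sum.inr i)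
    rw [Wc, Matrix.fromBlocks_apply₁₂, Matrix.diagonal_apply_eq] at h5
    exact h5.symm
  have h6 := h4 0
  have h7 := h4 1
  rw [Fin.sum_univ_two] at h6 h7
  intro k
  fin_cases k
  · simpa [cf] using h6
  · simpa [cf] using h7

end A4L

open A4L FinL in
theorem a4 (ha1 : S_A1) (ha2 : S_A2) (hrat : S_RAT) (hfin : S_FIN) : S_A4 := by
  intro l Γ _ S hone hinv hgen hgrow T hT hlin hnull
  obtain ⟨C, hC⟩ := hgrow
  haveI : Group.FG Γ := ⟨⟨S, hgen⟩⟩
  obtain ⟨m, ψ, hψ, hsur, hrep⟩ := ha1 Γ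
  choose τ' hτ' using fun j => hrep (T j) (hT j)
  let τ : Matrix (Fin 4 ⊕ Fin 4) (Fin m) ℝ := Matrix.of τ'
  have hτ : ∀ j g, T j g = ∑ i, τ j i * (ψ g i : ℝ) := hτ'
  have hrow : LinearIndependent ℝ τ.row := by
    rw [Fintype.linearIndependent_iff]
    intro c hc
    have h1 : c = 0 := by
      apply hlin c
      intro g
      have h2 : ∀ i, ∑ j, c j * τ j i = 0 := by
        intro i
        have := congrFun hc i
        simpa [Finset.sum_apply] using this
      calc ∑ j, c j * T j g = ∑ j, ∑ i, c j * (τ j i * (ψ g i : ℝ)) := by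
            refine Finset.sum_congr rfl fun j _ => ?_
            rw [hτ, Finset.mul_sum]
        _ = ∑ i, (∑ j, c j * τ j i) * (ψ g i : ℝ) := by
            rw [Finset.sum_comm]
            refine Finset.sum_congr rfl fun i _ => ?_
            rw [Finset.sum_mul]
            refine Finset.sum_congr rfl fun j _ => ?_
            ring
        _ = 0 := by simp only [h2, zero_mul, Finset.sum_const_zero]
    intro j
    rw [h1]
    rfl
  obtain ⟨N, hN⟩ := exists_right_inv τ hrow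
  have hm8 : 8 ≤ m := by
    have h1 := hrow.fintype_card_le_finrank
    simpa using h1
  have hNl : ∀ k, Nl ψ (Bk l τ k) := by
    intro k
    have h1 : (fun g h => ∑ i, ∑ j, Bk l τ k i j * (ψ g i : ℝ) * (ψ h j : ℝ)) =
        fun g h => ∑ i : Fin 4, cf l k i * T (Sum.inl i) g * T (Sum.inr i) h := by
      funext g h
      have h2 : ∀ i : Fin 4, cf l k i * T (Sum.inl i) g * T (Sum.inr i) h =
          ∑ a, ∑ b, cf l k i * τ (Sum.inl i) a * τ (Sum.inr i) b * (ψ g a : ℝ) * (ψ h b : ℝ) := by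
        intro i
        rw [hτ, hτ, mul_assoc, Finset.sum_mul_sum, Finset.mul_sum]
        refine Finset.sum_congr rfl fun a _ => ?_
        rw [Finset.mul_sum]
        refine Finset.sum_congr rfl fun b _ => ?_
        ring
      calc ∑ a, ∑ b, Bk l τ k a b * (ψ g a : ℝ) * (ψ h b : ℝ) =
          ∑ a, ∑ b, ∑ i : Fin 4, cf l k i * τ (Sum.inl i) a * τ (Sum.inr i) b * (ψ g a : ℝ) *
            (ψ h b : ℝ) := by simp only [Bk, Finset.sum_mul]
        _ = ∑ a, ∑ i : Fin 4, ∑ b, cf l k i * τ (Sum.inl i) a * τ (Sum.inr i) b * (ψ g a : ℝ) *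
            (ψ h b : ℝ) := Finset.sum_congr rfl fun a _ => Finset.sum_comm
        _ = ∑ i : Fin 4, ∑ a, ∑ b, cf l k i * τ (Sum.inl i) a * τ (Sum.inr i) b * (ψ g a : ℝ) *
            (ψ h b : ℝ) := Finset.sum_comm
        _ = _ := Finset.sum_congr rfl fun i _ => (h2 i).symm
    rw [Nl, h1]
    exact hnull k
  have hOm := Om_indep l τ hN
  have hanti : (fun k => Bk l τ k - (Bk l τ k).transpose) =
      fun k => τ.transpose * Wm l k * τ := funext fun k => Bk_anti l τ k
  have hle : ∀ (r : ℕ) (B : Fin r → Matrix (Fin m) (Fin m) ℝ), (∀ a, Nl ψ (B a)) →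
      LinearIndependent ℝ (fun a => B a - (B a).transpose) → m + 2 * r ≤ 12 := by
    intro r B hB hB'
    obtain ⟨δ, hδ, h⟩ := ha2 Γ S hone hinv hgen m ψ hψ hsur r B hB hB'
    refine le_of_growth hδ (C := C) fun n => (h n).trans ?_
    exact_mod_cast hC n
  have hm : m = 8 := by
    have h1 := hle 2 (Bk l τ) hNl (by rw [hanti]; exact hOm)
    omega
  -- rationality
  obtain ⟨A, hA1, hA2⟩ := hrat (Fin m) (fun k => τ.transpose * Wm l k * τ) hOm (by
    intro φ k
    by_contra hcon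
    let B3 : Fin 3 → Matrix (Fin m) (Fin m) ℝ :=
      Fin.snoc (Bk l τ) ((Bk l τ k).map fun x => ((φ x : ℚ) : ℝ))
    have h1 : ∀ a, Nl ψ (B3 a) := by
      intro a
      refine Fin.lastCases ?_ (fun a => ?_) a
      · simp only [B3, Fin.snoc_last]
        exact (hNl k).map φ
      · simp only [B3, Fin.snoc_castSucc]
        exact hNl a
    have h2 : (fun a => B3 a - (B3 a).transpose) =
        Fin.snoc (fun k => τ.transpose * Wm l k * τ)
          ((τ.transpose * Wm l k * τ).map fun x => ((φ x : ℚ) : ℝ)) := by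
      funext a
      refine Fin.lastCases ?_ (fun a => ?_) a
      · simp only [B3, Fin.snoc_last]
        rw [← Bk_anti]
        ext i j
        simp only [Matrix.sub_apply, Matrix.map_apply, Matrix.transpose_apply, map_sub,
          Rat.cast_sub]
      · simp only [B3, Fin.snoc_castSucc]
        exact Bk_anti l τ a
    have h3 := hle 3 B3 h1 (by
      rw [h2]
      exact linearIndependent_finSnoc.2 ⟨hOm, hcon⟩)
    omega)
  -- the square matrix
  have e : Fin 4 ⊕ Fin 4 ≃ Fin m := Fintype.equivOfCardEq (by simp [hm])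
  let σ : Matrix (Fin 4 ⊕ Fin 4) (Fin 4 ⊕ Fin 4) ℝ := τ.submatrix id e
  have hσ : σ.det ≠ 0 := by
    have h1 : σ * N.submatrix e id = 1 := by
      simp only [σ]
      rw [Matrix.submatrix_mul_equiv, hN]
      rfl
    intro h0
    have h2 := congrArg Matrix.det h1
    rw [Matrix.det_mul, h0, zero_mul, Matrix.det_one] at h2
    exact zero_ne_one h2
  refine hfin l σ hσ (fun a => (A a).submatrix e e) ?_ fun a => ?_
  · rw [Fintype.linearIndependent_iff] at hA1 ⊢
    intro g hg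
    apply hA1 g
    ext i j
    have h1 := congrFun (congrFun hg (e.symm i)) (e.symm j)
    simpa [Matrix.sum_apply, rm] using h1
  · obtain ⟨s, hs⟩ := (Submodule.mem_span_range_iff_exists_fun ℝ).1 (hA2 a)
    refine ⟨s, ?_⟩
    have h1 : rm ((A a).submatrix e e) = (rm (A a)).submatrix e e := rfl
    rw [h1, ← hs]
    ext i j
    simp only [Matrix.submatrix_apply, Matrix.sum_apply, Matrix.smul_apply]
    refine Finset.sum_congr rfl fun k _ => ?_
    rfl

end Pool.Agent.Helper52K9.CG
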