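import Pool.Agent.Helper52K9.CG.Stm

/-!
# Project CG, leaf [CHR]: characteristic nilpotent subgroups of finite index (helper77)
-/

set_option autoImplicit false

namespace Pool.Agent.Helper52K9.CG

namespace ChrL

/-- finitely many homomorphisms from a finitely generated group to a finite group -/
theorem finite_hom (K : Type) [Group K] [hK : Group.FG K] (Q : Type) [Group Q] [Finite Q] :
    Finite (K →* Q) := by
  obtain ⟨S, hS, hfin⟩ := Group.fg_iff.1 hK
  have := hfin.to_subtype
  refine Finite.of_injective (fun φ : K →* Q => fun s : S => φ s) ?_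
  intro φ ψ h
  refine MonoidHom.eq_of_eqOn_dense hS ?_
  intro x hx
  exact congrFun h ⟨x, hx⟩

end ChrL

theorem chr : S_CHR := by
  intro K _ hK H hH hnil
  have hfin : Finite (K ⧸ H) := inferInstance
  have := ChrL.finite_hom K (Equiv.Perm (K ⧸ H))
  let N : Subgroup K := ⨅ φ : K →* Equiv.Perm (K ⧸ H), φ.ker
  have hidx : N.FiniteIndex := by
    refine Subgroup.finiteIndex_iInf fun φ => ?_
    infer_instance
  have hle : N ≤ H := by
    refine (iInf_le _ (MulAction.toPermHom K (K ⧸ H))).trans ?_
    rw [← Subgroup.normalCore_eq_ker]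
    exact Subgroup.normalCore_le H
  refine ⟨N, ?_, hidx, ?_, ?_⟩
  · refine ⟨fun α => ?_⟩
    apply le_antisymm
    · intro x hx
      rw [Subgroup.mem_comap] at hx
      rw [Subgroup.mem_iInf] at hx ⊢
      intro φ
      have := hx (φ.comp α.symm.toMonoidHom)
      rw [MonoidHom.mem_ker] at this ⊢
      simpa using this
    · intro x hx
      rw [Subgroup.mem_comap]
      rw [Subgroup.mem_iInf] at hx ⊢
      intro φ
      have := hx (φ.comp α.toMonoidHom)
      rw [MonoidHom.mem_ker] at this ⊢
      simpa using this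
  · obtain ⟨n, hn⟩ := (Subgroup.isNilpotent_iff_lowerCentralSeries H).1 hnil
    refine (Subgroup.isNilpotent_iff_lowerCentralSeries N).2 ⟨n, ?_⟩
    rw [eq_bot_iff, ← hn]
    exact N.lowerCentralSeries_mono n hle
  · infer_instance

end Pool.Agent.Helper52K9.CG
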