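import Pool.Agent.Helper52K9.CG.Stm

/-!
# Project CG, leaf [CLO]: the coboundaries are closed for pointwise convergence (helper77)
-/

set_option autoImplicit false

namespace Pool.Agent.Helper52K9.CG

namespace CloL

variable {Γ : Type} [Group Γ]

/-- the boundary operator -/
noncomputable def bd (Γ : Type) [Group Γ] : (Γ × Γ →₀ ℝ) →ₗ[ℝ] (Γ →₀ ℝ) :=
  Finsupp.linearCombination ℝ (fun p : Γ × Γ =>
    Finsupp.single p.1 (1 : ℝ) + Finsupp.single p.2 1 - Finsupp.single (p.1 * p.2) 1)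

/-- a 2-cochain as a functional -/
noncomputable def fn (c : Γ → Γ → ℝ) : Module.Dual ℝ (Γ × Γ →₀ ℝ) :=
  Finsupp.linearCombination ℝ (fun p : Γ × Γ => c p.1 p.2)

theorem fn_single (c : Γ → Γ → ℝ) (g h : Γ) : fn c (Finsupp.single (g, h) 1) = c g h := by
  simp [fn]

theorem comp_bd (ζ : Module.Dual ℝ (Γ →₀ ℝ)) (g h : Γ) :
    ζ (bd Γ (Finsupp.single (g, h) 1)) = ζ (Finsupp.single g 1) + ζ (Finsupp.single h 1) -
      ζ (Finsupp.single (g * h) 1) := by
  simp [bd]

theorem fn_eq (ζ : Γ → ℝ) (f : Γ × Γ →₀ ℝ) (hf : bd Γ f = 0) :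
    fn (fun g h => ζ g + ζ h - ζ (g * h)) f = 0 := by
  have h1 : fn (fun g h => ζ g + ζ h - ζ (g * h)) =
      (Finsupp.linearCombination ℝ ζ).comp (bd Γ) := by
    refine Finsupp.lhom_ext' fun p => LinearMap.ext_ring ?_
    obtain ⟨g, h⟩ := p
    simp [fn, bd]
  rw [h1, LinearMap.comp_apply, hf, map_zero]

end CloL

open CloL in
theorem clo : S_CLO := by
  classical
  intro Γ _ c hc
  have h1 : fn c ∈ (LinearMap.ker (bd Γ)).dualAnnihilator := by
    rw [Submodule.mem_dualAnnihilator]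
    intro f hf
    rw [LinearMap.mem_ker] at hf
    have h2 : ∀ ε : ℝ, 0 < ε → |fn c f| ≤ ε * ∑ p ∈ f.support, |f p| := by
      intro ε hε
      obtain ⟨ζ, hζ⟩ := hc (f.support.image Prod.fst ∪ f.support.image Prod.snd) ε hε
      have h3 : fn c f = fn c f - fn (fun g h => ζ g + ζ h - ζ (g * h)) f := by
        rw [fn_eq ζ f hf, sub_zero]
      have h4 : fn c f - fn (fun g h => ζ g + ζ h - ζ (g * h)) f =
          ∑ p ∈ f.support, f p * (c p.1 p.2 - (ζ p.1 + ζ p.2 - ζ (p.1 * p.2))) := by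
        simp only [fn, Finsupp.linearCombination_apply, Finsupp.sum, smul_eq_mul]
        rw [← Finset.sum_sub_distrib]
        exact Finset.sum_congr rfl fun p _ => by ring
      rw [h3, h4, Finset.mul_sum]
      refine (Finset.abs_sum_le_sum_abs _ _).trans (Finset.sum_le_sum fun p hp => ?_)
      rw [abs_mul, mul_comm]
      refine mul_le_mul_of_nonneg_right ?_ (abs_nonneg _)
      exact hζ p.1 (Finset.mem_union_left _ (Finset.mem_image_of_mem _ hp)) p.2
        (Finset.mem_union_right _ (Finset.mem_image_of_mem _ hp))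
    have h5 : |fn c f| ≤ 0 := by
      by_contra h
      push Not at h
      have h6 : 0 ≤ ∑ p ∈ f.support, |f p| := Finset.sum_nonneg fun p _ => abs_nonneg _
      have h7 := h2 (|fn c f| / (2 * (∑ p ∈ f.support, |f p| + 1))) (by positivity)
      rw [div_mul_eq_mul_div, le_div_iff₀ (by positivity)] at h7
      nlinarith
    exact abs_eq_zero.1 (le_antisymm h5 (abs_nonneg _))
  rw [← LinearMap.range_dualMap_eq_dualAnnihilator_ker] at h1
  obtain ⟨ζ, hζ⟩ := h1
  refine ⟨fun g => ζ (Finsupp.single g 1), fun g h => ?_⟩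
  rw [← comp_bd, ← fn_single c g h, ← hζ]
  rfl

end Pool.Agent.Helper52K9.CG
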