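import Pool.Agent.Helper52K9.CG.Stm

/-!
# Project CG: leaf CNT (helper30)

Counting: a positive proportion of the elements of `S ^ n` move in the direction of a given
functional by at least `δ n`.
-/

set_option autoImplicit false

namespace Pool.Agent.Helper52K9.CG
namespace CntL

open scoped Pointwise

variable {l : ℝ}

theorem co_mul (j : Fin 4 ⊕ Fin 4) (x y : NN l) : co j (x * y) = co j x + co j y := by
  rcases j with j | j <;> simp [co]

theorem co_inv (j : Fin 4 ⊕ Fin 4) (x : NN l) : co j x⁻¹ = -co j x := by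
  rcases j with j | j <;> simp [co]

theorem abs_co_le (j : Fin 4 ⊕ Fin 4) (x : NN l) : |co j x| ≤ ga x := by
  rcases j with j | j
  · exact (norm_le_pi_norm x.p j).trans ((le_max_left _ _).trans (le_max_left _ _))
  · exact (norm_le_pi_norm x.q j).trans ((le_max_right _ _).trans (le_max_left _ _))

theorem ga_nonneg (x : NN l) : 0 ≤ ga x :=
  (norm_nonneg x.p).trans ((le_max_left _ _).trans (le_max_left _ _))

/-- the lower corner -/
def lo (j0 : Fin 4 ⊕ Fin 4) (N : ℕ) (j : Fin 4 ⊕ Fin 4) : ℤ := if j = j0 then 16 * N else 0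

/-- the box -/
noncomputable def W (j0 : Fin 4 ⊕ Fin 4) (N : ℕ) : Finset Pt :=
  Fintype.piFinset (fun i => Finset.Ico (lo j0 N (Sum.inl i)) (lo j0 N (Sum.inl i) + N)) ×ˢ
    Fintype.piFinset (fun i => Finset.Ico (lo j0 N (Sum.inr i)) (lo j0 N (Sum.inr i) + N)) ×ˢ
    Fintype.piFinset (fun _ => Finset.Ico 0 ((N : ℤ) ^ 2))

theorem card_W (j0 : Fin 4 ⊕ Fin 4) (N : ℕ) : (W j0 N).card = N ^ 12 := by
  simp only [W, Finset.card_product, Fintype.card_piFinset, Int.card_Ico, add_sub_cancel_left,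
    sub_zero, Finset.prod_const, Finset.card_univ, Fintype.card_fin]
  have h1 : ((N : ℤ) ^ 2).toNat = N ^ 2 := by
    rw [← Nat.cast_pow, Int.toNat_natCast]
  rw [h1, Int.toNat_natCast]
  ring

theorem co_W {j0 : Fin 4 ⊕ Fin 4} {N : ℕ} {w : Pt} (hw : w ∈ W j0 N) (j : Fin 4 ⊕ Fin 4) :
    (lo j0 N j : ℝ) ≤ co j (em l w) ∧ co j (em l w) ≤ (lo j0 N j : ℝ) + N := by
  simp only [W, Finset.mem_product, Fintype.mem_piFinset, Finset.mem_Ico] at hw
  rcases j with j | j
  · have h := hw.1 j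
    have h1 : co (Sum.inl j) (em l w) = ((w.1 j : ℤ) : ℝ) := rfl
    rw [h1]
    refine ⟨by exact_mod_cast h.1, ?_⟩
    have := h.2.le
    exact_mod_cast this
  · have h := hw.2.1 j
    have h1 : co (Sum.inr j) (em l w) = ((w.2.1 j : ℤ) : ℝ) := rfl
    rw [h1]
    refine ⟨by exact_mod_cast h.1, ?_⟩
    have := h.2.le
    exact_mod_cast this

theorem lo_nonneg (j0 : Fin 4 ⊕ Fin 4) (N : ℕ) (j : Fin 4 ⊕ Fin 4) : (0 : ℝ) ≤ lo j0 N j := by
  unfold lo
  split_ifs
  · push_cast; positivity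
  · simp

theorem lo_le (j0 : Fin 4 ⊕ Fin 4) (N : ℕ) (j : Fin 4 ⊕ Fin 4) : (lo j0 N j : ℝ) ≤ 16 * N := by
  unfold lo
  split_ifs
  · push_cast; exact le_rfl
  · push_cast; positivity

theorem ga_W {j0 : Fin 4 ⊕ Fin 4} {N : ℕ} {w : Pt} (hw : w ∈ W j0 N) : ga (em l w) ≤ 17 * N := by
  have hc : ∀ j, |co j (em l w)| ≤ 17 * N := fun j => by
    obtain ⟨h1, h2⟩ := co_W (l := l) hw j
    have h3 := lo_nonneg j0 N j
    have h4 := lo_le j0 N j
    rw [abs_of_nonneg (h3.trans h1)]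
    linarith
  have hN : (0 : ℝ) ≤ 17 * N := by positivity
  refine max_le (max_le ?_ ?_) ?_
  · exact (pi_norm_le_iff_of_nonneg hN).2 fun i => hc (Sum.inl i)
  · exact (pi_norm_le_iff_of_nonneg hN).2 fun i => hc (Sum.inr i)
  · have hz : ‖(em l w).z‖ ≤ (N : ℝ) ^ 2 := by
      refine (pi_norm_le_iff_of_nonneg (by positivity)).2 fun k => ?_
      simp only [W, Finset.mem_product, Fintype.mem_piFinset, Finset.mem_Ico] at hw
      have h := hw.2.2 k
      have h1 : (em l w).z k = ((w.2.2 k : ℤ) : ℝ) := rfl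
      rw [h1, Real.norm_eq_abs, abs_of_nonneg (by exact_mod_cast h.1)]
      have := h.2.le
      exact_mod_cast this
    calc Real.sqrt ‖(em l w).z‖ ≤ Real.sqrt ((N : ℝ) ^ 2) := Real.sqrt_le_sqrt hz
      _ = N := Real.sqrt_sq (by positivity)
      _ ≤ 17 * N := by
        have : (0 : ℝ) ≤ N := by positivity
        linarith

/-- the functional at a point near the box -/
theorem functional {c : Fin 4 ⊕ Fin 4 → ℝ} {j0 : Fin 4 ⊕ Fin 4} (hj : ∀ j, |c j| ≤ |c j0|)
    {N : ℕ} {w : Pt} (hw : w ∈ W j0 N) {K : ℝ} {v : NN l} (hv : ga v ≤ K) (hKN : K ≤ N) :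
    |c j0| * N ≤ |∑ j, c j * co j (em l w * v⁻¹)| := by
  set a : Fin 4 ⊕ Fin 4 → ℝ := fun j => co j (em l w * v⁻¹) with ha
  have ha1 : ∀ j, a j = co j (em l w) - co j v := fun j => by
    simp only [ha, co_mul, co_inv, sub_eq_add_neg]
  have hvj : ∀ j, |co j v| ≤ K := fun j => (abs_co_le j v).trans hv
  have h0 : 15 * (N : ℝ) ≤ a j0 := by
    obtain ⟨h1, _⟩ := co_W (l := l) hw j0
    have h2 : (lo j0 N j0 : ℝ) = 16 * N := by simp [lo]
    rw [h2] at h1
    have h3 := (abs_le.1 (hvj j0)).2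
    rw [ha1]
    linarith
  have h1 : ∀ j, j ≠ j0 → |a j| ≤ 2 * N := fun j hne => by
    obtain ⟨h1, h2⟩ := co_W (l := l) hw j
    have h3 : (lo j0 N j : ℝ) = 0 := by simp [lo, hne]
    rw [h3] at h1 h2
    have h4 := abs_le.1 (hvj j)
    rw [ha1, abs_le]
    constructor <;> linarith [h4.1, h4.2, (Nat.cast_nonneg N : (0 : ℝ) ≤ N)]
  have h2 : ∑ j, c j * a j = c j0 * a j0 + ∑ j ∈ Finset.univ.erase j0, c j * a j :=
    (Finset.add_sum_erase _ _ (Finset.mem_univ j0)).symm
  have h3 : |∑ j ∈ Finset.univ.erase j0, c j * a j| ≤ 7 * (|c j0| * (2 * N)) := by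
    calc |∑ j ∈ Finset.univ.erase j0, c j * a j| ≤ ∑ j ∈ Finset.univ.erase j0, |c j * a j| :=
          Finset.abs_sum_le_sum_abs _ _
      _ ≤ ∑ j ∈ Finset.univ.erase j0, |c j0| * (2 * N) := by
          refine Finset.sum_le_sum fun j hjm => ?_
          rw [abs_mul]
          exact mul_le_mul (hj j) (h1 j (Finset.ne_of_mem_erase hjm)) (abs_nonneg _) (abs_nonneg _)
      _ = 7 * (|c j0| * (2 * N)) := by
          rw [Finset.sum_const, Finset.card_erase_of_mem (Finset.mem_univ j0)]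
          simp
  have h4 : |c j0| * (15 * N) ≤ |c j0 * a j0| := by
    rw [abs_mul]
    refine mul_le_mul_of_nonneg_left ?_ (abs_nonneg _)
    exact h0.trans (le_abs_self _)
  have h5 : |c j0 * a j0| ≤ |∑ j, c j * a j| + |∑ j ∈ Finset.univ.erase j0, c j * a j| := by
    have : c j0 * a j0 = ∑ j, c j * a j - ∑ j ∈ Finset.univ.erase j0, c j * a j := by
      rw [h2]; ring
    rw [this]
    exact abs_sub _ _
  have h6 : |c j0| * N ≤ |∑ j, c j * a j| := by
    have h7 : |c j0| * (15 * N) ≤ |∑ j, c j * a j| + 7 * (|c j0| * (2 * N)) := by linarith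
    nlinarith
  exact h6

theorem pow_mono {Γ : Type} [Group Γ] {S : Finset Γ} (h1 : (1 : Γ) ∈ S) {n k : ℕ} (h : n ≤ k) :
    (S : Set Γ) ^ n ⊆ (S : Set Γ) ^ k :=
  Set.pow_subset_pow_right (by exact_mod_cast h1) h

end CntL

open CntL in
open scoped Pointwise in
theorem cnt (hGA : S_GA) (hRD : S_RD) : S_CNT := by
  classical
  intro l Γ _ S f K hQ c hc
  obtain ⟨C, hC1, hmul, hinv, -⟩ := hGA l
  obtain ⟨-, -, C1, hC⟩ := hRD l
  -- the largest coefficient
  obtain ⟨j0, hj0⟩ := Finite.exists_max (fun j => |c j|)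
  have hj0 : ∀ j, |c j| ≤ |c j0| := hj0
  have hM : 0 < |c j0| := by
    obtain ⟨j, hj⟩ := Function.ne_iff.1 hc
    exact (abs_pos.2 hj).trans_le (hj0 j)
  have hK0 : 0 ≤ K := by
    obtain ⟨x, hx⟩ := hQ.surj 1
    exact (ga_nonneg _).trans hx
  have hC0 : 0 ≤ C := by linarith
  -- constants
  obtain ⟨D, hD⟩ := exists_nat_ge (34 * C * K + 1)
  have hD1 : (1 : ℝ) ≤ D := by nlinarith [mul_nonneg hC0 hK0]
  have hD0 : 0 < D := by exact_mod_cast (lt_of_lt_of_le zero_lt_one hD1)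
  obtain ⟨R1, hR1⟩ := exists_nat_ge (2 * K * (C * (C * K) + 2))
  obtain ⟨R2, hR2⟩ := exists_nat_ge (K + 1)
  obtain ⟨ρ, hρ⟩ := exists_nat_ge (C * (C * K + K))
  obtain ⟨B, hB⟩ : ∃ B : ℕ, C1 * (ρ + 1) ^ 12 < B := ⟨_, Nat.lt_succ_self _⟩
  have hB0 : (0 : ℝ) < B := by
    have : 0 < B := lt_of_le_of_lt (Nat.zero_le _) hB
    exact_mod_cast this
  have hD0' : (0 : ℝ) < D := by exact_mod_cast hD0
  set δ : ℝ := min (|c j0| / (2 * D)) ((1 / (2 * D)) ^ 12 / B) with hδ
  refine ⟨δ, lt_min (by positivity) (by positivity), max R1 (D * R2 + D), fun n hn x => ?_⟩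
  have hn1 : R1 ≤ n := (le_max_left _ _).trans hn
  have hn2 : D * R2 + D ≤ n := (le_max_right _ _).trans hn
  set N := n / D with hN
  have hNR : R2 ≤ N := by
    rw [hN, Nat.le_div_iff_mul_le hD0]
    nlinarith
  have hKN : K ≤ N := by
    have : (R2 : ℝ) ≤ N := by exact_mod_cast hNR
    linarith
  have hDN : (D : ℝ) * N ≤ n := by
    have : D * N ≤ n := Nat.mul_div_le n D
    exact_mod_cast this
  have hNn : (n : ℝ) ≤ 2 * D * N := by
    have h1 : n < D * N + D := by
      have := Nat.lt_mul_div_succ n hD0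
      rw [hN]
      nlinarith
    have h2 : 1 ≤ N := by
      rw [hN, Nat.le_div_iff_mul_le hD0]
      nlinarith
    have h3 : D ≤ D * N := Nat.le_mul_of_pos_right D h2
    have h4 : n ≤ 2 * D * N := by nlinarith
    exact_mod_cast h4
  -- the points
  have hpt : ∀ w : Pt, ∃ y : Γ, ga ((f y)⁻¹ * (f x * em l w)) ≤ K := fun w => hQ.surj _
  choose y hy using hpt
  set v : Pt → NN l := fun w => (f (y w))⁻¹ * (f x * em l w) with hv
  have hvK : ∀ w, ga (v w) ≤ K := hy
  have hfy : ∀ w, (f x)⁻¹ * f (x * (x⁻¹ * y w)) = em l w * (v w)⁻¹ := fun w => by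
    rw [mul_inv_cancel_left]
    simp only [hv, mul_inv_rev, inv_inv]
    group
  set A : Finset Γ := (W j0 N).image fun w => x⁻¹ * y w with hA
  refine ⟨A, ?_, ?_, ?_⟩
  · intro g hg
    simp only [hA, Finset.coe_image, Set.mem_image, Finset.mem_coe] at hg
    obtain ⟨w, hw, rfl⟩ := hg
    have h1 : ga ((f x)⁻¹ * f (y w)) ≤ C * (17 * N + C * K) := by
      have h2 := hfy w
      rw [mul_inv_cancel_left] at h2
      rw [h2]
      refine (hmul _ _).trans (mul_le_mul_of_nonneg_left ?_ hC0)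
      refine add_le_add (ga_W hw) ((hinv _).trans (mul_le_mul_of_nonneg_left (hvK w) hC0))
    obtain ⟨k, hk, hk2⟩ := hQ.low x (y w) ⌈C * (17 * N + C * K)⌉₊ (h1.trans (Nat.le_ceil _))
    refine pow_mono hQ.one_mem ?_ hk2
    have hN0 : (0 : ℝ) ≤ N := by positivity
    have h3 : (⌈C * (17 * N + C * K)⌉₊ : ℝ) ≤ C * (17 * N + C * K) + 1 :=
      (Nat.ceil_lt_add_one (by positivity)).le
    have h4 : (k : ℝ) ≤ K * (C * (17 * N + C * K) + 2) := by
      refine hk.trans (mul_le_mul_of_nonneg_left (by linarith) hK0)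
    have h5 : (2 : ℝ) * k ≤ 2 * n := by
      have h6 : 2 * (K * (C * (17 * N + C * K) + 2)) =
          (34 * C * K) * N + 2 * K * (C * (C * K) + 2) := by ring
      have h7 : (34 * C * K) * N ≤ n := by
        have h8 : (34 * C * K) * (N : ℝ) ≤ D * N :=
          mul_le_mul_of_nonneg_right (by linarith) hN0
        linarith
      have h9 : (R1 : ℝ) ≤ n := by exact_mod_cast hn1
      linarith
    have h6 : (k : ℝ) ≤ n := by linarith
    exact_mod_cast h6
  · have hfib : ∀ g ∈ A, ((W j0 N).filter fun w => x⁻¹ * y w = g).card ≤ B := by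
      intro g hg
      simp only [hA, Finset.mem_image] at hg
      obtain ⟨w0, hw0, hw1⟩ := hg
      have hsub : (((W j0 N).filter fun w => x⁻¹ * y w = g : Finset Pt) : Set Pt) ⊆
          {b : Pt | ga ((em l w0)⁻¹ * em l b) ≤ ρ} := by
        intro b hb
        simp only [Finset.coe_filter, Set.mem_ofPred_eq] at hb ⊢
        have hyy : y b = y w0 := mul_left_cancel (hb.2.trans hw1.symm)
        have h1 : (em l w0)⁻¹ * em l b = (v w0)⁻¹ * v b := by
          simp only [hv, hyy, mul_inv_rev, inv_inv]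
          group
        rw [h1]
        refine ((hmul _ _).trans (mul_le_mul_of_nonneg_left ?_ hC0)).trans hρ
        exact add_le_add ((hinv _).trans (mul_le_mul_of_nonneg_left (hvK _) hC0)) (hvK _)
      have h2 := Set.ncard_le_ncard hsub (hC ρ w0).1
      rw [Set.ncard_coe_finset] at h2
      exact h2.trans ((hC ρ w0).2.trans hB.le)
    have hcard : (W j0 N).card ≤ A.card * B := by
      rw [mul_comm]
      exact Finset.card_le_mul_card_image_of_maps_to
        (fun w hw => Finset.mem_image_of_mem _ hw) B hfib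
    rw [card_W] at hcard
    have h1 : (N : ℝ) ^ 12 ≤ A.card * B := by exact_mod_cast hcard
    have h2 : δ ≤ (1 / (2 * D)) ^ 12 / B := min_le_right _ _
    have hn0 : (0 : ℝ) ≤ (n : ℝ) ^ 12 := by positivity
    calc δ * (n : ℝ) ^ 12 ≤ ((1 / (2 * D)) ^ 12 / B) * (n : ℝ) ^ 12 :=
          mul_le_mul_of_nonneg_right h2 hn0
      _ = ((n : ℝ) / (2 * D)) ^ 12 / B := by
          rw [div_pow, div_pow]; ring
      _ ≤ (N : ℝ) ^ 12 / B := by
          refine div_le_div_of_nonneg_right ?_ hB0.le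
          refine pow_le_pow_left₀ (by positivity) ?_ 12
          rw [div_le_iff₀ (by positivity)]
          linarith
      _ ≤ A.card := by
          rw [div_le_iff₀ hB0]
          exact h1
  · intro g hg
    simp only [hA, Finset.mem_image] at hg
    obtain ⟨w, hw, rfl⟩ := hg
    rw [hfy w]
    refine le_trans ?_ (functional hj0 hw (hvK w) hKN)
    have h2 : δ ≤ |c j0| / (2 * D) := min_le_left _ _
    calc δ * n ≤ (|c j0| / (2 * D)) * n := mul_le_mul_of_nonneg_right h2 (by positivity)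
      _ = |c j0| * (n / (2 * D)) := by ring
      _ ≤ |c j0| * N := by
          refine mul_le_mul_of_nonneg_left ?_ hM.le
          rw [div_le_iff₀ (by positivity)]
          linarith

end Pool.Agent.Helper52K9.CG
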