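import Pool.Agent.Helper52K9.CG.Subl

set_option autoImplicit false

namespace Pool.Agent.Helper52K9.CG

open scoped Pointwise
open SublL

theorem cup (dec : S_DEC) (clo : S_CLO) : S_CUP := by
  intro Γ _ _ μ hμ b b' hb hb'
  apply clo
  intro F ε hε
  -- the centred cocycles
  have hc : ∀ h, Bd (fun x => b' h x - μ.m (b' h)) := fun h => (hb'.1 h).sub (Bd.const _)
  set M : ℝ := 1 + ∑ h ∈ F, μ.nm (fun x => b' h x - μ.m (b' h)) with hM
  have hM1 : 1 ≤ M := by
    rw [hM]
    have : 0 ≤ ∑ h ∈ F, μ.nm (fun x => b' h x - μ.m (b' h)) :=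
      Finset.sum_nonneg fun h _ => μ.nm_nonneg _
    linarith
  have hM0 : 0 < M := by linarith
  obtain ⟨v, hv, hd⟩ := dec Γ μ hμ b hb F ((ε / M) ^ 2) (by positivity)
  refine ⟨fun g => -μ.m (fun x => v x * (b' g x - μ.m (b' g))), fun g hg h hh => ?_⟩
  have he := μ.nm_le_of_sq (by positivity) (hd g hg)
  -- the first identity
  have e1 : μ.m (fun x => b g x * b' h (x * g)) - μ.m (b g) * μ.m (b' h) =
      μ.m (fun x => (b g x - μ.m (b g)) * (b' h (x * g) - μ.m (b' h))) := by
    have e : (fun x => (b g x - μ.m (b g)) * (b' h (x * g) - μ.m (b' h))) =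
        fun x => (b g x * b' h (x * g) - μ.m (b' h) * b g x) -
          (μ.m (b g) * b' h (x * g) - μ.m (b g) * μ.m (b' h)) := by
      funext x; ring
    rw [e, μ.sub (((hb.1 g).mul ((hb'.1 h).shift g)).sub ((hb.1 g).smul _))
      ((((hb'.1 h).shift g).smul _).sub (Bd.const _)),
      μ.sub ((hb.1 g).mul ((hb'.1 h).shift g)) ((hb.1 g).smul _),
      μ.sub (((hb'.1 h).shift g).smul _) (Bd.const _), μ.smul _ _ (hb.1 g),
      μ.smul _ _ ((hb'.1 h).shift g), μ.inv _ g (hb'.1 h), μ.const]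
    ring
  -- the second identity
  have e2 : μ.m (fun x => (v x - v (x * g)) * (b' h (x * g) - μ.m (b' h))) =
      -μ.m (fun x => v x * (b' g x - μ.m (b' g))) + -μ.m (fun x => v x * (b' h x - μ.m (b' h))) -
        -μ.m (fun x => v x * (b' (g * h) x - μ.m (b' (g * h)))) := by
    have e : (fun x => (v x - v (x * g)) * (b' h (x * g) - μ.m (b' h))) =
        fun x => (v x * (b' (g * h) x - μ.m (b' (g * h))) - v x * (b' g x - μ.m (b' g))) -
          v (x * g) * (b' h (x * g) - μ.m (b' h)) := by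
      funext x
      rw [hb'.2 g h x, hom μ hb' g h]
      ring
    rw [e, μ.sub ((hv.mul (hc _)).sub (hv.mul (hc _))) ((hv.shift g).mul ((hc h).shift g)),
      μ.sub (hv.mul (hc _)) (hv.mul (hc _)),
      μ.inv (fun x => v x * (b' h x - μ.m (b' h))) g (hv.mul (hc h))]
    ring
  rw [e1, ← e2]
  have hB1 : Bd (fun x => b g x - μ.m (b g)) := (hb.1 g).sub (Bd.const _)
  have hB2 : Bd (fun x => b' h (x * g) - μ.m (b' h)) := (hc h).shift g
  have hB3 : Bd (fun x => v x - v (x * g)) := hv.sub (hv.shift g)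
  rw [← μ.sub (hB1.mul hB2) (hB3.mul hB2)]
  have e3 : (fun x => (b g x - μ.m (b g)) * (b' h (x * g) - μ.m (b' h)) -
      (v x - v (x * g)) * (b' h (x * g) - μ.m (b' h))) =
      fun x => (b g x - μ.m (b g) - (v x - v (x * g))) * (b' h (x * g) - μ.m (b' h)) := by
    funext x; ring
  rw [e3]
  refine (μ.abs_mul_le (hB1.sub hB3) hB2).trans ?_
  rw [μ.nm_shift (hc h) g]
  have h1 : μ.nm (fun x => b' h x - μ.m (b' h)) ≤ M := by
    rw [hM]
    have := Finset.single_le_sum
      (f := fun h => μ.nm (fun x => b' h x - μ.m (b' h))) (fun h _ => μ.nm_nonneg _) hh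
    linarith
  calc μ.nm (fun x => b g x - μ.m (b g) - (v x - v (x * g))) *
        μ.nm (fun x => b' h x - μ.m (b' h)) ≤ (ε / M) * M :=
        mul_le_mul he h1 (μ.nm_nonneg _) (by positivity)
    _ = ε := by field_simp

end Pool.Agent.Helper52K9.CG
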