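import Pool.Agent.Helper52K9.CG.Defs

/-!
# Bounded functions and right invariant means: basic facts
-/

set_option autoImplicit false

namespace Pool.Agent.Helper52K9.CG

variable {Γ : Type}

theorem Bd.const (c : ℝ) : Bd (fun _ : Γ => c) := ⟨|c|, fun _ => le_rfl⟩

theorem Bd.add {u v : Γ → ℝ} (hu : Bd u) (hv : Bd v) : Bd (fun x => u x + v x) := by
  obtain ⟨C, hC⟩ := hu
  obtain ⟨D, hD⟩ := hv
  exact ⟨C + D, fun x => (abs_add_le _ _).trans (add_le_add (hC x) (hD x))⟩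

theorem Bd.neg {u : Γ → ℝ} (hu : Bd u) : Bd (fun x => -u x) := by
  obtain ⟨C, hC⟩ := hu
  exact ⟨C, fun x => by rw [abs_neg]; exact hC x⟩

theorem Bd.sub {u v : Γ → ℝ} (hu : Bd u) (hv : Bd v) : Bd (fun x => u x - v x) := by
  have := hu.add hv.neg
  simpa [sub_eq_add_neg] using this

theorem Bd.mul {u v : Γ → ℝ} (hu : Bd u) (hv : Bd v) : Bd (fun x => u x * v x) := by
  obtain ⟨C, hC⟩ := hu
  obtain ⟨D, hD⟩ := hv
  refine ⟨C * D, fun x => ?_⟩
  rw [abs_mul]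
  exact mul_le_mul (hC x) (hD x) (abs_nonneg _) ((abs_nonneg _).trans (hC x))

theorem Bd.smul (c : ℝ) {u : Γ → ℝ} (hu : Bd u) : Bd (fun x => c * u x) := (Bd.const c).mul hu

theorem Bd.sq {u : Γ → ℝ} (hu : Bd u) : Bd (fun x => u x ^ 2) := by
  simpa only [pow_two] using hu.mul hu

theorem Bd.sum {ι : Type*} (s : Finset ι) {u : ι → Γ → ℝ} (hu : ∀ i ∈ s, Bd (u i)) :
    Bd (fun x => ∑ i ∈ s, u i x) := by
  classical
  induction s using Finset.induction_on with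
  | empty => simpa using Bd.const (Γ := Γ) 0
  | insert a s ha ih =>
    simp only [Finset.sum_insert ha]
    exact (hu a (Finset.mem_insert_self _ _)).add
      (ih fun i hi => hu i (Finset.mem_insert_of_mem hi))

theorem Bd.comp {Δ : Type} {u : Γ → ℝ} (hu : Bd u) (f : Δ → Γ) : Bd (fun x => u (f x)) := by
  obtain ⟨C, hC⟩ := hu
  exact ⟨C, fun x => hC _⟩

theorem Bd.shift [Group Γ] {u : Γ → ℝ} (hu : Bd u) (g : Γ) : Bd (fun x => u (x * g)) :=
  hu.comp fun x => x * g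

namespace RMean

variable [Group Γ] (μ : RMean Γ)

theorem const (c : ℝ) : μ.m (fun _ => c) = c := by
  have := μ.smul c (fun _ => 1) (Bd.const 1)
  simpa [μ.one] using this

theorem neg {u : Γ → ℝ} (hu : Bd u) : μ.m (fun x => -u x) = -μ.m u := by
  have := μ.smul (-1) u hu
  simpa using this

theorem sub {u v : Γ → ℝ} (hu : Bd u) (hv : Bd v) :
    μ.m (fun x => u x - v x) = μ.m u - μ.m v := by
  have := μ.add u (fun x => -v x) hu hv.neg
  rw [μ.neg hv] at this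
  simpa [sub_eq_add_neg] using this

theorem mono {u v : Γ → ℝ} (hu : Bd u) (hv : Bd v) (h : ∀ x, u x ≤ v x) : μ.m u ≤ μ.m v := by
  have := μ.nonneg (fun x => v x - u x) (hv.sub hu) fun x => sub_nonneg.2 (h x)
  rw [μ.sub hv hu] at this
  linarith

theorem sum {ι : Type*} (s : Finset ι) {u : ι → Γ → ℝ} (hu : ∀ i ∈ s, Bd (u i)) :
    μ.m (fun x => ∑ i ∈ s, u i x) = ∑ i ∈ s, μ.m (u i) := by
  classical
  induction s using Finset.induction_on with
  | empty => simpa using μ.const 0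
  | insert a s ha ih =>
    simp only [Finset.sum_insert ha]
    rw [μ.add _ _ (hu a (Finset.mem_insert_self _ _))
      (Bd.sum s fun i hi => hu i (Finset.mem_insert_of_mem hi)),
      ih fun i hi => hu i (Finset.mem_insert_of_mem hi)]

theorem abs_le {u : Γ → ℝ} {C : ℝ} (h : ∀ x, |u x| ≤ C) : |μ.m u| ≤ C := by
  have hu : Bd u := ⟨C, h⟩
  rw [_root_.abs_le]
  constructor
  · have := μ.mono (Bd.const (-C)) hu fun x => (_root_.abs_le.1 (h x)).1
    rwa [μ.const] at this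
  · have := μ.mono hu (Bd.const C) fun x => (_root_.abs_le.1 (h x)).2
    rwa [μ.const] at this

theorem sq_nonneg {u : Γ → ℝ} (hu : Bd u) : 0 ≤ μ.m (fun x => u x ^ 2) :=
  μ.nonneg _ hu.sq fun x => _root_.sq_nonneg _

/-- Cauchy-Schwarz -/
theorem cs {u v : Γ → ℝ} (hu : Bd u) (hv : Bd v) :
    μ.m (fun x => u x * v x) ^ 2 ≤ μ.m (fun x => u x ^ 2) * μ.m (fun x => v x ^ 2) := by
  have hA := μ.sq_nonneg hu
  have hB := μ.sq_nonneg hv
  set A := μ.m (fun x => u x ^ 2)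
  set B := μ.m (fun x => v x ^ 2)
  set D := μ.m (fun x => u x * v x)
  have key : ∀ t : ℝ, 0 ≤ A + 2 * t * D + t ^ 2 * B := by
    intro t
    have h1 := μ.sq_nonneg (hu.add (hv.smul t))
    have h2 : μ.m (fun x => (u x + t * v x) ^ 2) = A + 2 * t * D + t ^ 2 * B := by
      have e : (fun x => (u x + t * v x) ^ 2) =
          fun x => (u x ^ 2 + (2 * t) * (u x * v x)) + t ^ 2 * v x ^ 2 := by
        funext x; ring
      rw [e, μ.add _ _ (hu.sq.add ((hu.mul hv).smul _)) (hv.sq.smul _),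
        μ.add _ _ hu.sq ((hu.mul hv).smul _), μ.smul _ _ (hu.mul hv), μ.smul _ _ hv.sq]
    rw [h2] at h1
    exact h1
  rcases hB.eq_or_lt with h0 | h0
  · -- B = 0
    have hD : D = 0 := by
      by_contra hD
      have := key (-(A + 1) / (2 * D))
      rw [← h0] at this
      have e : A + 2 * (-(A + 1) / (2 * D)) * D + (-(A + 1) / (2 * D)) ^ 2 * 0 = -1 := by
        field_simp
        ring
      rw [e] at this
      linarith
    rw [hD, ← h0]; simp
  · have := key (-D / B)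
    have e : A + 2 * (-D / B) * D + (-D / B) ^ 2 * B = A - D ^ 2 / B := by
      field_simp
      ring
    rw [e] at this
    have h3 : D ^ 2 / B ≤ A := by linarith
    rwa [div_le_iff₀ h0] at h3

/-- the seminorm of the square mean -/
noncomputable def nm (u : Γ → ℝ) : ℝ := Real.sqrt (μ.m fun x => u x ^ 2)

theorem nm_nonneg (u : Γ → ℝ) : 0 ≤ μ.nm u := Real.sqrt_nonneg _

theorem nm_sq {u : Γ → ℝ} (hu : Bd u) : μ.nm u ^ 2 = μ.m (fun x => u x ^ 2) :=
  Real.sq_sqrt (μ.sq_nonneg hu)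

theorem abs_mul_le {u v : Γ → ℝ} (hu : Bd u) (hv : Bd v) :
    |μ.m (fun x => u x * v x)| ≤ μ.nm u * μ.nm v := by
  have h := μ.cs hu hv
  have h1 : 0 ≤ μ.nm u * μ.nm v := mul_nonneg (μ.nm_nonneg u) (μ.nm_nonneg v)
  refine abs_le_of_sq_le_sq ?_ h1 |> fun h => h
  rw [mul_pow, μ.nm_sq hu, μ.nm_sq hv]
  exact h

theorem abs_m_le {u : Γ → ℝ} (hu : Bd u) : |μ.m u| ≤ μ.nm u := by
  have h := μ.abs_mul_le hu (Bd.const 1)
  have e : μ.nm (fun _ : Γ => (1 : ℝ)) = 1 := by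
    unfold nm
    simp [μ.const]
  rw [e] at h
  simpa using h

theorem nm_add {u v : Γ → ℝ} (hu : Bd u) (hv : Bd v) :
    μ.nm (fun x => u x + v x) ≤ μ.nm u + μ.nm v := by
  apply Real.sqrt_le_iff.2
  refine ⟨add_nonneg (μ.nm_nonneg u) (μ.nm_nonneg v), ?_⟩
  have e : (fun x => (u x + v x) ^ 2) =
      fun x => (u x ^ 2 + 2 * (u x * v x)) + v x ^ 2 := by
    funext x; ring
  rw [e, μ.add _ _ (hu.sq.add ((hu.mul hv).smul _)) hv.sq,
    μ.add _ _ hu.sq ((hu.mul hv).smul _), μ.smul _ _ (hu.mul hv), ← μ.nm_sq hu, ← μ.nm_sq hv]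
  have := (le_abs_self _).trans (μ.abs_mul_le hu hv)
  nlinarith

theorem nm_smul (c : ℝ) {u : Γ → ℝ} (hu : Bd u) : μ.nm (fun x => c * u x) = |c| * μ.nm u := by
  unfold nm
  have e : (fun x => (c * u x) ^ 2) = fun x => c ^ 2 * u x ^ 2 := by
    funext x; ring
  rw [e, μ.smul _ _ hu.sq, Real.sqrt_mul (_root_.sq_nonneg c), Real.sqrt_sq_eq_abs]

theorem nm_neg (u : Γ → ℝ) : μ.nm (fun x => -u x) = μ.nm u := by
  unfold nm
  simp

theorem nm_sub {u v : Γ → ℝ} (hu : Bd u) (hv : Bd v) :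
    μ.nm (fun x => u x - v x) ≤ μ.nm u + μ.nm v := by
  have := μ.nm_add hu hv.neg
  rw [μ.nm_neg] at this
  simpa [sub_eq_add_neg] using this

theorem nm_shift {u : Γ → ℝ} (hu : Bd u) (g : Γ) : μ.nm (fun x => u (x * g)) = μ.nm u := by
  unfold nm
  rw [μ.inv (fun x => u x ^ 2) g hu.sq]

theorem nm_zero : μ.nm (fun _ : Γ => (0 : ℝ)) = 0 := by
  unfold nm
  simp [μ.const]

theorem nm_le_of_sq {u : Γ → ℝ} {c : ℝ} (hc : 0 ≤ c) (h : μ.m (fun x => u x ^ 2) ≤ c ^ 2) :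
    μ.nm u ≤ c := Real.sqrt_le_iff.2 ⟨hc, h⟩

end RMean

end Pool.Agent.Helper52K9.CG
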