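import Pool.Agent.Helper52K9.CG.Stm
import Pool.Agent.Helper52K9.CG.Mean

/-!
# DEC: the decomposition of a bounded cocycle
-/

set_option autoImplicit false

namespace Pool.Agent.Helper52K9.CG

namespace DecL

/-- the data of S_GNS -/
structure Gns {Γ : Type} [Group Γ] (μ : RMean Γ) (H : Type) [NormedAddCommGroup H]
    [InnerProductSpace ℝ H] (π : Γ →* (H ≃ₗᵢ[ℝ] H)) (j : (Γ → ℝ) → H) : Prop where
  add : ∀ u v, Bd u → Bd v → j (fun x => u x + v x) = j u + j v
  smul : ∀ (c : ℝ) u, Bd u → j (fun x => c * u x) = c • j u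
  inn : ∀ u v, Bd u → Bd v → inner ℝ (j u) (j v) = μ.m (fun x => u x * v x)
  act : ∀ g u, Bd u → π g (j u) = j (fun x => u (x * g))
  dense : ∀ (h : H) (ε : ℝ), 0 < ε → ∃ u, Bd u ∧ ‖h - j u‖ ≤ ε

variable {Γ : Type} [Group Γ] {μ : RMean Γ} {H : Type} [NormedAddCommGroup H]
  [InnerProductSpace ℝ H] {π : Γ →* (H ≃ₗᵢ[ℝ] H)} {j : (Γ → ℝ) → H}

theorem Gns.sub (h : Gns μ H π j) {u v : Γ → ℝ} (hu : Bd u) (hv : Bd v) :
    j (fun x => u x - v x) = j u - j v := by
  have h1 := h.add u (fun x => (-1) * v x) hu (hv.smul (-1))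
  rw [h.smul (-1) v hv] at h1
  have h2 : (fun x => u x + (-1) * v x) = fun x => u x - v x := by
    funext x; ring
  rw [h2] at h1
  rw [h1, neg_one_smul, sub_eq_add_neg]

theorem Gns.norm_sq (h : Gns μ H π j) {u : Γ → ℝ} (hu : Bd u) :
    ‖j u‖ ^ 2 = μ.m (fun x => u x ^ 2) := by
  rw [← real_inner_self_eq_norm_sq, h.inn u u hu hu]
  congr 1
  funext x
  ring

/-- the vector of the constant function -/
theorem Gns.norm_one (h : Gns μ H π j) : ‖j (fun _ => 1)‖ = 1 := by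
  have h1 := h.norm_sq (Bd.const 1)
  have h2 : (fun _ : Γ => (1 : ℝ) ^ 2) = fun _ => 1 := by funext x; norm_num
  rw [h2, μ.one] at h1
  have h3 : 0 ≤ ‖j (fun _ => 1)‖ := norm_nonneg _
  nlinarith

theorem Gns.act_one (h : Gns μ H π j) (g : Γ) : π g (j (fun _ => 1)) = j (fun _ => 1) :=
  h.act g (fun _ => 1) (Bd.const 1)

theorem Gns.const (h : Gns μ H π j) (c : ℝ) : j (fun _ => c) = c • j (fun _ => 1) := by
  have h1 := h.smul c (fun _ => 1) (Bd.const 1)
  rw [← h1]
  congr 1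
  funext x
  ring

theorem Gns.var (h : Gns μ H π j) {u : Γ → ℝ} (hu : Bd u) :
    ‖j u - μ.m u • j (fun _ => 1)‖ ^ 2 = μ.m (fun x => u x ^ 2) - μ.m u ^ 2 := by
  rw [← h.const, ← h.sub hu (Bd.const _), h.norm_sq (hu.sub (Bd.const _))]
  have h1 : (fun x => (u x - μ.m u) ^ 2) =
      fun x => (u x ^ 2 + (-2 * μ.m u) * u x) + μ.m u ^ 2 := by
    funext x; ring
  rw [h1, μ.add _ _ (hu.sq.add (hu.smul _)) (Bd.const _), μ.add _ _ hu.sq (hu.smul _),
    μ.smul _ _ hu, μ.const]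
  ring

theorem small (ε : ℝ) (hε : 0 < ε) (k : ℝ) (hk : 0 < k) : ∃ η : ℝ, 0 < η ∧ (k * η) ^ 2 ≤ ε := by
  refine ⟨min 1 ε / k, by positivity, ?_⟩
  have h1 : k * (min 1 ε / k) = min 1 ε := by field_simp
  rw [h1]
  have h2 : min 1 ε ≤ 1 := min_le_left _ _
  have h3 : min 1 ε ≤ ε := min_le_right _ _
  have h4 : 0 < min 1 ε := lt_min one_pos hε
  nlinarith

/-- ergodicity: the invariant vectors are the multiples of `j 1` -/
theorem invariant (h : Gns μ H π j) (herg : Erg μ) (w : H) (hw : ∀ g, π g w = w) :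
    w = (inner ℝ w (j (fun _ => 1)) : ℝ) • j (fun _ => 1) := by
  set e : H := j (fun _ => 1) with he
  have hne : ‖e‖ = 1 := h.norm_one
  have hee : inner ℝ e e = (1 : ℝ) := by rw [real_inner_self_eq_norm_sq, hne]; norm_num
  choose u hu hu2 using fun n : ℕ => h.dense w (1 / ((n : ℝ) + 1)) (by positivity)
  have hdist : ∀ n k, ‖j (u n) - j (u k)‖ ≤ 1 / ((n : ℝ) + 1) + 1 / ((k : ℝ) + 1) := by
    intro n k
    have h1 : j (u n) - j (u k) = -(w - j (u n)) + (w - j (u k)) := by abel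
    rw [h1]
    refine (norm_add_le _ _).trans ?_
    rw [norm_neg]
    exact add_le_add (hu2 n) (hu2 k)
  have hinv : ∀ g n, ‖π g (j (u n)) - j (u n)‖ ≤ 2 * (1 / ((n : ℝ) + 1)) := by
    intro g n
    have h1 : π g (j (u n)) - j (u n) = -(π g (w - j (u n))) + (w - j (u n)) := by
      rw [map_sub, hw g]; abel
    rw [h1]
    refine (norm_add_le _ _).trans ?_
    rw [norm_neg, LinearIsometryEquiv.norm_map]
    have := hu2 n
    linarith
  have hmono : ∀ {N n : ℕ}, N ≤ n → 1 / ((n : ℝ) + 1) ≤ 1 / ((N : ℝ) + 1) := by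
    intro N n hn
    have : (N : ℝ) ≤ n := by exact_mod_cast hn
    gcongr
  have hE := herg u hu (by
    intro ε hε
    obtain ⟨η, hη, hη2⟩ := small ε hε 2 two_pos
    obtain ⟨N, hN⟩ := exists_nat_one_div_lt hη
    refine ⟨N, fun n hn k hk => ?_⟩
    rw [← h.norm_sq ((hu n).sub (hu k)), h.sub (hu n) (hu k)]
    have h1 := hdist n k
    have h2 := hmono hn
    have h3 := hmono hk
    calc ‖j (u n) - j (u k)‖ ^ 2 ≤ (2 * η) ^ 2 := by
          apply pow_le_pow_left₀ (norm_nonneg _)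
          linarith
      _ ≤ ε := hη2) (by
    intro g ε hε
    obtain ⟨η, hη, hη2⟩ := small ε hε 2 two_pos
    obtain ⟨N, hN⟩ := exists_nat_one_div_lt hη
    refine ⟨N, fun n hn => ?_⟩
    rw [← h.norm_sq (((hu n).shift g).sub (hu n)), h.sub ((hu n).shift g) (hu n),
      ← h.act g (u n) (hu n)]
    have h1 := hinv g n
    have h2 := hmono hn
    calc ‖π g (j (u n)) - j (u n)‖ ^ 2 ≤ (2 * η) ^ 2 := by
          apply pow_le_pow_left₀ (norm_nonneg _)
          linarith
      _ ≤ ε := hη2)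
  -- the projection
  have hproj : ∀ t : ℝ, ‖w - (inner ℝ w e : ℝ) • e‖ ≤ 2 * ‖w - t • e‖ := by
    intro t
    have h1 : w - (inner ℝ w e : ℝ) • e = (w - t • e) - (inner ℝ (w - t • e) e : ℝ) • e := by
      rw [inner_sub_left, real_inner_smul_left, hee, sub_smul, mul_one]
      abel
    rw [h1]
    refine (norm_sub_le _ _).trans ?_
    rw [norm_smul, hne, mul_one, Real.norm_eq_abs]
    have h2 := abs_real_inner_le_norm (w - t • e) e
    rw [hne, mul_one] at h2
    linarith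
  have hzero : ∀ ε : ℝ, 0 < ε → ‖w - (inner ℝ w e : ℝ) • e‖ ≤ 4 * ε := by
    intro ε hε
    obtain ⟨N₁, hN₁⟩ := hE (ε ^ 2) (by positivity)
    obtain ⟨N₂, hN₂⟩ := exists_nat_one_div_lt hε
    set n := max N₁ N₂
    have h1 := hN₁ n (le_max_left _ _)
    rw [← h.var (hu n)] at h1
    have h2 : ‖j (u n) - μ.m (u n) • e‖ ≤ ε := by
      exact (sq_le_sq₀ (norm_nonneg _) hε.le).mp h1
    have h3 := hproj (μ.m (u n))
    have h4 : ‖w - μ.m (u n) • e‖ ≤ ‖w - j (u n)‖ + ‖j (u n) - μ.m (u n) • e‖ := by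
      have : w - μ.m (u n) • e = (w - j (u n)) + (j (u n) - μ.m (u n) • e) := by abel
      rw [this]
      exact norm_add_le _ _
    have h5 := hu2 n
    have h6 := hmono (le_max_right N₁ N₂ : N₂ ≤ n)
    linarith
  have hfin : ‖w - (inner ℝ w e : ℝ) • e‖ = 0 := by
    by_contra hne0
    have hp : 0 < ‖w - (inner ℝ w e : ℝ) • e‖ := lt_of_le_of_ne (norm_nonneg _) (Ne.symm hne0)
    have := hzero (‖w - (inner ℝ w e : ℝ) • e‖ / 8) (by linarith)
    linarith
  exact sub_eq_zero.mp (norm_eq_zero.mp hfin)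

end DecL

open DecL in
theorem dec (gns : S_GNS) (ht : S_HT) : S_DEC := by
  intro Γ _ _ μ herg b hb F ε hε
  obtain ⟨H, i1, i2, i3, π, j, g1, g2, g3, g4, g5⟩ := gns Γ μ
  have h : Gns μ H π j := ⟨g1, g2, g3, g4, g5⟩
  have hB : ∀ g k, j (b (g * k)) = j (b g) + π g (j (b k)) := by
    intro g k
    rw [h.act g (b k) (hb.1 k), ← h.add _ _ (hb.1 g) ((hb.1 k).shift g)]
    congr 1
    funext x
    exact hb.2 g k x
  obtain ⟨c, hc1, hc2, hc3⟩ := ht Γ H π (fun g => j (b g)) hB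
  set e : H := j (fun _ => 1) with he
  have hne : ‖e‖ = 1 := h.norm_one
  have hcg : ∀ g, c g = μ.m (b g) • e := by
    intro g
    have h1 := invariant h herg (c g) (fun k => hc1 g k)
    rw [← he] at h1
    have h2 : (inner ℝ (c g) e : ℝ) = μ.m (b g) := by
      have h3 : (inner ℝ (j (b g)) e : ℝ) = μ.m (b g) := by
        rw [he, h.inn _ _ (hb.1 g) (Bd.const 1)]
        congr 1
        funext x
        ring
      by_contra hne2
      have hp : 0 < |(inner ℝ (j (b g)) e : ℝ) - inner ℝ (c g) e| := by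
        rw [abs_pos, sub_ne_zero, h3]
        exact fun h => hne2 h.symm
      obtain ⟨v, hv⟩ := hc3 {g} (|(inner ℝ (j (b g)) e : ℝ) - inner ℝ (c g) e| / 2) (by linarith)
      have h4 := hv g (Finset.mem_singleton_self _)
      have h5 : (inner ℝ (v - π g v) e : ℝ) = 0 := by
        rw [inner_sub_left]
        have h6 : (inner ℝ (π g v) (π g e) : ℝ) = inner ℝ v e := (π g).inner_map_map v e
        have h7 : π g e = e := h.act_one g
        rw [h7] at h6
        rw [h6, sub_self]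
      have h6 : (inner ℝ (j (b g) - c g - (v - π g v)) e : ℝ) =
          inner ℝ (j (b g)) e - inner ℝ (c g) e := by
        rw [inner_sub_left, inner_sub_left, h5, sub_zero]
      have h7 := abs_real_inner_le_norm (j (b g) - c g - (v - π g v)) e
      rw [h6, hne, mul_one] at h7
      linarith
    rw [h2] at h1
    exact h1
  obtain ⟨η, hη, hη2⟩ := small ε hε 3 (by norm_num)
  obtain ⟨v, hv⟩ := hc3 F η hη
  obtain ⟨u, hu, hu2⟩ := h.dense v η hη
  refine ⟨u, hu, fun g hg => ?_⟩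
  have h1 := hv g hg
  rw [hcg g] at h1
  have hbd : Bd (fun x => b g x - μ.m (b g) - (u x - u (x * g))) :=
    ((hb.1 g).sub (Bd.const _)).sub (hu.sub (hu.shift g))
  rw [← h.norm_sq hbd]
  have h2 : j (fun x => b g x - μ.m (b g) - (u x - u (x * g))) =
      (j (b g) - μ.m (b g) • e - (v - π g v)) + ((v - j u) - π g (v - j u)) := by
    rw [h.sub ((hb.1 g).sub (Bd.const _)) (hu.sub (hu.shift g)), h.sub (hb.1 g) (Bd.const _),
      h.const, h.sub hu (hu.shift g), ← h.act g u hu, map_sub]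
    abel
  have h3 : ‖j (fun x => b g x - μ.m (b g) - (u x - u (x * g)))‖ ≤ 3 * η := by
    rw [h2]
    refine (norm_add_le _ _).trans ?_
    have h4 : ‖(v - j u) - π g (v - j u)‖ ≤ 2 * η := by
      refine (norm_sub_le _ _).trans ?_
      rw [LinearIsometryEquiv.norm_map]
      linarith
    linarith
  exact (pow_le_pow_left₀ (norm_nonneg _) h3 2).trans hη2

end Pool.Agent.Helper52K9.CG
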