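import Pool.Agent.Helper52K9.CG.Stm

/-!
# Project CG: dilations
-/

set_option autoImplicit false

namespace Pool.Agent.Helper52K9.CG

theorem dil_ : S_DIL := by
  intro l t ht
  refine ⟨fun x y => ?_, fun x => ?_, fun x => ?_⟩
  · ext k
    · simp [dil, mul_add]
    · simp [dil, mul_add]
    · simp only [dil, mul_z, Fin.sum_univ_four]
      ring
  · ext k
    · simp [dil]
    · simp [dil]
    · simp only [dil, inv_z, Fin.sum_univ_four]
      ring
  · have h1 : ‖fun i => t * x.p i‖ = t * ‖x.p‖ := by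
      have : (fun i => t * x.p i) = t • x.p := rfl
      rw [this, norm_smul, Real.norm_of_nonneg ht.le]
    have h2 : ‖fun i => t * x.q i‖ = t * ‖x.q‖ := by
      have : (fun i => t * x.q i) = t • x.q := rfl
      rw [this, norm_smul, Real.norm_of_nonneg ht.le]
    have h3 : ‖fun k => t ^ 2 * x.z k‖ = t ^ 2 * ‖x.z‖ := by
      have : (fun k => t ^ 2 * x.z k) = t ^ 2 • x.z := rfl
      rw [this, norm_smul, Real.norm_of_nonneg (sq_nonneg t)]
    unfold ga
    simp only [dil]
    rw [h1, h2, h3, Real.sqrt_mul (sq_nonneg t), Real.sqrt_sq ht.le, mul_max_of_nonneg _ _ ht.le,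
      mul_max_of_nonneg _ _ ht.le]

end Pool.Agent.Helper52K9.CG
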