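import Pool.Agent.Helper52K9.CG.Stm

/-!
# EX0: a right invariant mean on a finitely generated group of polynomial growth

(Adapted from `Pool.Agent.TH595.Avg`.)
-/

set_option autoImplicit false

namespace Pool.Agent.Helper52K9.CG

open Filter Topology
open scoped Pointwise

namespace Ex0L

/-- the limit of a real sequence along a fixed nonprincipal ultrafilter -/
noncomputable def ulim (u : ℕ → ℝ) : ℝ := limUnder (hyperfilter ℕ : Filter ℕ) u

theorem ulim_tendsto {u : ℕ → ℝ} {C : ℝ} (hu : ∀ n, |u n| ≤ C) :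
    Tendsto u (hyperfilter ℕ : Filter ℕ) (𝓝 (ulim u)) := by
  have h1 : ((hyperfilter ℕ).map u : Filter ℝ) ≤ 𝓟 (Set.Icc (-C) C) := by
    rw [le_principal_iff, Ultrafilter.mem_coe, Ultrafilter.mem_map]
    have : u ⁻¹' Set.Icc (-C) C = Set.univ := by
      ext n
      simpa [abs_le] using hu n
    rw [this]
    exact Filter.univ_mem
  obtain ⟨x, -, hx⟩ := isCompact_Icc.ultrafilter_le_nhds _ h1
  exact tendsto_nhds_limUnder ⟨x, hx⟩

theorem ulim_eq {u : ℕ → ℝ} {x : ℝ} (h : Tendsto u atTop (𝓝 x)) : ulim u = x := by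
  refine Tendsto.limUnder_eq (h.mono_left ?_)
  rw [← Nat.cofinite_eq_atTop]
  exact hyperfilter_le_cofinite

/-- a polynomially bounded positive sequence grows slowly somewhere -/
theorem exists_slow {b : ℕ → ℝ} (h1 : ∀ n, 1 ≤ b n) {C d : ℕ}
    (hC : ∀ n, b n ≤ C * (n + 1) ^ d) (j : ℕ) (hj : 0 < j) :
    ∃ n, b (n + j) ≤ (1 + 1 / j) * b n := by
  by_contra hcon
  push Not at hcon
  set r : ℝ := 1 + 1 / j with hr
  have hjr : (0 : ℝ) < j := by exact_mod_cast hj
  have hr1 : 1 < r := by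
    have : (0 : ℝ) < 1 / j := by positivity
    linarith
  have hpow : ∀ m : ℕ, r ^ m ≤ b (m * j) := by
    intro m
    induction m with
    | zero => simpa using h1 0
    | succ m ih =>
      have h2 := hcon (m * j)
      rw [pow_succ, Nat.succ_mul, mul_comm]
      have h3 : r * r ^ m ≤ r * b (m * j) := mul_le_mul_of_nonneg_left ih (by linarith)
      linarith
  have hlim : Tendsto (fun m : ℕ => (C : ℝ) * (2 * j) ^ d * ((m : ℝ) ^ d / r ^ m)) atTop
      (𝓝 ((C : ℝ) * (2 * j) ^ d * 0)) :=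
    (tendsto_pow_const_div_const_pow_of_one_lt d hr1).const_mul _
  rw [mul_zero] at hlim
  obtain ⟨m, hm1, hm2⟩ := ((hlim.eventually (gt_mem_nhds zero_lt_one)).and
    (eventually_ge_atTop 1)).exists
  have h4 : r ^ m ≤ C * ((m * j : ℕ) + 1) ^ d := (hpow m).trans (hC (m * j))
  have h5 : (((m * j : ℕ) : ℝ) + 1) ≤ 2 * j * m := by
    push_cast
    have h6 : (1 : ℝ) ≤ m := by exact_mod_cast hm2
    have h7 : (1 : ℝ) ≤ j := by exact_mod_cast hj
    nlinarith
  have h8 : (C : ℝ) * ((m * j : ℕ) + 1) ^ d ≤ C * (2 * j * m) ^ d :=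
    mul_le_mul_of_nonneg_left (pow_le_pow_left₀ (by positivity) h5 d) (Nat.cast_nonneg _)
  have h9 : 0 < r ^ m := by positivity
  have h10 : (C : ℝ) * (2 * j) ^ d * ((m : ℝ) ^ d / r ^ m) = C * (2 * j * m) ^ d / r ^ m := by
    rw [mul_pow (2 * (j : ℝ)) (m : ℝ)]
    ring
  rw [h10, div_lt_one h9] at hm1
  linarith

variable {Γ : Type} [Group Γ]

/-- sums over a set and a translate of it -/
theorem sum_shift_le [DecidableEq Γ] {f : Γ → ℝ} {K : ℝ} (hf : ∀ x, |f x| ≤ K) (g : Γ)
    {A A' : Finset Γ} (hAA : A ⊆ A') (hg : ∀ x ∈ A, x * g ∈ A') :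
    |∑ x ∈ A, f (x * g) - ∑ x ∈ A, f x| ≤ 2 * K * ((A'.card : ℝ) - A.card) := by
  have hinj : Function.Injective fun x : Γ => x * g := mul_left_injective g
  set B : Finset Γ := A.image fun x => x * g with hB
  have h1 : ∑ x ∈ A, f (x * g) = ∑ y ∈ B, f y := by
    rw [hB, Finset.sum_image (fun x _ y _ h => hinj h)]
  have hBA : B ⊆ A' := by
    intro y hy
    obtain ⟨x, hx, rfl⟩ := Finset.mem_image.1 hy
    exact hg x hx
  have hcard : B.card = A.card := Finset.card_image_of_injective _ hinj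
  have h3 : (A \ B).card = (B \ A).card := Finset.card_sdiff_comm hcard.symm
  have h5 : ((B \ A).card : ℝ) ≤ (A'.card : ℝ) - A.card := by
    have h2 : (B \ A).card ≤ A'.card - A.card := by
      rw [← Finset.card_sdiff_of_subset hAA]
      exact Finset.card_le_card (Finset.sdiff_subset_sdiff hBA (Finset.Subset.refl _))
    have h6 := Finset.card_le_card hAA
    have : (B \ A).card + A.card ≤ A'.card := by omega
    have : (((B \ A).card : ℝ)) + A.card ≤ A'.card := by exact_mod_cast this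
    linarith
  have hK : ∀ F : Finset Γ, |∑ x ∈ F, f x| ≤ F.card * K := by
    intro F
    refine (Finset.abs_sum_le_sum_abs _ _).trans ?_
    refine (Finset.sum_le_card_nsmul _ _ _ fun x _ => hf x).trans ?_
    rw [nsmul_eq_mul]
  rw [h1, ← Finset.sum_sdiff_sub_sum_sdiff]
  have h7 := hK (B \ A)
  have h8 := hK (A \ B)
  rw [h3] at h8
  have hK1 : 0 ≤ K := (abs_nonneg _).trans (hf 1)
  have h9 : |∑ x ∈ B \ A, f x - ∑ x ∈ A \ B, f x| ≤
      |∑ x ∈ B \ A, f x| + |∑ x ∈ A \ B, f x| := abs_sub _ _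
  nlinarith

theorem exists_pow (S : Finset Γ) (hS : Subgroup.closure (S : Set Γ) = ⊤) (T : Set Γ)
    (h1 : (1 : Γ) ∈ T) (hST : (S : Set Γ) ⊆ T) (hinv : T⁻¹ = T) (g : Γ) :
    ∃ n : ℕ, g ∈ T ^ n := by
  have hg : g ∈ Subgroup.closure (S : Set Γ) := by rw [hS]; exact Subgroup.mem_top g
  induction hg using Subgroup.closure_induction with
  | mem x hx => exact ⟨1, by rw [pow_one]; exact hST hx⟩
  | one => exact ⟨1, by rw [pow_one]; exact h1⟩
  | mul x y _ _ hx hy =>
    obtain ⟨n, hn⟩ := hx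
    obtain ⟨k, hk⟩ := hy
    exact ⟨n + k, by rw [pow_add]; exact Set.mul_mem_mul hn hk⟩
  | inv x _ hx =>
    obtain ⟨n, hn⟩ := hx
    refine ⟨n, ?_⟩
    rw [← hinv, inv_pow]
    exact Set.inv_mem_inv.mpr hn

end Ex0L

open Ex0L in
theorem ex0 : S_EX0 := by
  classical
  intro d Γ _ hfg hPG
  obtain ⟨S, hS⟩ := hfg.out
  let T : Finset Γ := insert 1 (S ∪ S⁻¹)
  have hT1 : (1 : Γ) ∈ T := Finset.mem_insert_self _ _
  have hST : (S : Set Γ) ⊆ (T : Set Γ) := by
    intro x hx
    rw [Finset.mem_coe] at hx ⊢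
    exact Finset.mem_insert_of_mem (Finset.mem_union_left _ hx)
  have hTinv : (T : Set Γ)⁻¹ = (T : Set Γ) := by
    ext x
    simp only [T, Set.mem_inv, Finset.mem_coe, Finset.mem_insert, Finset.mem_union,
      Finset.mem_inv', inv_inv, inv_eq_one]
    tauto
  obtain ⟨C, hC⟩ := hPG T
  let Bl : ℕ → Finset Γ := fun n => T ^ n
  have hcoe : ∀ n, ((Bl n : Finset Γ) : Set Γ) = (T : Set Γ) ^ n := fun n => Finset.coe_pow T n
  set b : ℕ → ℝ := fun n => ((Bl n).card : ℝ) with hb
  have hb1 : ∀ n, 1 ≤ b n := by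
    intro n
    have : (1 : Γ) ∈ Bl n := by
      rw [← Finset.mem_coe, hcoe]
      exact Set.one_mem_pow (Finset.mem_coe.mpr hT1)
    have : 1 ≤ (Bl n).card := Finset.card_pos.2 ⟨1, this⟩
    change (1 : ℝ) ≤ ((Bl n).card : ℝ)
    exact_mod_cast this
  have hbC : ∀ n, b n ≤ C * (n + 1) ^ d := by
    intro n
    have h1 := hC n
    rw [← hcoe, Set.ncard_coe_finset] at h1
    change ((Bl n).card : ℝ) ≤ _
    exact_mod_cast h1
  have hbmono : ∀ {n m}, n ≤ m → Bl n ⊆ Bl m := by
    intro n m h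
    exact Finset.pow_subset_pow_right hT1 h
  choose N hN using fun j : ℕ => exists_slow hb1 hbC (j + 1) (Nat.succ_pos j)
  have hpos : ∀ j, 0 < b (N j) := fun j => lt_of_lt_of_le one_pos (hb1 _)
  set av : (Γ → ℝ) → ℕ → ℝ := fun f j => (∑ x ∈ Bl (N j), f x) / b (N j) with hav
  have hbd : ∀ {f : Γ → ℝ} {K : ℝ}, (∀ x, |f x| ≤ K) → ∀ j, |av f j| ≤ K := by
    intro f K hf j
    change |(∑ x ∈ Bl (N j), f x) / b (N j)| ≤ K
    rw [abs_div, abs_of_pos (hpos j), div_le_iff₀ (hpos j)]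
    refine (Finset.abs_sum_le_sum_abs _ _).trans ?_
    refine (Finset.sum_le_card_nsmul _ _ _ fun x _ => hf x).trans ?_
    rw [nsmul_eq_mul, mul_comm]
  refine ⟨⟨fun f => ulim (av f), ?_, ?_, ?_, ?_, ?_⟩⟩
  · rintro f g ⟨K, hK⟩ ⟨L, hL⟩
    have h1 := ulim_tendsto (hbd hK)
    have h2 := ulim_tendsto (hbd hL)
    have h3 : av (fun x => f x + g x) = fun j => av f j + av g j := by
      funext j
      change (∑ x ∈ Bl (N j), (f x + g x)) / b (N j) =
        (∑ x ∈ Bl (N j), f x) / b (N j) + (∑ x ∈ Bl (N j), g x) / b (N j)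
      rw [Finset.sum_add_distrib, add_div]
    rw [h3]
    exact (h1.add h2).limUnder_eq
  · rintro c f ⟨K, hK⟩
    have h1 := ulim_tendsto (hbd hK)
    have h3 : av (fun x => c * f x) = fun j => c * av f j := by
      funext j
      change (∑ x ∈ Bl (N j), (c * f x)) / b (N j) = c * ((∑ x ∈ Bl (N j), f x) / b (N j))
      rw [← Finset.mul_sum, mul_div_assoc]
    rw [h3]
    exact (h1.const_mul c).limUnder_eq
  · rintro f ⟨K, hK⟩ hf
    refine ge_of_tendsto' (ulim_tendsto (hbd hK)) fun j => ?_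
    change 0 ≤ (∑ x ∈ Bl (N j), f x) / b (N j)
    exact div_nonneg (Finset.sum_nonneg fun x _ => hf x) (hpos j).le
  · have h1 : av (fun _ => (1 : ℝ)) = fun _ => 1 := by
      funext j
      change (∑ x ∈ Bl (N j), (1 : ℝ)) / b (N j) = 1
      rw [Finset.sum_const, nsmul_eq_mul, mul_one]
      exact div_self (hpos j).ne'
    change ulim (av fun _ => 1) = 1
    rw [h1]
    exact ulim_eq tendsto_const_nhds
  · rintro f g ⟨K, hK⟩
    have hK' : ∀ x, |f (x * g)| ≤ K := fun x => hK _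
    have h1 := ulim_tendsto (hbd hK)
    have h2 := ulim_tendsto (hbd hK')
    have hK0 : 0 ≤ K := (abs_nonneg _).trans (hK 1)
    obtain ⟨ρ, hρ⟩ := exists_pow S hS (T : Set Γ) (Finset.mem_coe.mpr hT1) hST hTinv g
    have h3 : ∀ j, ρ ≤ j + 1 → |av (fun x => f (x * g)) j - av f j| ≤
        2 * K * (1 / ((j : ℝ) + 1)) := by
      intro j hj
      change |(∑ x ∈ Bl (N j), f (x * g)) / b (N j) - (∑ x ∈ Bl (N j), f x) / b (N j)| ≤ _
      rw [← sub_div, abs_div, abs_of_pos (hpos j), div_le_iff₀ (hpos j)]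
      have h4 := sum_shift_le hK g (A := Bl (N j)) (A' := Bl (N j + (j + 1)))
        (hbmono (Nat.le_add_right _ _)) (fun x hx => by
          rw [← Finset.mem_coe, hcoe] at hx
          have h5 : x * g ∈ (T : Set Γ) ^ (N j + ρ) := by
            rw [pow_add]
            exact Set.mul_mem_mul hx hρ
          rw [← hcoe, Finset.mem_coe] at h5
          exact hbmono (by omega) h5)
      have h6 := hN j
      have h7 : 2 * K * ((((Bl (N j + (j + 1))).card : ℝ)) - (Bl (N j)).card) ≤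
          2 * K * (1 / ((j : ℝ) + 1) * b (N j)) := by
        refine mul_le_mul_of_nonneg_left ?_ (by positivity)
        change b (N j + (j + 1)) - b (N j) ≤ _
        push_cast at h6
        linarith
      linarith
    have h8 : Tendsto (fun j => av (fun x => f (x * g)) j - av f j) atTop (𝓝 0) := by
      have h9 : Tendsto (fun j : ℕ => 2 * K * (1 / ((j : ℝ) + 1))) atTop (𝓝 (2 * K * 0)) :=
        tendsto_one_div_add_atTop_nhds_zero_nat.const_mul _
      rw [mul_zero] at h9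
      refine squeeze_zero_norm' ?_ h9
      filter_upwards [eventually_ge_atTop ρ] with j hj
      exact h3 j (by omega)
    have h10 : Tendsto (fun j => av (fun x => f (x * g)) j - av f j)
        (hyperfilter ℕ : Filter ℕ) (𝓝 0) := by
      refine h8.mono_left ?_
      rw [← Nat.cofinite_eq_atTop]
      exact hyperfilter_le_cofinite
    exact sub_eq_zero.1 (tendsto_nhds_unique (h2.sub h1) h10)

end Pool.Agent.Helper52K9.CG
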