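import Pool.Agent.Helper52K9.CG.Gns

/-!
# Project CG: leaf EXT (helper30)

An extreme point of the set of the right invariant means is ergodic.
-/

set_option autoImplicit false

namespace Pool.Agent.Helper52K9.CG
namespace ExtL

open GnsL Filter Topology

variable {Γ : Type} [Group Γ]

/-- a nonnegative invariant functional -/
structure NF (m : (Γ → ℝ) → ℝ) : Prop where
  add : ∀ u v, Bd u → Bd v → m (fun x => u x + v x) = m u + m v
  smul : ∀ (c : ℝ) u, Bd u → m (fun x => c * u x) = c * m u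
  nonneg : ∀ u, Bd u → (∀ x, 0 ≤ u x) → 0 ≤ m u
  inv : ∀ u g, Bd u → m (fun x => u (x * g)) = m u

/-- the set of the means, as functions with the value `0` at all unbounded functions -/
def MS (Γ : Type) [Group Γ] : Set ((Γ → ℝ) → ℝ) :=
  {m | NF m ∧ m (fun _ => 1) = 1 ∧ ∀ u, ¬ Bd u → m u = 0}

/-- the mean of an element -/
def toR {m : (Γ → ℝ) → ℝ} (h : m ∈ MS Γ) : RMean Γ where
  m := m
  add := h.1.add
  smul := h.1.smul
  nonneg := h.1.nonneg
  one := h.2.1
  inv := h.1.inv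

theorem MS_nonempty (h : Nonempty (RMean Γ)) : (MS Γ).Nonempty := by
  classical
  obtain ⟨μ⟩ := h
  refine ⟨fun u => if Bd u then μ.m u else 0, ⟨?_, ?_, ?_, ?_⟩, ?_, ?_⟩
  · intro u v hu hv
    simp only [hu, hv, bd_add hu hv, if_true]
    exact μ.add u v hu hv
  · intro c u hu
    simp only [hu, bd_smul c hu, if_true]
    exact μ.smul c u hu
  · intro u hu h
    simp only [hu, if_true]
    exact μ.nonneg u hu h
  · intro u g hu
    simp only [hu, bd_right hu g, if_true]
    exact μ.inv u g hu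
  · simp only [bd_const, if_true]
    exact μ.one
  · intro u hu
    simp only [hu, if_false]

theorem MS_closed : IsClosed (MS Γ) := by
  have h1 : MS Γ = (⋂ (u : Γ → ℝ) (v : Γ → ℝ) (_ : Bd u) (_ : Bd v),
      {m : (Γ → ℝ) → ℝ | m (fun x => u x + v x) = m u + m v}) ∩
      (⋂ (c : ℝ) (u : Γ → ℝ) (_ : Bd u), {m : (Γ → ℝ) → ℝ | m (fun x => c * u x) = c * m u}) ∩
      (⋂ (u : Γ → ℝ) (_ : Bd u) (_ : ∀ x, 0 ≤ u x), {m : (Γ → ℝ) → ℝ | 0 ≤ m u}) ∩
      (⋂ (u : Γ → ℝ) (g : Γ) (_ : Bd u), {m : (Γ → ℝ) → ℝ | m (fun x => u (x * g)) = m u}) ∩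
      {m : (Γ → ℝ) → ℝ | m (fun _ => 1) = 1} ∩
      (⋂ (u : Γ → ℝ) (_ : ¬ Bd u), {m : (Γ → ℝ) → ℝ | m u = 0}) := by
    ext m
    simp only [MS, Set.mem_ofPred_eq, Set.mem_inter_iff, Set.mem_iInter]
    constructor
    · rintro ⟨h, h1, h2⟩
      exact ⟨⟨⟨⟨⟨h.add, h.smul⟩, h.nonneg⟩, h.inv⟩, h1⟩, h2⟩
    · rintro ⟨⟨⟨⟨⟨ha, hs⟩, hn⟩, hi⟩, h1⟩, h2⟩
      exact ⟨⟨ha, hs, hn, hi⟩, h1, h2⟩
  rw [h1]
  refine IsClosed.inter (IsClosed.inter (IsClosed.inter (IsClosed.inter (IsClosed.inter ?_ ?_) ?_)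
    ?_) ?_) ?_
  · exact isClosed_iInter fun u => isClosed_iInter fun v => isClosed_iInter fun _ =>
      isClosed_iInter fun _ => isClosed_eq (continuous_apply _)
        (Continuous.add (f := fun m : (Γ → ℝ) → ℝ => m u) (g := fun m : (Γ → ℝ) → ℝ => m v)
          (continuous_apply u) (continuous_apply v))
  · exact isClosed_iInter fun c => isClosed_iInter fun u => isClosed_iInter fun _ =>
      isClosed_eq (continuous_apply _) (Continuous.mul (f := fun _ : (Γ → ℝ) → ℝ => c)
        (g := fun m : (Γ → ℝ) → ℝ => m u) continuous_const (continuous_apply u))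
  · exact isClosed_iInter fun u => isClosed_iInter fun _ => isClosed_iInter fun _ =>
      isClosed_le continuous_const (continuous_apply _)
  · exact isClosed_iInter fun u => isClosed_iInter fun g => isClosed_iInter fun _ =>
      isClosed_eq (continuous_apply _) (continuous_apply _)
  · exact isClosed_eq (continuous_apply _) continuous_const
  · exact isClosed_iInter fun u => isClosed_iInter fun _ =>
      isClosed_eq (continuous_apply _) continuous_const

theorem MS_compact : IsCompact (MS Γ) := by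
  classical
  have h : ∀ u : Γ → ℝ, ∃ C : ℝ, 0 ≤ C ∧ (Bd u → ∀ x, |u x| ≤ C) := by
    intro u
    by_cases hu : Bd u
    · obtain ⟨C, hC⟩ := hu
      exact ⟨C, (abs_nonneg _).trans (hC 1), fun _ => hC⟩
    · exact ⟨0, le_rfl, fun h => absurd h hu⟩
  choose C hC0 hC using h
  refine (isCompact_univ_pi (s := fun u => Set.Icc (-(C u)) (C u))
    fun u => isCompact_Icc).of_isClosed_subset MS_closed ?_
  intro m hm u _
  rw [Set.mem_Icc, ← abs_le]
  by_cases hu : Bd u
  · exact m_abs_le (toR hm) (hC u hu)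
  · rw [hm.2.2 u hu, abs_zero]
    exact hC0 u

theorem exists_extreme (h : Nonempty (RMean Γ)) : ((MS Γ).extremePoints ℝ).Nonempty :=
  MS_compact.extremePoints_nonempty (MS_nonempty h)

theorem NF.neg {m : (Γ → ℝ) → ℝ} (h : NF m) {u : Γ → ℝ} (hu : Bd u) :
    m (fun x => -u x) = -m u := by
  have := h.smul (-1) u hu
  simpa using this

theorem NF.sub {m : (Γ → ℝ) → ℝ} (h : NF m) {u v : Γ → ℝ} (hu : Bd u) (hv : Bd v) :
    m (fun x => u x - v x) = m u - m v := by
  have := h.add u (fun x => -v x) hu (bd_neg hv)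
  simp only [← sub_eq_add_neg] at this
  rw [this, h.neg hv, sub_eq_add_neg]

theorem NF.zero_of_one {m : (Γ → ℝ) → ℝ} (h : NF m) (h1 : m (fun _ => 1) = 0) {u : Γ → ℝ}
    (hu : Bd u) : m u = 0 := by
  obtain ⟨C, hC⟩ := id hu
  have hc : m (fun _ => C) = 0 := by
    have := h.smul C (fun _ => 1) (bd_const 1)
    simpa [h1] using this
  have h2 := h.nonneg (fun x => C - u x) (bd_sub (bd_const C) hu)
    (fun x => sub_nonneg.2 (abs_le.1 (hC x)).2)
  have h3 := h.nonneg (fun x => C + u x) (bd_add (bd_const C) hu)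
    (fun x => by have := (abs_le.1 (hC x)).1; linarith)
  rw [h.sub (bd_const C) hu, hc] at h2
  rw [h.add _ u (bd_const C) hu, hc] at h3
  linarith

/-- normalisation -/
theorem NF.norm {m : (Γ → ℝ) → ℝ} (h : NF m) {c : ℝ} (hc : 0 < c) (h1 : m (fun _ => 1) = c) :
    (open Classical in fun u => if Bd u then c⁻¹ * m u else 0) ∈ MS Γ := by
  classical
  refine ⟨⟨?_, ?_, ?_, ?_⟩, ?_, ?_⟩
  · intro u v hu hv
    simp only [hu, hv, bd_add hu hv, if_true]
    rw [h.add u v hu hv, mul_add]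
  · intro c u hu
    simp only [hu, bd_smul c hu, if_true]
    rw [h.smul c u hu]
    ring
  · intro u hu hh
    simp only [hu, if_true]
    exact mul_nonneg (inv_nonneg.2 hc.le) (h.nonneg u hu hh)
  · intro u g hu
    simp only [hu, bd_right hu g, if_true]
    rw [h.inv u g hu]
  · simp only [bd_const, if_true]
    rw [h1, inv_mul_cancel₀ hc.ne']
  · intro u hu
    simp only [hu, if_false]

/-- the extremality -/
theorem extreme {m m₁ : (Γ → ℝ) → ℝ} (hm : m ∈ (MS Γ).extremePoints ℝ) (h : NF m₁)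
    (hle : ∀ u, Bd u → (∀ x, 0 ≤ u x) → m₁ u ≤ m u) {u : Γ → ℝ} (hu : Bd u) :
    m₁ u = m₁ (fun _ => 1) * m u := by
  classical
  set c := m₁ (fun _ => 1) with hc
  have hmm := (mem_extremePoints.1 hm).1
  have h1 := hmm.2.1
  have hc0 : 0 ≤ c := h.nonneg _ (bd_const 1) (fun _ => zero_le_one)
  have hc1 : c ≤ 1 := by
    have := hle (fun _ => 1) (bd_const 1) (fun _ => zero_le_one)
    rwa [h1] at this
  have h2 : NF (fun v => m v - m₁ v) := by
    refine ⟨?_, ?_, ?_, ?_⟩
    · intro u v hu hv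
      simp only [hmm.1.add u v hu hv, h.add u v hu hv]
      ring
    · intro c u hu
      simp only [hmm.1.smul c u hu, h.smul c u hu]
      ring
    · intro u hu h
      exact sub_nonneg.2 (hle u hu h)
    · intro u g hu
      simp only [hmm.1.inv u g hu, h.inv u g hu]
  rcases hc0.eq_or_lt with h0 | h0
  · rw [h.zero_of_one (by rw [← hc, ← h0]) hu, ← h0, zero_mul]
  rcases hc1.eq_or_lt with h3 | h3
  · have := h2.zero_of_one (by simp only [h1, ← hc, h3, sub_self]) hu
    rw [h3, one_mul]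
    have h4 : m u - m₁ u = 0 := this
    linarith
  have ha := h.norm h0 rfl
  have hb := h2.norm (c := 1 - c) (by linarith) (by simp only [h1, ← hc])
  have hkey := (mem_extremePoints.1 hm).2 _ ha _ hb ⟨c, 1 - c, h0, by linarith, by ring, by
    funext v
    simp only [Pi.add_apply, Pi.smul_apply, smul_eq_mul]
    by_cases hv : Bd v
    · simp only [hv, if_true]
      have h5 : (1 - c) ≠ 0 := by linarith
      field_simp
      ring
    · simp only [hv, if_false]
      rw [hmm.2.2 v hv]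
      ring⟩
  have h6 := congrFun hkey.1 u
  simp only [hu, if_true] at h6
  rw [← h6]
  field_simp

variable (μ : RMean Γ)

/-- the variance of a bounded function is at most the mean of the squared difference with a
constant -/
theorem var_le {u : Γ → ℝ} (hu : Bd u) (c : ℝ) :
    μ.m (fun x => u x ^ 2) - μ.m u ^ 2 ≤ μ.m (fun x => (u x - c) ^ 2) := by
  have h1 : μ.m (fun x => (u x - c) ^ 2) = μ.m (fun x => u x ^ 2) - 2 * c * μ.m u + c ^ 2 := by
    have h2 : (fun x => (u x - c) ^ 2) = fun x => (u x ^ 2 - (2 * c) * u x) + c ^ 2 := by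
      funext x; ring
    rw [h2, μ.add (fun x => u x ^ 2 - (2 * c) * u x) (fun _ => c ^ 2)
      (bd_sub (bd_sq hu) (bd_smul _ hu)) (bd_const _), m_const,
      m_sub μ (bd_sq hu) (bd_smul _ hu), μ.smul _ u hu]
  rw [h1]
  nlinarith [sq_nonneg (μ.m u - c)]

theorem var_eq {u : Γ → ℝ} (hu : Bd u) :
    μ.m (fun x => (u x - μ.m u) ^ 2) = μ.m (fun x => u x ^ 2) - μ.m u ^ 2 := by
  set c := μ.m u with hc
  have h2 : (fun x => (u x - c) ^ 2) = fun x => (u x ^ 2 - (2 * c) * u x) + c ^ 2 := by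
    funext x; ring
  rw [h2, μ.add (fun x => u x ^ 2 - (2 * c) * u x) (fun _ => c ^ 2)
    (bd_sub (bd_sq hu) (bd_smul _ hu)) (bd_const _), m_const,
    m_sub μ (bd_sq hu) (bd_smul _ hu), μ.smul _ u hu]
  rw [← hc]
  ring

/-- `(a + b) ^ 2 ≤ 2 a ^ 2 + 2 b ^ 2` -/
theorem two_sq {u v : Γ → ℝ} (hu : Bd u) (hv : Bd v) :
    μ.m (fun x => (u x + v x) ^ 2) ≤ 2 * μ.m (fun x => u x ^ 2) + 2 * μ.m (fun x => v x ^ 2) := by
  rw [← μ.smul 2 _ (bd_sq hu), ← μ.smul 2 _ (bd_sq hv),
    ← μ.add _ _ (bd_smul 2 (bd_sq hu)) (bd_smul 2 (bd_sq hv))]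
  refine m_mono μ (bd_sq (bd_add hu hv))
    (bd_add (bd_smul 2 (bd_sq hu)) (bd_smul 2 (bd_sq hv))) fun x => ?_
  nlinarith [sq_nonneg (u x - v x)]

/-- clipping -/
def cl (R t : ℝ) : ℝ := max (-R) (min R t)

theorem cl_abs {R : ℝ} (hR : 0 ≤ R) (t : ℝ) : |cl R t| ≤ R := by
  rw [abs_le]
  exact ⟨le_max_left _ _, max_le (by linarith) (min_le_left _ _)⟩

theorem cl_lip (R s t : ℝ) : |cl R s - cl R t| ≤ |s - t| := by
  unfold cl
  calc |max (-R) (min R s) - max (-R) (min R t)| ≤ |min R s - min R t| := by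
        have := abs_max_sub_max_le_abs (min R s) (min R t) (-R)
        rwa [max_comm (min R s), max_comm (min R t)] at this
    _ ≤ |s - t| := by
        have := abs_min_sub_min_le_max R s R t
        simpa using this

theorem cl_eq {R t : ℝ} (h : |t| ≤ R) : cl R t = t := by
  rw [abs_le] at h
  unfold cl
  rw [min_eq_right h.2, max_eq_right h.1]

/-- an almost invariant Cauchy sequence of functions with values in `[0, 1]` -/
theorem var_unit {m : (Γ → ℝ) → ℝ} (hm : m ∈ (MS Γ).extremePoints ℝ) (w : ℕ → Γ → ℝ)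
    (h0 : ∀ n x, 0 ≤ w n x) (h1 : ∀ n x, w n x ≤ 1)
    (hC : ∀ ε : ℝ, 0 < ε → ∃ N, ∀ n ≥ N, ∀ k ≥ N, m (fun x => (w n x - w k x) ^ 2) ≤ ε)
    (hI : ∀ g : Γ, ∀ ε : ℝ, 0 < ε → ∃ N, ∀ n ≥ N, m (fun x => (w n (x * g) - w n x) ^ 2) ≤ ε) :
    ∀ ε : ℝ, 0 < ε → ∃ N, ∀ n ≥ N, m (fun x => w n x ^ 2) - m (w n) ^ 2 ≤ ε := by
  classical
  have hmm := (mem_extremePoints.1 hm).1
  let μ : RMean Γ := toR hmm
  have hμ : μ.m = m := rfl
  have hbw : ∀ n, Bd (w n) := fun n => ⟨1, fun x => by
    rw [abs_of_nonneg (h0 n x)]; exact h1 n x⟩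
  -- the weak limits exist
  have hdiff : ∀ v : Γ → ℝ, Bd v → ∀ n k, |m (fun x => v x * w n x) - m (fun x => v x * w k x)| ^ 2
      ≤ m (fun x => v x ^ 2) * m (fun x => (w n x - w k x) ^ 2) := by
    intro v hv n k
    rw [sq_abs, ← hμ, ← m_sub μ (bd_mul hv (hbw n)) (bd_mul hv (hbw k))]
    have := cs μ hv (bd_sub (hbw n) (hbw k))
    simpa only [mul_sub] using this
  have hlim : ∀ v : Γ → ℝ, Bd v → ∃ a, Tendsto (fun n => m (fun x => v x * w n x)) atTop (𝓝 a) := by
    intro v hv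
    apply cauchySeq_tendsto_of_complete
    rw [Metric.cauchySeq_iff]
    intro ε hε
    have hv2 : 0 ≤ m (fun x => v x ^ 2) := μ.nonneg _ (bd_sq hv) (fun x => sq_nonneg _)
    obtain ⟨N, hN⟩ := hC ((ε / 2) ^ 2 / (m (fun x => v x ^ 2) + 1)) (by positivity)
    refine ⟨N, fun n hn k hk => ?_⟩
    rw [Real.dist_eq]
    have h3 := hdiff v hv n k
    have h4 := hN n hn k hk
    have h5 : m (fun x => v x ^ 2) * m (fun x => (w n x - w k x) ^ 2) ≤ (ε / 2) ^ 2 := by
      calc m (fun x => v x ^ 2) * m (fun x => (w n x - w k x) ^ 2)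
          ≤ m (fun x => v x ^ 2) * ((ε / 2) ^ 2 / (m (fun x => v x ^ 2) + 1)) :=
            mul_le_mul_of_nonneg_left h4 hv2
        _ = (m (fun x => v x ^ 2) / (m (fun x => v x ^ 2) + 1)) * (ε / 2) ^ 2 := by ring
        _ ≤ 1 * (ε / 2) ^ 2 := by
            apply mul_le_mul_of_nonneg_right _ (by positivity)
            rw [div_le_one (by linarith)]
            linarith
        _ = (ε / 2) ^ 2 := one_mul _
    have h6 := (sq_le_sq₀ (abs_nonneg _) (by positivity)).1 (h3.trans h5)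
    linarith
  choose! a ha using hlim
  have hNF : NF a := by
    refine ⟨?_, ?_, ?_, ?_⟩
    · intro u v hu hv
      refine tendsto_nhds_unique (ha _ (bd_add hu hv)) ?_
      refine ((ha u hu).add (ha v hv)).congr fun n => ?_
      rw [← hμ, ← μ.add _ _ (bd_mul hu (hbw n)) (bd_mul hv (hbw n))]
      simp only [add_mul]
    · intro c u hu
      refine tendsto_nhds_unique (ha _ (bd_smul c hu)) ?_
      refine ((ha u hu).const_mul c).congr fun n => ?_
      rw [← hμ, ← μ.smul c _ (bd_mul hu (hbw n))]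
      simp only [mul_assoc]
    · intro u hu h
      exact ge_of_tendsto' (ha u hu) fun n => μ.nonneg _ (bd_mul hu (hbw n))
        fun x => mul_nonneg (h x) (h0 n x)
    · intro u g hu
      refine tendsto_nhds_unique (ha _ (bd_right hu g)) ?_
      have h3 : Tendsto (fun n => m (fun x => u (x * g) * w n x) - m (fun x => u x * w n x)) atTop
          (𝓝 0) := by
        rw [Metric.tendsto_atTop]
        intro ε hε
        have hv2 : 0 ≤ m (fun x => u x ^ 2) := μ.nonneg _ (bd_sq hu) (fun x => sq_nonneg _)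
        obtain ⟨N, hN⟩ := hI g⁻¹ ((ε / 2) ^ 2 / (m (fun x => u x ^ 2) + 1)) (by positivity)
        refine ⟨N, fun n hn => ?_⟩
        rw [Real.dist_eq, sub_zero]
        have h4 : m (fun x => u (x * g) * w n x) = m (fun x => u x * w n (x * g⁻¹)) := by
          have := μ.inv (fun x => u (x * g) * w n x) g⁻¹ (bd_mul (bd_right hu g) (hbw n))
          simp only [inv_mul_cancel_right] at this
          exact this.symm
        have hb := bd_right (hbw n) g⁻¹
        have h5 : |m (fun x => u (x * g) * w n x) - m (fun x => u x * w n x)| ^ 2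
            ≤ m (fun x => u x ^ 2) * m (fun x => (w n (x * g⁻¹) - w n x) ^ 2) := by
          rw [h4, sq_abs, ← hμ, ← m_sub μ (bd_mul hu hb) (bd_mul hu (hbw n))]
          have := cs μ hu (bd_sub hb (hbw n))
          simpa only [mul_sub] using this
        have h6 : m (fun x => u x ^ 2) * m (fun x => (w n (x * g⁻¹) - w n x) ^ 2)
            ≤ (ε / 2) ^ 2 := by
          calc m (fun x => u x ^ 2) * m (fun x => (w n (x * g⁻¹) - w n x) ^ 2)
              ≤ m (fun x => u x ^ 2) * ((ε / 2) ^ 2 / (m (fun x => u x ^ 2) + 1)) :=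
                mul_le_mul_of_nonneg_left (hN n hn) hv2
            _ = (m (fun x => u x ^ 2) / (m (fun x => u x ^ 2) + 1)) * (ε / 2) ^ 2 := by ring
            _ ≤ 1 * (ε / 2) ^ 2 := by
                apply mul_le_mul_of_nonneg_right _ (by positivity)
                rw [div_le_one (by linarith)]
                linarith
            _ = (ε / 2) ^ 2 := one_mul _
        have h7 := (sq_le_sq₀ (abs_nonneg _) (by positivity)).1 (h5.trans h6)
        linarith
      have h8 := (ha u hu).add h3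
      rw [add_zero] at h8
      refine h8.congr fun n => ?_
      ring
  have hle : ∀ u, Bd u → (∀ x, 0 ≤ u x) → a u ≤ m u := by
    intro u hu h
    refine le_of_tendsto' (ha u hu) fun n => ?_
    exact m_mono μ (bd_mul hu (hbw n)) hu fun x => mul_le_of_le_one_right (h x) (h1 n x)
  have hkey : ∀ u, Bd u → a u = a (fun _ => 1) * m u := fun u hu => extreme hm hNF hle hu
  set c := a (fun _ => 1) with hc
  have hlim1 : Tendsto (fun n => m (w n)) atTop (𝓝 c) := by
    refine (ha (fun _ => 1) (bd_const 1)).congr fun n => ?_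
    simp only [one_mul]
  intro ε hε
  set δ := min 1 (ε / 4) with hδ
  have hδ0 : 0 < δ := by positivity
  obtain ⟨N, hN⟩ := hC (δ ^ 2) (by positivity)
  have hc0 : 0 ≤ c := hNF.nonneg _ (bd_const 1) (fun _ => zero_le_one)
  have hm0 : ∀ n, 0 ≤ m (w n) := fun n => μ.nonneg _ (hbw n) (h0 n)
  have hm1 : ∀ n, m (w n) ≤ 1 := fun n => by
    have := m_mono μ (hbw n) (bd_const 1) (h1 n)
    rwa [m_const] at this
  have hc1 : c ≤ 1 := le_of_tendsto' hlim1 hm1
  -- distance of the means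
  have hmd : |c - m (w N)| ≤ δ := by
    have h3 : ∀ n ≥ N, |m (w n) - m (w N)| ≤ δ := by
      intro n hn
      have h4 := hdiff (fun _ => 1) (bd_const 1) n N
      simp only [one_mul, one_pow] at h4
      rw [hmm.2.1, one_mul] at h4
      exact (sq_le_sq₀ (abs_nonneg _) hδ0.le).1 (h4.trans (hN n hn N le_rfl))
    have h4 : Tendsto (fun n => |m (w n) - m (w N)|) atTop (𝓝 |c - m (w N)|) :=
      (hlim1.sub_const _).abs
    exact le_of_tendsto h4 (eventually_atTop.2 ⟨N, h3⟩)
  have hT : Tendsto (fun n => m (fun x => w N x * w n x) - m (w n) ^ 2) atTop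
      (𝓝 (c * m (w N) - c ^ 2)) := by
    have := (ha (w N) (hbw N)).sub (hlim1.pow 2)
    rwa [hkey (w N) (hbw N)] at this
  have hlt : c * m (w N) - c ^ 2 < 2 * δ := by
    have h5 := (abs_le.1 hmd).1
    nlinarith
  obtain ⟨N', hN'⟩ := eventually_atTop.1 (hT.eventually_lt_const hlt)
  refine ⟨max N N', fun n hn => ?_⟩
  have hn1 : N ≤ n := (le_max_left _ _).trans hn
  have hn2 : N' ≤ n := (le_max_right _ _).trans hn
  have h6 := hN' n hn2
  have h7 : |m (fun x => w n x * w n x) - m (fun x => w n x * w N x)| ^ 2 ≤ δ ^ 2 := by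
    refine (hdiff (w n) (hbw n) n N).trans ?_
    have h8 : m (fun x => w n x ^ 2) ≤ 1 := by
      have := m_mono μ (bd_sq (hbw n)) (bd_const 1) (fun x => by
        have := h0 n x
        have := h1 n x
        nlinarith)
      rwa [m_const] at this
    have h9 : 0 ≤ m (fun x => (w n x - w N x) ^ 2) :=
      μ.nonneg _ (bd_sq (bd_sub (hbw n) (hbw N))) (fun x => sq_nonneg _)
    calc m (fun x => w n x ^ 2) * m (fun x => (w n x - w N x) ^ 2)
        ≤ 1 * m (fun x => (w n x - w N x) ^ 2) := mul_le_mul_of_nonneg_right h8 h9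
      _ ≤ δ ^ 2 := by rw [one_mul]; exact hN n hn1 N le_rfl
  have h8 := (abs_le.1 ((sq_le_sq₀ (abs_nonneg _) hδ0.le).1 h7)).2
  have h9 : (fun x => w n x ^ 2) = fun x => w n x * w n x := by
    funext x; ring
  have h10 : (fun x => w n x * w N x) = fun x => w N x * w n x := by
    funext x; ring
  rw [h9]
  rw [h10] at h8
  have h11 : δ ≤ ε / 4 := min_le_right _ _
  linarith

end ExtL

open GnsL ExtL Filter Topology in
theorem ext : S_EXT := by
  intro Γ _ hne
  obtain ⟨m, hm⟩ := exists_extreme hne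
  have hmm := (mem_extremePoints.1 hm).1
  refine ⟨toR hmm, ?_⟩
  set μ : RMean Γ := toR hmm with hμd
  have hμ : μ.m = m := rfl
  intro u hb hC hI ε hε
  -- a fixed bounded function near the others
  obtain ⟨N, hN⟩ := hC (ε / 16) (by positivity)
  obtain ⟨R0, hR0⟩ := hb N
  set R := max 1 R0 with hR
  have hR1 : 1 ≤ R := le_max_left _ _
  have hRN : ∀ x, |u N x| ≤ R := fun x => (hR0 x).trans (le_max_right _ _)
  have hRp : 0 < R := by linarith
  set q : ℕ → Γ → ℝ := fun n x => cl R (u n x) with hq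
  have hbq : ∀ n, Bd (q n) := fun n => ⟨R, fun x => cl_abs hRp.le _⟩
  set w : ℕ → Γ → ℝ := fun n x => (q n x + R) / (2 * R) with hw
  have hwq : ∀ n, w n = fun x => (2 * R)⁻¹ * (q n x + R) := fun n => by
    funext x
    simp only [hw]
    rw [div_eq_inv_mul]
  have hqL : ∀ n k x, (q n x - q k x) ^ 2 ≤ (u n x - u k x) ^ 2 := fun n k x =>
    sq_le_sq.2 (cl_lip R _ _)
  have hwL : ∀ n k x y, (w n x - w k y) ^ 2 ≤ (u n x - u k y) ^ 2 := by
    intro n k x y
    have h1 : w n x - w k y = (2 * R)⁻¹ * (q n x - q k y) := by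
      rw [hwq, hwq]
      ring
    rw [h1, mul_pow]
    have h2 : (q n x - q k y) ^ 2 ≤ (u n x - u k y) ^ 2 := sq_le_sq.2 (cl_lip R _ _)
    have h3 : (2 * R)⁻¹ ≤ 1 := inv_le_one_of_one_le₀ (by linarith)
    have h4 : ((2 * R)⁻¹) ^ 2 ≤ 1 := pow_le_one₀ (by positivity) h3
    calc ((2 * R)⁻¹) ^ 2 * (q n x - q k y) ^ 2 ≤ 1 * (q n x - q k y) ^ 2 :=
          mul_le_mul_of_nonneg_right h4 (sq_nonneg _)
      _ ≤ (u n x - u k y) ^ 2 := by rw [one_mul]; exact h2
  have hw0 : ∀ n x, 0 ≤ w n x := fun n x => by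
    have := (abs_le.1 (cl_abs hRp.le (u n x))).1
    exact div_nonneg (by simp only [hq]; linarith) (by linarith)
  have hw1 : ∀ n x, w n x ≤ 1 := fun n x => by
    have := (abs_le.1 (cl_abs hRp.le (u n x))).2
    exact (div_le_one (by linarith)).2 (by simp only [hq]; linarith)
  have hbw : ∀ n, Bd (w n) := fun n => ⟨1, fun x => by
    rw [abs_of_nonneg (hw0 n x)]; exact hw1 n x⟩
  have hvar := var_unit hm w hw0 hw1 (by
      intro ε hε
      obtain ⟨N, hN⟩ := hC ε hε
      refine ⟨N, fun n hn k hk => (m_mono μ (bd_sq (bd_sub (hbw n) (hbw k)))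
        (bd_sq (bd_sub (hb n) (hb k))) fun x => hwL n k x x).trans (hN n hn k hk)⟩) (by
      intro g ε hε
      obtain ⟨N, hN⟩ := hI g ε hε
      refine ⟨N, fun n hn => (m_mono μ (bd_sq (bd_sub (bd_right (hbw n) g) (hbw n)))
        (bd_sq (bd_sub (bd_right (hb n) g) (hb n))) fun x => hwL n n (x * g) x).trans (hN n hn)⟩)
    (ε / (16 * R ^ 2)) (by positivity)
  obtain ⟨N', hN'⟩ := hvar
  refine ⟨max N N', fun n hn => ?_⟩
  have hn1 : N ≤ n := (le_max_left _ _).trans hn
  have hn2 : N' ≤ n := (le_max_right _ _).trans hn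
  have h1 := hN' n hn2
  -- the variance of `q n`
  have h2 : μ.m (fun x => (q n x - μ.m (q n)) ^ 2) ≤ ε / 4 := by
    have h3 : μ.m (w n) = (2 * R)⁻¹ * (μ.m (q n) + R) := by
      rw [hwq n, μ.smul _ _ (bd_add (hbq n) (bd_const R)), μ.add _ _ (hbq n) (bd_const R),
        m_const]
    have h4 : (fun x => (q n x - μ.m (q n)) ^ 2) =
        fun x => (2 * R) ^ 2 * (w n x - μ.m (w n)) ^ 2 := by
      funext x
      rw [h3, hwq n]
      simp only
      field_simp
      ring
    rw [h4, μ.smul _ _ (bd_sq (bd_sub (hbw n) (bd_const _))), var_eq μ (hbw n)]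
    calc (2 * R) ^ 2 * (μ.m (fun x => w n x ^ 2) - μ.m (w n) ^ 2)
        ≤ (2 * R) ^ 2 * (ε / (16 * R ^ 2)) := mul_le_mul_of_nonneg_left h1 (by positivity)
      _ = ε / 4 := by field_simp; ring
  -- the distance of `u n` and `q n`
  have h3 : μ.m (fun x => (u n x - q n x) ^ 2) ≤ ε / 4 := by
    have h4 : (fun x => (u n x - q n x) ^ 2) =
        fun x => ((u n x - u N x) + (q N x - q n x)) ^ 2 := by
      funext x
      have : q N x = u N x := cl_eq (hRN x)
      rw [this]
      ring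
    rw [h4]
    refine (two_sq μ (bd_sub (hb n) (hb N)) (bd_sub (hbq N) (hbq n))).trans ?_
    have h5 := hN n hn1 N le_rfl
    have h6 : μ.m (fun x => (q N x - q n x) ^ 2) ≤ ε / 16 :=
      (m_mono μ (bd_sq (bd_sub (hbq N) (hbq n))) (bd_sq (bd_sub (hb N) (hb n)))
        (hqL N n)).trans (hN N le_rfl n hn1)
    linarith
  refine (var_le μ (hb n) (μ.m (q n))).trans ?_
  have h5 : (fun x => (u n x - μ.m (q n)) ^ 2) =
      fun x => ((u n x - q n x) + (q n x - μ.m (q n))) ^ 2 := by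
    funext x
    ring
  rw [h5]
  refine (two_sq μ (bd_sub (hb n) (hbq n)) (bd_sub (hbq n) (bd_const _))).trans ?_
  linarith

end Pool.Agent.Helper52K9.CG
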