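import Pool.Agent.Helper52K9.CG.Ga

/-!
# Project CG: factorisation [FAC]
-/

set_option autoImplicit false

namespace Pool.Agent.Helper52K9.CG

open scoped Pointwise

namespace FacL

open GaL

variable {l : ℝ}

/-- horizontal elements -/
def hp (P : Fin 4 → ℝ) : NN l := ⟨P, 0, 0⟩
def hq (Q : Fin 4 → ℝ) : NN l := ⟨0, Q, 0⟩
def hz (Z : Fin 2 → ℝ) : NN l := ⟨0, 0, Z⟩

theorem hp_pow (P : Fin 4 → ℝ) (n : ℕ) : (hp P : NN l) ^ n = hp ((n : ℝ) • P) := by
  induction n with
  | zero => ext <;> simp [hp]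
  | succ n ih =>
    rw [pow_succ, ih]
    ext k
    · simp [hp]; ring
    · simp [hp]
    · simp [hp]

theorem hq_pow (P : Fin 4 → ℝ) (n : ℕ) : (hq P : NN l) ^ n = hq ((n : ℝ) • P) := by
  induction n with
  | zero => ext <;> simp [hq]
  | succ n ih =>
    rw [pow_succ, ih]
    ext k
    · simp [hq]
    · simp [hq]; ring
    · simp [hq]

theorem ga_hp (P : Fin 4 → ℝ) (h : ‖P‖ ≤ 1) : ga (hp P : NN l) ≤ 1 := by
  rw [ga_le_iff _ zero_le_one]
  simp [hp, h]

theorem ga_hq (P : Fin 4 → ℝ) (h : ‖P‖ ≤ 1) : ga (hq P : NN l) ≤ 1 := by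
  rw [ga_le_iff _ zero_le_one]
  simp [hq, h]

/-- the commutator -/
theorem comm (i : Fin 4) (a b : ℝ) :
    (hp (Pi.single i a) : NN l) * hq (Pi.single i b) * hp (Pi.single i (-a)) *
      hq (Pi.single i (-b)) = hz (fun k => cf l k i * (a * b)) := by
  ext k
  · simp [hp, hq, hz, Pi.single_neg]
  · simp [hp, hq, hz, Pi.single_neg]
  · simp only [hp, hq, hz, mul_z, mul_p, mul_q, Pi.zero_apply, Pi.add_apply, add_zero, zero_add,
      mul_zero, Finset.sum_const_zero]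
    fin_cases i <;> simp [Fin.sum_univ_four, Pi.single_apply] <;> ring

theorem hz_mul (Y Z : Fin 2 → ℝ) : (hz Y : NN l) * hz Z = hz (Y + Z) := by
  ext k <;> simp [hz]

/-- factorisation of powers -/
def Good (l : ℝ) (w : NN l) (n : ℕ) : Prop :=
  ∃ L : List (NN l), L.length ≤ n ∧ (∀ x ∈ L, ga x ≤ 1) ∧ L.prod = w

theorem Good.mul {w v : NN l} {n m : ℕ} (hw : Good l w n) (hv : Good l v m) :
    Good l (w * v) (n + m) := by
  obtain ⟨L, h1, h2, h3⟩ := hw
  obtain ⟨M, k1, k2, k3⟩ := hv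
  refine ⟨L ++ M, by simp; omega, ?_, by simp [h3, k3]⟩
  intro x hx
  rcases List.mem_append.1 hx with h | h
  · exact h2 x h
  · exact k2 x h

theorem Good.mono {w : NN l} {n m : ℕ} (hw : Good l w n) (h : n ≤ m) : Good l w m := by
  obtain ⟨L, h1, h2, h3⟩ := hw
  exact ⟨L, h1.trans h, h2, h3⟩

theorem good_hp (P : Fin 4 → ℝ) (n : ℕ) (hn : 0 < n) (h : ‖P‖ ≤ n) : Good l (hp P) n := by
  refine ⟨List.replicate n (hp ((n : ℝ)⁻¹ • P)), by simp, ?_, ?_⟩
  · intro x hx
    rw [List.eq_of_mem_replicate hx]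
    apply ga_hp
    have hn' : (0 : ℝ) < n := by exact_mod_cast hn
    rw [norm_smul, norm_inv, Real.norm_of_nonneg hn'.le, inv_mul_le_iff₀ hn', mul_one]
    exact h
  · rw [List.prod_replicate, hp_pow, smul_smul, mul_inv_cancel₀ (by positivity), one_smul]

theorem good_hq (P : Fin 4 → ℝ) (n : ℕ) (hn : 0 < n) (h : ‖P‖ ≤ n) : Good l (hq P) n := by
  refine ⟨List.replicate n (hq ((n : ℝ)⁻¹ • P)), by simp, ?_, ?_⟩
  · intro x hx
    rw [List.eq_of_mem_replicate hx]
    apply ga_hq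
    have hn' : (0 : ℝ) < n := by exact_mod_cast hn
    rw [norm_smul, norm_inv, Real.norm_of_nonneg hn'.le, inv_mul_le_iff₀ hn', mul_one]
    exact h
  · rw [List.prod_replicate, hq_pow, smul_smul, mul_inv_cancel₀ (by positivity), one_smul]

theorem good_comm (i : Fin 4) (a b : ℝ) (n m : ℕ) (hn : 0 < n) (hm : 0 < m) (ha : |a| ≤ n)
    (hb : |b| ≤ m) : Good l (hz (fun k => cf l k i * (a * b))) (n + m + n + m) := by
  rw [← comm]
  refine Good.mul (Good.mul (Good.mul (good_hp _ n hn ?_) (good_hq _ m hm ?_))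
    (good_hp _ n hn ?_)) (good_hq _ m hm ?_)
  all_goals
    rw [Pi.norm_single]
    simpa using ‹_›

end FacL

open GaL FacL in
/-- [FAC] -/
theorem fac : S_FAC := by
  intro l
  obtain ⟨M, hM⟩ := exists_nat_ge (1 + 4 * (1 + |l|))
  have hM1 : 1 ≤ M := by
    have : (1 : ℝ) ≤ M := by
      have := abs_nonneg l
      linarith
    exact_mod_cast this
  refine ⟨6 + 4 * M, ?_⟩
  intro w r hw
  rw [ga_le_iff _ (Nat.cast_nonneg r)] at hw
  obtain ⟨h1, h2, h3⟩ := hw
  set n : ℕ := r + 1 with hn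
  have hnpos : (0 : ℝ) < n := by positivity
  have hrn : (r : ℝ) ≤ n := by rw [hn]; push_cast; linarith
  -- the central remainder
  set Z : Fin 2 → ℝ := fun k => w.z k - ∑ i, cf l k i * w.p i * w.q i with hZ
  have hZle : ∀ k, |Z k| ≤ M * (n : ℝ) ^ 2 := by
    intro k
    have e1 : |w.z k| ≤ ‖w.z‖ := by simpa using norm_le_pi_norm w.z k
    have e2 := bil_le (l := l) k w.p w.q
    have e3 : ‖w.p‖ * ‖w.q‖ ≤ r * r := mul_le_mul h1 h2 (norm_nonneg _) (Nat.cast_nonneg r)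
    have hB : 0 ≤ 4 * (1 + |l|) := by positivity
    calc |Z k| ≤ |w.z k| + |∑ i, cf l k i * w.p i * w.q i| := abs_sub _ _
      _ ≤ (r : ℝ) ^ 2 + 4 * (1 + |l|) * (r * r) := by
          have := mul_le_mul_of_nonneg_left e3 hB
          linarith
      _ = (1 + 4 * (1 + |l|)) * (r : ℝ) ^ 2 := by ring
      _ ≤ M * (n : ℝ) ^ 2 := by
          apply mul_le_mul hM (pow_le_pow_left₀ (Nat.cast_nonneg r) hrn 2) (by positivity)
            (Nat.cast_nonneg M)
  have hb : ∀ k, |Z k / n| ≤ ((M * n : ℕ) : ℝ) := by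
    intro k
    rw [abs_div, abs_of_pos hnpos, div_le_iff₀ hnpos]
    have := hZle k
    push_cast
    nlinarith
  have hkey : w = hp w.p * hq w.q * hz (fun k => cf l k 0 * (n * (Z 0 / n))) *
      hz (fun k => cf l k 1 * (n * (Z 1 / n))) := by
    have e : ∀ k, (n : ℝ) * (Z k / n) = Z k := fun k => by field_simp
    rw [e, e]
    ext k
    · simp [hp, hq, hz]
    · simp [hp, hq, hz]
    · fin_cases k <;> simp [hp, hq, hz, hZ, cf]
  have hMn : 0 < M * n := by positivity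
  have g1 : Good l (hz (fun k => cf l k 0 * (n * (Z 0 / n)))) (n + M * n + n + M * n) :=
    good_comm 0 n (Z 0 / n) n (M * n) (by omega) hMn (by simp) (hb 0)
  have g2 : Good l (hz (fun k => cf l k 1 * (n * (Z 1 / n)))) (n + M * n + n + M * n) :=
    good_comm 1 n (Z 1 / n) n (M * n) (by omega) hMn (by simp) (hb 1)
  have g3 : Good l w (n + n + (n + M * n + n + M * n) + (n + M * n + n + M * n)) := by
    rw [hkey]
    exact ((good_hp _ n (by omega) (h1.trans hrn)).mul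
      (good_hq _ n (by omega) (h2.trans hrn))).mul g1 |>.mul g2
  exact g3.mono (by ring_nf; omega)

end Pool.Agent.Helper52K9.CG
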