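import Pool.Agent.Helper52K9.CG.Stm

/-!
# Project CG: gauge estimates [GA]
-/

set_option autoImplicit false

namespace Pool.Agent.Helper52K9.CG

open scoped Pointwise

namespace GaL

variable {l : ℝ}

theorem ga_nonneg (x : NN l) : 0 ≤ ga x :=
  le_trans (norm_nonneg _) (le_trans (le_max_left _ _) (le_max_left _ _))

theorem ga_le_iff (x : NN l) {t : ℝ} (ht : 0 ≤ t) :
    ga x ≤ t ↔ ‖x.p‖ ≤ t ∧ ‖x.q‖ ≤ t ∧ ‖x.z‖ ≤ t ^ 2 := by
  unfold ga
  rw [max_le_iff, max_le_iff, and_assoc, Real.sqrt_le_left ht]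

theorem p_le (x : NN l) : ‖x.p‖ ≤ ga x := ((ga_le_iff x (ga_nonneg x)).1 le_rfl).1

theorem q_le (x : NN l) : ‖x.q‖ ≤ ga x := ((ga_le_iff x (ga_nonneg x)).1 le_rfl).2.1

theorem z_le (x : NN l) : ‖x.z‖ ≤ ga x ^ 2 := ((ga_le_iff x (ga_nonneg x)).1 le_rfl).2.2

theorem cf_le (k : Fin 2) (i : Fin 4) : |cf l k i| ≤ 1 + |l| := by
  have h0 := abs_nonneg l
  fin_cases k <;> fin_cases i <;> simp [cf] <;> linarith

/-- the bilinear term -/
theorem bil_le (k : Fin 2) (p q : Fin 4 → ℝ) :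
    |∑ i, cf l k i * p i * q i| ≤ 4 * (1 + |l|) * (‖p‖ * ‖q‖) := by
  calc |∑ i, cf l k i * p i * q i| ≤ ∑ i, |cf l k i * p i * q i| :=
        Finset.abs_sum_le_sum_abs _ _
    _ ≤ ∑ _i : Fin 4, (1 + |l|) * (‖p‖ * ‖q‖) := by
        apply Finset.sum_le_sum
        intro i _
        rw [abs_mul, abs_mul, mul_assoc]
        have h1 : |p i| ≤ ‖p‖ := by simpa using norm_le_pi_norm p i
        have h2 : |q i| ≤ ‖q‖ := by simpa using norm_le_pi_norm q i
        have h3 := cf_le (l := l) k i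
        have h4 : |p i| * |q i| ≤ ‖p‖ * ‖q‖ :=
          mul_le_mul h1 h2 (abs_nonneg _) (norm_nonneg _)
        exact mul_le_mul h3 h4 (mul_nonneg (abs_nonneg _) (abs_nonneg _))
          (by positivity)
    _ = 4 * (1 + |l|) * (‖p‖ * ‖q‖) := by
        rw [Finset.sum_const, Finset.card_univ, Fintype.card_fin]
        simp [mul_assoc]

theorem mul_z_le (x y : NN l) :
    ‖(x * y).z‖ ≤ ‖x.z‖ + ‖y.z‖ + 4 * (1 + |l|) * (‖x.p‖ * ‖y.q‖) := by
  rw [pi_norm_le_iff_of_nonneg (by positivity)]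
  intro k
  have h1 : |x.z k| ≤ ‖x.z‖ := by simpa using norm_le_pi_norm x.z k
  have h2 : |y.z k| ≤ ‖y.z‖ := by simpa using norm_le_pi_norm y.z k
  have h3 := bil_le (l := l) k x.p y.q
  rw [mul_z, Real.norm_eq_abs]
  exact le_trans (abs_add_le _ _) (add_le_add (le_trans (abs_add_le _ _) (add_le_add h1 h2)) h3)

theorem mul_le (x y : NN l) : ga (x * y) ≤ (1 + 4 * (1 + |l|)) * (ga x + ga y) := by
  have hx := ga_nonneg x
  have hy := ga_nonneg y
  have hB : 0 ≤ 4 * (1 + |l|) := by positivity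
  rw [ga_le_iff _ (by positivity)]
  refine ⟨?_, ?_, ?_⟩
  · rw [mul_p]
    calc ‖x.p + y.p‖ ≤ ga x + ga y := le_trans (norm_add_le _ _) (add_le_add (p_le x) (p_le y))
      _ ≤ _ := by nlinarith
  · rw [mul_q]
    calc ‖x.q + y.q‖ ≤ ga x + ga y := le_trans (norm_add_le _ _) (add_le_add (q_le x) (q_le y))
      _ ≤ _ := by nlinarith
  · refine le_trans (mul_z_le x y) ?_
    have h1 : ‖x.p‖ * ‖y.q‖ ≤ ga x * ga y :=
      mul_le_mul (p_le x) (q_le y) (norm_nonneg _) hx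
    have h2 := z_le x
    have h3 := z_le y
    calc ‖x.z‖ + ‖y.z‖ + 4 * (1 + |l|) * (‖x.p‖ * ‖y.q‖)
        ≤ ga x ^ 2 + ga y ^ 2 + 4 * (1 + |l|) * (ga x * ga y) := by
          have := mul_le_mul_of_nonneg_left h1 hB
          linarith
      _ ≤ (1 + 4 * (1 + |l|)) * (ga x + ga y) ^ 2 := by
          have : 0 ≤ ga x * ga y := mul_nonneg hx hy
          nlinarith [mul_nonneg hB (sq_nonneg (ga x)), mul_nonneg hB (sq_nonneg (ga y)),
            mul_nonneg hB this]
      _ ≤ ((1 + 4 * (1 + |l|)) * (ga x + ga y)) ^ 2 := by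
          rw [mul_pow]
          apply mul_le_mul_of_nonneg_right _ (sq_nonneg _)
          nlinarith

theorem inv_le (x : NN l) : ga x⁻¹ ≤ (1 + 4 * (1 + |l|)) * ga x := by
  have hx := ga_nonneg x
  have hB : 0 ≤ 4 * (1 + |l|) := by positivity
  rw [ga_le_iff _ (by positivity)]
  refine ⟨?_, ?_, ?_⟩
  · rw [inv_p, norm_neg]
    exact le_trans (p_le x) (by nlinarith)
  · rw [inv_q, norm_neg]
    exact le_trans (q_le x) (by nlinarith)
  · rw [pi_norm_le_iff_of_nonneg (by positivity)]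
    intro k
    have h1 : |x.z k| ≤ ‖x.z‖ := by simpa using norm_le_pi_norm x.z k
    have h3 := bil_le (l := l) k x.p x.q
    have h4 := z_le x
    have h5 : ‖x.p‖ * ‖x.q‖ ≤ ga x * ga x := mul_le_mul (p_le x) (q_le x) (norm_nonneg _) hx
    rw [inv_z, Real.norm_eq_abs]
    calc |-x.z k + ∑ i, cf l k i * x.p i * x.q i| ≤ |x.z k| + |∑ i, cf l k i * x.p i * x.q i| := by
          refine le_trans (abs_add_le _ _) ?_
          rw [abs_neg]
      _ ≤ ga x ^ 2 + 4 * (1 + |l|) * (ga x * ga x) := by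
          have := mul_le_mul_of_nonneg_left h5 hB
          linarith
      _ = (1 + 4 * (1 + |l|)) * ga x ^ 2 := by ring
      _ ≤ ((1 + 4 * (1 + |l|)) * ga x) ^ 2 := by
          rw [mul_pow]
          apply mul_le_mul_of_nonneg_right _ (sq_nonneg _)
          nlinarith

theorem prod_le (L : List (NN l)) (a : ℝ) (ha : 0 ≤ a) (hL : ∀ x ∈ L, ga x ≤ a) :
    ‖L.prod.p‖ ≤ L.length * a ∧ ‖L.prod.q‖ ≤ L.length * a ∧
      ‖L.prod.z‖ ≤ (1 + 4 * (1 + |l|)) * (L.length * a) ^ 2 := by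
  induction L with
  | nil =>
    simp
  | cons x L ih =>
    have hx : ga x ≤ a := hL x (by simp)
    obtain ⟨h1, h2, h3⟩ := ih fun y hy => hL y (List.mem_cons_of_mem _ hy)
    have hxp := le_trans (p_le x) hx
    have hxq := le_trans (q_le x) hx
    have hxz : ‖x.z‖ ≤ a ^ 2 := le_trans (z_le x) (by
      have := ga_nonneg x
      exact pow_le_pow_left₀ this hx 2)
    have hB : 0 ≤ 4 * (1 + |l|) := by positivity
    rw [List.prod_cons, List.length_cons]
    push_cast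
    refine ⟨?_, ?_, ?_⟩
    · rw [mul_p]
      refine le_trans (norm_add_le _ _) ?_
      linarith
    · rw [mul_q]
      refine le_trans (norm_add_le _ _) ?_
      linarith
    · refine le_trans (mul_z_le x L.prod) ?_
      have h4 : ‖x.p‖ * ‖L.prod.q‖ ≤ a * (L.length * a) :=
        mul_le_mul hxp h2 (norm_nonneg _) ha
      have h5 := mul_le_mul_of_nonneg_left h4 hB
      have hn : (0 : ℝ) ≤ L.length := Nat.cast_nonneg _
      calc ‖x.z‖ + ‖L.prod.z‖ + 4 * (1 + |l|) * (‖x.p‖ * ‖L.prod.q‖)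
          ≤ a ^ 2 + (1 + 4 * (1 + |l|)) * (L.length * a) ^ 2 +
            4 * (1 + |l|) * (a * (L.length * a)) := by linarith
        _ ≤ (1 + 4 * (1 + |l|)) * ((L.length + 1) * a) ^ 2 := by
            have e : (1 + 4 * (1 + |l|)) * (((L.length : ℝ) + 1) * a) ^ 2 -
                (a ^ 2 + (1 + 4 * (1 + |l|)) * (L.length * a) ^ 2 +
                  4 * (1 + |l|) * (a * (L.length * a))) =
                (4 * (1 + |l|)) * a ^ 2 + (2 + 4 * (1 + |l|)) * (L.length * a ^ 2) := by ring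
            have : 0 ≤ (4 * (1 + |l|)) * a ^ 2 + (2 + 4 * (1 + |l|)) * (L.length * a ^ 2) := by
              positivity
            linarith

end GaL

open GaL in
/-- [GA] -/
theorem ga' : S_GA := by
  intro l
  have hB : 0 ≤ 4 * (1 + |l|) := by positivity
  refine ⟨1 + 4 * (1 + |l|), by linarith, mul_le, inv_le, ?_⟩
  intro L a ha hL
  obtain ⟨h1, h2, h3⟩ := prod_le L a ha hL
  have hn : (0 : ℝ) ≤ L.length := Nat.cast_nonneg _
  have hna : 0 ≤ L.length * a := mul_nonneg hn ha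
  rw [ga_le_iff _ (by positivity)]
  refine ⟨le_trans h1 ?_, le_trans h2 ?_, le_trans h3 ?_⟩
  · nlinarith
  · nlinarith
  · rw [mul_assoc, mul_pow _ (L.length * a)]
    apply mul_le_mul_of_nonneg_right _ (sq_nonneg _)
    nlinarith

end Pool.Agent.Helper52K9.CG
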