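import Pool.Agent.Helper52K9.CG.Stm

/-!
# Project CG: leaf GNS (helper30)

The Hilbert space of a right invariant mean.
-/

set_option autoImplicit false

namespace Pool.Agent.Helper52K9.CG
namespace GnsL

open UniformSpace

variable {Γ : Type}

theorem bd_const (c : ℝ) : Bd (fun _ : Γ => c) := ⟨|c|, fun _ => le_rfl⟩

theorem bd_add {u v : Γ → ℝ} (hu : Bd u) (hv : Bd v) : Bd (fun x => u x + v x) := by
  obtain ⟨C, hC⟩ := hu
  obtain ⟨D, hD⟩ := hv
  exact ⟨C + D, fun x => (abs_add_le _ _).trans (add_le_add (hC x) (hD x))⟩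

theorem bd_smul (c : ℝ) {u : Γ → ℝ} (hu : Bd u) : Bd (fun x => c * u x) := by
  obtain ⟨C, hC⟩ := hu
  exact ⟨|c| * C, fun x => by
    rw [abs_mul]
    exact mul_le_mul_of_nonneg_left (hC x) (abs_nonneg _)⟩

theorem bd_neg {u : Γ → ℝ} (hu : Bd u) : Bd (fun x => -u x) := by
  obtain ⟨C, hC⟩ := hu
  exact ⟨C, fun x => by rw [abs_neg]; exact hC x⟩

theorem bd_sub {u v : Γ → ℝ} (hu : Bd u) (hv : Bd v) : Bd (fun x => u x - v x) := by
  simpa [sub_eq_add_neg] using bd_add hu (bd_neg hv)

theorem bd_mul {u v : Γ → ℝ} (hu : Bd u) (hv : Bd v) : Bd (fun x => u x * v x) := by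
  obtain ⟨C, hC⟩ := hu
  obtain ⟨D, hD⟩ := hv
  exact ⟨C * D, fun x => by
    rw [abs_mul]
    exact mul_le_mul (hC x) (hD x) (abs_nonneg _) ((abs_nonneg _).trans (hC x))⟩

theorem bd_sq {u : Γ → ℝ} (hu : Bd u) : Bd (fun x => u x ^ 2) := by
  simpa [pow_two] using bd_mul hu hu

theorem bd_abs {u : Γ → ℝ} (hu : Bd u) : Bd (fun x => |u x|) := by
  obtain ⟨C, hC⟩ := hu
  exact ⟨C, fun x => by rw [abs_abs]; exact hC x⟩

theorem bd_right [Group Γ] {u : Γ → ℝ} (hu : Bd u) (g : Γ) : Bd (fun x => u (x * g)) := by
  obtain ⟨C, hC⟩ := hu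
  exact ⟨C, fun x => hC _⟩

theorem bd_sum {ι : Type} (s : Finset ι) {u : ι → Γ → ℝ} (hu : ∀ i ∈ s, Bd (u i)) :
    Bd (fun x => ∑ i ∈ s, u i x) := by
  classical
  induction s using Finset.induction_on with
  | empty => simpa using bd_const (Γ := Γ) 0
  | insert a s ha ih =>
    simp only [Finset.sum_insert ha]
    exact bd_add (hu a (Finset.mem_insert_self a s))
      (ih fun i hi => hu i (Finset.mem_insert_of_mem hi))

section mean

variable [Group Γ] (μ : RMean Γ)

theorem m_neg {u : Γ → ℝ} (hu : Bd u) : μ.m (fun x => -u x) = -μ.m u := by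
  have := μ.smul (-1) u hu
  simpa using this

theorem m_sub {u v : Γ → ℝ} (hu : Bd u) (hv : Bd v) :
    μ.m (fun x => u x - v x) = μ.m u - μ.m v := by
  have := μ.add u (fun x => -v x) hu (bd_neg hv)
  simp only [← sub_eq_add_neg] at this
  rw [this, m_neg μ hv, sub_eq_add_neg]

theorem m_const (c : ℝ) : μ.m (fun _ => c) = c := by
  have := μ.smul c (fun _ => 1) (bd_const 1)
  simpa [μ.one] using this

theorem m_mono {u v : Γ → ℝ} (hu : Bd u) (hv : Bd v) (h : ∀ x, u x ≤ v x) : μ.m u ≤ μ.m v := by
  have := μ.nonneg (fun x => v x - u x) (bd_sub hv hu) (fun x => sub_nonneg.2 (h x))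
  rw [m_sub μ hv hu] at this
  linarith

theorem m_mulr (c : ℝ) {u : Γ → ℝ} (hu : Bd u) : μ.m (fun x => u x * c) = μ.m u * c := by
  have := μ.smul c u hu
  simp only [mul_comm c] at this
  exact this

theorem m_sum {ι : Type} (s : Finset ι) {u : ι → Γ → ℝ} (hu : ∀ i ∈ s, Bd (u i)) :
    μ.m (fun x => ∑ i ∈ s, u i x) = ∑ i ∈ s, μ.m (u i) := by
  classical
  induction s using Finset.induction_on with
  | empty => simpa using m_const μ 0
  | insert a s ha ih =>
    simp only [Finset.sum_insert ha]
    rw [μ.add (u a) (fun x => ∑ i ∈ s, u i x) (hu a (Finset.mem_insert_self a s))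
      (bd_sum s fun i hi => hu i (Finset.mem_insert_of_mem hi)),
      ih fun i hi => hu i (Finset.mem_insert_of_mem hi)]

theorem m_abs_le {u : Γ → ℝ} {C : ℝ} (hC : ∀ x, |u x| ≤ C) : |μ.m u| ≤ C := by
  have hu : Bd u := ⟨C, hC⟩
  rw [abs_le]
  constructor
  · have := m_mono μ (bd_const (-C)) hu (fun x => (abs_le.1 (hC x)).1)
    rwa [m_const] at this
  · have := m_mono μ hu (bd_const C) (fun x => (abs_le.1 (hC x)).2)
    rwa [m_const] at this

/-- the bounded functions -/
def BS (Γ : Type) : Submodule ℝ (Γ → ℝ) where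
  carrier := {u | Bd u}
  add_mem' := bd_add
  zero_mem' := bd_const 0
  smul_mem' c _ hu := bd_smul c hu

/-- the bounded functions, with the semi-inner product of the mean -/
def BV (_μ : RMean Γ) : Type := BS Γ

instance : AddCommGroup (BV μ) := inferInstanceAs (AddCommGroup (BS Γ))

instance : Module ℝ (BV μ) := inferInstanceAs (Module ℝ (BS Γ))

/-- a bounded function as an element of the space -/
def mk {u : Γ → ℝ} (hu : Bd u) : BV μ := (⟨u, hu⟩ : BS Γ)

/-- the function of an element -/
def fn (u : BV μ) : Γ → ℝ := (show BS Γ from u).1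

theorem fn_bd (u : BV μ) : Bd (fn μ u) := (show BS Γ from u).2

@[simp] theorem fn_mk {u : Γ → ℝ} (hu : Bd u) : fn μ (mk μ hu) = u := rfl

@[simp] theorem mk_fn (u : BV μ) : mk μ (fn_bd μ u) = u := rfl

theorem fn_add (u v : BV μ) : fn μ (u + v) = fun x => fn μ u x + fn μ v x := rfl

theorem fn_smul (c : ℝ) (u : BV μ) : fn μ (c • u) = fun x => c * fn μ u x := rfl

theorem fn_ext {u v : BV μ} (h : fn μ u = fn μ v) : u = v :=
  Subtype.ext (p := fun u => u ∈ BS Γ) h

instance : PreInnerProductSpace.Core ℝ (BV μ) where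
  inner u v := μ.m (fun x => fn μ u x * fn μ v x)
  conj_inner_symm u v := by simp [mul_comm]
  re_inner_nonneg u := μ.nonneg _ (bd_mul (fn_bd μ u) (fn_bd μ u)) (fun x => mul_self_nonneg _)
  add_left u v w := by
    simp only [fn_add, add_mul]
    exact μ.add _ _ (bd_mul (fn_bd μ u) (fn_bd μ w)) (bd_mul (fn_bd μ v) (fn_bd μ w))
  smul_left u v r := by
    simp only [fn_smul, mul_assoc]
    exact μ.smul r _ (bd_mul (fn_bd μ u) (fn_bd μ v))

noncomputable instance : SeminormedAddCommGroup (BV μ) :=
  InnerProductSpace.Core.toSeminormedAddCommGroup (𝕜 := ℝ)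

noncomputable instance : InnerProductSpace ℝ (BV μ) := .ofCore _

theorem inner_def (u v : BV μ) : inner ℝ u v = μ.m (fun x => fn μ u x * fn μ v x) := rfl

theorem norm_sq (u : BV μ) : ‖u‖ ^ 2 = μ.m (fun x => fn μ u x ^ 2) := by
  rw [← real_inner_self_eq_norm_sq, inner_def]
  simp only [pow_two]

/-- the Cauchy-Schwarz inequality -/
theorem cs {u v : Γ → ℝ} (hu : Bd u) (hv : Bd v) :
    μ.m (fun x => u x * v x) ^ 2 ≤ μ.m (fun x => u x ^ 2) * μ.m (fun x => v x ^ 2) := by
  have h := real_inner_mul_inner_self_le (mk μ hu) (mk μ hv)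
  simp only [inner_def, fn_mk] at h
  simpa [pow_two] using h

/-- the right translations, on the bounded functions -/
noncomputable def R (g : Γ) : BV μ →ₗᵢ[ℝ] BV μ where
  toFun u := mk μ (bd_right (fn_bd μ u) g)
  map_add' _ _ := rfl
  map_smul' _ _ := rfl
  norm_map' u := by
    have h : ‖(mk μ (bd_right (fn_bd μ u) g))‖ ^ 2 = ‖u‖ ^ 2 := by
      rw [norm_sq, norm_sq]
      exact μ.inv (fun x => fn μ u x ^ 2) g (bd_sq (fn_bd μ u))
    exact (sq_eq_sq₀ (norm_nonneg _) (norm_nonneg _)).1 h

theorem R_apply (g : Γ) (u : BV μ) : R μ g u = mk μ (bd_right (fn_bd μ u) g) := rfl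

theorem R_mul (g h : Γ) (u : BV μ) : R μ (g * h) u = R μ g (R μ h u) := by
  apply fn_ext
  simp only [R_apply, fn_mk, mul_assoc]

theorem R_one (u : BV μ) : R μ 1 u = u := by
  apply fn_ext
  simp only [R_apply, fn_mk, mul_one]

/-- the Hilbert space -/
abbrev HS : Type := Completion (BV μ)

/-- the translation on the Hilbert space -/
noncomputable def PC (g : Γ) : HS μ →ₗᵢ[ℝ] HS μ where
  toFun := Completion.map (R μ g)
  map_add' x y := by
    induction x, y using Completion.induction_on₂ with
    | hp =>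
      have hc : Continuous (Completion.map (R μ g)) := Completion.continuous_map
      exact isClosed_eq (hc.comp (continuous_fst.add continuous_snd))
        (Continuous.add (f := fun x : HS μ × HS μ => Completion.map (R μ g) x.1)
          (g := fun x : HS μ × HS μ => Completion.map (R μ g) x.2)
          (hc.comp continuous_fst) (hc.comp continuous_snd))
    | ih x y =>
      have hu := (R μ g).isometry.uniformContinuous
      rw [← Completion.coe_add, Completion.map_coe hu, Completion.map_coe hu,
        Completion.map_coe hu, map_add, Completion.coe_add]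
  map_smul' c x := by
    induction x using Completion.induction_on with
    | hp =>
      have hc : Continuous (Completion.map (R μ g)) := Completion.continuous_map
      exact isClosed_eq (hc.comp (continuous_id.const_smul c))
        (Continuous.const_smul (g := fun x : HS μ => Completion.map (R μ g) x) hc c)
    | ih x =>
      have hu := (R μ g).isometry.uniformContinuous
      rw [← Completion.coe_smul, Completion.map_coe hu, Completion.map_coe hu,
        map_smul, Completion.coe_smul]
      rfl
  norm_map' x := by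
    induction x using Completion.induction_on with
    | hp =>
      exact isClosed_eq (Completion.continuous_map.norm) continuous_norm
    | ih x =>
      have hu := (R μ g).isometry.uniformContinuous
      show ‖Completion.map (R μ g) x‖ = _
      rw [Completion.map_coe hu, Completion.norm_coe, Completion.norm_coe]
      exact (R μ g).norm_map x

theorem PC_coe (g : Γ) (x : BV μ) : PC μ g (x : HS μ) = (R μ g x : BV μ) :=
  Completion.map_coe (R μ g).isometry.uniformContinuous x

theorem PC_mul (g h : Γ) (x : HS μ) : PC μ (g * h) x = PC μ g (PC μ h x) := by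
  induction x using Completion.induction_on with
  | hp =>
    exact isClosed_eq (PC μ (g * h)).continuous ((PC μ g).continuous.comp (PC μ h).continuous)
  | ih x => rw [PC_coe, PC_coe, PC_coe, R_mul]

theorem PC_one (x : HS μ) : PC μ 1 x = x := by
  induction x using Completion.induction_on with
  | hp => exact isClosed_eq (PC μ 1).continuous continuous_id
  | ih x => rw [PC_coe, R_one]

/-- the translation as an isometric equivalence -/
noncomputable def PE (g : Γ) : HS μ ≃ₗᵢ[ℝ] HS μ where
  toFun := PC μ g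
  map_add' := map_add _
  map_smul' := map_smul _
  invFun := PC μ g⁻¹
  left_inv x := by
    rw [← PC_mul, inv_mul_cancel, PC_one]
  right_inv x := by
    rw [← PC_mul, mul_inv_cancel, PC_one]
  norm_map' := (PC μ g).norm_map

/-- the representation -/
noncomputable def PI : Γ →* (HS μ ≃ₗᵢ[ℝ] HS μ) where
  toFun := PE μ
  map_one' := by
    ext x
    exact PC_one μ x
  map_mul' g h := by
    ext x
    exact PC_mul μ g h x

end mean

end GnsL

open GnsL UniformSpace in
theorem gns : S_GNS := by
  classical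
  intro Γ _ μ
  refine ⟨HS μ, inferInstance, inferInstance, inferInstance, PI μ,
    fun u => if h : Bd u then ((mk μ h : BV μ) : HS μ) else 0, ?_, ?_, ?_, ?_, ?_⟩
  · intro u v hu hv
    simp only [hu, hv, bd_add hu hv, dif_pos]
    rw [← Completion.coe_add]
    rfl
  · intro c u hu
    simp only [hu, bd_smul c hu, dif_pos]
    rw [← Completion.coe_smul]
    rfl
  · intro u v hu hv
    simp only [hu, hv, dif_pos]
    rw [Completion.inner_coe]
    rfl
  · intro g u hu
    simp only [hu, bd_right hu g, dif_pos]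
    exact PC_coe μ g (mk μ hu)
  · intro h ε hε
    obtain ⟨u, hu⟩ := Completion.denseRange_coe.exists_dist_lt h hε
    refine ⟨fn μ u, fn_bd μ u, ?_⟩
    simp only [fn_bd μ u, dif_pos, mk_fn]
    rw [← dist_eq_norm]
    exact hu.le

end Pool.Agent.Helper52K9.CG
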