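import Pool.Agent.Helper52K9.CG.Qsub

/-!
# Project CG: the growth of a group which is quasi-isometric to the graph
-/

set_option autoImplicit false

namespace Pool.Agent.Helper52K9.CG

open scoped Pointwise
open XmL QsubL

theorem gr (hga : S_GA) (hrd : S_RD) : S_GR := by
  classical
  intro l Γ _ S f K hQ
  obtain ⟨C₀, hC₀, hm, hi, -⟩ := hga l
  obtain ⟨hr, -, C₂, hC₂⟩ := hrd l
  have hC0 : 0 ≤ C₀ := by linarith
  have h1S : (1 : Γ) ∈ (S : Set Γ) := hQ.one_mem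
  have hK : 0 ≤ K := by
    have h := hQ.up 0 1 (by rw [pow_zero]; exact Set.mem_one.2 rfl) 1
    have h2 := ga_nonneg ((f 1)⁻¹ * f (1 * 1))
    simp only [Nat.cast_zero, zero_add, mul_one] at h
    simp only [mul_one] at h2
    linarith
  have hpow : ∀ h : Γ, ∃ n : ℕ, h ∈ (S : Set Γ) ^ n := by
    intro h
    obtain ⟨n, -, hn⟩ := hQ.low 1 h ⌈ga ((f 1)⁻¹ * f h)⌉₊ (Nat.le_ceil _)
    rw [inv_one, one_mul] at hn
    exact ⟨n, hn⟩
  obtain ⟨φ, hφ⟩ : ∃ φ : Γ → Pt, φ = fun g => rd l ((f 1)⁻¹ * f g) := ⟨_, rfl⟩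
  obtain ⟨r₀, hr₀⟩ : ∃ r₀ : ℕ, r₀ = ⌈C₀ * (1 + C₀)⌉₊ := ⟨_, rfl⟩
  obtain ⟨N, hN⟩ : ∃ N : ℕ, N = ⌊K * (r₀ + 1)⌋₊ := ⟨_, rfl⟩
  -- the fibres
  have hfib : ∀ g g' : Γ, φ g = φ g' → g⁻¹ * g' ∈ (S : Set Γ) ^ N := by
    intro g g' h
    have e1 := hr ((f 1)⁻¹ * f g)
    have e2 := hr ((f 1)⁻¹ * f g')
    have h' : rd l ((f 1)⁻¹ * f g) = rd l ((f 1)⁻¹ * f g') := by rw [hφ] at h; exact h
    rw [← h'] at e2
    have e3 := (hi (((f 1)⁻¹ * f g')⁻¹ * em l (rd l ((f 1)⁻¹ * f g)))).trans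
      (mul_le_mul_of_nonneg_left e2 hC0)
    have e : (f g)⁻¹ * f g' = (((f 1)⁻¹ * f g)⁻¹ * em l (rd l ((f 1)⁻¹ * f g))) *
        (((f 1)⁻¹ * f g')⁻¹ * em l (rd l ((f 1)⁻¹ * f g)))⁻¹ := by group
    have e4 : ga ((f g)⁻¹ * f g') ≤ C₀ * (1 + C₀) := by
      rw [e]
      exact (hm _ _).trans (mul_le_mul_of_nonneg_left (by linarith) hC0)
    obtain ⟨n, hn, hn'⟩ := hQ.low g g' r₀ (e4.trans (by rw [hr₀]; exact Nat.le_ceil _))
    refine Set.pow_subset_pow_right h1S ?_ hn'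
    rw [hN]
    exact Nat.le_floor hn
  have hem0 : em l 0 = 1 := by
    ext i <;> simp [em]
  obtain ⟨M, hM⟩ : ∃ M : ℕ, M = ⌈C₀ * (K + 1)⌉₊ := ⟨_, rfl⟩
  have himg : ∀ n : ℕ, ∀ g ∈ (S : Set Γ) ^ n,
      φ g ∈ {b : Pt | ga ((em l 0)⁻¹ * em l b) ≤ ((M * (n + 1) : ℕ) : ℝ)} := by
    intro n g hg
    have h1 := hQ.up n g hg 1
    rw [one_mul] at h1
    have e1 := hr ((f 1)⁻¹ * f g)
    have e : em l (φ g) = ((f 1)⁻¹ * f g) * (((f 1)⁻¹ * f g)⁻¹ * em l (rd l ((f 1)⁻¹ * f g))) := by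
      rw [hφ]
      group
    show ga ((em l 0)⁻¹ * em l (φ g)) ≤ _
    rw [hem0, inv_one, one_mul, e]
    refine (hm _ _).trans ?_
    have h2 : C₀ * (ga ((f 1)⁻¹ * f g) + ga (((f 1)⁻¹ * f g)⁻¹ *
        em l (rd l ((f 1)⁻¹ * f g)))) ≤ C₀ * ((K + 1) * (n + 1)) := by
      apply mul_le_mul_of_nonneg_left _ hC0
      have : (0 : ℝ) ≤ n := Nat.cast_nonneg n
      linarith
    refine h2.trans ?_
    push_cast
    rw [← mul_assoc]
    apply mul_le_mul_of_nonneg_right _ (by positivity)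
    rw [hM]
    exact Nat.le_ceil _
  have hgrow : ∃ C : ℕ, ∀ n : ℕ, ((S : Set Γ) ^ n).ncard ≤ C * (n + 1) ^ 12 := by
    refine ⟨(S ^ N).card * (C₂ * (M + 1) ^ 12), fun n => ?_⟩
    have hc : ((S : Set Γ) ^ n).ncard = (S ^ n).card := by
      rw [← Finset.coe_pow, Set.ncard_coe_finset]
    rw [hc]
    have h1 := Finset.card_le_mul_card_image (f := φ) (S ^ n) (S ^ N).card (fun a ha => by
      obtain ⟨g, hg, rfl⟩ := Finset.mem_image.1 ha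
      refine Finset.card_le_card_of_injOn (fun g' => g⁻¹ * g') (fun g' hg' => ?_)
        (fun x _ y _ h => mul_left_cancel h)
      have h2 := hfib g g' (Finset.mem_filter.1 hg').2.symm
      rw [← Finset.coe_pow] at h2
      exact Finset.mem_coe.1 h2)
    have hsub : ((S ^ n).image φ : Set Pt) ⊆
        {b : Pt | ga ((em l 0)⁻¹ * em l b) ≤ ((M * (n + 1) : ℕ) : ℝ)} := by
      intro b hb
      obtain ⟨g, hg, rfl⟩ := Finset.mem_image.1 (Finset.mem_coe.1 hb)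
      apply himg n g
      rw [← Finset.coe_pow]
      exact Finset.mem_coe.2 hg
    have h3 := Set.ncard_le_ncard hsub (hC₂ (M * (n + 1)) 0).1
    rw [Set.ncard_coe_finset] at h3
    have h4 := h3.trans (hC₂ (M * (n + 1)) 0).2
    have h5 : C₂ * (M * (n + 1) + 1) ^ 12 ≤ C₂ * (M + 1) ^ 12 * (n + 1) ^ 12 := by
      rw [mul_assoc, ← mul_pow]
      apply Nat.mul_le_mul_left
      apply Nat.pow_le_pow_left
      nlinarith
    calc (S ^ n).card ≤ (S ^ N).card * ((S ^ n).image φ).card := h1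
      _ ≤ (S ^ N).card * (C₂ * (M + 1) ^ 12 * (n + 1) ^ 12) :=
          Nat.mul_le_mul_left _ (h4.trans h5)
      _ = _ := by ring
  refine ⟨hgrow, fun T => ?_⟩
  obtain ⟨C, hC⟩ := hgrow
  obtain ⟨m, hm'⟩ := bound h1S (fun t : Γ => t) hpow T.finite_toSet
  refine ⟨C * (m + 1) ^ 12, fun n => ?_⟩
  have hsub : (T : Set Γ) ^ n ⊆ (S : Set Γ) ^ (m * n) := by
    rw [pow_mul]
    exact Set.pow_subset_pow_left fun t ht => hm' t ht
  have hfin : ((S : Set Γ) ^ (m * n)).Finite := by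
    rw [← Finset.coe_pow]
    exact Finset.finite_toSet _
  refine (Set.ncard_le_ncard hsub hfin).trans ((hC (m * n)).trans ?_)
  rw [mul_assoc, ← mul_pow]
  apply Nat.mul_le_mul_left
  apply Nat.pow_le_pow_left
  nlinarith

end Pool.Agent.Helper52K9.CG
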