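import Pool.Agent.Helper52K9.CG.Stm
import Pool.Agent.TH730.UT.Main

/-!
# [GRO] Gromov's theorem: groups of polynomial growth are virtually nilpotent
-/

set_option autoImplicit false

namespace Pool.Agent.Helper52K9.CG

open scoped Pointwise

namespace GroL

/-- from a subgroup of finite index to the group -/
theorem up {G : Type} [Group G] (H : Subgroup G) (hH : H.FiniteIndex)
    (h : ∃ L : Subgroup H, L.FiniteIndex ∧ Group.IsNilpotent L) :
    ∃ L : Subgroup G, L.FiniteIndex ∧ Group.IsNilpotent L := by
  obtain ⟨L, hL, hn⟩ := h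
  refine ⟨L.map H.subtype, ⟨?_⟩, ?_⟩
  · rw [Subgroup.index_map_subtype]
    exact mul_ne_zero hL.index_ne_zero hH.index_ne_zero
  · exact Group.nilpotent_of_mulEquiv (L.equivMapOfInjective H.subtype H.subtype_injective)

end GroL

open GroL in
theorem gro (hT : S_TOZ) (hM : S_MIL) (hW : S_MW) : S_GRO := by
  intro d
  induction d with
  | zero =>
    intro G _ _ hp
    rcases finite_or_infinite G with h | h
    · exact ⟨⊥, inferInstance, inferInstance⟩
    · obtain ⟨H, hH, χ, hχ⟩ := hT 0 G hp
      have hfg : Group.FG H := inferInstance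
      obtain ⟨-, d', hd, -⟩ := hM 0 H χ hχ (Pool.Agent.TH719.ED.H730.PolyGrowth.sub hp H)
      omega
  | succ d IH =>
    intro G _ _ hp
    rcases finite_or_infinite G with h | h
    · exact ⟨⊥, inferInstance, inferInstance⟩
    · obtain ⟨H, hH, χ, hχ⟩ := hT (d + 1) G hp
      have hfg : Group.FG H := inferInstance
      have hpH := Pool.Agent.TH719.ED.H730.PolyGrowth.sub hp H
      obtain ⟨hk, d', hd, hp'⟩ := hM (d + 1) H χ hχ hpH
      obtain rfl : d' = d := by omega
      exact up H hH (hW (d' + 1) H χ hχ hpH hk (IH χ.ker hp'))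

end Pool.Agent.Helper52K9.CG
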