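import Pool.Agent.Helper52K9.CG.Stm

/-!
# Project CG, leaf [HALL]: Hall's criterion (helper77)
-/

set_option autoImplicit false

namespace Pool.Agent.Helper52K9.CG

namespace HallL

open Subgroup

variable {G : Type*} [Group G]

/-- the three subgroups lemma modulo a normal subgroup -/
theorem three (A B C L : Subgroup G) [L.Normal]
    (h1 : ⁅⁅B, C⁆, A⁆ ≤ L) (h2 : ⁅⁅C, A⁆, B⁆ ≤ L) : ⁅⁅A, B⁆, C⁆ ≤ L := by
  have key : ∀ M : Subgroup G, M ≤ L ↔ M.map (QuotientGroup.mk' L) = ⊥ := by
    intro M
    rw [Subgroup.map_eq_bot_iff, QuotientGroup.ker_mk']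
  rw [key, map_commutator, map_commutator] at h1 h2 ⊢
  exact commutator_commutator_eq_bot_of_rotate h1 h2

/-- iterated commutators with the whole group -/
def D (n : ℕ) (A : Subgroup G) : Subgroup G := (fun B : Subgroup G => ⁅B, (⊤ : Subgroup G)⁆)^[n] A

@[simp] theorem D_zero (A : Subgroup G) : D 0 A = A := rfl

theorem D_succ (n : ℕ) (A : Subgroup G) : D (n + 1) A = ⁅D n A, (⊤ : Subgroup G)⁆ := by
  unfold D; rw [Function.iterate_succ_apply']

theorem D_succ' (n : ℕ) (A : Subgroup G) : D (n + 1) A = D n ⁅A, (⊤ : Subgroup G)⁆ := by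
  unfold D; rw [Function.iterate_succ_apply]

theorem D_add (m n : ℕ) (A : Subgroup G) : D (m + n) A = D m (D n A) := by
  unfold D; rw [Function.iterate_add_apply]

theorem D_normal (n : ℕ) (A : Subgroup G) [A.Normal] : (D n A).Normal := by
  induction n with
  | zero => simpa
  | succ n ih => rw [D_succ]; infer_instance

theorem D_mono (n : ℕ) {A B : Subgroup G} (h : A ≤ B) : D n A ≤ D n B := by
  induction n with
  | zero => simpa
  | succ n ih => rw [D_succ, D_succ]; exact commutator_mono ih le_rfl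

theorem D_le (n : ℕ) (A : Subgroup G) [A.Normal] : D n A ≤ A := by
  induction n with
  | zero => simp
  | succ n ih =>
    rw [D_succ]
    have := D_normal n A
    exact (commutator_le_left _ _).trans ih

theorem D_anti {m n : ℕ} (h : m ≤ n) (A : Subgroup G) [A.Normal] : D n A ≤ D m A := by
  obtain ⟨k, rfl⟩ := Nat.exists_eq_add_of_le h
  rw [add_comm, D_add]
  have := D_normal m A
  exact D_le _ _

/-- the preimage of the upper central series of the quotient -/
def U (L : Subgroup G) [L.Normal] (n : ℕ) : Subgroup G :=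
  (Subgroup.upperCentralSeries (G ⧸ L) n).comap (QuotientGroup.mk' L)

instance (L : Subgroup G) [L.Normal] (n : ℕ) : (U L n).Normal := by
  unfold U; infer_instance

theorem U_zero (L : Subgroup G) [L.Normal] : U L 0 = L := by
  unfold U
  rw [Subgroup.upperCentralSeries_zero, MonoidHom.comap_bot, QuotientGroup.ker_mk']

theorem le_U_succ (L M : Subgroup G) [L.Normal] (n : ℕ) :
    M ≤ U L (n + 1) ↔ ⁅M, (⊤ : Subgroup G)⁆ ≤ U L n := by
  rw [commutator_le]
  constructor
  · intro h x hx y _
    have h1 := h hx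
    unfold U at h1 ⊢
    rw [mem_comap, Subgroup.mem_upperCentralSeries_succ_iff] at h1
    rw [mem_comap, map_commutatorElement]
    exact h1 _
  · intro h x hx
    unfold U at h ⊢
    rw [mem_comap, Subgroup.mem_upperCentralSeries_succ_iff]
    intro y
    obtain ⟨y, rfl⟩ := QuotientGroup.mk'_surjective L y
    have h2 := h x hx y (mem_top y)
    rw [mem_comap, map_commutatorElement] at h2
    exact h2

theorem le_U (L M : Subgroup G) [L.Normal] (n : ℕ) : M ≤ U L n ↔ D n M ≤ L := by
  induction n generalizing M with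
  | zero => rw [U_zero, D_zero]
  | succ n ih => rw [le_U_succ, ih, D_succ']

/-- the product rule -/
theorem leib (L : Subgroup G) [L.Normal] (n : ℕ) : ∀ (A B : Subgroup G) [A.Normal] [B.Normal],
    (∀ a b : ℕ, a + b = n → ⁅D a A, D b B⁆ ≤ L) → ⁅A, B⁆ ≤ U L n := by
  induction n with
  | zero =>
    intro A B _ _ h
    rw [U_zero]
    exact h 0 0 rfl
  | succ n ih =>
    intro A B _ _ h
    rw [le_U_succ]
    refine three A B ⊤ (U L n) ?_ ?_
    · rw [commutator_comm]
      refine ih A ⁅B, ⊤⁆ fun a b hab => ?_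
      rw [← D_succ']
      exact h a (b + 1) (by omega)
    · rw [commutator_comm ⊤ A]
      refine ih ⁅A, ⊤⁆ B fun a b hab => ?_
      rw [← D_succ']
      exact h (a + 1) b (by omega)

theorem lcs_normal (N : Subgroup G) [N.Normal] (i : ℕ) : (N.lowerCentralSeries i).Normal := by
  induction i with
  | zero => simpa
  | succ i ih => rw [Subgroup.lowerCentralSeries_succ]; infer_instance

theorem lcs_comm (N : Subgroup G) [N.Normal] (i : ℕ) :
    ⁅N.lowerCentralSeries i, N.lowerCentralSeries 1⁆ ≤ N.lowerCentralSeries (i + 2) := by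
  have := lcs_normal N i
  have := lcs_normal N (i + 2)
  rw [commutator_comm]
  refine three N N (N.lowerCentralSeries i) (N.lowerCentralSeries (i + 2)) ?_ ?_
  · rw [commutator_comm N (N.lowerCentralSeries i)]
    rfl
  · rfl

theorem step (N : Subgroup G) [N.Normal] (m : ℕ) (hm : D m N ≤ N.lowerCentralSeries 1) (i : ℕ) :
    ∃ k : ℕ, D k (N.lowerCentralSeries i) ≤ N.lowerCentralSeries (i + 1) := by
  induction i with
  | zero => exact ⟨m, hm⟩
  | succ i ih =>
    obtain ⟨k, hk⟩ := ih
    refine ⟨k + m, ?_⟩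
    have := lcs_normal N i
    have := lcs_normal N (i + 2)
    rw [← le_U, Subgroup.lowerCentralSeries_succ]
    refine leib _ _ _ _ fun a b hab => ?_
    rcases le_or_gt k a with h | h
    · refine (commutator_mono ((D_anti h _).trans hk) (D_le b N)).trans ?_
      exact le_rfl
    · refine (commutator_mono (D_le a _) ((D_anti (by omega : m ≤ b) N).trans hm)).trans ?_
      exact lcs_comm N i

theorem D_top (n : ℕ) : D n (⊤ : Subgroup G) = (⊤ : Subgroup G).lowerCentralSeries n := by
  induction n with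
  | zero => rfl
  | succ n ih => rw [D_succ, ih, Subgroup.lowerCentralSeries_succ]

end HallL

open HallL in
theorem hall : S_HALL := by
  intro G _ N _ hN hQ
  obtain ⟨c, hc⟩ := (Subgroup.isNilpotent_iff_lowerCentralSeries N).1 hN
  obtain ⟨m, hm⟩ := (Subgroup.nilpotent_iff_lowerCentralSeries).1 hQ
  have h1 : D m (⊤ : Subgroup G) ≤ N.lowerCentralSeries 1 := by
    rw [D_top]
    have h2 : ((⊤ : Subgroup G).lowerCentralSeries m).map (QuotientGroup.mk' ⁅N, N⁆) = ⊥ := by
      rw [Subgroup.map_lowerCentralSeries, ← MonoidHom.range_eq_map,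
        MonoidHom.range_eq_top_of_surjective _ (QuotientGroup.mk'_surjective _), hm]
    rw [Subgroup.map_eq_bot_iff, QuotientGroup.ker_mk'] at h2
    exact h2
  have h2 : D m N ≤ N.lowerCentralSeries 1 := (D_mono m le_top).trans h1
  have h3 : ∀ i, ∃ k, D k (⊤ : Subgroup G) ≤ N.lowerCentralSeries (i + 1) := by
    intro i
    induction i with
    | zero => exact ⟨m, h1⟩
    | succ i ih =>
      obtain ⟨k, hk⟩ := ih
      obtain ⟨k', hk'⟩ := step N m h2 (i + 1)
      refine ⟨k' + k, ?_⟩
      rw [D_add]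
      exact (D_mono k' hk).trans hk'
  obtain ⟨k, hk⟩ := h3 c
  rw [Subgroup.nilpotent_iff_lowerCentralSeries]
  refine ⟨k, ?_⟩
  rw [← D_top, ← le_bot_iff]
  refine hk.trans ((Subgroup.lowerCentralSeries_antitone N (Nat.le_succ c)).trans ?_)
  rw [hc]

end Pool.Agent.Helper52K9.CG
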