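import Pool.Agent.Helper52K9.CG.Stm

set_option autoImplicit false

/-! # [HT]: reduced cohomology of nilpotent groups -/

namespace Pool.Agent.Helper52K9.CG

open scoped commutatorElement

namespace HtL

variable {Γ : Type} [Group Γ] {H : Type} [NormedAddCommGroup H] [InnerProductSpace ℝ H]

/-- cocycles -/
def Cc (π : Γ →* (H ≃ₗᵢ[ℝ] H)) (b : Γ → H) : Prop := ∀ g h, b (g * h) = b g + π g (b h)

theorem pi_mul (π : Γ →* (H ≃ₗᵢ[ℝ] H)) (g h : Γ) (v : H) : π (g * h) v = π g (π h v) := by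
  rw [map_mul]
  rfl

theorem pi_one (π : Γ →* (H ≃ₗᵢ[ℝ] H)) (v : H) : π 1 v = v := by
  rw [map_one]
  rfl

/-- Alaoglu and Birkhoff: the vector of minimal norm is invariant -/
theorem birk [CompleteSpace H] (π : Γ →* (H ≃ₗᵢ[ℝ] H)) (Z : Subgroup Γ) (w : H)
    (hw : ∀ x ∈ closure (convexHull ℝ {y | ∃ z ∈ Z, y = π z w}), (∀ z ∈ Z, π z x = x) → x = 0) :
    (0 : H) ∈ closure (convexHull ℝ {y | ∃ z ∈ Z, y = π z w}) := by
  obtain ⟨C, hC⟩ : ∃ C, C = closure (convexHull ℝ {y | ∃ z ∈ Z, y = π z w}) := ⟨_, rfl⟩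
  rw [← hC] at hw ⊢
  have hcl : IsClosed C := hC ▸ isClosed_closure
  have hcv : Convex ℝ C := hC ▸ (convex_convexHull ℝ _).closure
  have hne : C.Nonempty := by
    refine ⟨w, ?_⟩
    rw [hC]
    refine subset_closure (subset_convexHull ℝ _ ⟨1, Z.one_mem, ?_⟩)
    rw [pi_one]
  have hinv : ∀ z ∈ Z, ∀ x ∈ C, π z x ∈ C := by
    intro z hz
    have h1 : C ⊆ (π z) ⁻¹' C := by
      conv_lhs => rw [hC]
      refine closure_minimal (convexHull_min ?_ ?_) (hcl.preimage (π z).continuous)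
      · rintro y ⟨z', hz', rfl⟩
        show π z (π z' w) ∈ C
        rw [← pi_mul, hC]
        exact subset_closure (subset_convexHull ℝ _ ⟨z * z', Z.mul_mem hz hz', rfl⟩)
      · exact hcv.linear_preimage (π z).toLinearEquiv.toLinearMap
    exact h1
  obtain ⟨x₀, hx₀, hmin⟩ := exists_norm_eq_iInf_of_complete_convex hne hcl.isComplete hcv 0
  rw [norm_eq_iInf_iff_real_inner_le_zero hcv hx₀] at hmin
  have h0 : x₀ = 0 := by
    refine hw x₀ hx₀ fun z hz => ?_
    have h1 := hmin _ (hinv z hz x₀ hx₀)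
    rw [zero_sub, inner_neg_left, inner_sub_right, real_inner_self_eq_norm_sq] at h1
    have h2 := norm_sub_sq_real (π z x₀) x₀
    rw [LinearIsometryEquiv.norm_map, real_inner_comm] at h2
    have h3 : ‖π z x₀ - x₀‖ ^ 2 ≤ 0 := by linarith
    have h4 : ‖π z x₀ - x₀‖ = 0 := by
      have := sq_nonneg ‖π z x₀ - x₀‖
      nlinarith [norm_nonneg (π z x₀ - x₀)]
    exact sub_eq_zero.1 (norm_eq_zero.1 h4)
  rw [← h0]
  exact hx₀

/-- subtract a coboundary -/
def mv (π : Γ →* (H ≃ₗᵢ[ℝ] H)) (b : Γ → H) (v : H) (g : Γ) : H := b g - (v - π g v)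

theorem cc_mv {π : Γ →* (H ≃ₗᵢ[ℝ] H)} {b : Γ → H} (hb : Cc π b) (v : H) : Cc π (mv π b v) := by
  intro g h
  unfold mv
  rw [hb g h, pi_mul, map_sub, map_sub]
  abel

/-- one group element -/
theorem single [CompleteSpace H] (π : Γ →* (H ≃ₗᵢ[ℝ] H)) (Z : Subgroup Γ) (K : Submodule ℝ H)
    (hK : IsClosed (K : Set H)) (hKi : ∀ g, ∀ v ∈ K, π g v ∈ K)
    (hKz : ∀ v ∈ K, (∀ z ∈ Z, π z v = v) → v = 0) (b : Γ → H) (hb : Cc π b)
    (hbK : ∀ g, b g ∈ K) (hcomm : ∀ z ∈ Z, ∀ g, b (z * g) = b (g * z)) (g₀ : Γ) (ε : ℝ)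
    (hε : 0 < ε) :
    ∃ v ∈ K, ‖mv π b v g₀‖ ≤ ε ∧ ∀ g, ‖mv π b v g‖ ≤ ‖b g‖ := by
  have h1 : ∀ z ∈ Z, ∀ g, mv π b (b z) g = π z (b g) := by
    intro z hz g
    have h2 := hcomm z hz g
    rw [hb, hb] at h2
    unfold mv
    rw [sub_sub_eq_add_sub, ← h2]
    abel
  have h3 : convexHull ℝ {y | ∃ z ∈ Z, y = π z (b g₀)} ⊆
      {y | ∃ v ∈ K, (∀ g, ‖mv π b v g‖ ≤ ‖b g‖) ∧ y = mv π b v g₀} := by
    refine convexHull_min ?_ ?_
    · rintro y ⟨z, hz, rfl⟩
      refine ⟨b z, hbK z, fun g => ?_, (h1 z hz g₀).symm⟩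
      rw [h1 z hz g, LinearIsometryEquiv.norm_map]
    · rintro y ⟨v, hv, hv', rfl⟩ y' ⟨v', hw, hw', rfl⟩ a a' ha ha' haa
      have h4 : ∀ g, mv π b (a • v + a' • v') g = a • mv π b v g + a' • mv π b v' g := by
        intro g
        unfold mv
        have h5 : b g = a • b g + a' • b g := by rw [← add_smul, haa, one_smul]
        rw [map_add, map_smul, map_smul]
        conv_lhs => rw [h5]
        simp only [smul_sub]
        abel
      refine ⟨a • v + a' • v', K.add_mem (K.smul_mem _ hv) (K.smul_mem _ hw), fun g => ?_,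
        (h4 g₀).symm⟩
      rw [h4]
      refine (norm_add_le _ _).trans ?_
      rw [norm_smul, norm_smul, Real.norm_of_nonneg ha, Real.norm_of_nonneg ha']
      have h5 := mul_le_mul_of_nonneg_left (hv' g) ha
      have h6 := mul_le_mul_of_nonneg_left (hw' g) ha'
      have h7 : ‖b g‖ = a * ‖b g‖ + a' * ‖b g‖ := by rw [← add_mul, haa, one_mul]
      linarith
  have h8 : closure (convexHull ℝ {y | ∃ z ∈ Z, y = π z (b g₀)}) ⊆ K := by
    refine closure_minimal (convexHull_min ?_ K.convex) hK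
    rintro y ⟨z, hz, rfl⟩
    exact hKi z _ (hbK g₀)
  have h9 := birk π Z (b g₀) fun x hx => hKz x (h8 hx)
  obtain ⟨y, hy, hy'⟩ := Metric.mem_closure_iff.1 h9 ε hε
  obtain ⟨v, hv, hv', rfl⟩ := h3 hy
  refine ⟨v, hv, ?_, hv'⟩
  rw [dist_zero_left] at hy'
  exact hy'.le

/-- finitely many group elements -/
theorem fin [CompleteSpace H] (π : Γ →* (H ≃ₗᵢ[ℝ] H)) (Z : Subgroup Γ) (K : Submodule ℝ H)
    (hK : IsClosed (K : Set H)) (hKi : ∀ g, ∀ v ∈ K, π g v ∈ K)
    (hKz : ∀ v ∈ K, (∀ z ∈ Z, π z v = v) → v = 0)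
    (hKc : ∀ z ∈ Z, ∀ g, ∀ v ∈ K, π (z * g) v = π (g * z) v) (b : Γ → H) (hb : Cc π b)
    (hbK : ∀ g, b g ∈ K) (hcomm : ∀ z ∈ Z, ∀ g, b (z * g) = b (g * z)) (F : Finset Γ) (ε : ℝ)
    (hε : 0 < ε) :
    ∃ v ∈ K, ∀ g ∈ F, ‖mv π b v g‖ ≤ ε := by
  classical
  induction F using Finset.induction_on with
  | empty => exact ⟨0, K.zero_mem, by simp⟩
  | insert g₀ F _ ih =>
    obtain ⟨v, hv, hF⟩ := ih
    obtain ⟨v', hv', h1, h2⟩ := single π Z K hK hKi hKz (mv π b v) (cc_mv hb v)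
      (fun g => K.sub_mem (hbK g) (K.sub_mem hv (hKi g v hv)))
      (fun z hz g => by
        unfold mv
        rw [hcomm z hz g, hKc z hz g v hv]) g₀ ε hε
    have h3 : ∀ g, mv π b (v + v') g = mv π (mv π b v) v' g := by
      intro g
      unfold mv
      rw [map_add]
      abel
    refine ⟨v + v', K.add_mem hv hv', fun g hg => ?_⟩
    rw [h3]
    rcases Finset.mem_insert.1 hg with rfl | hg
    · exact h1
    · exact (h2 g).trans (hF g hg)

/-- projections to closed invariant subspaces commute with the action -/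
theorem proj_comm (π : Γ →* (H ≃ₗᵢ[ℝ] H)) (L : Submodule ℝ H) [L.HasOrthogonalProjection]
    (hL : ∀ g, ∀ v ∈ L, π g v ∈ L) (g : Γ) (x : H) :
    L.starProjection (π g x) = π g (L.starProjection x) := by
  refine Submodule.eq_starProjection_of_mem_of_inner_eq_zero
    (hL g _ (Submodule.starProjection_apply_mem L x)) fun w hw => ?_
  have h1 : w = π g (π g⁻¹ w) := by rw [← pi_mul, mul_inv_cancel, pi_one]
  rw [h1, ← map_sub, LinearIsometryEquiv.inner_map_map]
  exact (Submodule.mem_orthogonal' L _).1 (Submodule.sub_starProjection_mem_orthogonal x) _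
    (hL g⁻¹ w hw)

/-- the invariant vectors of `Z` in `K` -/
def invK (π : Γ →* (H ≃ₗᵢ[ℝ] H)) (Z : Subgroup Γ) (K : Submodule ℝ H) : Submodule ℝ H where
  carrier := {v | v ∈ K ∧ ∀ z ∈ Z, π z v = v}
  add_mem' := fun {v w} hv hw => ⟨K.add_mem hv.1 hw.1, fun z hz => by
    rw [map_add, hv.2 z hz, hw.2 z hz]⟩
  zero_mem' := ⟨K.zero_mem, fun z _ => map_zero _⟩
  smul_mem' := fun c v hv => ⟨K.smul_mem c hv.1, fun z hz => by
    rw [map_smul, hv.2 z hz]⟩

theorem invK_closed (π : Γ →* (H ≃ₗᵢ[ℝ] H)) (Z : Subgroup Γ) (K : Submodule ℝ H)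
    (hK : IsClosed (K : Set H)) : IsClosed (invK π Z K : Set H) := by
  have h1 : (invK π Z K : Set H) = (K : Set H) ∩ ⋂ z ∈ Z, {v | π z v = v} := by
    ext v
    simp only [invK, SetLike.mem_coe, Set.mem_inter_iff, Set.mem_iInter, Set.mem_ofPred_eq]
    exact Iff.rfl
  rw [h1]
  refine hK.inter (isClosed_biInter fun z _ => ?_)
  exact isClosed_eq (π z).continuous continuous_id

/-- the main induction -/
theorem main [CompleteSpace H] (π : Γ →* (H ≃ₗᵢ[ℝ] H)) (n : ℕ)
    (hn : Subgroup.upperCentralSeries Γ n = ⊤) : ∀ m i, i + m = n → ∀ K : Submodule ℝ H,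
    IsClosed (K : Set H) → (∀ g, ∀ v ∈ K, π g v ∈ K) → (∀ v ∈ K, (∀ g, π g v = v) → v = 0) →
    (∀ z ∈ Subgroup.upperCentralSeries Γ i, ∀ v ∈ K, π z v = v) → ∀ b, Cc π b →
    (∀ g, b g ∈ K) → (∀ z ∈ Subgroup.upperCentralSeries Γ i, b z = 0) → ∀ (F : Finset Γ) (ε : ℝ),
    0 < ε → ∃ v ∈ K, ∀ g ∈ F, ‖mv π b v g‖ ≤ ε := by
  intro m
  induction m with
  | zero =>
    intro i hi K _ _ _ _ b _ _ hb F ε hε
    rw [add_zero] at hi
    subst hi
    rw [hn] at hb
    refine ⟨0, K.zero_mem, fun g _ => ?_⟩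
    unfold mv
    rw [hb g (Subgroup.mem_top g), map_zero]
    simp [hε.le]
  | succ m ih =>
    intro i hi K hK hKi hKv hKz b hb hbK hbz F ε hε
    obtain ⟨Z, hZ⟩ : ∃ Z, Z = Subgroup.upperCentralSeries Γ (i + 1) := ⟨_, rfl⟩
    have hcom : ∀ z ∈ Z, ∀ g, ∃ u ∈ Subgroup.upperCentralSeries Γ i, z * g = u * (g * z) := by
      intro z hz g
      rw [hZ, Subgroup.mem_upperCentralSeries_succ_iff] at hz
      refine ⟨⁅z, g⁆, hz g, ?_⟩
      rw [commutatorElement_def]
      group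
    have hπc : ∀ z ∈ Z, ∀ g, ∀ v ∈ K, π (z * g) v = π (g * z) v := by
      intro z hz g v hv
      obtain ⟨u, hu, h1⟩ := hcom z hz g
      rw [h1, pi_mul]
      exact hKz u hu _ (hKi _ v hv)
    have hbc : ∀ z ∈ Z, ∀ g, b (z * g) = b (g * z) := by
      intro z hz g
      obtain ⟨u, hu, h1⟩ := hcom z hz g
      rw [h1, hb u, hbz u hu, zero_add]
      exact hKz u hu _ (hbK _)
    obtain ⟨K₀, hK₀⟩ : ∃ K₀, K₀ = invK π Z K := ⟨_, rfl⟩
    have mK₀ : ∀ v, v ∈ K₀ ↔ v ∈ K ∧ ∀ z ∈ Z, π z v = v := by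
      intro v
      rw [hK₀]
      exact Iff.rfl
    have cK₀ : IsClosed (K₀ : Set H) := hK₀ ▸ invK_closed π Z K hK
    have : CompleteSpace K₀ := cK₀.completeSpace_coe
    have iK₀ : ∀ g, ∀ v ∈ K₀, π g v ∈ K₀ := by
      intro g v hv
      rw [mK₀] at hv ⊢
      refine ⟨hKi g v hv.1, fun z hz => ?_⟩
      rw [← pi_mul, hπc z hz g v hv.1, pi_mul, hv.2 z hz]
    have hP := proj_comm π K₀ iK₀
    have hPm : ∀ x, K₀.starProjection x ∈ K₀ := fun x => Submodule.starProjection_apply_mem K₀ x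
    have hle : ∀ x ∈ K₀, x ∈ K := fun x hx => ((mK₀ x).1 hx).1
    -- the part in `K₀`
    have hb₀ : Cc π fun g => K₀.starProjection (b g) := by
      intro g h
      show K₀.starProjection (b (g * h)) = K₀.starProjection (b g) +
        π g (K₀.starProjection (b h))
      rw [hb, map_add, hP]
    obtain ⟨v₀, hv₀, h₀⟩ := ih (i + 1) (by omega) K₀ cK₀ iK₀
      (fun v hv => hKv v (hle v hv)) (by rw [← hZ]; exact fun z hz v hv => ((mK₀ v).1 hv).2 z hz)
      (fun g => K₀.starProjection (b g)) hb₀ (fun g => hPm _)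
      (by
        rw [← hZ]
        intro z hz
        refine hKv _ (hle _ (hPm _)) fun g => ?_
        have h1 : K₀.starProjection (b (z * g)) = K₀.starProjection (b (g * z)) := by
          rw [hbc z hz g]
        rw [hb, hb, map_add, map_add, hP, hP, ((mK₀ _).1 (hPm (b g))).2 z hz] at h1
        have h2 : K₀.starProjection (b g) + K₀.starProjection (b z) =
            K₀.starProjection (b g) + π g (K₀.starProjection (b z)) := by
          rw [← h1]
          abel
        exact (add_left_cancel h2).symm) F (ε / 2) (half_pos hε)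
    -- the part in the complement
    obtain ⟨K₁, hK₁⟩ : ∃ K₁, K₁ = K ⊓ K₀ᗮ := ⟨_, rfl⟩
    have mK₁ : ∀ v, v ∈ K₁ ↔ v ∈ K ∧ v ∈ K₀ᗮ := by
      intro v
      rw [hK₁]
      exact Submodule.mem_inf
    have cK₁ : IsClosed (K₁ : Set H) := by
      rw [hK₁]
      exact hK.inter (Submodule.isClosed_orthogonal K₀)
    have iK₁ : ∀ g, ∀ v ∈ K₁, π g v ∈ K₁ := by
      intro g v hv
      rw [mK₁] at hv ⊢
      refine ⟨hKi g v hv.1, ?_⟩
      rw [Submodule.mem_orthogonal] at hv ⊢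
      intro u hu
      have h1 : u = π g (π g⁻¹ u) := by rw [← pi_mul, mul_inv_cancel, pi_one]
      rw [h1, LinearIsometryEquiv.inner_map_map]
      exact hv.2 _ (iK₀ g⁻¹ u hu)
    have hb₁ : Cc π fun g => b g - K₀.starProjection (b g) := by
      intro g h
      show b (g * h) - K₀.starProjection (b (g * h)) = b g - K₀.starProjection (b g) +
        π g (b h - K₀.starProjection (b h))
      rw [hb, map_add, hP, map_sub]
      abel
    obtain ⟨v₁, hv₁, h₁⟩ := fin π Z K₁ cK₁ iK₁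
      (fun v hv hz => by
        obtain ⟨h1, h2⟩ := (mK₁ v).1 hv
        have h3 : v ∈ K₀ := (mK₀ v).2 ⟨h1, hz⟩
        exact inner_self_eq_zero.1 ((Submodule.mem_orthogonal K₀ v).1 h2 v h3))
      (fun z hz g v hv => hπc z hz g v ((mK₁ v).1 hv).1)
      (fun g => b g - K₀.starProjection (b g)) hb₁
      (fun g => (mK₁ _).2 ⟨K.sub_mem (hbK g) (hle _ (hPm _)),
        Submodule.sub_starProjection_mem_orthogonal _⟩)
      (fun z hz g => by
        show b (z * g) - K₀.starProjection (b (z * g)) = b (g * z) - K₀.starProjection (b (g * z))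
        rw [hbc z hz g]) F (ε / 2) (half_pos hε)
    refine ⟨v₀ + v₁, K.add_mem (hle _ hv₀) ((mK₁ _).1 hv₁).1, fun g hg => ?_⟩
    have h2 : mv π b (v₀ + v₁) g = mv π (fun g => K₀.starProjection (b g)) v₀ g +
        mv π (fun g => b g - K₀.starProjection (b g)) v₁ g := by
      simp only [mv, map_add]
      abel
    rw [h2]
    refine (norm_add_le _ _).trans ?_
    have h3 := h₀ g hg
    have h4 := h₁ g hg
    linarith

end HtL

open HtL in
theorem ht : S_HT := by
  intro Γ _ _ H _ _ _ π b hb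
  obtain ⟨n, hn⟩ := Group.IsNilpotent.nilpotent' (G := Γ)
  obtain ⟨L, hL⟩ : ∃ L, L = invK π ⊤ ⊤ := ⟨_, rfl⟩
  have mL : ∀ v, v ∈ L ↔ ∀ g, π g v = v := by
    intro v
    rw [hL]
    constructor
    · rintro ⟨-, h⟩ g
      exact h g (Subgroup.mem_top g)
    · intro h
      exact ⟨Submodule.mem_top, fun g _ => h g⟩
  have cL : IsClosed (L : Set H) := by
    rw [hL]
    exact invK_closed π ⊤ ⊤ isClosed_univ
  have : CompleteSpace L := cL.completeSpace_coe
  have iL : ∀ g, ∀ v ∈ L, π g v ∈ L := by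
    intro g v hv
    rw [(mL v).1 hv g]
    exact hv
  have hP := proj_comm π L iL
  have hPm : ∀ x, L.starProjection x ∈ L := fun x => Submodule.starProjection_apply_mem L x
  refine ⟨fun g => L.starProjection (b g), fun g h => (mL _).1 (hPm _) h, fun g h => ?_, ?_⟩
  · show L.starProjection (b (g * h)) = _
    rw [hb, map_add, hP, (mL _).1 (hPm _) g]
  · intro F ε hε
    have hb₁ : Cc π fun g => b g - L.starProjection (b g) := by
      intro g h
      show b (g * h) - L.starProjection (b (g * h)) = b g - L.starProjection (b g) +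
        π g (b h - L.starProjection (b h))
      rw [hb, map_add, hP, map_sub]
      abel
    obtain ⟨v, -, hv⟩ := main π n hn n 0 (by omega) Lᗮ (Submodule.isClosed_orthogonal L)
      (fun g v hv => by
        rw [Submodule.mem_orthogonal] at hv ⊢
        intro u hu
        have h1 : u = π g (π g⁻¹ u) := by rw [← pi_mul, mul_inv_cancel, pi_one]
        rw [h1, LinearIsometryEquiv.inner_map_map]
        exact hv _ (iL g⁻¹ u hu))
      (fun v hv h => inner_self_eq_zero.1 ((Submodule.mem_orthogonal L v).1 hv v ((mL v).2 h)))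
      (fun z hz v _ => by
        rw [Subgroup.upperCentralSeries_zero, Subgroup.mem_bot] at hz
        rw [hz, pi_one])
      (fun g => b g - L.starProjection (b g)) hb₁
      (fun g => Submodule.sub_starProjection_mem_orthogonal _)
      (fun z hz => by
        rw [Subgroup.upperCentralSeries_zero, Subgroup.mem_bot] at hz
        have h1 : b 1 = 0 := by
          have h2 := hb 1 1
          rw [mul_one, pi_one] at h2
          simpa using h2
        show b z - L.starProjection (b z) = 0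
        rw [hz, h1, map_zero, sub_zero]) F ε hε
    exact ⟨v, fun g hg => hv g hg⟩

end Pool.Agent.Helper52K9.CG
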