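import Pool.Agent.Helper52K9.CG.Stm
import Pool.Agent.Helper52K9.CG.Mean

/-!
# IND: linear independence
-/

set_option autoImplicit false

namespace Pool.Agent.Helper52K9.CG

open scoped Pointwise

namespace IndL

theorem abs_co_le {l : ℝ} (j : Fin 4 ⊕ Fin 4) (w : NN l) : |co j w| ≤ ga w := by
  unfold co ga
  rcases j with i | i
  · exact ((norm_le_pi_norm w.p i).trans (le_max_left _ _)).trans (le_max_left _ _)
  · exact ((norm_le_pi_norm w.q i).trans (le_max_right _ _)).trans (le_max_left _ _)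

theorem small (ε : ℝ) (hε : 0 < ε) (k : ℝ) (hk : 0 < k) : ∃ η : ℝ, 0 < η ∧ (k * η) ^ 2 ≤ ε := by
  refine ⟨min 1 ε / k, by positivity, ?_⟩
  have h1 : k * (min 1 ε / k) = min 1 ε := by field_simp
  rw [h1]
  have h2 : min 1 ε ≤ 1 := min_le_left _ _
  have h3 : min 1 ε ≤ ε := min_le_right _ _
  have h4 : 0 < min 1 ε := lt_min one_pos hε
  nlinarith

end IndL

open IndL in
theorem ind (hcnt : S_CNT) (hgr : S_GR) : S_IND := by
  classical
  intro l Γ _ S f K hQ μ hμ c hc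
  by_contra hc0
  obtain ⟨δ, hδ, R, hR⟩ := hcnt l Γ S f K hQ c hc0
  obtain ⟨⟨C, hC⟩, _⟩ := hgr l Γ S f K hQ
  obtain ⟨ε, hε, hε2⟩ := small (δ ^ 3 / 2) (by positivity) (128 * ((C : ℝ) + 1)) (by positivity)
  obtain ⟨D, hD⟩ := hμ c S ε hε
  obtain ⟨n₀, hn₀⟩ := exists_nat_ge (|D| / ε)
  set n : ℕ := max (max R n₀) 1 with hn
  have hnR : R ≤ n := (le_max_left _ _).trans (le_max_left _ _)
  have hnn₀ : n₀ ≤ n := (le_max_right _ _).trans (le_max_left _ _)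
  have hn1 : 1 ≤ n := le_max_right _ _
  have hn1' : (1 : ℝ) ≤ n := by exact_mod_cast hn1
  set B : Finset Γ := S ^ n with hB
  have hBc : ((B : Finset Γ) : Set Γ) = (S : Set Γ) ^ n := Finset.coe_pow S n
  let w : Γ → Γ → ℝ := fun g x => ∑ j, c j * co j ((f x)⁻¹ * f (x * g))
  have hwbd : ∀ g ∈ B, Bd (w g) := by
    intro g hg
    refine Bd.sum _ fun j _ => Bd.smul _ ⟨K * (n + 1), fun x => ?_⟩
    refine (abs_co_le j _).trans (hQ.up n g ?_ x)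
    rw [← hBc]
    exact hg
  have hup : ∀ g ∈ B, μ.m (fun x => w g x ^ 2) ≤ (ε * n + D) ^ 2 := by
    intro g hg
    have h1 := hD n g (by rw [← hBc]; exact hg)
    rw [hc g] at h1
    simpa only [sub_zero] using h1
  -- lower bound
  have hlow : δ ^ 3 * (n : ℝ) ^ 14 ≤ μ.m (fun x => ∑ g ∈ B, w g x ^ 2) := by
    have hbd : Bd (fun x => ∑ g ∈ B, w g x ^ 2) := Bd.sum _ fun g hg => (hwbd g hg).sq
    rw [← μ.const (δ ^ 3 * (n : ℝ) ^ 14)]
    refine μ.mono (Bd.const _) hbd fun x => ?_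
    obtain ⟨A, hA1, hA2, hA3⟩ := hR n hnR x
    have hAB : A ⊆ B := by
      intro g hg
      rw [← Finset.mem_coe, hBc]
      exact hA1 (Finset.mem_coe.mpr hg)
    have h1 : ∀ g ∈ A, (δ * n) ^ 2 ≤ w g x ^ 2 := by
      intro g hg
      have h2 := hA3 g hg
      rw [← sq_abs (w g x)]
      exact pow_le_pow_left₀ (by positivity) h2 2
    calc δ ^ 3 * (n : ℝ) ^ 14 = (δ * (n : ℝ) ^ 12) * (δ * n) ^ 2 := by ring
      _ ≤ (A.card : ℝ) * (δ * n) ^ 2 := mul_le_mul_of_nonneg_right hA2 (by positivity)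
      _ = ∑ _g ∈ A, (δ * n) ^ 2 := by rw [Finset.sum_const, nsmul_eq_mul]
      _ ≤ ∑ g ∈ A, w g x ^ 2 := Finset.sum_le_sum h1
      _ ≤ ∑ g ∈ B, w g x ^ 2 :=
        Finset.sum_le_sum_of_subset_of_nonneg hAB fun g _ _ => sq_nonneg _
  have hsum : μ.m (fun x => ∑ g ∈ B, w g x ^ 2) = ∑ g ∈ B, μ.m (fun x => w g x ^ 2) :=
    μ.sum B fun g hg => (hwbd g hg).sq
  have hcard : (B.card : ℝ) ≤ C * (n + 1) ^ 12 := by
    have h1 := hC n
    rw [← hBc, Set.ncard_coe_finset] at h1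
    exact_mod_cast h1
  have hupper : μ.m (fun x => ∑ g ∈ B, w g x ^ 2) ≤ C * (n + 1) ^ 12 * (ε * n + D) ^ 2 := by
    rw [hsum]
    calc ∑ g ∈ B, μ.m (fun x => w g x ^ 2) ≤ ∑ _g ∈ B, (ε * n + D) ^ 2 :=
          Finset.sum_le_sum hup
      _ = (B.card : ℝ) * (ε * n + D) ^ 2 := by rw [Finset.sum_const, nsmul_eq_mul]
      _ ≤ _ := mul_le_mul_of_nonneg_right hcard (sq_nonneg _)
  have hDn : |D| ≤ ε * n := by
    have h1 : |D| / ε ≤ n := hn₀.trans (by exact_mod_cast hnn₀)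
    rw [div_le_iff₀ hε] at h1
    linarith
  have h2 : (ε * n + D) ^ 2 ≤ (2 * (ε * n)) ^ 2 := by
    have h3 := abs_le.mp (le_refl |D|)
    have h4 : 0 < ε * n := by positivity
    apply sq_le_sq'
    · linarith [neg_abs_le D]
    · linarith [le_abs_self D]
  have h3 : ((n : ℝ) + 1) ^ 12 ≤ (2 * n) ^ 12 := by
    apply pow_le_pow_left₀ (by positivity)
    linarith
  have h4 : δ ^ 3 * (n : ℝ) ^ 14 ≤ (C : ℝ) * (2 * n) ^ 12 * (2 * (ε * n)) ^ 2 := by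
    refine hlow.trans (hupper.trans ?_)
    gcongr
  have h5 : (C : ℝ) * (2 * n) ^ 12 * (2 * (ε * n)) ^ 2 = (16384 * C * ε ^ 2) * (n : ℝ) ^ 14 := by
    ring
  rw [h5] at h4
  have hn14 : (0 : ℝ) < (n : ℝ) ^ 14 := by positivity
  have h6 : δ ^ 3 ≤ 16384 * C * ε ^ 2 := le_of_mul_le_mul_right h4 hn14
  have h7 : (16384 : ℝ) * C * ε ^ 2 ≤ (128 * ((C : ℝ) + 1) * ε) ^ 2 := by
    have hC0 : (0 : ℝ) ≤ C := Nat.cast_nonneg C
    have h8 : (128 * ((C : ℝ) + 1) * ε) ^ 2 = 16384 * (((C : ℝ) + 1) ^ 2) * ε ^ 2 := by ring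
    rw [h8]
    have h9 : (C : ℝ) ≤ ((C : ℝ) + 1) ^ 2 := by nlinarith
    gcongr
  have h8 : 0 < δ ^ 3 := by positivity
  linarith

end Pool.Agent.Helper52K9.CG
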