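import Pool.Agent.Helper52K9.CG.Stm
import Pool.Agent.TH730.UT.Main

/-!
# [LINC] a unitary representation of a group of polynomial growth is virtually abelian
-/

set_option autoImplicit false

namespace Pool.Agent.Helper52K9.CG

open scoped Pointwise
open Pool.Agent.TH719.ED Pool.Agent.TH719.ED.H730

namespace LincL

/-- the elements of a subgroup commute in the representation -/
def Cm {G : Type} [Group G] {E : Type} [NormedAddCommGroup E] [InnerProductSpace ℂ E]
    (φ : G →* (E →L[ℂ] E)) (H : Subgroup G) : Prop := ∀ g ∈ H, ∀ h ∈ H, φ (g * h) = φ (h * g)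

theorem map_sub {G : Type} [Group G] {E : Type} [NormedAddCommGroup E] [InnerProductSpace ℂ E]
    (φ : G →* (E →L[ℂ] E)) (H : Subgroup G) (hH : H.FiniteIndex) (L : Subgroup H)
    (hL : L.FiniteIndex) (hc : Cm (φ.comp H.subtype) L) :
    ∃ H : Subgroup G, H.FiniteIndex ∧ Cm φ H := by
  refine ⟨L.map H.subtype, ⟨?_⟩, ?_⟩
  · rw [Subgroup.index_map_subtype]
    exact mul_ne_zero hL.index_ne_zero hH.index_ne_zero
  · rintro _ ⟨g, hg, rfl⟩ _ ⟨h, hh, rfl⟩
    have := hc g hg h hh
    simpa using this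

theorem main (d : ℕ) : ∀ (n : ℕ) (G : Type) [Group G] [Group.FG G]
    (_ : PolyGrowth G d)
    (E : Type) [NormedAddCommGroup E] [InnerProductSpace ℂ E] [FiniteDimensional ℂ E]
    (_ : Module.finrank ℂ E = n)
    (φ : G →* (E →L[ℂ] E)) (_ : ∀ g x, ‖φ g x‖ = ‖x‖),
    ∃ H : Subgroup G, H.FiniteIndex ∧ Cm φ H := by
  classical
  intro n
  induction n using Nat.strong_induction_on with
  | _ n IH =>
  intro G _ _ hpoly E _ _ _ hn φ hiso
  set N : ℕ := 4 ^ d + 1 with hN
  have hN0 : (0 : ℝ) < (N : ℝ) := by exact_mod_cast Nat.succ_pos _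
  set ε : ℝ := 1 / (32 * N) with hε
  have hε0 : 0 < ε := by positivity
  have hNε : 16 * (N : ℝ) * ε < 1 := by rw [hε]; field_simp; norm_num
  have hfi := finite_index φ hiso hε0
  set S : Set G := {g : G | ‖φ g - 1‖ < ε} with hS
  obtain ⟨T₀, hT₀S, hT₀cl⟩ := exists_finset_closure S
  set H : Subgroup G := Subgroup.closure (T₀ : Set G) with hH
  have hHfi : H.FiniteIndex := by rw [hT₀cl]; exact hfi
  have hHfg : Group.FG H := inferInstance
  let φH : H →* (E →L[ℂ] E) := φ.comp H.subtype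
  have hisoH : ∀ g x, ‖φH g x‖ = ‖x‖ := fun g x => hiso _ _
  have hpolyH : PolyGrowth H d := PolyGrowth.sub hpoly H
  -- the finite generating set
  let T₁ : Finset H := T₀.attach.image (fun x => (⟨x.1, Subgroup.subset_closure x.2⟩ : H))
  let T : Finset H := insert 1 (T₁ ∪ T₁.image (fun x => x⁻¹))
  have h1T : (1 : H) ∈ T := Finset.mem_insert_self _ _
  have hinv : ∀ g ∈ T, g⁻¹ ∈ T := by
    intro g hg
    simp only [T, Finset.mem_insert, Finset.mem_union, Finset.mem_image] at hg ⊢
    rcases hg with rfl | hg | ⟨a, ha, rfl⟩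
    · left; simp
    · right; right; exact ⟨g, hg, rfl⟩
    · right; left; simpa using ha
  have hT₁S : ∀ g ∈ T₁, ‖φH g - 1‖ ≤ ε := by
    intro g hg
    simp only [T₁, Finset.mem_image, Finset.mem_attach, true_and, Subtype.exists] at hg
    obtain ⟨x, hx, rfl⟩ := hg
    exact (hT₀S hx).le
  have hTS : ∀ g ∈ T, ‖φH g - 1‖ ≤ ε := by
    intro g hg
    simp only [T, Finset.mem_insert, Finset.mem_union, Finset.mem_image] at hg
    rcases hg with rfl | hg | ⟨a, ha, rfl⟩
    · rw [map_one, sub_self, norm_zero]; exact hε0.le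
    · exact hT₁S g hg
    · exact (norm_inv_sub_one φH (norm_le_one φH hisoH) a).trans (hT₁S a ha)
  have hcl₁ : Subgroup.closure (T₁ : Set H) = ⊤ := by
    have h1 : Subgroup.closure ((↑) ⁻¹' (T₀ : Set G) : Set H) = ⊤ :=
      Subgroup.closure_closure_coe_preimage
    rw [← top_le_iff, ← h1]
    apply Subgroup.closure_mono
    intro x hx
    simp only [T₁, Finset.coe_image, Set.mem_image, Finset.mem_coe, Finset.mem_attach, true_and,
      Subtype.exists]
    exact ⟨x.1, hx, rfl⟩
  have hcl : Subgroup.closure (T : Set H) = ⊤ := by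
    rw [← top_le_iff, ← hcl₁]
    apply Subgroup.closure_mono
    intro x hx
    simp only [T, Finset.coe_insert, Finset.coe_union, Set.mem_insert_iff, Set.mem_union]
    exact Or.inr (Or.inl hx)
  by_cases hB : ∀ h : H, ¬ IsScal (φH h) → ∃ g ∈ T, φH g * φH h ≠ φH h * φH g
  · by_cases hsc : ∀ g ∈ T, IsScal (φH g)
    · -- scalars
      have key : ∀ g : H, IsScal (φH g) := by
        intro g
        have hg : g ∈ Subgroup.closure (T : Set H) := by rw [hcl]; trivial
        refine Subgroup.closure_induction_right (p := fun g _ => IsScal (φH g)) ?_ ?_ ?_ hg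
        · exact ⟨1, by rw [map_one, one_smul]⟩
        · rintro x _ y hy ⟨c, hc⟩
          obtain ⟨e, he⟩ := hsc y hy
          exact ⟨c * e, by rw [map_mul, hc, he, smul_mul_smul_comm, one_mul]⟩
        · rintro x _ y hy ⟨c, hc⟩
          obtain ⟨e, he⟩ := hsc y⁻¹ (hinv y hy)
          exact ⟨c * e, by rw [map_mul, hc, he, smul_mul_smul_comm, one_mul]⟩
      refine ⟨H, hHfi, fun g hg h hh => ?_⟩
      obtain ⟨c, hc⟩ := key ⟨g, hg⟩
      obtain ⟨e, he⟩ := key ⟨h, hh⟩
      have h1 : φ g = c • (1 : E →L[ℂ] E) := hc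
      have h2 : φ h = e • (1 : E →L[ℂ] E) := he
      rw [map_mul, map_mul, h1, h2, smul_mul_smul_comm, smul_mul_smul_comm, mul_comm]
    · push Not at hsc
      obtain ⟨h₀, hh₀, hns⟩ := hsc
      exact absurd (chain_false φH hisoH d hpolyH T h1T hinv hε0 hNε hTS hB h₀ hh₀ hns) id
  · push Not at hB
    obtain ⟨h, hns, hcomm⟩ := hB
    have hcomm' : ∀ g : H, φH g * φH h = φH h * φH g := by
      intro g
      have hg : g ∈ Subgroup.closure (T : Set H) := by rw [hcl]; trivial
      induction hg using Subgroup.closure_induction with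
      | mem x hx => exact hcomm x hx
      | one => simp
      | mul x y _ _ hx hy => rw [map_mul, mul_assoc, hy, ← mul_assoc, hx, mul_assoc]
      | inv x _ hx =>
        have e1 : φH x⁻¹ * φH x = 1 := by rw [← map_mul, inv_mul_cancel, map_one]
        have e2 : φH x * φH x⁻¹ = 1 := by rw [← map_mul, mul_inv_cancel, map_one]
        calc φH x⁻¹ * φH h = φH x⁻¹ * φH h * (φH x * φH x⁻¹) := by rw [e2, mul_one]
          _ = φH x⁻¹ * (φH h * φH x) * φH x⁻¹ := by simp only [mul_assoc]
          _ = φH x⁻¹ * (φH x * φH h) * φH x⁻¹ := by rw [hx]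
          _ = (φH x⁻¹ * φH x) * φH h * φH x⁻¹ := by simp only [mul_assoc]
          _ = φH h * φH x⁻¹ := by rw [e1, one_mul]
    have hnt : Nontrivial E := by
      by_contra hE
      rw [not_nontrivial_iff_subsingleton] at hE
      exact hns ⟨1, by ext x; exact Subsingleton.elim _ _⟩
    obtain ⟨μ, hμ⟩ := Module.End.exists_eigenvalue (φH h : E →ₗ[ℂ] E)
    set W : Submodule ℂ E := Module.End.eigenspace (φH h : E →ₗ[ℂ] E) μ with hWdef
    have hWbot : W ≠ ⊥ := hμ
    have hWtop : W ≠ ⊤ := by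
      intro htop
      apply hns
      refine ⟨μ, ?_⟩
      ext x
      have hx : x ∈ W := by rw [htop]; trivial
      rw [hWdef, Module.End.mem_eigenspace_iff] at hx
      simpa using hx
    have hW : ∀ g, ∀ x ∈ W, φH g x ∈ W := by
      intro g x hx
      rw [hWdef, Module.End.mem_eigenspace_iff] at hx ⊢
      have h1 : φH h (φH g x) = φH g (φH h x) := by
        have := congrArg (fun f : E →L[ℂ] E => f x) (hcomm' g)
        exact this.symm
      have h2 : φH h x = μ • x := hx
      show φH h (φH g x) = μ • φH g x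
      rw [h1, h2, map_smul]
    have hW' : ∀ g, ∀ x ∈ Wᗮ, φH g x ∈ Wᗮ := by
      intro g x hx
      rw [Submodule.mem_orthogonal] at hx ⊢
      intro u hu
      have h1 := hx (φH g⁻¹ u) (hW g⁻¹ u hu)
      have h2 := inner_map φH hisoH g (φH g⁻¹ u) x
      have h3 : φH g (φH g⁻¹ u) = u := by
        have : φH g (φH g⁻¹ u) = (φH g * φH g⁻¹) u := rfl
        rw [this, ← map_mul, mul_inv_cancel, map_one]; rfl
      rw [h3] at h2
      rw [h2, h1]
    have hlt1 : Module.finrank ℂ W < n := by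
      rw [← hn]; exact Submodule.finrank_lt hWtop
    have hlt2 : Module.finrank ℂ Wᗮ < n := by
      have h1 := Submodule.finrank_add_finrank_orthogonal W
      have h2 : 0 < Module.finrank ℂ W := by
        have : Nontrivial W := Submodule.nontrivial_iff_ne_bot.mpr hWbot
        exact Module.finrank_pos
      omega
    obtain ⟨L₁, hL₁, hc₁⟩ := IH _ hlt1 H hpolyH W rfl (res φH W hW) (by
      intro g x
      have : ‖((res φH W hW g x : W) : E)‖ = ‖(x : E)‖ := by
        rw [res_apply]; exact hisoH g x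
      exact this)
    obtain ⟨L₂, hL₂, hc₂⟩ := IH _ hlt2 H hpolyH (Wᗮ : Submodule ℂ E) rfl (res φH Wᗮ hW') (by
      intro g x
      have : ‖((res φH Wᗮ hW' g x : (Wᗮ : Submodule ℂ E)) : E)‖ = ‖(x : E)‖ := by
        rw [res_apply]; exact hisoH g x
      exact this)
    have hL : (L₁ ⊓ L₂).FiniteIndex := inferInstance
    refine map_sub φ H hHfi (L₁ ⊓ L₂) hL fun g hg g' hg' => ?_
    have h1 := hc₁ g hg.1 g' hg'.1
    have h2 := hc₂ g hg.2 g' hg'.2
    change φH (g * g') = φH (g' * g)
    ext x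
    obtain ⟨y, hy, z, hz, rfl⟩ := W.exists_add_mem_mem_orthogonal x
    rw [map_add, map_add]
    congr 1
    · exact congrArg (fun f : W →L[ℂ] W => (f ⟨y, hy⟩ : E)) h1
    · exact congrArg (fun f : Wᗮ →L[ℂ] Wᗮ => (f ⟨z, hz⟩ : E)) h2

end LincL

open LincL in
theorem linc : S_LINC := by
  intro d G _ _ hpoly E _ _ _ ρ
  let φ : G →* (E →L[ℂ] E) :=
    { toFun := fun g => ((ρ g).toContinuousLinearEquiv : E →L[ℂ] E)
      map_one' := by ext x; simp
      map_mul' := fun g h => by ext x; simp }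
  have hφ : ∀ g x, φ g x = ρ g x := fun g x => rfl
  obtain ⟨H, h1, h2⟩ := LincL.main d _ G hpoly E rfl φ (fun g x => by rw [hφ]; exact (ρ g).norm_map x)
  refine ⟨H, h1, fun g hg h hh => ?_⟩
  ext x
  exact congrArg (fun f : E →L[ℂ] E => f x) (h2 g hg h hh)

end Pool.Agent.Helper52K9.CG
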