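import Pool.Agent.Helper52K9.CG.Stm
import Pool.Agent.TH142.ED.Orth

/-!
# [LINR] an orthogonal representation of a group of polynomial growth is virtually abelian
-/

set_option autoImplicit false

namespace Pool.Agent.Helper52K9.CG

open scoped Pointwise

theorem linr (hL : S_LINC) : S_LINR := by
  intro d G _ _ hpoly V _ _ _ ρ
  obtain ⟨H, h1, h2⟩ := hL d G hpoly _ ((Pool.Agent.TH719.ED.H142.cx V).comp ρ)
  exact ⟨H, h1, fun g hg h hh => Pool.Agent.TH719.ED.H142.cx_inj V (h2 g hg h hh)⟩

end Pool.Agent.Helper52K9.CG
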