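import Pool.Agent.Helper52K9.CG.Stm

/-!
# [MIL] Milnor's lemma (helper55)
-/

set_option autoImplicit false

namespace Pool.Agent.Helper52K9.CG

open scoped Pointwise

namespace MilL

variable {G : Type} [Group G]

/-- the conjugates -/
def Y (t e : G) (i : ℕ) : G := t ^ i * e * (t ^ i)⁻¹

/-- the products `e ^ ε_0 (t e t⁻¹) ^ ε_1 ...` -/
def W (t e : G) (ε : ℕ → Bool) : ℕ → G
  | 0 => 1
  | m + 1 => W t e ε m * (if ε m then Y t e m else 1)

theorem fin_pow {T : Set G} (hT : T.Finite) (n : ℕ) : (T ^ n).Finite := by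
  induction n with
  | zero => rw [pow_zero]; exact Set.finite_one
  | succ n ih => rw [pow_succ]; exact ih.mul hT

theorem W_mem (t e : G) (ε : ℕ → Bool) (m : ℕ) : ∀ T : Set G, 1 ∈ T → t ∈ T → e ∈ T →
    W t e ε m * t ^ m ∈ T ^ (2 * m) := by
  intro T h1 ht he
  induction m with
  | zero => simp [W]
  | succ m ih =>
    have e1 : W t e ε (m + 1) * t ^ (m + 1) =
        (W t e ε m * t ^ m) * ((if ε m then e else 1) * t) := by
      rw [W]
      split_ifs
      · rw [Y, pow_succ]
        group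
      · rw [pow_succ]
        group
    rw [e1, show 2 * (m + 1) = 2 * m + 2 by ring, pow_add, pow_two]
    refine Set.mul_mem_mul ih (Set.mul_mem_mul ?_ ht)
    split_ifs
    · exact he
    · exact h1

theorem W_sub (t e : G) (ε : ℕ → Bool) (m : ℕ) :
    W t e ε m ∈ Subgroup.closure {x | ∃ i < m, x = Y t e i} := by
  induction m with
  | zero => exact Subgroup.one_mem _
  | succ m ih =>
    rw [W]
    refine Subgroup.mul_mem _ ?_ ?_
    · refine Subgroup.closure_mono ?_ ih
      rintro x ⟨i, hi, rfl⟩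
      exact ⟨i, by omega, rfl⟩
    · split_ifs
      · exact Subgroup.subset_closure ⟨m, by omega, rfl⟩
      · exact Subgroup.one_mem _

theorem W_eq (t e : G) (ε ε' : ℕ → Bool) (m : ℕ) : W t e ε m = W t e ε' m →
    (∃ i < m, ε i ≠ ε' i) → ∃ k, Y t e k ∈ Subgroup.closure {x | ∃ i < k, x = Y t e i} := by
  induction m with
  | zero =>
    rintro - ⟨i, hi, -⟩
    omega
  | succ m ih =>
    intro hw hi
    by_cases hm : ε m = ε' m
    · rw [W, W, hm] at hw
      refine ih (mul_right_cancel hw) ?_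
      obtain ⟨i, hi, hne⟩ := hi
      refine ⟨i, ?_, hne⟩
      rcases Nat.lt_succ_iff_lt_or_eq.1 hi with h | h
      · exact h
      · rw [h] at hne
        exact absurd hm hne
    · refine ⟨m, ?_⟩
      rw [W, W] at hw
      have h1 := W_sub t e ε m
      have h2 := W_sub t e ε' m
      cases h3 : ε m <;> cases h4 : ε' m
      · exact absurd (h3.trans h4.symm) hm
      · rw [h3, h4] at hw
        simp only [Bool.false_eq_true, if_false, if_true, mul_one] at hw
        have : Y t e m = (W t e ε' m)⁻¹ * W t e ε m := by rw [hw]; group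
        rw [this]
        exact Subgroup.mul_mem _ (Subgroup.inv_mem _ h2) h1
      · rw [h3, h4] at hw
        simp only [Bool.false_eq_true, if_false, if_true, mul_one] at hw
        have : Y t e m = (W t e ε m)⁻¹ * W t e ε' m := by rw [← hw]; group
        rw [this]
        exact Subgroup.mul_mem _ (Subgroup.inv_mem _ h1) h2
      · exact absurd (h3.trans h4.symm) hm

open Filter Topology in
theorem exists_big (C d : ℕ) : ∃ m : ℕ, C * (2 * m + 1) ^ d < 2 ^ m := by
  have h := tendsto_pow_const_div_const_pow_of_one_lt d (show (1 : ℝ) < 2 by norm_num)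
  have h2 := h.const_mul ((C : ℝ) * 3 ^ d)
  rw [mul_zero] at h2
  obtain ⟨m, hm1, hm2⟩ := ((h2.eventually (gt_mem_nhds one_pos)).and (eventually_ge_atTop 1)).exists
  refine ⟨m, ?_⟩
  rw [← mul_div_assoc, div_lt_one (by positivity)] at hm1
  have h3 : ((2 * m + 1 : ℕ) : ℝ) ^ d ≤ (3 * (m : ℝ)) ^ d := by
    refine pow_le_pow_left₀ (by positivity) ?_ d
    have : (1 : ℝ) ≤ m := by exact_mod_cast hm2
    push_cast
    linarith
  have h4 : ((C * (2 * m + 1) ^ d : ℕ) : ℝ) < ((2 ^ m : ℕ) : ℝ) := by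
    push_cast
    push_cast at h3
    calc (C : ℝ) * (2 * m + 1) ^ d ≤ C * (3 * (m : ℝ)) ^ d :=
          mul_le_mul_of_nonneg_left h3 (Nat.cast_nonneg C)
      _ = C * 3 ^ d * (m : ℝ) ^ d := by rw [mul_pow]; ring
      _ < 2 ^ m := hm1
  exact_mod_cast h4

theorem exists_k {d : ℕ} (hG : PG G d) (t e : G) :
    ∃ k, Y t e k ∈ Subgroup.closure {x | ∃ i < k, x = Y t e i} := by
  classical
  obtain ⟨C, hC⟩ := hG {1, t, e}
  obtain ⟨m, hm⟩ := exists_big C d
  set T : Set G := (({1, t, e} : Finset G) : Set G) with hT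
  let ext : (Fin m → Bool) → ℕ → Bool := fun ε i => if h : i < m then ε ⟨i, h⟩ else false
  let f : (Fin m → Bool) → G := fun ε => W t e (ext ε) m * t ^ m
  have hf : ∀ ε, f ε ∈ T ^ (2 * m) := fun ε =>
    W_mem t e (ext ε) m T (by simp [hT]) (by simp [hT]) (by simp [hT])
  have hni : ¬ Function.Injective f := by
    intro hinj
    have h1 : (f '' Set.univ).ncard = 2 ^ m := by
      rw [Set.ncard_image_of_injective _ hinj, Set.ncard_univ, Nat.card_eq_fintype_card,
        Fintype.card_fun, Fintype.card_bool, Fintype.card_fin]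
    have h2 : (f '' Set.univ).ncard ≤ (T ^ (2 * m)).ncard :=
      Set.ncard_le_ncard (by rintro _ ⟨ε, -, rfl⟩; exact hf ε)
        (fin_pow (Finset.finite_toSet _) _)
    have h3 := hC (2 * m)
    omega
  rw [Function.Injective] at hni
  push Not at hni
  obtain ⟨ε, ε', heq, hne⟩ := hni
  refine W_eq t e (ext ε) (ext ε') m (mul_right_cancel heq) ?_
  by_contra hcon
  push Not at hcon
  apply hne
  funext i
  have h1 := hcon i i.2
  simpa [ext, i.2] using h1

/-- all the conjugates lie in the subgroup generated by finitely many of them -/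
theorem all_mem {d : ℕ} (hG : PG G d) (t e : G) :
    ∃ k, ∀ j, Y t e j ∈ Subgroup.closure {x | ∃ i < k, x = Y t e i} := by
  obtain ⟨k, hk⟩ := exists_k hG t e
  refine ⟨k, ?_⟩
  have hstep : ∀ j, t * Y t e j * t⁻¹ = Y t e (j + 1) := by
    intro j
    rw [Y, Y, pow_succ']
    group
  have hconj : ∀ b ∈ Subgroup.closure {x | ∃ i < k, x = Y t e i},
      t * b * t⁻¹ ∈ Subgroup.closure {x | ∃ i < k, x = Y t e i} := by
    intro b hb
    induction hb using Subgroup.closure_induction with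
    | mem x hx =>
      obtain ⟨i, hi, rfl⟩ := hx
      rw [hstep]
      rcases Nat.lt_or_ge (i + 1) k with h | h
      · exact Subgroup.subset_closure ⟨i + 1, h, rfl⟩
      · have : i + 1 = k := by omega
        rw [this]
        exact hk
    | one => rw [mul_one, mul_inv_cancel]; exact Subgroup.one_mem _
    | mul x y _ _ hx hy =>
      have : t * (x * y) * t⁻¹ = (t * x * t⁻¹) * (t * y * t⁻¹) := by group
      rw [this]
      exact Subgroup.mul_mem _ hx hy
    | inv x _ hx =>
      have : t * x⁻¹ * t⁻¹ = (t * x * t⁻¹)⁻¹ := by group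
      rw [this]
      exact Subgroup.inv_mem _ hx
  intro j
  induction j with
  | zero =>
    rcases Nat.eq_zero_or_pos k with h | h
    · rw [h] at hk ⊢
      exact hk
    · exact Subgroup.subset_closure ⟨0, h, rfl⟩
  | succ j ih =>
    rw [← hstep]
    exact hconj _ ih

theorem ker_fg {d : ℕ} [Group.FG G] (χ : G →* Multiplicative ℤ) (hχ : Function.Surjective χ)
    (hG : PG G d) : Group.FG χ.ker := by
  classical
  obtain ⟨t, ht⟩ := hχ (Multiplicative.ofAdd 1)
  obtain ⟨S, hS⟩ := (Group.FG.out : (⊤ : Subgroup G).FG)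
  -- the integer value of the character
  set v : G → ℤ := fun g => Multiplicative.toAdd (χ g) with hv
  have hvt : ∀ z : ℤ, v (t ^ z) = z := by
    intro z
    rw [hv]
    simp only [map_zpow, ht]
    rw [toAdd_zpow, toAdd_ofAdd, smul_eq_mul, mul_one]
  set E : G → G := fun s => s * (t ^ v s)⁻¹ with hE
  choose k hk using fun s : G => all_mem hG t (E s)
  choose k' hk' using fun s : G => all_mem hG t⁻¹ (E s)
  set Φ : Set G := ⋃ s ∈ S, ((fun i => Y t (E s) i) '' (Set.Iio (k s)) ∪
    (fun i => Y t⁻¹ (E s) i) '' (Set.Iio (k' s))) with hΦ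
  have hfin : Φ.Finite := Set.Finite.biUnion S.finite_toSet fun s _ =>
    ((Set.finite_Iio _).image _).union ((Set.finite_Iio _).image _)
  set N := Subgroup.closure Φ with hN
  have hY1 : ∀ s ∈ S, ∀ j, Y t (E s) j ∈ N := by
    intro s hs j
    refine Subgroup.closure_mono ?_ (hk s j)
    rintro x ⟨i, hi, rfl⟩
    rw [hΦ, Set.mem_iUnion₂]
    exact ⟨s, hs, Or.inl ⟨i, hi, rfl⟩⟩
  have hY2 : ∀ s ∈ S, ∀ j, Y t⁻¹ (E s) j ∈ N := by
    intro s hs j
    refine Subgroup.closure_mono ?_ (hk' s j)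
    rintro x ⟨i, hi, rfl⟩
    rw [hΦ, Set.mem_iUnion₂]
    exact ⟨s, hs, Or.inr ⟨i, hi, rfl⟩⟩
  have hY : ∀ s ∈ S, ∀ z : ℤ, t ^ z * E s * (t ^ z)⁻¹ ∈ N := by
    intro s hs z
    rcases Int.eq_nat_or_neg z with ⟨n, rfl | rfl⟩
    · have := hY1 s hs n
      rw [Y] at this
      simpa using this
    · have := hY2 s hs n
      rw [Y] at this
      simpa using this
  have hconj : ∀ z : ℤ, ∀ b ∈ N, t ^ z * b * (t ^ z)⁻¹ ∈ N := by
    intro z b hb
    rw [hN] at hb
    induction hb using Subgroup.closure_induction with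
    | mem x hx =>
      rw [hΦ, Set.mem_iUnion₂] at hx
      obtain ⟨s, hs, ⟨i, -, rfl⟩ | ⟨i, -, rfl⟩⟩ := hx
      · have := hY s hs (z + i)
        have e1 : t ^ z * Y t (E s) i * (t ^ z)⁻¹ = t ^ (z + i) * E s * (t ^ (z + i))⁻¹ := by
          rw [Y, zpow_add, zpow_natCast]
          group
        simp only [e1]
        exact this
      · have := hY s hs (z - i)
        have e1 : t ^ z * Y t⁻¹ (E s) i * (t ^ z)⁻¹ = t ^ (z - i) * E s * (t ^ (z - i))⁻¹ := by
          rw [Y, zpow_sub, zpow_natCast, inv_pow]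
          group
        simp only [e1]
        exact this
    | one => rw [mul_one, mul_inv_cancel]; exact Subgroup.one_mem _
    | mul x y _ _ hx hy =>
      have : t ^ z * (x * y) * (t ^ z)⁻¹ = (t ^ z * x * (t ^ z)⁻¹) * (t ^ z * y * (t ^ z)⁻¹) := by
        group
      rw [this]
      exact Subgroup.mul_mem _ hx hy
    | inv x _ hx =>
      have : t ^ z * x⁻¹ * (t ^ z)⁻¹ = (t ^ z * x * (t ^ z)⁻¹)⁻¹ := by group
      rw [this]
      exact Subgroup.inv_mem _ hx
  have hE0 : ∀ s, E s ∈ χ.ker := by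
    intro s
    rw [MonoidHom.mem_ker, hE]
    simp only [map_mul, map_inv, map_zpow, ht]
    have : χ s = Multiplicative.ofAdd (1 : ℤ) ^ v s := by
      rw [← ofAdd_zsmul, smul_eq_mul, mul_one, hv]
      simp
    rw [← this, mul_inv_cancel]
  have hker : ∀ z : ℤ, ∀ s, t ^ z * E s * (t ^ z)⁻¹ ∈ χ.ker := fun z s =>
    (MonoidHom.normal_ker χ).conj_mem _ (hE0 s) _
  have hle : N ≤ χ.ker := by
    rw [hN, Subgroup.closure_le]
    intro x hx
    rw [hΦ, Set.mem_iUnion₂] at hx
    obtain ⟨s, hs, ⟨i, -, rfl⟩ | ⟨i, -, rfl⟩⟩ := hx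
    · have := hker i s
      rw [zpow_natCast] at this
      exact this
    · have := hker (-i) s
      rw [zpow_neg, zpow_natCast, ← inv_pow] at this
      exact this
  have hall : ∀ g : G, ∃ n ∈ N, ∃ z : ℤ, g = n * t ^ z := by
    intro g
    have hg : g ∈ Subgroup.closure (S : Set G) := by rw [hS]; exact Subgroup.mem_top _
    induction hg using Subgroup.closure_induction with
    | mem x hx =>
      refine ⟨E x, ?_, v x, ?_⟩
      · have := hY x hx 0
        simpa using this
      · rw [hE]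
        group
    | one => exact ⟨1, Subgroup.one_mem _, 0, by simp⟩
    | mul x y _ _ hx hy =>
      obtain ⟨n, hn, z, rfl⟩ := hx
      obtain ⟨n', hn', z', rfl⟩ := hy
      refine ⟨n * (t ^ z * n' * (t ^ z)⁻¹), Subgroup.mul_mem _ hn (hconj z n' hn'), z + z', ?_⟩
      rw [zpow_add]
      group
    | inv x _ hx =>
      obtain ⟨n, hn, z, rfl⟩ := hx
      refine ⟨t ^ (-z) * n⁻¹ * (t ^ (-z))⁻¹, hconj (-z) _ (Subgroup.inv_mem _ hn), -z, ?_⟩
      group
  have heq : N = χ.ker := by
    refine le_antisymm hle fun g hg => ?_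
    obtain ⟨n, hn, z, rfl⟩ := hall g
    have h1 : χ n = 1 := hle hn
    rw [MonoidHom.mem_ker, map_mul, h1, one_mul] at hg
    have h2 := hvt z
    rw [hv] at h2
    simp only [hg] at h2
    have h3 : z = 0 := by
      rw [← h2]
      rfl
    rw [h3, zpow_zero, mul_one]
    exact hn
  rw [Group.fg_iff_subgroup_fg, Subgroup.fg_iff]
  exact ⟨Φ, heq, hfin⟩

theorem ker_growth {d : ℕ} (χ : G →* Multiplicative ℤ) (hχ : Function.Surjective χ)
    (hG : PG G d) : ∃ d' : ℕ, d = d' + 1 ∧ PG χ.ker d' := by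
  classical
  obtain ⟨t, ht⟩ := hχ (Multiplicative.ofAdd 1)
  have hχt : ∀ j : ℕ, χ (t ^ j) = Multiplicative.ofAdd (j : ℤ) := by
    intro j
    rw [map_pow, ht, ← ofAdd_nsmul, nsmul_eq_mul, mul_one]
  -- the main inequality
  have key : ∀ F : Finset χ.ker, ∃ C : ℕ, ∀ n : ℕ,
      ((F : Set χ.ker) ^ n).ncard * n ≤ C * (2 * n + 1) ^ d := by
    intro F
    obtain ⟨C, hC⟩ := hG (insert 1 (insert t (Finset.image Subtype.val F)))
    refine ⟨C, fun n => ?_⟩
    set T : Set G := ((insert 1 (insert t (Finset.image Subtype.val F)) : Finset G) : Set G)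
      with hT
    have h1 : (1 : G) ∈ T := by simp [hT]
    have ht' : t ∈ T := by simp [hT]
    have hF : (χ.ker.subtype '' (F : Set χ.ker)) ⊆ T := by
      rintro _ ⟨x, hx, rfl⟩
      simp only [hT, Finset.coe_insert, Finset.coe_image, Set.mem_insert_iff]
      exact Or.inr (Or.inr ⟨x, hx, rfl⟩)
    let f : χ.ker × ℕ → G := fun p => (p.1 : G) * t ^ p.2
    have hinj : Set.InjOn f (((F : Set χ.ker) ^ n) ×ˢ Set.Iio n) := by
      rintro ⟨x, j⟩ - ⟨y, j'⟩ - hxy
      change (x : G) * t ^ j = (y : G) * t ^ j' at hxy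
      have h2 := congrArg χ hxy
      have hx : χ (x : G) = 1 := x.2
      have hy : χ (y : G) = 1 := y.2
      rw [map_mul, map_mul, hx, hy, one_mul, one_mul, hχt, hχt] at h2
      have h3 : j = j' := by
        have := Multiplicative.ofAdd.injective h2
        exact_mod_cast this
      subst h3
      rw [mul_left_inj] at hxy
      rw [Subtype.ext hxy]
    have hcard : (f '' (((F : Set χ.ker) ^ n) ×ˢ Set.Iio n)).ncard =
        ((F : Set χ.ker) ^ n).ncard * n := by
      rw [hinj.ncard_image, Set.ncard_prod]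
      congr 1
      rw [Set.ncard_eq_toFinset_card']
      simp
    rw [← hcard]
    refine (Set.ncard_le_ncard (t := T ^ (2 * n)) ?_ (fin_pow (Finset.finite_toSet _) _)).trans
      (hC (2 * n))
    rintro _ ⟨⟨x, j⟩, ⟨hx, hj⟩, rfl⟩
    change (x : G) * t ^ j ∈ T ^ (2 * n)
    rw [two_mul, pow_add]
    refine Set.mul_mem_mul ?_ ?_
    · have h2 : (x : G) ∈ χ.ker.subtype '' ((F : Set χ.ker) ^ n) := ⟨x, hx, rfl⟩
      rw [Set.image_pow] at h2
      exact Set.pow_subset_pow_left hF h2
    · exact Set.pow_subset_pow_right h1 (le_of_lt hj) (Set.pow_mem_pow ht')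
  have hd : d ≠ 0 := by
    rintro rfl
    obtain ⟨C, hC⟩ := key {1}
    have h := hC (C + 1)
    rw [pow_zero, mul_one] at h
    have h1 : ((({1} : Finset χ.ker) : Set χ.ker) ^ (C + 1)).ncard = 1 := by
      rw [Finset.coe_singleton, Set.singleton_pow, one_pow, Set.ncard_singleton]
    rw [h1] at h
    omega
  obtain ⟨d', rfl⟩ := Nat.exists_eq_succ_of_ne_zero hd
  refine ⟨d', rfl, fun F => ?_⟩
  obtain ⟨C, hC⟩ := key F
  refine ⟨C * 2 ^ (d' + 2) + 1, fun n => ?_⟩
  rcases Nat.eq_zero_or_pos n with rfl | hn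
  · rw [pow_zero, ← Set.singleton_one, Set.ncard_singleton, zero_add, one_pow, mul_one]
    omega
  · have h1 := hC n
    have h2 : C * (2 * n + 1) ^ (d' + 1) ≤ C * 2 ^ (d' + 2) * (n + 1) ^ d' * n := by
      have h3 : (2 * n + 1) ^ (d' + 1) ≤ (2 * (n + 1)) ^ (d' + 1) :=
        Nat.pow_le_pow_left (by omega) _
      have h4 : (2 * (n + 1)) ^ (d' + 1) = 2 ^ (d' + 1) * (n + 1) ^ d' * (n + 1) := by
        rw [mul_pow, pow_succ (n + 1) d']
        ring
      have h5 : n + 1 ≤ 2 * n := by omega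
      calc C * (2 * n + 1) ^ (d' + 1) ≤ C * (2 ^ (d' + 1) * (n + 1) ^ d' * (n + 1)) := by
            rw [← h4]
            exact Nat.mul_le_mul_left _ h3
        _ ≤ C * (2 ^ (d' + 1) * (n + 1) ^ d' * (2 * n)) :=
            Nat.mul_le_mul_left _ (Nat.mul_le_mul_left _ h5)
        _ = C * 2 ^ (d' + 2) * (n + 1) ^ d' * n := by ring
    have h3 : ((F : Set χ.ker) ^ n).ncard ≤ C * 2 ^ (d' + 2) * (n + 1) ^ d' :=
      Nat.le_of_mul_le_mul_right (h1.trans h2) hn
    refine h3.trans ?_
    exact Nat.mul_le_mul_right _ (Nat.le_succ _)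

end MilL

theorem mil : S_MIL := fun _ _ _ _ χ hχ hG => ⟨MilL.ker_fg χ hχ hG, MilL.ker_growth χ hχ hG⟩

end Pool.Agent.Helper52K9.CG
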