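import Pool.Agent.Helper52K9.CG.Mil

/-!
# [MW] the step of Milnor and Wolf (helper55)
-/

set_option autoImplicit false

namespace Pool.Agent.Helper52K9.CG

open scoped Pointwise commutatorElement

namespace MwL

/-- a group generated by a normal abelian subgroup and an element acting unipotently is
nilpotent -/
theorem nl {Q : Type} [Group Q] (A : Subgroup Q) (hA : ∀ a ∈ A, ∀ b ∈ A, a * b = b * a)
    (hn : A.Normal) (s : Q) (hs : ∀ q : Q, ∃ b ∈ A, ∃ z : ℤ, q = b * s ^ z) (m : ℕ)
    (hm : ∀ a ∈ A, (fun x => s * x * s⁻¹ * x⁻¹)^[m] a = 1) : Group.IsNilpotent Q := by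
  have hcom : ∀ i : ℕ, ∀ x y : Q,
      (QuotientGroup.mk' (Subgroup.upperCentralSeries Q i) x) *
        (QuotientGroup.mk' (Subgroup.upperCentralSeries Q i) y) =
      (QuotientGroup.mk' (Subgroup.upperCentralSeries Q i) y) *
        (QuotientGroup.mk' (Subgroup.upperCentralSeries Q i) x) →
      ⁅x, y⁆ ∈ Subgroup.upperCentralSeries Q i := by
    intro i x y h
    rw [← QuotientGroup.ker_mk' (Subgroup.upperCentralSeries Q i), MonoidHom.mem_ker,
      map_commutatorElement, commutatorElement_eq_one_iff_mul_comm]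
    exact h
  have h1 : ∀ i, ∀ a ∈ A, (fun x => s * x * s⁻¹ * x⁻¹)^[i] a = 1 →
      a ∈ Subgroup.upperCentralSeries Q i := by
    intro i
    induction i with
    | zero =>
      intro a _ h
      rw [Function.iterate_zero, id] at h
      rw [h]
      exact Subgroup.one_mem _
    | succ i ih =>
      intro a ha h
      rw [Function.iterate_succ_apply] at h
      have h2 : s * a * s⁻¹ * a⁻¹ ∈ Subgroup.upperCentralSeries Q i :=
        ih _ (A.mul_mem (hn.conj_mem a ha s) (A.inv_mem ha)) h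
      rw [Subgroup.mem_upperCentralSeries_succ_iff]
      intro q
      obtain ⟨b, hb, z, rfl⟩ := hs q
      refine hcom i _ _ ?_
      set π := QuotientGroup.mk' (Subgroup.upperCentralSeries Q i) with hπ
      have h3 : Commute (π a) (π s) := by
        have h4 : π (s * a * s⁻¹ * a⁻¹) = 1 := by
          rw [← MonoidHom.mem_ker, hπ, QuotientGroup.ker_mk']
          exact h2
        rw [map_mul, map_mul, map_mul, map_inv, map_inv, mul_inv_eq_one, mul_inv_eq_iff_eq_mul]
          at h4
        exact h4.symm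
      have h5 : Commute (π a) (π b) := by
        rw [Commute, SemiconjBy, ← map_mul, ← map_mul, hA a ha b hb]
      rw [map_mul, map_zpow]
      exact (h5.mul_right (h3.zpow_right z)).eq
  refine ⟨⟨m + 1, ?_⟩⟩
  rw [eq_top_iff]
  intro q _
  rw [Subgroup.mem_upperCentralSeries_succ_iff]
  intro q'
  refine hcom m _ _ ?_
  obtain ⟨b, hb, z, rfl⟩ := hs q
  obtain ⟨b', hb', z', rfl⟩ := hs q'
  set π := QuotientGroup.mk' (Subgroup.upperCentralSeries Q m) with hπ
  have h2 : ∀ b ∈ A, π b = 1 := by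
    intro b hb
    rw [← MonoidHom.mem_ker, hπ, QuotientGroup.ker_mk']
    exact h1 m b hb (hm b hb)
  rw [map_mul, map_mul, h2 b hb, h2 b' hb', one_mul, one_mul, map_zpow, map_zpow, ← zpow_add,
    ← zpow_add, add_comm]

variable {G : Type} [Group G]

/-- the product inside the normal subgroup -/
def V {N : Subgroup G} [N.Normal] (t : G) (n : N) (ε : ℕ → Bool) : ℕ → N
  | 0 => 1
  | m + 1 => V t n ε m * (if ε m then MulAut.conjNormal (t ^ m) n else 1)

theorem V_coe {N : Subgroup G} [N.Normal] (t : G) (n : N) (ε : ℕ → Bool) (m : ℕ) :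
    (V t n ε m : G) = MilL.W t n ε m := by
  induction m with
  | zero => rfl
  | succ m ih =>
    rw [V, MilL.W, Subgroup.coe_mul, ih]
    split_ifs
    · rw [MulAut.conjNormal_apply, MilL.Y]
    · rfl

/-- the action on the abelianisation -/
noncomputable def al (N : Subgroup G) [N.Normal] (t : G) :
    Additive (Abelianization N) ≃+ Additive (Abelianization N) :=
  MulEquiv.toAdditive (MulEquiv.abelianizationCongr (MulAut.conjNormal t))

theorem al_of (N : Subgroup G) [N.Normal] (t : G) (n : N) :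
    al N t (Additive.ofMul (Abelianization.of n)) =
      Additive.ofMul (Abelianization.of (MulAut.conjNormal t n)) := rfl

theorem al_iter (N : Subgroup G) [N.Normal] (t : G) (n : N) (j : ℕ) :
    (al N t)^[j] (Additive.ofMul (Abelianization.of n)) =
      Additive.ofMul (Abelianization.of (MulAut.conjNormal (t ^ j) n)) := by
  induction j with
  | zero => simp
  | succ j ih =>
    rw [Function.iterate_succ_apply', ih, al_of]
    congr 2
    rw [pow_succ', map_mul, MulAut.mul_apply]

theorem count {d : ℕ} (hG : PG G d) (N : Subgroup G) [N.Normal] (t : G)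
    (a : Additive (Abelianization N)) : ∃ C : ℕ, ∀ n : ℕ,
    Set.ncard {x : Additive (Abelianization N) | ∃ e : ℕ → ℕ, (∀ j, e j ≤ 1) ∧
      x = ∑ j ∈ Finset.range n, e j • ((al N t)^[j]) a} ≤ C * (n + 1) ^ d := by
  classical
  obtain ⟨n0, hn0⟩ : ∃ n0 : N, Additive.ofMul (Abelianization.of n0) = a := by
    obtain ⟨n0, h⟩ := QuotientGroup.mk_surjective (s := commutator N) (Additive.toMul a)
    exact ⟨n0, h⟩
  obtain ⟨C, hC⟩ := hG {1, t, (n0 : G)}
  refine ⟨C * 2 ^ d, fun n => ?_⟩
  set T : Set G := (({1, t, (n0 : G)} : Finset G) : Set G) with hT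
  let Ψ : G → Additive (Abelianization N) := fun g =>
    if h : g * (t ^ n)⁻¹ ∈ N then Additive.ofMul (Abelianization.of ⟨g * (t ^ n)⁻¹, h⟩) else 0
  have hsub : {x : Additive (Abelianization N) | ∃ e : ℕ → ℕ, (∀ j, e j ≤ 1) ∧
      x = ∑ j ∈ Finset.range n, e j • ((al N t)^[j]) a} ⊆ Ψ '' (T ^ (2 * n)) := by
    rintro x ⟨e, he, rfl⟩
    have hsum : ∀ m, ∑ j ∈ Finset.range m, e j • ((al N t)^[j]) a =
        Additive.ofMul (Abelianization.of (V t n0 (fun j => decide (e j = 1)) m)) := by
      intro m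
      induction m with
      | zero => simp [V]
      | succ m ih =>
        rw [Finset.sum_range_succ, ih, V, map_mul, ofMul_mul]
        congr 1
        rw [← hn0, al_iter]
        have := he m
        rcases Nat.le_one_iff_eq_zero_or_eq_one.1 this with h | h
        · rw [h]
          simp
        · rw [h]
          simp
    refine ⟨MilL.W t n0 (fun j => decide (e j = 1)) n * t ^ n, ?_, ?_⟩
    · exact MilL.W_mem t n0 _ n T (by simp [hT]) (by simp [hT]) (by simp [hT])
    · have h1 : MilL.W t n0 (fun j => decide (e j = 1)) n * t ^ n * (t ^ n)⁻¹ =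
          (V t n0 (fun j => decide (e j = 1)) n : G) := by
        rw [V_coe, mul_inv_cancel_right]
      have h2 : MilL.W t n0 (fun j => decide (e j = 1)) n * t ^ n * (t ^ n)⁻¹ ∈ N := by
        rw [h1]
        exact SetLike.coe_mem _
      change (if h : MilL.W t n0 (fun j => decide (e j = 1)) n * t ^ n * (t ^ n)⁻¹ ∈ N then
        Additive.ofMul (Abelianization.of
          (⟨MilL.W t n0 (fun j => decide (e j = 1)) n * t ^ n * (t ^ n)⁻¹, h⟩ : N)) else 0) = _
      rw [dif_pos h2, hsum n]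
      congr 2
      exact Subtype.ext h1
  have hfin : (T ^ (2 * n)).Finite := MilL.fin_pow (Finset.finite_toSet _) _
  calc _ ≤ (Ψ '' (T ^ (2 * n))).ncard := Set.ncard_le_ncard hsub (hfin.image _)
    _ ≤ (T ^ (2 * n)).ncard := Set.ncard_image_le hfin
    _ ≤ C * (2 * n + 1) ^ d := hC (2 * n)
    _ ≤ C * (2 * (n + 1)) ^ d := Nat.mul_le_mul_left _ (Nat.pow_le_pow_left (by omega) _)
    _ = C * 2 ^ d * (n + 1) ^ d := by rw [mul_pow]; ring

/-- the unipotent power -/
theorem unip (hUNI : S_UNI) {d : ℕ} (hG : PG G d) (N : Subgroup G) [N.Normal] [Group.FG N]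
    (t : G) : ∃ k m : ℕ, 0 < k ∧ ∀ n : N,
      (fun x : N => MulAut.conjNormal (t ^ k) x * x⁻¹)^[m] n ∈ commutator N := by
  have : AddGroup.FG (Additive (Abelianization N)) := by
    have : Group.FG (Abelianization N) :=
      Group.fg_of_surjective (f := (Abelianization.of : N →* Abelianization N))
        (QuotientGroup.mk_surjective)
    infer_instance
  obtain ⟨k, m, hk, h⟩ := hUNI _ (al N t) d (count hG N t)
  refine ⟨k, m, hk, fun n => ?_⟩
  have h1 : ∀ i : ℕ, (fun x => ((al N t)^[k]) x - x)^[i] (Additive.ofMul (Abelianization.of n)) =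
      Additive.ofMul (Abelianization.of
        ((fun x : N => MulAut.conjNormal (t ^ k) x * x⁻¹)^[i] n)) := by
    intro i
    induction i with
    | zero => rfl
    | succ i ih =>
      rw [Function.iterate_succ_apply', ih, Function.iterate_succ_apply', al_iter, map_mul,
        map_inv, ofMul_mul, ofMul_inv, sub_eq_add_neg]
  have h2 := h (Additive.ofMul (Abelianization.of n))
  rw [h1] at h2
  have h3 : Abelianization.of ((fun x : N => MulAut.conjNormal (t ^ k) x * x⁻¹)^[m] n) = 1 := h2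
  rw [← MonoidHom.mem_ker, Abelianization.ker_of] at h3
  exact h3

/-- nilpotency of the extension -/
theorem nil_ext (hHALL : S_HALL) (N : Subgroup G) [N.Normal] (hN : Group.IsNilpotent N) (s : G)
    (m : ℕ) (hm : ∀ n : N, (fun x : N => MulAut.conjNormal s x * x⁻¹)^[m] n ∈ commutator N) :
    Group.IsNilpotent (N ⊔ Subgroup.zpowers s : Subgroup G) := by
  set H : Subgroup G := N ⊔ Subgroup.zpowers s with hH
  have hle : N ≤ H := le_sup_left
  have hsH : s ∈ H := (le_sup_right : Subgroup.zpowers s ≤ H) (Subgroup.mem_zpowers s)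
  have : Group.IsNilpotent (N.subgroupOf H) :=
    Group.nilpotent_of_mulEquiv (Subgroup.subgroupOfEquivOfLe hle).symm
  refine hHALL H (N.subgroupOf H) inferInstance ?_
  set C : Subgroup H := ⁅N.subgroupOf H, N.subgroupOf H⁆ with hC
  set ι : N →* H := Subgroup.inclusion hle with hι
  have hιN : ∀ n : N, ι n ∈ N.subgroupOf H := fun n => by
    rw [Subgroup.mem_subgroupOf]
    exact n.2
  have hιC : ∀ n ∈ commutator N, ι n ∈ C := by
    intro n hn
    have h1 : Subgroup.map ι (commutator N) ≤ C := by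
      rw [commutator_def, Subgroup.map_commutator]
      refine Subgroup.commutator_mono ?_ ?_
      · rintro _ ⟨x, -, rfl⟩
        exact hιN x
      · rintro _ ⟨x, -, rfl⟩
        exact hιN x
    exact h1 (Subgroup.mem_map_of_mem _ hn)
  set π : H →* H ⧸ C := QuotientGroup.mk' C with hπ
  have hπs : Function.Surjective π := QuotientGroup.mk'_surjective C
  have hπC : ∀ x ∈ C, π x = 1 := by
    intro x hx
    rw [← MonoidHom.mem_ker, hπ, QuotientGroup.ker_mk']
    exact hx
  refine nl ((N.subgroupOf H).map π) ?_ ?_ (π ⟨s, hsH⟩) ?_ m ?_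
  · rintro _ ⟨a, ha, rfl⟩ _ ⟨b, hb, rfl⟩
    rw [← commutatorElement_eq_one_iff_mul_comm, ← map_commutatorElement]
    exact hπC _ (Subgroup.commutator_mem_commutator ha hb)
  · exact Subgroup.Normal.map inferInstance π hπs
  · intro q
    obtain ⟨⟨h, hh⟩, rfl⟩ := hπs q
    have h1 := hh
    rw [hH, Subgroup.mem_sup_of_normal_left] at h1
    obtain ⟨n, hn, y, hy, rfl⟩ := h1
    obtain ⟨z, rfl⟩ := Subgroup.mem_zpowers_iff.1 hy
    refine ⟨π (ι ⟨n, hn⟩), Subgroup.mem_map_of_mem _ (hιN _), z, ?_⟩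
    rw [← map_zpow, ← map_mul]
    rfl
  · rintro _ ⟨a, ha, rfl⟩
    have ha' : (a : G) ∈ N := ha
    obtain ⟨n, rfl⟩ : ∃ n : N, ι n = a := ⟨⟨a, ha'⟩, rfl⟩
    have h1 : ∀ i : ℕ, (fun x => π ⟨s, hsH⟩ * x * (π ⟨s, hsH⟩)⁻¹ * x⁻¹)^[i] (π (ι n)) =
        π (ι ((fun x : N => MulAut.conjNormal s x * x⁻¹)^[i] n)) := by
      intro i
      induction i with
      | zero => rfl
      | succ i ih =>
        rw [Function.iterate_succ_apply', ih, Function.iterate_succ_apply']
        simp only [map_mul, map_inv]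
        congr 1
    rw [h1]
    exact hπC _ (hιC _ (hm n))

end MwL

theorem mw (hCHR : S_CHR) (hUNI : S_UNI) (hHALL : S_HALL) : S_MW := by
  intro d G _ _ χ hχ hG hfg hex
  obtain ⟨H0, hH0, hH0n⟩ := hex
  have := hfg
  obtain ⟨N0, hchar, hfi, hnil, hNfg⟩ := hCHR χ.ker H0 hH0 hH0n
  obtain ⟨t, ht⟩ := hχ (Multiplicative.ofAdd 1)
  set N : Subgroup G := N0.map χ.ker.subtype with hN
  have : N.Normal := by
    rw [hN]
    have := hchar
    exact ConjAct.normal_of_characteristic_of_normal
  let e : N0 ≃* N := Subgroup.equivMapOfInjective N0 χ.ker.subtype (Subgroup.subtype_injective _)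
  have : Group.IsNilpotent N := Group.nilpotent_of_mulEquiv e
  have : Group.FG N := Group.fg_of_surjective (f := e.toMonoidHom) e.surjective
  obtain ⟨k, m, hk, hD⟩ := MwL.unip hUNI hG N t
  refine ⟨N ⊔ Subgroup.zpowers (t ^ k), ?_, MwL.nil_ext hHALL N inferInstance (t ^ k) m hD⟩
  set H : Subgroup G := N ⊔ Subgroup.zpowers (t ^ k) with hH
  have hχt : ∀ z : ℤ, χ (t ^ z) = Multiplicative.ofAdd z := by
    intro z
    rw [map_zpow, ht, ← ofAdd_zsmul, smul_eq_mul, mul_one]
  have : Finite (χ.ker ⧸ N0) := inferInstance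
  have hsurj : Function.Surjective (fun p : Fin k × (χ.ker ⧸ N0) =>
      (QuotientGroup.mk (t ^ (p.1 : ℕ) * ((p.2.out : χ.ker) : G)) : G ⧸ H)) := by
    intro x
    obtain ⟨g, rfl⟩ := QuotientGroup.mk_surjective x
    obtain ⟨v, hv⟩ : ∃ v : ℤ, χ g = Multiplicative.ofAdd v := ⟨Multiplicative.toAdd (χ g), rfl⟩
    have hk' : (0 : ℤ) < k := by exact_mod_cast hk
    set r : ℤ := v % k with hr
    set q : ℤ := v / k with hq
    have hr0 : 0 ≤ r := Int.emod_nonneg _ hk'.ne'
    have hr1 : r < k := Int.emod_lt_of_pos _ hk'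
    have hvr : r + k * q = v := Int.emod_add_mul_ediv v k
    set g' : G := t ^ (-r) * g * t ^ (-(k * q)) with hg'
    have hg'k : g' ∈ χ.ker := by
      rw [MonoidHom.mem_ker, hg', map_mul, map_mul, hχt, hχt, hv, ← ofAdd_add, ← ofAdd_add,
        ← ofAdd_zero]
      congr 1
      linarith
    set y : χ.ker ⧸ N0 := QuotientGroup.mk ⟨g', hg'k⟩ with hy
    have hyo : (y.out)⁻¹ * ⟨g', hg'k⟩ ∈ N0 := by
      rw [← QuotientGroup.eq, QuotientGroup.out_eq']
    refine ⟨(⟨r.toNat, by omega⟩, y), ?_⟩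
    change (QuotientGroup.mk (t ^ r.toNat * ((y.out : χ.ker) : G)) : G ⧸ H) = QuotientGroup.mk g
    rw [QuotientGroup.eq]
    have hrn : t ^ r.toNat = t ^ r := by
      rw [← zpow_natCast, Int.toNat_of_nonneg hr0]
    have e1 : (t ^ r.toNat * ((y.out : χ.ker) : G))⁻¹ * g =
        (((y.out)⁻¹ * ⟨g', hg'k⟩ : χ.ker) : G) * (t ^ k) ^ q := by
      rw [hrn, Subgroup.coe_mul, Subgroup.coe_inv]
      change _ = ((y.out : χ.ker) : G)⁻¹ * g' * _
      rw [hg', ← zpow_natCast t k, ← zpow_mul, mul_inv_rev, zpow_neg, zpow_neg]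
      group
    rw [e1]
    refine H.mul_mem ((le_sup_left : N ≤ H) ?_)
      ((le_sup_right : Subgroup.zpowers (t ^ k) ≤ H) (Subgroup.zpow_mem_zpowers _ _))
    exact Subgroup.mem_map_of_mem χ.ker.subtype hyo
  have : Finite (G ⧸ H) := Finite.of_surjective _ hsurj
  exact Subgroup.finiteIndex_of_finite_quotient

end Pool.Agent.Helper52K9.CG
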