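import Pool.Agent.Helper52K9.CG.Stm

/-!
# [QG] from a quasi-isometry of the graph to a Cayley graph to the data `QID` (helper55)
-/

set_option autoImplicit false

namespace Pool.Agent.Helper52K9.CG

open scoped Pointwise

namespace QgL

/-- the Cayley graph -/
def Cay {H : Type} [Group H] (S : Set H) : SimpleGraph H :=
  SimpleGraph.fromRel (fun g h : H => ∃ s ∈ S, h = g * s)

variable {H : Type} [Group H] {S : Set H}

theorem adj_iff (x y : H) : (Cay S).Adj x y ↔ x ≠ y ∧ (x⁻¹ * y ∈ S ∨ y⁻¹ * x ∈ S) := by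
  rw [Cay, SimpleGraph.fromRel_adj]
  have h : ∀ x y : H, (∃ s ∈ S, y = x * s) ↔ x⁻¹ * y ∈ S := by
    intro x y
    constructor
    · rintro ⟨s, hs, rfl⟩
      rwa [inv_mul_cancel_left]
    · intro h
      exact ⟨_, h, by rw [mul_inv_cancel_left]⟩
  rw [h, h]

theorem conn (hS : Subgroup.closure S = ⊤) : (Cay S).Connected := by
  have h1 : ∀ g : H, ∀ x : H, (Cay S).Reachable x (x * g) := by
    intro g
    have hg : g ∈ Subgroup.closure S := by rw [hS]; exact Subgroup.mem_top _
    induction hg using Subgroup.closure_induction with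
    | mem s hs =>
      intro x
      by_cases h : x = x * s
      · rw [← h]
      · refine SimpleGraph.Adj.reachable ?_
        rw [adj_iff]
        exact ⟨h, Or.inl (by rwa [inv_mul_cancel_left])⟩
    | one => intro x; rw [mul_one]
    | mul a b _ _ ha hb =>
      intro x
      rw [← mul_assoc]
      exact (ha x).trans (hb _)
    | inv a _ ha =>
      intro x
      have := (ha (x * a⁻¹)).symm
      rwa [inv_mul_cancel_right] at this
  have h2 : (Cay S).Preconnected := by
    intro x y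
    have := h1 (x⁻¹ * y) x
    rwa [mul_inv_cancel_left] at this
  have : Nonempty H := ⟨1⟩
  exact SimpleGraph.Connected.mk h2

theorem dist_le (hS : Subgroup.closure S = ⊤) {S' : Set H}
    (hS' : ∀ x ∈ S', x = 1 ∨ x ∈ S ∨ x⁻¹ ∈ S) (n : ℕ) : ∀ g ∈ S' ^ n, ∀ x : H,
    (Cay S).dist x (x * g) ≤ n := by
  induction n with
  | zero =>
    intro g hg x
    rw [pow_zero, Set.mem_one] at hg
    rw [hg, mul_one, SimpleGraph.dist_self]
  | succ n ih =>
    intro g hg x
    rw [pow_succ] at hg
    obtain ⟨a, ha, b, hb, rfl⟩ := Set.mem_mul.1 hg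
    have h1 := ih a ha x
    have h2 : (Cay S).dist (x * a) (x * a * b) ≤ 1 := by
      by_cases h : x * a = x * a * b
      · rw [← h, SimpleGraph.dist_self]
        exact Nat.zero_le _
      · refine le_of_eq ?_
        rw [SimpleGraph.dist_eq_one_iff_adj, adj_iff]
        refine ⟨h, ?_⟩
        rcases hS' b hb with h3 | h3 | h3
        · rw [h3, mul_one] at h
          exact absurd rfl h
        · left
          rwa [inv_mul_cancel_left]
        · right
          rwa [mul_inv_rev, inv_mul_cancel_right]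
    rw [← mul_assoc]
    exact ((conn hS).dist_triangle).trans (add_le_add h1 h2)

theorem walk_mem {S' : Set H} (hS' : ∀ x : H, x ∈ S ∨ x⁻¹ ∈ S → x ∈ S') {x y : H}
    (p : (Cay S).Walk x y) : x⁻¹ * y ∈ S' ^ p.length := by
  induction p with
  | nil => simp
  | @cons u v w h p ih =>
    rw [SimpleGraph.Walk.length_cons, pow_succ']
    have e1 : u⁻¹ * w = (u⁻¹ * v) * (v⁻¹ * w) := by group
    rw [e1]
    refine Set.mul_mem_mul (hS' _ ?_) ih
    rw [adj_iff] at h
    rcases h.2 with h3 | h3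
    · exact Or.inl h3
    · right
      rwa [mul_inv_rev, inv_inv]

end QgL

theorem qg (hGA : S_GA) (hRD : S_RD) : S_QG := by
  classical
  intro l R C hC1 _ hX1 hX2 H _ S hSf hS hex
  obtain ⟨φ, K, C', hK, hqi, hcs⟩ := hex
  change ∀ a b : Pt, ((X l R).dist a b : ℝ) / K - C' ≤ ((QgL.Cay S).dist (φ a) (φ b) : ℝ) ∧
    ((QgL.Cay S).dist (φ a) (φ b) : ℝ) ≤ K * ((X l R).dist a b : ℝ) + C' at hqi
  change ∀ h : H, ∃ a : Pt, ((QgL.Cay S).dist (φ a) h : ℝ) ≤ C' at hcs
  obtain ⟨CG, hCG1, hmul, hinv, -⟩ := hGA l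
  obtain ⟨hrd, -, -⟩ := hRD l
  have hC' : 0 ≤ C' := by
    obtain ⟨a, ha⟩ := hcs 1
    exact le_trans (Nat.cast_nonneg _) ha
  have hconn := QgL.conn hS
  have htri : ∀ x y z : H, ((QgL.Cay S).dist x z : ℝ) ≤
      (QgL.Cay S).dist x y + (QgL.Cay S).dist y z := by
    intro x y z
    exact_mod_cast hconn.dist_triangle (u := x) (v := y) (w := z)
  choose a ha using hcs
  set S' : Finset H := insert 1 (hSf.toFinset ∪ hSf.toFinset⁻¹) with hS'
  have hmem : ∀ x : H, x ∈ S' ↔ x = 1 ∨ x ∈ S ∨ x⁻¹ ∈ S := by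
    intro x
    simp only [hS', Finset.mem_insert, Finset.mem_union, Set.Finite.mem_toFinset,
      Finset.mem_inv']
  have hK1 : 0 ≤ C * (K * (1 + 3 * C')) := by positivity
  have hK2 : 0 ≤ K * C + 3 * C' := by positivity
  refine ⟨S', fun h => em l (a h),
    max (max (C * (K * (1 + 3 * C'))) (K * C + 3 * C')) (CG * (C * (K * (2 * C')) + CG)), ?_⟩
  have hm1 : C * (K * (1 + 3 * C')) ≤ max (max (C * (K * (1 + 3 * C'))) (K * C + 3 * C'))
      (CG * (C * (K * (2 * C')) + CG)) := (le_max_left _ _).trans (le_max_left _ _)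
  have hm2 : K * C + 3 * C' ≤ max (max (C * (K * (1 + 3 * C'))) (K * C + 3 * C'))
      (CG * (C * (K * (2 * C')) + CG)) := (le_max_right _ _).trans (le_max_left _ _)
  have hm3 : CG * (C * (K * (2 * C')) + CG) ≤ max (max (C * (K * (1 + 3 * C'))) (K * C + 3 * C'))
      (CG * (C * (K * (2 * C')) + CG)) := le_max_right _ _
  refine ⟨?_, ?_, ?_, ?_, ?_, ?_⟩
  · rw [hmem]
    exact Or.inl rfl
  · intro x hx
    rw [hmem] at hx ⊢
    rcases hx with h | h | h
    · left
      rw [h, inv_one]
    · right; right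
      rwa [inv_inv]
    · right; left
      exact h
  · rw [eq_top_iff, ← hS]
    refine Subgroup.closure_mono fun x hx => ?_
    rw [Finset.mem_coe, hmem]
    exact Or.inr (Or.inl hx)
  · intro n g hg x
    have h1 : ((QgL.Cay S).dist x (x * g) : ℝ) ≤ n := by
      exact_mod_cast QgL.dist_le hS (S' := (S' : Set H))
        (fun y hy => (hmem y).1 (Finset.mem_coe.1 hy)) n g hg x
    have h2 := htri (φ (a x)) x (φ (a (x * g)))
    have h3 := htri x (x * g) (φ (a (x * g)))
    have h4 := ha x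
    have h5 := ha (x * g)
    rw [SimpleGraph.dist_comm] at h5
    have h6 := (hqi (a x) (a (x * g))).1
    have h7 : ((X l R).dist (a x) (a (x * g)) : ℝ) / K ≤ n + 3 * C' := by linarith
    rw [div_le_iff₀ hK] at h7
    have hn : (0 : ℝ) ≤ n := Nat.cast_nonneg n
    calc ga ((em l (a x))⁻¹ * em l (a (x * g))) ≤ C * (X l R).dist (a x) (a (x * g)) := hX1 _ _
      _ ≤ C * ((n + 3 * C') * K) := mul_le_mul_of_nonneg_left h7 (by linarith)
      _ ≤ (C * (K * (1 + 3 * C'))) * (n + 1) := by
          have : (n + 3 * C') * K ≤ K * (1 + 3 * C') * (n + 1) := by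
            have : 0 ≤ K * (1 + 3 * C' * n) := by positivity
            nlinarith
          calc C * ((n + 3 * C') * K) ≤ C * (K * (1 + 3 * C') * (n + 1)) :=
                mul_le_mul_of_nonneg_left this (by linarith)
            _ = _ := by ring
      _ ≤ _ := mul_le_mul_of_nonneg_right hm1 (by linarith)
  · intro x y r hr
    obtain ⟨p, hp⟩ := hconn.exists_walk_length_eq_dist x y
    refine ⟨(QgL.Cay S).dist x y, ?_, ?_⟩
    · have h1 := (hX2 (a x) (a y)).trans
        (mul_le_mul_of_nonneg_left (add_le_add_left hr 1) (by linarith : (0 : ℝ) ≤ C))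
      have h2 := (hqi (a x) (a y)).2
      have h3 := ha x
      have h4 := ha y
      rw [SimpleGraph.dist_comm] at h3
      have h5 := htri x (φ (a x)) y
      have h6 := htri (φ (a x)) (φ (a y)) y
      have h7 := mul_le_mul_of_nonneg_left h1 hK.le
      have hr0 : (0 : ℝ) ≤ r := Nat.cast_nonneg r
      have h8 : 0 ≤ 3 * C' * r := by positivity
      have h9 : ((QgL.Cay S).dist x y : ℝ) ≤ (K * C + 3 * C') * (r + 1) := by nlinarith
      exact h9.trans (mul_le_mul_of_nonneg_right hm2 (by linarith))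
    · rw [← hp]
      exact QgL.walk_mem (S' := (S' : Set H))
        (fun z hz => Finset.mem_coe.2 ((hmem z).2 (Or.inr hz))) p
  · intro w
    refine ⟨φ (rd l w), ?_⟩
    have h1 := ha (φ (rd l w))
    have h2 := (hqi (a (φ (rd l w))) (rd l w)).1
    have h3 : ((X l R).dist (a (φ (rd l w))) (rd l w) : ℝ) / K ≤ 2 * C' := by linarith
    rw [div_le_iff₀ hK] at h3
    have h4 := (hX1 (a (φ (rd l w))) (rd l w)).trans
      (mul_le_mul_of_nonneg_left h3 (by linarith : (0 : ℝ) ≤ C))
    have h5 := (hinv (w⁻¹ * em l (rd l w))).trans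
      (mul_le_mul_of_nonneg_left (hrd w) (by linarith : (0 : ℝ) ≤ CG))
    have h6 := hmul ((em l (a (φ (rd l w))))⁻¹ * em l (rd l w)) (w⁻¹ * em l (rd l w))⁻¹
    have e1 : (em l (a (φ (rd l w))))⁻¹ * em l (rd l w) * (w⁻¹ * em l (rd l w))⁻¹ =
        (em l (a (φ (rd l w))))⁻¹ * w := by group
    rw [e1] at h6
    refine (h6.trans (mul_le_mul_of_nonneg_left (add_le_add h4 h5) (by linarith))).trans ?_
    refine le_trans (le_of_eq ?_) hm3
    ring

end Pool.Agent.Helper52K9.CG
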