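import Pool.Agent.Helper52K9.CG.Xm

/-!
# Project CG: restriction of a quasi-isometry to a subgroup of finite index
-/

set_option autoImplicit false

namespace Pool.Agent.Helper52K9.CG.QsubL

open scoped Pointwise
open XmL

/-- a finite set of representatives of the right cosets, with `1` -/
lemma transversal {H : Type} [Group H] (Γ : Subgroup H) (hΓ : Γ.FiniteIndex) :
    ∃ T : Set H, T.Finite ∧ (1 : H) ∈ T ∧ ∀ h : H, ∃ t ∈ T, h * t⁻¹ ∈ Γ := by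
  have hfin : Finite (H ⧸ Γ) := Subgroup.finite_quotient_of_finiteIndex
  refine ⟨insert 1 (Set.range fun c : H ⧸ Γ => (Quotient.out c)⁻¹),
    (Set.finite_range _).insert 1, Set.mem_insert _ _, fun h => ?_⟩
  refine ⟨(Quotient.out (QuotientGroup.mk (s := Γ) h⁻¹))⁻¹,
    Set.mem_insert_of_mem _ ⟨QuotientGroup.mk h⁻¹, rfl⟩, ?_⟩
  rw [inv_inv]
  have h1 : QuotientGroup.mk (s := Γ) (Quotient.out (QuotientGroup.mk (s := Γ) h⁻¹)) =
    QuotientGroup.mk h⁻¹ := Quotient.out_eq' _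
  have h2 := QuotientGroup.eq.1 h1.symm
  rwa [inv_inv] at h2

/-- the Schreier generators -/
def SS {H : Type} [Group H] (Γ : Subgroup H) (T S : Set H) : Set Γ :=
  {γ | ∃ t ∈ T, ∃ s ∈ S, ∃ t' ∈ T, (γ : H) = t * s * t'⁻¹}

lemma SS_finite {H : Type} [Group H] (Γ : Subgroup H) {T S : Set H} (hT : T.Finite)
    (hS : S.Finite) : (SS Γ T S).Finite := by
  have h1 : ((fun z : H × H × H => z.1 * z.2.1 * z.2.2⁻¹) '' (T ×ˢ (S ×ˢ T))).Finite :=
    (hT.prod (hS.prod hT)).image _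
  refine (h1.preimage (f := fun γ : Γ => (γ : H)) Subtype.val_injective.injOn).subset ?_
  rintro γ ⟨t, ht, s, hs, t', ht', h⟩
  exact ⟨(t, s, t'), ⟨ht, hs, ht'⟩, h.symm⟩

lemma schreier {H : Type} [Group H] (Γ : Subgroup H) {T S : Set H}
    (hT : ∀ h : H, ∃ t ∈ T, h * t⁻¹ ∈ Γ) (h1 : (1 : H) ∈ S) (n : ℕ) :
    ∀ g ∈ S ^ n, ∀ t ∈ T, ∀ t' ∈ T, ∀ γ : Γ, (γ : H) = t * g * t'⁻¹ →
      γ ∈ (SS Γ T S) ^ (n + 1) := by
  induction n with
  | zero =>
    intro g hg t ht t' ht' γ hγ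
    rw [pow_zero, Set.mem_one] at hg
    rw [zero_add, pow_one]
    exact ⟨t, ht, 1, h1, t', ht', by rw [hγ, hg]⟩
  | succ n ih =>
    intro g hg t ht t' ht' γ hγ
    rw [pow_succ', Set.mem_mul] at hg
    obtain ⟨s, hs, g', hg', rfl⟩ := hg
    obtain ⟨t₁, ht₁, hγ₁⟩ := hT (t * s)
    have hγ₂ : t₁ * g' * t'⁻¹ ∈ Γ := by
      have e : t₁ * g' * t'⁻¹ = (t * s * t₁⁻¹)⁻¹ * (γ : H) := by
        rw [hγ]
        group
      rw [e]
      exact Γ.mul_mem (Γ.inv_mem hγ₁) γ.2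
    have h2 := ih g' hg' t₁ ht₁ t' ht' ⟨_, hγ₂⟩ rfl
    rw [pow_succ' _ (n + 1), Set.mem_mul]
    refine ⟨⟨_, hγ₁⟩, ⟨t, ht, s, hs, t₁, ht₁, rfl⟩, _, h2, ?_⟩
    apply Subtype.ext
    show t * s * t₁⁻¹ * (t₁ * g' * t'⁻¹) = (γ : H)
    rw [hγ]
    group

lemma pow_sub {H : Type} [Group H] (Γ : Subgroup H) {A : Set Γ} {S : Set H} {M : ℕ}
    (hA : ∀ γ ∈ A, (γ : H) ∈ S ^ M) (n : ℕ) : ∀ γ ∈ A ^ n, (γ : H) ∈ S ^ (M * n) := by
  induction n with
  | zero =>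
    intro γ hγ
    rw [pow_zero, Set.mem_one] at hγ
    rw [hγ, mul_zero, pow_zero]
    exact Set.mem_one.2 rfl
  | succ n ih =>
    intro γ hγ
    rw [pow_succ, Set.mem_mul] at hγ
    obtain ⟨a, ha, b, hb, rfl⟩ := hγ
    rw [mul_add, mul_one, pow_add]
    exact Set.mul_mem_mul (ih a ha) (hA b hb)

/-- a finite set of elements which lie in some power lies in one power -/
lemma bound {H α : Type} [Group H] {S : Set H} (h1 : (1 : H) ∈ S) (φ : α → H)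
    (hS : ∀ a, ∃ n : ℕ, φ a ∈ S ^ n) {A : Set α} (hA : A.Finite) :
    ∃ M : ℕ, ∀ a ∈ A, φ a ∈ S ^ M := by
  choose n hn using hS
  refine ⟨hA.toFinset.sup n, fun a ha => ?_⟩
  exact Set.pow_subset_pow_right h1 (Finset.le_sup (f := n) (hA.mem_toFinset.2 ha)) (hn a)

end Pool.Agent.Helper52K9.CG.QsubL

namespace Pool.Agent.Helper52K9.CG

open scoped Pointwise
open XmL QsubL

theorem qsub (hga : S_GA) : S_QSUB := by
  intro l H _ S f K hQ Γ hΓ
  obtain ⟨C₀, hC₀, hm, -, -⟩ := hga l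
  have hC0 : 0 ≤ C₀ := by linarith
  obtain ⟨T, hTf, hT1, hT⟩ := transversal Γ hΓ
  have hK : 0 ≤ K := by
    have h := hQ.up 0 1 (by rw [pow_zero]; exact Set.mem_one.2 rfl) 1
    have h2 := ga_nonneg ((f 1)⁻¹ * f (1 * 1))
    simp only [Nat.cast_zero, zero_add, mul_one] at h
    simp only [mul_one] at h2
    linarith
  have h1S : (1 : H) ∈ (S : Set H) := hQ.one_mem
  have hpow : ∀ h : H, ∃ n : ℕ, h ∈ (S : Set H) ^ n := by
    intro h
    obtain ⟨n, -, hn⟩ := hQ.low 1 h ⌈ga ((f 1)⁻¹ * f h)⌉₊ (Nat.le_ceil _)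
    rw [inv_one, one_mul] at hn
    exact ⟨n, hn⟩
  have hfin := SS_finite Γ hTf S.finite_toSet
  obtain ⟨M, hM⟩ := bound h1S (fun γ : Γ => (γ : H)) (fun γ => hpow γ) hfin
  obtain ⟨m, hm'⟩ := bound h1S (fun t : H => t) hpow hTf
  have hone : (1 : Γ) ∈ SS Γ T S := ⟨1, hT1, 1, h1S, 1, hT1, by simp⟩
  have hsch : ∀ γ : Γ, ∀ n : ℕ, (γ : H) ∈ (S : Set H) ^ n → γ ∈ (SS Γ T S) ^ (n + 1) :=
    fun γ n hn => schreier Γ hT h1S n γ hn 1 hT1 1 hT1 γ (by simp)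
  have q1 : 0 ≤ K * (M + 1) := by positivity
  have q2 : 0 ≤ C₀ * (K * (m + 1) + K) := by positivity
  refine ⟨hfin.toFinset, fun γ => f γ, K * (M + 1) + (K + 1) + C₀ * (K * (m + 1) + K),
    { one_mem := ?_, inv_mem := ?_, gen := ?_, up := ?_, low := ?_, surj := ?_ }⟩
  · exact hfin.mem_toFinset.2 hone
  · intro γ hγ
    rw [hfin.mem_toFinset] at hγ ⊢
    obtain ⟨t, ht, s, hs, t', ht', h⟩ := hγ
    refine ⟨t', ht', s⁻¹, hQ.inv_mem s hs, t, ht, ?_⟩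
    rw [Subgroup.coe_inv, h]
    group
  · rw [hfin.coe_toFinset, eq_top_iff]
    intro γ _
    obtain ⟨n, hn⟩ := hpow (γ : H)
    have h1 := hsch γ n hn
    have h2 : ∀ n : ℕ, ∀ γ ∈ (SS Γ T S) ^ n, γ ∈ Subgroup.closure (SS Γ T S) := by
      intro n
      induction n with
      | zero =>
        intro γ hγ
        rw [pow_zero, Set.mem_one] at hγ
        rw [hγ]
        exact one_mem _
      | succ n ih =>
        intro γ hγ
        rw [pow_succ, Set.mem_mul] at hγ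
        obtain ⟨a, ha, b, hb, rfl⟩ := hγ
        exact mul_mem (ih a ha) (Subgroup.subset_closure hb)
    exact h2 _ _ h1
  · intro n γ hγ x
    rw [hfin.coe_toFinset] at hγ
    have h1 := pow_sub Γ hM n γ hγ
    have h2 := hQ.up (M * n) γ h1 x
    rw [Subgroup.coe_mul]
    refine h2.trans ?_
    push_cast
    have h3 : K * ((M : ℝ) * n + 1) ≤ K * (M + 1) * (n + 1) := by
      have : (0 : ℝ) ≤ K * (M + n) := by positivity
      nlinarith
    have h4 : K * (M + 1) * ((n : ℝ) + 1) ≤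
        (K * (M + 1) + (K + 1) + C₀ * (K * (m + 1) + K)) * (n + 1) :=
      mul_le_mul_of_nonneg_right (by linarith) (by positivity)
    linarith
  · intro x y r hr
    obtain ⟨n, hn, hn'⟩ := hQ.low x y r hr
    refine ⟨n + 1, ?_, ?_⟩
    · push_cast
      have h4 : (K + 1) * ((r : ℝ) + 1) ≤
          (K * (M + 1) + (K + 1) + C₀ * (K * (m + 1) + K)) * (r + 1) :=
        mul_le_mul_of_nonneg_right (by linarith) (by positivity)
      have h5 : (0 : ℝ) ≤ r := Nat.cast_nonneg r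
      linarith
    · rw [hfin.coe_toFinset]
      exact hsch (x⁻¹ * y) n hn'
  · intro w
    obtain ⟨x, hx⟩ := hQ.surj w
    obtain ⟨t, ht, hγ⟩ := hT x
    refine ⟨⟨_, hγ⟩, ?_⟩
    have h1 := hQ.up m t (hm' t ht) (x * t⁻¹)
    rw [inv_mul_cancel_right] at h1
    have e : (f (x * t⁻¹))⁻¹ * w = ((f (x * t⁻¹))⁻¹ * f x) * ((f x)⁻¹ * w) := by group
    show ga ((f (x * t⁻¹))⁻¹ * w) ≤ _
    rw [e]
    have h2 := (hm ((f (x * t⁻¹))⁻¹ * f x) ((f x)⁻¹ * w)).trans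
      (mul_le_mul_of_nonneg_left (add_le_add h1 hx) hC0)
    linarith

end Pool.Agent.Helper52K9.CG
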