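import Pool.Agent.Helper52K9.CG.Stm

/-!
# Project CG: rationality
-/

set_option autoImplicit false

namespace Pool.Agent.Helper52K9.CG

open Module

namespace RatL

variable {n : Type} [Fintype n]

/-- A real matrix is a real combination of the matrices of its rational coordinates. -/
lemma mem_span (M : Matrix n n ℝ) (V : Submodule ℝ (Matrix n n ℝ))
    (h : ∀ φ : ℝ →ₗ[ℚ] ℚ, M.map (fun x => ((φ x : ℚ) : ℝ)) ∈ V) :
    M ∈ Submodule.span ℝ {N | (∃ A : Matrix n n ℚ, rm A = N) ∧ N ∈ V} := by
  classical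
  let B := Basis.ofVectorSpace ℚ ℝ
  let s : Finset (Basis.ofVectorSpaceIndex ℚ ℝ) :=
    Finset.univ.biUnion fun p : n × n => (B.repr (M p.1 p.2)).support
  have h1 : M = ∑ i ∈ s, (B i) • M.map (fun x => ((B.coord i x : ℚ) : ℝ)) := by
    ext a b
    rw [Matrix.sum_apply]
    conv_lhs => rw [← B.linearCombination_repr (M a b)]
    rw [Finsupp.linearCombination_apply, Finsupp.sum_of_support_subset (s := s)]
    · refine Finset.sum_congr rfl fun i _ => ?_
      rw [Matrix.smul_apply, Matrix.map_apply, smul_eq_mul, Basis.coord_apply, mul_comm]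
      exact Algebra.smul_def _ _
    · intro i hi
      exact Finset.mem_biUnion.2 ⟨(a, b), Finset.mem_univ _, hi⟩
    · intro i _
      exact zero_smul _ _
  rw [h1]
  refine Submodule.sum_mem _ fun i _ => Submodule.smul_mem _ _ (Submodule.subset_span ?_)
  exact ⟨⟨M.map (B.coord i), rfl⟩, h _⟩

end RatL

theorem rat : S_RAT := by
  intro n _ _ Ω hΩ hφ
  classical
  set V := Submodule.span ℝ (Set.range Ω) with hV
  let R : Set (Matrix n n ℝ) := {N | (∃ A : Matrix n n ℚ, rm A = N) ∧ N ∈ V}
  have hspan : Submodule.span ℝ R = V := by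
    apply le_antisymm
    · exact Submodule.span_le.2 fun N hN => hN.2
    · rw [hV, Submodule.span_le]
      rintro _ ⟨k, rfl⟩
      exact RatL.mem_span (Ω k) V fun φ => hφ φ k
  obtain ⟨b, hb1, hb2, hb3⟩ := exists_linearIndependent ℝ R
  have hfin : finrank ℝ V = 2 := by
    rw [hV, finrank_span_eq_card hΩ, Fintype.card_fin]
  haveI : Fintype b := hb3.setFinite.fintype
  have hcard : Fintype.card b = 2 := by
    rw [← hfin, ← hspan, ← hb2, ← finrank_span_eq_card hb3, Subtype.range_coe]
  have e : Fin 2 ≃ b := (Fintype.equivFinOfCardEq hcard).symm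
  have h1 : ∀ a : Fin 2, ∃ A : Matrix n n ℚ, rm A = (e a : Matrix n n ℝ) := fun a =>
    (hb1 (e a).2).1
  choose A hA using h1
  refine ⟨A, ?_, fun a => ?_⟩
  · have h2 : (fun a => rm (A a)) = (fun x : b => (x : Matrix n n ℝ)) ∘ e := by
      funext a
      exact hA a
    rw [h2]
    exact hb3.comp e e.injective
  · rw [hA a]
    exact (hb1 (e a).2).2

end Pool.Agent.Helper52K9.CG
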