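import Pool.Agent.Helper52K9.CG.Ga

/-!
# Project CG: rounding and counting [RD]
-/

set_option autoImplicit false

namespace Pool.Agent.Helper52K9.CG

open scoped Pointwise

namespace RdL

open GaL

variable {l : ℝ}

theorem quot_z (w v : NN l) (k : Fin 2) :
    (w⁻¹ * v).z k = v.z k - (w.z k + ∑ i, cf l k i * w.p i * (v.q i - w.q i)) := by
  simp only [mul_z, inv_z, inv_p, Pi.neg_apply, Fin.sum_univ_four]
  ring

theorem quot_p (w v : NN l) (i : Fin 4) : (w⁻¹ * v).p i = v.p i - w.p i := by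
  simp only [mul_p, inv_p, Pi.neg_apply, Pi.add_apply]
  ring

theorem quot_q (w v : NN l) (i : Fin 4) : (w⁻¹ * v).q i = v.q i - w.q i := by
  simp only [mul_q, inv_q, Pi.neg_apply, Pi.add_apply]
  ring

theorem ga_rd (w : NN l) : ga (w⁻¹ * em l (rd l w)) ≤ 1 := by
  have hfl : ∀ x : ℝ, |(⌊x⌋ : ℝ) - x| ≤ 1 := fun x => by
    rw [abs_le]
    constructor
    · have := Int.lt_floor_add_one x
      linarith
    · have := Int.floor_le x
      linarith
  rw [ga_le_iff _ zero_le_one]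
  refine ⟨?_, ?_, ?_⟩
  · rw [pi_norm_le_iff_of_nonneg zero_le_one]
    intro i
    rw [quot_p, Real.norm_eq_abs]
    exact hfl _
  · rw [pi_norm_le_iff_of_nonneg zero_le_one]
    intro i
    rw [quot_q, Real.norm_eq_abs]
    exact hfl _
  · rw [one_pow, pi_norm_le_iff_of_nonneg zero_le_one]
    intro k
    rw [quot_z, Real.norm_eq_abs]
    exact hfl _

theorem rd_em (a : Pt) : rd l (em l a) = a := by
  unfold rd em
  ext i
  · simp
  · simp
  · simp

/-- the box -/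
noncomputable def box (r : ℕ) : Finset Pt :=
  (Fintype.piFinset fun _ : Fin 4 => Finset.Icc (-(r : ℤ)) r) ×ˢ
    ((Fintype.piFinset fun _ : Fin 4 => Finset.Icc (-(r : ℤ)) r) ×ˢ
      (Fintype.piFinset fun _ : Fin 2 => Finset.Icc (-(r : ℤ) ^ 2) ((r : ℤ) ^ 2 + 1)))

theorem box_card (r : ℕ) : (box r).card ≤ 2304 * (r + 1) ^ 12 := by
  have h1 : (Finset.Icc (-(r : ℤ)) r).card = 2 * r + 1 := by
    rw [Int.card_Icc]; omega
  have h2 : (Finset.Icc (-(r : ℤ) ^ 2) ((r : ℤ) ^ 2 + 1)).card = 2 * r ^ 2 + 2 := by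
    rw [Int.card_Icc]
    have : ((r : ℤ) ^ 2 + 1 + 1 - -(r : ℤ) ^ 2) = ((2 * r ^ 2 + 2 : ℕ) : ℤ) := by
      push_cast
      ring
    rw [this, Int.toNat_natCast]
  unfold box
  rw [Finset.card_product, Finset.card_product, Fintype.card_piFinset, Fintype.card_piFinset]
  simp only [h1, h2, Finset.prod_const, Finset.card_univ, Fintype.card_fin]
  have e1 : 2 * r + 1 ≤ 2 * (r + 1) := by omega
  have e2 : 2 * r ^ 2 + 2 ≤ 3 * (r + 1) ^ 2 := by nlinarith
  calc (2 * r + 1) ^ 4 * ((2 * r + 1) ^ 4 * (2 * r ^ 2 + 2) ^ 2)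
      ≤ (2 * (r + 1)) ^ 4 * ((2 * (r + 1)) ^ 4 * (3 * (r + 1) ^ 2) ^ 2) := by gcongr
    _ = 2304 * (r + 1) ^ 12 := by ring

/-- the injection to the box -/
noncomputable def inj (l : ℝ) (a b : Pt) : Pt :=
  (fun i => b.1 i - a.1 i, fun i => b.2.1 i - a.2.1 i,
    fun k => b.2.2 k - ⌊(a.2.2 k : ℝ) + ∑ i, cf l k i * a.1 i * ((b.2.1 i : ℝ) - a.2.1 i)⌋)

theorem inj_mem (a b : Pt) (r : ℕ) (h : ga ((em l a)⁻¹ * em l b) ≤ r) : inj l a b ∈ box r := by
  rw [ga_le_iff _ (Nat.cast_nonneg r)] at h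
  obtain ⟨h1, h2, h3⟩ := h
  rw [pi_norm_le_iff_of_nonneg (by positivity)] at h1 h2 h3
  unfold box inj
  rw [Finset.mem_product, Finset.mem_product, Fintype.mem_piFinset, Fintype.mem_piFinset,
    Fintype.mem_piFinset]
  refine ⟨fun i => ?_, fun i => ?_, fun k => ?_⟩
  · have := h1 i
    rw [quot_p, Real.norm_eq_abs, abs_le] at this
    obtain ⟨u, v⟩ := this
    rw [Finset.mem_Icc]
    simp only [em] at u v
    exact ⟨by exact_mod_cast u, by exact_mod_cast v⟩
  · have := h2 i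
    rw [quot_q, Real.norm_eq_abs, abs_le] at this
    obtain ⟨u, v⟩ := this
    rw [Finset.mem_Icc]
    simp only [em] at u v
    exact ⟨by exact_mod_cast u, by exact_mod_cast v⟩
  · have := h3 k
    rw [quot_z, Real.norm_eq_abs, abs_le] at this
    obtain ⟨u, v⟩ := this
    simp only [em] at u v
    rw [Finset.mem_Icc]
    set y : ℝ := (a.2.2 k : ℝ) + ∑ i, cf l k i * a.1 i * ((b.2.1 i : ℝ) - a.2.1 i) with hy
    have f1 := Int.floor_le y
    have f2 := Int.lt_floor_add_one y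
    change -(r : ℤ) ^ 2 ≤ b.2.2 k - ⌊y⌋ ∧ b.2.2 k - ⌊y⌋ ≤ (r : ℤ) ^ 2 + 1
    constructor
    · have : (-(r : ℝ) ^ 2) ≤ (b.2.2 k : ℝ) - ⌊y⌋ := by linarith
      exact_mod_cast this
    · have : (b.2.2 k : ℝ) - ⌊y⌋ ≤ (r : ℝ) ^ 2 + 1 := by linarith
      exact_mod_cast this

theorem inj_inj (a : Pt) : Function.Injective (inj l a) := by
  intro b c h
  unfold inj at h
  rw [Prod.mk.injEq, Prod.mk.injEq] at h
  obtain ⟨h1, h2, h3⟩ := h
  have e1 : b.1 = c.1 := by
    funext i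
    have := congrFun h1 i
    omega
  have e2 : b.2.1 = c.2.1 := by
    funext i
    have := congrFun h2 i
    omega
  have e3 : b.2.2 = c.2.2 := by
    funext k
    have := congrFun h3 k
    simp only [e2] at this
    omega
  exact Prod.ext e1 (Prod.ext e2 e3)

end RdL

open RdL in
/-- [RD] -/
theorem rd' : S_RD := by
  intro l
  refine ⟨ga_rd, rd_em, 2304, fun r a => ?_⟩
  have hfin : {b : Pt | ga ((em l a)⁻¹ * em l b) ≤ r}.Finite := by
    apply Set.Finite.of_injOn (f := inj l a) (t := (box r : Set Pt))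
    · intro b hb
      exact inj_mem a b r hb
    · exact (inj_inj a).injOn
    · exact (box r).finite_toSet
  refine ⟨hfin, ?_⟩
  calc {b : Pt | ga ((em l a)⁻¹ * em l b) ≤ r}.ncard ≤ (box r : Set Pt).ncard := by
        apply Set.ncard_le_ncard_of_injOn (inj l a)
        · intro b hb
          exact inj_mem a b r hb
        · exact (inj_inj a).injOn
    _ = (box r).card := Set.ncard_coe_finset _
    _ ≤ 2304 * (r + 1) ^ 12 := box_card r

end Pool.Agent.Helper52K9.CG
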