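import Pool.Agent.Helper52K9.CG.Stm
import Pool.Agent.Helper52K9.CG.Mean

set_option autoImplicit false

namespace Pool.Agent.Helper52K9.CG

open scoped Pointwise

namespace SublL

variable {Γ : Type} [Group Γ] (μ : RMean Γ) {b : Γ → Γ → ℝ}

theorem coc_one (hb : Coc b) (x : Γ) : b 1 x = 0 := by
  have := hb.2 1 1 x
  simp at this
  exact this

theorem hom (hb : Coc b) (g h : Γ) : μ.m (b (g * h)) = μ.m (b g) + μ.m (b h) := by
  have e : b (g * h) = fun x => b g x + b h (x * g) := funext fun x => hb.2 g h x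
  rw [e, μ.add _ _ (hb.1 g) ((hb.1 h).shift g), μ.inv _ g (hb.1 h)]

theorem hom_one (hb : Coc b) : μ.m (b 1) = 0 := by
  have := hom μ hb 1 1
  simp at this
  exact this

/-- the error of the approximation of `b` by a constant plus a coboundary -/
def err (b : Γ → Γ → ℝ) (v : Γ → ℝ) (g x : Γ) : ℝ := b g x - μ.m (b g) - (v x - v (x * g))

theorem err_bd (hb : Coc b) {v : Γ → ℝ} (hv : Bd v) (g : Γ) : Bd (err μ b v g) :=
  ((hb.1 g).sub (Bd.const _)).sub (hv.sub (hv.shift g))

theorem err_mul (hb : Coc b) (v : Γ → ℝ) (g h x : Γ) :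
    err μ b v (g * h) x = err μ b v g x + err μ b v h (x * g) := by
  unfold err
  rw [hb.2, hom μ hb, ← mul_assoc]
  ring

theorem err_pow (hb : Coc b) {v : Γ → ℝ} (hv : Bd v) (S : Set Γ) {ε : ℝ}
    (hS : ∀ s ∈ S, μ.nm (err μ b v s) ≤ ε) (n : ℕ) :
    ∀ g ∈ S ^ n, μ.nm (err μ b v g) ≤ ε * n := by
  induction n with
  | zero =>
    intro g hg
    rw [pow_zero, Set.mem_one] at hg
    subst hg
    have e : err μ b v 1 = fun _ => (0 : ℝ) := by
      funext x
      unfold err
      rw [coc_one hb, hom_one μ hb, mul_one]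
      ring
    rw [e, μ.nm_zero]
    simp
  | succ n ih =>
    intro g hg
    rw [pow_succ] at hg
    obtain ⟨h, hh, s, hs, rfl⟩ := Set.mem_mul.1 hg
    have e : err μ b v (h * s) = fun x => err μ b v h x + err μ b v s (x * h) :=
      funext fun x => err_mul μ hb v h s x
    rw [e]
    refine (μ.nm_add (err_bd μ hb hv h) ((err_bd μ hb hv s).shift h)).trans ?_
    rw [μ.nm_shift (err_bd μ hb hv s)]
    have := ih h hh
    have := hS s hs
    push_cast
    linarith

end SublL

open SublL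

theorem subl (dec : S_DEC) : S_SUBL := by
  intro Γ _ _ μ hμ b hb S ε hε
  obtain ⟨v, hv, h⟩ := dec Γ μ hμ b hb S (ε ^ 2) (by positivity)
  have hS : ∀ s ∈ (S : Set Γ), μ.nm (err μ b v s) ≤ ε := fun s hs =>
    μ.nm_le_of_sq hε.le (h s hs)
  refine ⟨2 * μ.nm v, fun n g hg => ?_⟩
  have h1 := err_pow μ hb hv _ hS n g hg
  have h2 : μ.nm (fun x => b g x - μ.m (b g)) ≤ ε * n + 2 * μ.nm v := by
    have e : (fun x => b g x - μ.m (b g)) =
        fun x => err μ b v g x + (v x - v (x * g)) := by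
      funext x
      unfold err
      ring
    rw [e]
    refine (μ.nm_add (err_bd μ hb hv g) (hv.sub (hv.shift g))).trans ?_
    have h3 := μ.nm_sub hv (hv.shift g)
    rw [μ.nm_shift hv] at h3
    linarith
  have h3 : Bd (fun x => b g x - μ.m (b g)) := (hb.1 g).sub (Bd.const _)
  rw [← μ.nm_sq h3]
  exact pow_le_pow_left₀ (μ.nm_nonneg _) h2 2

end Pool.Agent.Helper52K9.CG
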