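import Pool.Agent.Helper52K9.CG.Stm
import Pool.Agent.TH719.ED.FinPoly

/-!
# [TOZ] an infinite group of polynomial growth virtually maps onto the integers
-/

set_option autoImplicit false

namespace Pool.Agent.Helper52K9.CG

open scoped Pointwise
open Pool.Agent.TH719.ED

namespace TozL

/-- an infinite finitely generated abelian group maps onto the integers -/
theorem onto_int (A : Type) [AddCommGroup A] [AddGroup.FG A] [Infinite A] :
    ∃ f : A →+ ℤ, Function.Surjective f := by
  obtain ⟨n, ι, _, p, hp, e, ⟨E⟩⟩ := AddCommGroup.equiv_free_prod_directSum_zmod A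
  rcases Nat.eq_zero_or_pos n with rfl | hn
  · exfalso
    have h1 : ∀ i, NeZero (p i ^ e i) := fun i => ⟨pow_ne_zero _ (hp i).ne_zero⟩
    have h2 : Finite (DirectSum ι fun i => ZMod (p i ^ e i)) := by
      classical
      exact Finite.of_equiv _ (DFinsupp.equivFunOnFintype (β := fun i => ZMod (p i ^ e i))).symm
    have h3 : Finite (Fin 0 →₀ ℤ) := inferInstance
    have h4 : Finite A := Finite.of_equiv _ E.toEquiv.symm
    exact not_finite A
  · let g : ((Fin n →₀ ℤ) × (DirectSum ι fun i => ZMod (p i ^ e i))) →+ ℤ :=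
      (Finsupp.applyAddHom (⟨0, hn⟩ : Fin n)).comp (AddMonoidHom.fst _ _)
    refine ⟨g.comp E.toAddMonoidHom, fun z => ?_⟩
    obtain ⟨a, ha⟩ := E.surjective (Finsupp.single (⟨0, hn⟩ : Fin n) z, 0)
    refine ⟨a, ?_⟩
    show g (E a) = z
    rw [ha]
    simp [g]

/-- a finitely generated group with an infinite commutative image maps onto the integers -/
theorem onto {B D : Type} [Group B] [Group.FG B] [Group D] (θ : B →* D)
    (hc : ∀ g h, θ (g * h) = θ (h * g)) (hinf : (Set.range θ).Infinite) :
    ∃ χ : B →* Multiplicative ℤ, Function.Surjective χ := by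
  let _ : CommGroup θ.range :=
    { (inferInstance : Group θ.range) with
      mul_comm := by
        rintro ⟨_, ⟨g, rfl⟩⟩ ⟨_, ⟨h, rfl⟩⟩
        apply Subtype.ext
        show θ g * θ h = θ h * θ g
        rw [← map_mul, hc, map_mul] }
  have h1 : Group.FG θ.range := Group.fg_range θ
  have h2 : Infinite θ.range := hinf.to_subtype
  have h3 : AddGroup.FG (Additive θ.range) := inferInstance
  have h4 : Infinite (Additive θ.range) := inferInstance
  obtain ⟨f, hf⟩ := onto_int (Additive θ.range)
  let F : θ.range →* Multiplicative ℤ := AddMonoidHom.toMultiplicativeRight f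
  have hF : Function.Surjective F := by
    intro z
    obtain ⟨a, ha⟩ := hf z.toAdd
    exact ⟨a.toMul, by
      show Multiplicative.ofAdd (f _) = z
      have : f (Additive.ofMul a.toMul) = z.toAdd := ha
      rw [this]; rfl⟩
  exact ⟨F.comp θ.rangeRestrict, hF.comp θ.rangeRestrict_surjective⟩

/-- a harmonic cocycle with finitely many values vanishes -/
theorem zero_of_fin {G : Type} [Group G] (S : Finset G)
    (hgen : ∀ P : Set G, (1 : G) ∈ P → (∀ x ∈ P, ∀ s ∈ S, x * s ∈ P) → P = Set.univ)
    (V : Type) [NormedAddCommGroup V] [InnerProductSpace ℝ V]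
    (ρ : G →* (V ≃ₗᵢ[ℝ] V)) (b : G → V)
    (hb : ∀ x y, b (x * y) = b x + ρ x (b y))
    (hh : ∀ x, ∑ s ∈ S, b (x * s) = (S.card : ℝ) • b x) (hfin : (Set.range b).Finite) (x : G) :
    b x = 0 := by
  have hb1 : b 1 = 0 := by
    have := hb 1 1
    simp at this
    exact this
  -- maximum principle
  by_contra hne
  set F : G → ℝ := fun y => inner ℝ (b x) (b y) with hF
  have hFfin : (Set.range F).Finite := by
    have : Set.range F = (fun v => inner ℝ (b x) v) '' Set.range b := by
      rw [← Set.range_comp]; rfl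
    rw [this]
    exact hfin.image _
  obtain ⟨_, ⟨x1, rfl⟩, hx1⟩ := Set.exists_max_image (Set.range F) id hFfin ⟨F 1, 1, rfl⟩
  have hmax : ∀ y, F y ≤ F x1 := fun y => hx1 _ ⟨y, rfl⟩
  have hharm : ∀ y, ∑ s ∈ S, F (y * s) = S.card * F y := by
    intro y
    simp only [hF]
    rw [← inner_sum, hh, inner_smul_right]
  have hconst : ∀ y, F y = F x1 := by
    have h1 : {y | F (x1 * y) = F x1} = Set.univ := by
      apply hgen
      · simp
      · intro y hy s hs
        simp only [Set.mem_ofPred_eq] at hy ⊢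
        have h2 := hharm (x1 * y)
        have h3 : ∑ s ∈ S, (F x1 - F (x1 * y * s)) = 0 := by
          rw [Finset.sum_sub_distrib, h2, hy]
          simp
        have h4 := (Finset.sum_eq_zero_iff_of_nonneg (fun s _ => sub_nonneg.2 (hmax _))).1 h3 s hs
        rw [← mul_assoc]
        linarith
    intro y
    have h2 : x1⁻¹ * y ∈ {y | F (x1 * y) = F x1} := by rw [h1]; trivial
    simpa using h2
  have h5 : F x = F 1 := by rw [hconst x, hconst 1]
  simp only [hF] at h5
  rw [hb1, inner_zero_right, real_inner_self_eq_norm_sq] at h5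
  have : ‖b x‖ ≠ 0 := by simpa using hne
  exact this (by simpa using h5)

end TozL

open TozL

theorem toz (hL : S_LINR) : S_TOZ := by
  classical
  intro d G _ hFG _ hpoly
  obtain ⟨T, hT⟩ := hFG.out
  set S : Finset G := insert 1 (T ∪ T.image (fun x => x⁻¹)) with hS
  have h1 : (1 : G) ∈ S := Finset.mem_insert_self _ _
  have hSi : ∀ x ∈ S, x⁻¹ ∈ S := by
    intro g hg
    simp only [hS, Finset.mem_insert, Finset.mem_union, Finset.mem_image] at hg ⊢
    rcases hg with rfl | hg | ⟨a, ha, rfl⟩
    · left; simp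
    · right; right; exact ⟨g, hg, rfl⟩
    · right; left; simpa using ha
  have hgen : Subgroup.closure (S : Set G) = ⊤ := by
    rw [← top_le_iff, ← hT]
    apply Subgroup.closure_mono
    intro x hx
    simp only [hS, Finset.coe_insert, Finset.coe_union, Set.mem_insert_iff, Set.mem_union]
    exact Or.inr (Or.inl hx)
  obtain ⟨C, hC⟩ := hpoly S
  have hCd : ∃ C d : ℕ, ∀ n : ℕ, ((S : Set G) ^ n).ncard ≤ C * (n + 1) ^ d := ⟨C, d, hC⟩
  obtain ⟨f, L, hf1, hf2, hf3⟩ := exists_harmonic S h1 hSi hgen hCd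
  obtain ⟨C0, hE1, hE2⟩ := entropy_facts S ⟨1, h1⟩ hCd
  obtain ⟨V, _, _, _, ρ, b, hb1, hb2, x, hb3⟩ :=
    harmonic_rep S h1 hSi hgen C0 hE1 hE2 f L hf1 hf2 hf3
  obtain ⟨H, hHf, hHc⟩ := hL d G hpoly V ρ
  have hHfg : Group.FG H := inferInstance
  by_cases hinf : (Set.range (ρ.comp H.subtype)).Infinite
  · obtain ⟨χ, hχ⟩ := onto (ρ.comp H.subtype) (fun g h => hHc g g.2 h h.2) hinf
    exact ⟨H, hHf, χ, hχ⟩
  · rw [Set.not_infinite] at hinf
    have hfr : Finite (ρ.comp H.subtype).range := hinf.to_subtype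
    have hKi : (ρ.comp H.subtype).ker.FiniteIndex := inferInstance
    obtain ⟨N, hN⟩ : ∃ N : Subgroup G, N = (ρ.comp H.subtype).ker.map H.subtype := ⟨_, rfl⟩
    have hNi : N.FiniteIndex := by
      refine ⟨?_⟩
      rw [hN, Subgroup.index_map_subtype]
      exact mul_ne_zero hKi.index_ne_zero hHf.index_ne_zero
    have hNfg : Group.FG N := inferInstance
    have hNρ : ∀ n ∈ N, ρ n = 1 := by
      intro n hn
      rw [hN] at hn
      obtain ⟨k, hk, rfl⟩ := hn
      exact hk
    -- a nonzero value
    obtain ⟨n₀, hn₀, hbn⟩ : ∃ n ∈ N, b n ≠ 0 := by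
      by_contra hcon
      push Not at hcon
      apply hb3
      refine zero_of_fin S (gen_induct S hSi hgen) V ρ b hb1 hb2 ?_ x
      have hq : Finite (G ⧸ N) := Subgroup.finite_quotient_of_finiteIndex
      have hsub : Set.range b ⊆ Set.range (fun q : G ⧸ N => b q.out) := by
        rintro _ ⟨g, rfl⟩
        refine ⟨(QuotientGroup.mk g : G ⧸ N), ?_⟩
        obtain ⟨h, hh⟩ := QuotientGroup.mk_out_eq_mul N g
        show b _ = b g
        rw [hh, hb1, hcon _ h.2, map_zero, add_zero]
      exact (Set.finite_range _).subset hsub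
    let θ : N →* Multiplicative ℝ :=
      { toFun := fun n => Multiplicative.ofAdd (inner ℝ (b n₀) (b n))
        map_one' := by
          have h2 : b 1 = 0 := by
            have := hb1 1 1
            simp at this
            exact this
          show Multiplicative.ofAdd (inner ℝ (b n₀) (b (1 : G))) = 1
          rw [h2, inner_zero_right]; rfl
        map_mul' := fun g h => by
          show Multiplicative.ofAdd (inner ℝ (b n₀) (b ((g : G) * h))) = _
          rw [hb1, hNρ g g.2]
          show Multiplicative.ofAdd (inner ℝ (b n₀) (b (g : G) + b (h : G))) = _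
          rw [inner_add_right]; rfl }
    have hθ : (Set.range θ).Infinite := by
      have h2 : θ ⟨n₀, hn₀⟩ ≠ 1 := by
        intro h3
        have h4 : inner ℝ (b n₀) (b n₀) = (0 : ℝ) := h3
        exact hbn (inner_self_eq_zero.1 h4)
      have h3 : Function.Injective fun k : ℕ => θ (⟨n₀, hn₀⟩ ^ k) := by
        intro k l hkl
        simp only [map_pow] at hkl
        have h4 : (k : ℝ) * (θ ⟨n₀, hn₀⟩).toAdd = (l : ℝ) * (θ ⟨n₀, hn₀⟩).toAdd := by
          have := congrArg Multiplicative.toAdd hkl
          rw [toAdd_pow, toAdd_pow, nsmul_eq_mul, nsmul_eq_mul] at this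
          exact this
        have h5 : (θ ⟨n₀, hn₀⟩).toAdd ≠ 0 := h2
        exact_mod_cast mul_right_cancel₀ h5 h4
      exact (Set.infinite_range_of_injective h3).mono (by rintro _ ⟨k, rfl⟩; exact ⟨_, rfl⟩)
    obtain ⟨χ, hχ⟩ := onto θ (fun g h => by rw [map_mul, map_mul, mul_comm]) hθ
    exact ⟨N, hNi, χ, hχ⟩

end Pool.Agent.Helper52K9.CG
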