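import Pool.Agent.Helper52K9.CG.Stm

set_option autoImplicit false

/-! # [UNI]: automorphisms of finitely generated abelian groups of polynomial growth -/

namespace Pool.Agent.Helper52K9.CG

open Polynomial

namespace UniL

/-! ### sums with the digits `0` and `1` -/

theorem geo_lt (r : ℝ) (hr : 2 ≤ r) (n : ℕ) : ∑ j ∈ Finset.range n, r ^ j < r ^ n := by
  induction n with
  | zero => simp
  | succ n ih =>
    rw [Finset.sum_range_succ, pow_succ]
    have : 0 < r ^ n := by positivity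
    nlinarith

theorem diff_le (μ : ℂ) (n : ℕ) (s s' : Finset ℕ) (hs : s ⊆ Finset.range n)
    (hs' : s' ⊆ Finset.range n) :
    ‖∑ j ∈ s', μ ^ j - ∑ j ∈ s, μ ^ j‖ ≤ ∑ j ∈ Finset.range n, ‖μ‖ ^ j := by
  rw [← Finset.sum_sdiff_sub_sum_sdiff]
  refine (norm_sub_le _ _).trans ?_
  have h1 : ∀ t : Finset ℕ, ‖∑ j ∈ t, μ ^ j‖ ≤ ∑ j ∈ t, ‖μ‖ ^ j := fun t =>
    (norm_sum_le _ _).trans (le_of_eq (Finset.sum_congr rfl fun j _ => norm_pow _ _))
  refine (add_le_add (h1 _) (h1 _)).trans ?_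
  have hd : Disjoint (s' \ s) (s \ s') := by
    rw [Finset.disjoint_left]
    intro x hx hx'
    exact (Finset.mem_sdiff.1 hx).2 (Finset.mem_sdiff.1 hx').1
  rw [← Finset.sum_union hd]
  refine Finset.sum_le_sum_of_subset_of_nonneg ?_ fun i _ _ => by positivity
  intro x hx
  rcases Finset.mem_union.1 hx with h | h
  · exact hs' (Finset.mem_sdiff.1 h).1
  · exact hs (Finset.mem_sdiff.1 h).1

theorem digits (μ : ℂ) (hμ : 2 ≤ ‖μ‖) : ∀ (n : ℕ) (s s' : Finset ℕ), s ⊆ Finset.range n →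
    s' ⊆ Finset.range n → ∑ j ∈ s, μ ^ j = ∑ j ∈ s', μ ^ j → s = s' := by
  intro n
  have key : ∀ (n : ℕ) (s s' : Finset ℕ), s ⊆ Finset.range (n + 1) → s' ⊆ Finset.range (n + 1) →
      n ∈ s → n ∉ s' → ∑ j ∈ s, μ ^ j ≠ ∑ j ∈ s', μ ^ j := by
    intro n s s' hs hs' h1 h2 he
    have h3 : s.erase n ⊆ Finset.range n := by
      intro x hx
      have h4 := Finset.mem_range.1 (hs (Finset.mem_of_mem_erase hx))
      have h5 := Finset.ne_of_mem_erase hx
      exact Finset.mem_range.2 (by omega)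
    have h4 : s' ⊆ Finset.range n := by
      intro x hx
      have h4 := Finset.mem_range.1 (hs' hx)
      have h5 : x ≠ n := fun h => h2 (h ▸ hx)
      exact Finset.mem_range.2 (by omega)
    have h5 := diff_le μ n _ _ h3 h4
    have h6 := geo_lt ‖μ‖ hμ n
    rw [← he, ← Finset.add_sum_erase s _ h1, add_sub_cancel_right, norm_pow] at h5
    linarith
  induction n with
  | zero =>
    intro s s' hs hs' _
    rw [Finset.range_zero, Finset.subset_empty] at hs hs'
    rw [hs, hs']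
  | succ n ih =>
    intro s s' hs hs' he
    have hsub : ∀ t : Finset ℕ, t ⊆ Finset.range (n + 1) → t.erase n ⊆ Finset.range n := by
      intro t ht x hx
      have h4 := Finset.mem_range.1 (ht (Finset.mem_of_mem_erase hx))
      have h5 := Finset.ne_of_mem_erase hx
      exact Finset.mem_range.2 (by omega)
    by_cases h1 : n ∈ s
    · by_cases h2 : n ∈ s'
      · have h3 := ih (s.erase n) (s'.erase n) (hsub s hs) (hsub s' hs') (by
          rw [← Finset.add_sum_erase s _ h1, ← Finset.add_sum_erase s' _ h2] at he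
          exact add_left_cancel he)
        rw [← Finset.insert_erase h1, ← Finset.insert_erase h2, h3]
      · exact absurd he (key n s s' hs hs' h1 h2)
    · by_cases h2 : n ∈ s'
      · exact absurd he.symm (key n s' s hs' hs h2 h1)
      · have h3 := ih (s.erase n) (s'.erase n) (hsub s hs) (hsub s' hs') (by
          rw [Finset.erase_eq_of_notMem h1, Finset.erase_eq_of_notMem h2]
          exact he)
        rw [Finset.erase_eq_of_notMem h1, Finset.erase_eq_of_notMem h2] at h3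
        exact h3

theorem no_growth (C m d : ℕ) (h : ∀ n : ℕ, 2 ^ n ≤ C * (m * n + 1 + 1) ^ d) : False := by
  have h1 := (tendsto_pow_const_div_const_pow_of_one_lt d (by norm_num : (1 : ℝ) < 2)).const_mul
    ((C : ℝ) * (m + 2) ^ d)
  rw [mul_zero] at h1
  obtain ⟨n, hn, hn1⟩ := ((h1.eventually_lt_const (zero_lt_one)).and
    (Filter.eventually_ge_atTop 1)).exists
  have h2 : ((2 : ℝ) ^ n) ≤ C * (m * n + 1 + 1) ^ d := by exact_mod_cast h n
  have h3 : (1 : ℝ) ≤ n := by exact_mod_cast hn1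
  have h4 : ((m : ℝ) * n + 1 + 1) ^ d ≤ ((m + 2) * n) ^ d := by
    refine pow_le_pow_left₀ (by positivity) ?_ d
    nlinarith
  have h5 : (2 : ℝ) ^ n ≤ C * (m + 2) ^ d * n ^ d := by
    have h6 := mul_le_mul_of_nonneg_left h4 (Nat.cast_nonneg' C : (0 : ℝ) ≤ C)
    rw [mul_pow] at h6
    linarith
  rw [← mul_div_assoc, div_lt_one (by positivity)] at hn
  linarith

/-- the growth hypothesis -/
def Gr {A : Type} [AddCommGroup A] (α : A ≃+ A) (d : ℕ) : Prop :=
  ∀ a : A, ∃ C : ℕ, ∀ n : ℕ,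
    Set.ncard {x : A | ∃ e : ℕ → ℕ, (∀ j, e j ≤ 1) ∧
      x = ∑ j ∈ Finset.range n, e j • (α^[j]) a} ≤ C * (n + 1) ^ d

variable {A : Type} [AddCommGroup A]

theorem eig_iter (α : A ≃+ A) (φ : A →+ ℂ) (μ : ℂ) (hφ : ∀ a, φ (α a) = μ * φ a) (a : A) (j : ℕ) :
    φ (α^[j] a) = μ ^ j * φ a := by
  induction j with
  | zero => simp
  | succ j ih =>
    rw [Function.iterate_succ_apply', hφ, ih, pow_succ]
    ring

theorem eig_le (α : A ≃+ A) (d : ℕ) (h : Gr α d) (φ : A →+ ℂ) (μ : ℂ)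
    (hφ : ∀ a, φ (α a) = μ * φ a) (a₀ : A) (ha₀ : φ a₀ ≠ 0) : ‖μ‖ ≤ 1 := by
  classical
  by_contra hlt
  push Not at hlt
  obtain ⟨m, hm⟩ := pow_unbounded_of_one_lt 2 hlt
  have hm0 : 0 < m := by
    rcases Nat.eq_zero_or_pos m with h0 | h0
    · rw [h0, pow_zero] at hm
      norm_num at hm
    · exact h0
  obtain ⟨C, hC⟩ := h a₀
  refine no_growth C m d fun n => ?_
  refine le_trans ?_ (hC (m * n + 1))
  obtain ⟨S, hS⟩ : ∃ S, S = {x : A | ∃ e : ℕ → ℕ, (∀ j, e j ≤ 1) ∧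
      x = ∑ j ∈ Finset.range (m * n + 1), e j • (α^[j]) a₀} := ⟨_, rfl⟩
  rw [← hS]
  have hfin : S.Finite := by
    refine Set.Finite.subset (((Finset.range (m * n + 1)).powerset.image
      fun s => ∑ j ∈ s, (α^[j]) a₀).finite_toSet) ?_
    intro x hx
    rw [hS] at hx
    obtain ⟨e, he, rfl⟩ := hx
    rw [Finset.mem_coe, Finset.mem_image]
    refine ⟨(Finset.range (m * n + 1)).filter fun j => e j = 1,
      Finset.mem_powerset.2 (Finset.filter_subset _ _), ?_⟩
    rw [Finset.sum_filter]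
    refine Finset.sum_congr rfl fun j _ => ?_
    have := he j
    by_cases h1 : e j = 1
    · rw [if_pos h1, h1, one_smul]
    · have h2 : e j = 0 := by omega
      rw [if_neg h1, h2, zero_smul]
  have hinj : Set.InjOn (fun s : Finset ℕ => ∑ j ∈ s, (α^[m * j]) a₀)
      ((Finset.range n).powerset : Set (Finset ℕ)) := by
    intro s hs s' hs' he
    rw [Finset.mem_coe, Finset.mem_powerset] at hs hs'
    have h1 := congrArg φ he
    simp only [map_sum, eig_iter α φ μ hφ, pow_mul] at h1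
    rw [← Finset.sum_mul, ← Finset.sum_mul] at h1
    exact digits (μ ^ m) (by rw [norm_pow]; exact hm.le) n s s' hs hs'
      (mul_right_cancel₀ ha₀ h1)
  have hsub : (fun s : Finset ℕ => ∑ j ∈ s, (α^[m * j]) a₀) ''
      ((Finset.range n).powerset : Set (Finset ℕ)) ⊆ S := by
    rintro x ⟨s, hs, rfl⟩
    rw [Finset.mem_coe, Finset.mem_powerset] at hs
    rw [hS]
    refine ⟨fun i => if i ∈ s.image (fun j => m * j) then 1 else 0, fun j => ?_, ?_⟩
    · show (if _ then 1 else 0) ≤ 1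
      split_ifs <;> omega
    · have h1 : s.image (fun j => m * j) ⊆ Finset.range (m * n + 1) := by
        intro i hi
        obtain ⟨j, hj, rfl⟩ := Finset.mem_image.1 hi
        have h2 := Finset.mem_range.1 (hs hj)
        have h3 : m * j ≤ m * n := Nat.mul_le_mul_left m h2.le
        exact Finset.mem_range.2 (by omega)
      simp only [ite_smul, one_smul, zero_smul]
      rw [Finset.sum_ite_mem, Finset.inter_eq_right.2 h1, Finset.sum_image]
      intro i _ j _ hij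
      exact Nat.eq_of_mul_eq_mul_left hm0 hij
  calc 2 ^ n = (Finset.range n).powerset.card := by rw [Finset.card_powerset, Finset.card_range]
    _ = Set.ncard ((Finset.range n).powerset : Set (Finset ℕ)) := (Set.ncard_coe_finset _).symm
    _ = Set.ncard ((fun s : Finset ℕ => ∑ j ∈ s, (α^[m * j]) a₀) ''
      ((Finset.range n).powerset : Set (Finset ℕ))) := hinj.ncard_image.symm
    _ ≤ S.ncard := Set.ncard_le_ncard hsub hfin

/-- the endomorphism -/
def en (α : A ≃+ A) : Module.End ℤ A := α.toAddMonoidHom.toIntLinearMap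

theorem en_apply (α : A ≃+ A) (x : A) : en α x = α x := rfl

theorem en_pow (α : A ≃+ A) (n : ℕ) (x : A) : (en α ^ n) x = (α^[n]) x := by
  rw [Module.End.pow_apply]
  rfl

theorem poly_act (α : A ≃+ A) (φ : A →+ ℂ) (μ : ℂ) (hφ : ∀ a, φ (α a) = μ * φ a) (p : ℤ[X])
    (x : A) : φ ((aeval (en α) p) x) = aeval μ p * φ x := by
  induction p using Polynomial.induction_on' with
  | add p q hp hq =>
    rw [map_add, LinearMap.add_apply, map_add, hp, hq, map_add, add_mul]
  | monomial n c =>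
    rw [aeval_monomial, aeval_monomial, Module.End.mul_apply, Module.algebraMap_end_apply, en_pow,
      map_zsmul, eig_iter α φ μ hφ, zsmul_eq_mul, mul_assoc]
    rfl

open IntermediateField in
theorem eig_root [Module.Finite ℤ A] (α : A ≃+ A) (d : ℕ) (h : Gr α d) (φ : A →+ ℂ) (μ : ℂ)
    (hφ : ∀ a, φ (α a) = μ * φ a) (a₀ : A) (ha₀ : φ a₀ ≠ 0) : ∃ n : ℕ, 0 < n ∧ μ ^ n = 1 := by
  have hμ0 : μ ≠ 0 := by
    intro h0
    apply ha₀
    have := hφ (α.symm a₀)
    rw [AddEquiv.apply_symm_apply, h0, zero_mul] at this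
    exact this
  have hi : IsIntegral ℤ μ := by
    obtain ⟨p, hp, hp0⟩ := LinearMap.exists_monic_and_aeval_eq_zero ℤ (en α)
    refine ⟨p, hp, ?_⟩
    have h1 := poly_act α φ μ hφ p a₀
    rw [hp0, LinearMap.zero_apply, map_zero] at h1
    have h2 := (mul_eq_zero.1 h1.symm).resolve_right ha₀
    rwa [aeval_def] at h2
  have hiQ : IsIntegral ℚ μ := hi.tower_top
  have : FiniteDimensional ℚ ℚ⟮μ⟯ := adjoin.finiteDimensional hiQ
  have : NumberField ℚ⟮μ⟯ := { }
  obtain ⟨x, hx⟩ : ∃ x : ℚ⟮μ⟯, x = AdjoinSimple.gen ℚ μ := ⟨_, rfl⟩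
  have hxμ : algebraMap ℚ⟮μ⟯ ℂ x = μ := by
    rw [hx]
    exact AdjoinSimple.algebraMap_gen ℚ μ
  have hxi : IsIntegral ℤ x := by
    rw [← isIntegral_algebraMap_iff (algebraMap ℚ⟮μ⟯ ℂ).injective, hxμ]
    exact hi
  have hx0 : x ≠ 0 := by
    intro h0
    rw [h0, map_zero] at hxμ
    exact hμ0 hxμ.symm
  obtain ⟨n, hn, hxn⟩ := NumberField.Embeddings.pow_eq_one_of_norm_le_one ℚ⟮μ⟯ ℂ hx0 hxi (by
    intro σ
    obtain ⟨ψ, hψ⟩ : ∃ ψ : Module.Dual ℚ⟮μ⟯ ℂ, ψ (φ a₀) ≠ 0 := by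
      by_contra hc
      push Not at hc
      exact ha₀ ((Module.forall_dual_apply_eq_zero_iff ℚ⟮μ⟯ (φ a₀)).1 hc)
    refine eig_le α d h (σ.toAddMonoidHom.comp (ψ.toAddMonoidHom.comp φ)) (σ x) (fun a => ?_) a₀ ?_
    · show σ (ψ (φ (α a))) = σ x * σ (ψ (φ a))
      have h1 : μ * φ a = x • φ a := by
        rw [Algebra.smul_def, hxμ]
      rw [hφ, h1, map_smul, smul_eq_mul, map_mul]
    · show σ (ψ (φ a₀)) ≠ 0
      exact fun h0 => hψ (by simpa using h0))
  refine ⟨n, hn, ?_⟩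
  rw [← hxμ, ← map_pow, hxn, map_one]

/-- the dual map -/
def pull (a : Module.End ℤ A) : Module.End ℂ (A →ₗ[ℤ] ℂ) where
  toFun φ := φ ∘ₗ a
  map_add' _ _ := rfl
  map_smul' _ _ := rfl

theorem fd [Module.Finite ℤ A] : FiniteDimensional ℂ (A →ₗ[ℤ] ℂ) := by
  obtain ⟨n, s, hs⟩ := Module.Finite.exists_fin (R := ℤ) (M := A)
  let L : (A →ₗ[ℤ] ℂ) →ₗ[ℂ] (Fin n → ℂ) :=
    { toFun := fun φ i => φ (s i)
      map_add' := fun _ _ => rfl
      map_smul' := fun _ _ => rfl }
  refine FiniteDimensional.of_injective L ?_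
  intro φ ψ hφψ
  refine LinearMap.ext_on_range (v := s) hs fun i => ?_
  exact congrFun hφψ i

theorem exists_N [Module.Finite ℤ A] (α : A ≃+ A) (d : ℕ) (h : Gr α d) :
    ∃ N R : ℕ, 0 < N ∧ (pull (en α) ^ N - 1) ^ R = 0 := by
  classical
  have := fd (A := A)
  obtain ⟨P, hP⟩ : ∃ P, P = LinearMap.charpoly (pull (en α)) := ⟨_, rfl⟩
  have hPm : P.Monic := hP ▸ LinearMap.charpoly_monic _
  have hroot : ∀ μ ∈ P.roots, ∃ n : ℕ, 0 < n ∧ μ ^ n = 1 := by
    intro μ hμ
    have h1 : P.IsRoot μ := (mem_roots'.1 hμ).2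
    rw [hP, ← Module.End.hasEigenvalue_iff_isRoot_charpoly] at h1
    obtain ⟨φ, hφ⟩ := h1.exists_hasEigenvector
    have h2 := hφ.apply_eq_smul
    have h3 : ∃ a₀, φ a₀ ≠ 0 := by
      by_contra hc
      push Not at hc
      exact hφ.2 (LinearMap.ext hc)
    obtain ⟨a₀, ha₀⟩ := h3
    refine eig_root α d h φ.toAddMonoidHom μ (fun a => ?_) a₀ ha₀
    have h4 := congrArg (fun f : A →ₗ[ℤ] ℂ => f a) h2
    exact h4
  obtain ⟨N, hN⟩ : ∃ N, N = ∏ x ∈ P.roots.toFinset, orderOf x := ⟨_, rfl⟩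
  have hN0 : 0 < N := by
    rw [hN]
    refine Finset.prod_pos fun x hx => ?_
    rw [orderOf_pos_iff, isOfFinOrder_iff_pow_eq_one]
    exact hroot x (Multiset.mem_toFinset.1 hx)
  have hN1 : ∀ x ∈ P.roots, x ^ N = 1 := by
    intro x hx
    rw [← orderOf_dvd_iff_pow_eq_one, hN]
    exact Finset.dvd_prod_of_mem _ (Multiset.mem_toFinset.2 hx)
  refine ⟨N, Multiset.card P.roots, hN0, ?_⟩
  have hdvd : P ∣ (Polynomial.X ^ N - 1 : ℂ[X]) ^ Multiset.card P.roots := by
    have h1 := Multiset.prod_dvd_prod_of_dvd (S := P.roots) (fun x => Polynomial.X - C x)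
      (fun _ => (Polynomial.X ^ N - 1 : ℂ[X])) (by
        intro x hx
        rw [dvd_iff_isRoot]
        simp [hN1 x hx])
    rw [← (IsAlgClosed.splits P).eq_prod_roots_of_monic hPm, Multiset.map_const',
      Multiset.prod_replicate] at h1
    exact h1
  obtain ⟨Q, hQ⟩ := hdvd
  have h2 := congrArg (aeval (pull (en α))) hQ
  rw [map_mul, hP, LinearMap.aeval_self_charpoly, zero_mul, ← hP] at h2
  simpa using h2

theorem pull_rel (a : Module.End ℤ A) (N R : ℕ) (φ : A →ₗ[ℤ] ℂ) :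
    ((pull a ^ N - 1) ^ R) φ = φ ∘ₗ ((a ^ N - 1) ^ R) := by
  have h1 : ∀ (n : ℕ) (φ : A →ₗ[ℤ] ℂ), (pull a ^ n) φ = φ ∘ₗ (a ^ n) := by
    intro n
    induction n with
    | zero => intro φ; rfl
    | succ n ih =>
      intro φ
      rw [pow_succ, Module.End.mul_apply, ih, pow_succ']
      rfl
  induction R generalizing φ with
  | zero => rfl
  | succ R ih =>
    rw [pow_succ, Module.End.mul_apply, ih, pow_succ', LinearMap.sub_apply, h1]
    ext x
    simp [Module.End.mul_apply]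

theorem tors [Module.Finite ℤ A] (x : A) (hx : ∀ φ : A →ₗ[ℤ] ℂ, φ x = 0) :
    x ∈ Submodule.torsion ℤ A := by
  rw [← Submodule.Quotient.mk_eq_zero, ← Module.forall_dual_apply_eq_zero_iff ℤ]
  intro ψ
  have h1 := hx ((Algebra.linearMap ℤ ℂ) ∘ₗ ψ ∘ₗ (Submodule.torsion ℤ A).mkQ)
  have h2 : ((ψ (Submodule.Quotient.mk x) : ℤ) : ℂ) = 0 := h1
  exact_mod_cast h2

theorem tors_map (f : Module.End ℤ A) (x : A) (hx : x ∈ Submodule.torsion ℤ A) :
    f x ∈ Submodule.torsion ℤ A := by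
  rw [Submodule.mem_torsion_iff] at hx ⊢
  obtain ⟨a, ha⟩ := hx
  refine ⟨a, ?_⟩
  have h1 := congrArg f ha
  rw [map_zero] at h1
  rw [← h1]
  exact (map_smul f (a : ℤ) x).symm

theorem tors_fix [Module.Finite ℤ A] (α : A ≃+ A) :
    ∃ k : ℕ, 0 < k ∧ ∀ x ∈ Submodule.torsion ℤ A, (α^[k]) x = x := by
  have : Finite (Submodule.torsion ℤ A) :=
    Module.finite_of_fg_torsion _ (Submodule.torsion_isTorsion)
  have h1 : ∀ x : A, α.toEquiv x ∈ Submodule.torsion ℤ A ↔ x ∈ Submodule.torsion ℤ A := by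
    intro x
    constructor
    · intro hx
      have h2 := tors_map (en α.symm) _ hx
      have h3 : en α.symm (α.toEquiv x) = x := α.symm_apply_apply x
      rwa [h3] at h2
    · exact fun hx => tors_map (en α) x hx
  obtain ⟨P, hP⟩ : ∃ P, P = Equiv.Perm.subtypePerm (p := fun x => x ∈ Submodule.torsion ℤ A)
    (α.toEquiv : Equiv.Perm A) h1 := ⟨_, rfl⟩
  refine ⟨Nat.card (Equiv.Perm (Submodule.torsion ℤ A)), Nat.card_pos, fun x hx => ?_⟩
  have h2 : P ^ Nat.card (Equiv.Perm (Submodule.torsion ℤ A)) = 1 := pow_card_eq_one'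
  have h3 := congrArg (fun Q : Equiv.Perm {x // x ∈ Submodule.torsion ℤ A} => (Q ⟨x, hx⟩ : A)) h2
  rw [hP, Equiv.Perm.subtypePerm_pow] at h3
  have h4 : (((α.toEquiv : Equiv.Perm A) ^ Nat.card (Equiv.Perm (Submodule.torsion ℤ A)) :
    Equiv.Perm A) x) = x := h3
  rw [← Equiv.Perm.iterate_eq_pow] at h4
  exact h4

end UniL

open UniL in
theorem uni : S_UNI := by
  intro A _ _ α d h
  have : Module.Finite ℤ A := Module.Finite.iff_addGroup_fg.2 inferInstance
  obtain ⟨N, R, hN, hR⟩ := exists_N α d h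
  obtain ⟨k, hk, hkT⟩ := tors_fix α
  refine ⟨N * k, R + 1, Nat.mul_pos hN hk, fun x => ?_⟩
  have h1 : (fun x => (α^[N * k]) x - x) = ⇑(en α ^ (N * k) - 1) := by
    funext y
    rw [LinearMap.sub_apply, en_pow]
    rfl
  rw [h1, ← Module.End.pow_apply]
  have h2 : (en α ^ (N * k) - 1) =
      (∑ i ∈ Finset.range k, (en α ^ N) ^ i) * (en α ^ N - 1) := by
    rw [geom_sum_mul, pow_mul]
  have hc : Commute (∑ i ∈ Finset.range k, (en α ^ N) ^ i) (en α ^ N - 1) := by
    refine Commute.sum_left _ _ _ fun i _ => ?_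
    exact ((Commute.refl _).pow_left i).sub_right (Commute.one_right _)
  have h3 : ((en α ^ (N * k) - 1) ^ R) x ∈ Submodule.torsion ℤ A := by
    rw [h2, hc.mul_pow, Module.End.mul_apply]
    refine tors_map _ _ (tors _ fun φ => ?_)
    have h4 := pull_rel (en α) N R φ
    rw [hR] at h4
    have h5 := congrArg (fun f : A →ₗ[ℤ] ℂ => f x) h4
    exact h5.symm
  rw [pow_succ', Module.End.mul_apply, LinearMap.sub_apply, en_pow, Module.End.one_apply]
  have h6 : ∀ (j : ℕ) (y : A), y ∈ Submodule.torsion ℤ A → (α^[j * k]) y = y := by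
    intro j y hy
    rw [mul_comm, Function.iterate_mul]
    exact Function.iterate_fixed (hkT y hy) j
  rw [h6 N _ h3, sub_self]

end Pool.Agent.Helper52K9.CG
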