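import Pool.Agent.Helper52K9.CG.Xm

/-!
# Project CG: the asymptotic dimension of the graph is finite
-/

set_option autoImplicit false

namespace Pool.Agent.Helper52K9.CG

open XmL

theorem xas (hrd : S_RD) (hga : S_GA) (hdil : S_DIL) : S_XAS := by
  intro l R C hC _ h1 h2
  obtain ⟨hr, -, C₂, hC₂⟩ := hrd l
  obtain ⟨C₀, hC₀, hm, hi, -⟩ := hga l
  have hC0 : 0 ≤ C₀ := by linarith
  refine ⟨C₂ * (⌈C₀ ^ 2 * (C₀ + C) + C₀⌉₊ + 1) ^ 12, fun R' => ?_⟩
  have hR' : (0 : ℝ) < (R' : ℝ) + 1 := by positivity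
  obtain ⟨s, hs⟩ : ∃ s : ℝ, s = 1 / ((R' : ℝ) + 1) := ⟨_, rfl⟩
  have hs0 : 0 < s := by rw [hs]; positivity
  have hsR : s * ((R' : ℝ) + 1) = 1 := by rw [hs]; field_simp
  obtain ⟨hd1, hd2, hd3⟩ := hdil l s hs0
  -- the rescaled difference
  have hdif : ∀ x y : Pt, ga ((dil s (em l x))⁻¹ * dil s (em l y)) =
      s * ga ((em l x)⁻¹ * em l y) := by
    intro x y
    rw [← hd2, ← hd1, hd3]
  refine ⟨Pt, fun i => {x | rd l (dil s (em l x)) = i},
    ⌈C * (((R' : ℝ) + 1) * (C₀ * (1 + C₀)) + 1)⌉₊, ?_, fun x => ⟨_, rfl⟩, fun x => ?_⟩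
  · intro i x hx y hy
    have hx' : rd l (dil s (em l x)) = i := hx
    have hy' : rd l (dil s (em l y)) = i := hy
    have e : (dil s (em l x))⁻¹ * dil s (em l y) = ((dil s (em l x))⁻¹ * em l i) *
        ((dil s (em l y))⁻¹ * em l i)⁻¹ := by group
    have e1 := hr (dil s (em l x))
    have e2 := hr (dil s (em l y))
    rw [hx'] at e1
    rw [hy'] at e2
    have e3 := (hi ((dil s (em l y))⁻¹ * em l i)).trans
      (mul_le_mul_of_nonneg_left e2 hC0)
    have e4 : s * ga ((em l x)⁻¹ * em l y) ≤ C₀ * (1 + C₀) := by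
      rw [← hdif, e]
      refine (hm _ _).trans (mul_le_mul_of_nonneg_left ?_ hC0)
      linarith
    have e5 : ga ((em l x)⁻¹ * em l y) ≤ ((R' : ℝ) + 1) * (C₀ * (1 + C₀)) := by
      have := mul_le_mul_of_nonneg_left e4 hR'.le
      calc ga ((em l x)⁻¹ * em l y) = (s * ((R' : ℝ) + 1)) * ga ((em l x)⁻¹ * em l y) := by
            rw [hsR, one_mul]
        _ = ((R' : ℝ) + 1) * (s * ga ((em l x)⁻¹ * em l y)) := by ring
        _ ≤ _ := this
    have e6 : ((X l R).dist x y : ℝ) ≤ C * (((R' : ℝ) + 1) * (C₀ * (1 + C₀)) + 1) :=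
      (h2 x y).trans (mul_le_mul_of_nonneg_left (by linarith) (by linarith))
    exact_mod_cast e6.trans (Nat.le_ceil _)
  · have hsub : {i | ∃ y ∈ {x | rd l (dil s (em l x)) = i}, (X l R).dist x y ≤ R'} ⊆
        {b : Pt | ga ((em l (rd l (dil s (em l x))))⁻¹ * em l b) ≤
          ((⌈C₀ ^ 2 * (C₀ + C) + C₀⌉₊ : ℕ) : ℝ)} := by
      rintro i ⟨y, hy, hxy⟩
      have hy' : rd l (dil s (em l y)) = i := hy
      have e1 := hr (dil s (em l x))
      have e2 := hr (dil s (em l y))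
      rw [hy'] at e2
      have e : (em l (rd l (dil s (em l x))))⁻¹ * em l i =
          ((dil s (em l x))⁻¹ * em l (rd l (dil s (em l x))))⁻¹ *
          ((dil s (em l x))⁻¹ * dil s (em l y)) * ((dil s (em l y))⁻¹ * em l i) := by group
      have e3 := (hi ((dil s (em l x))⁻¹ * em l (rd l (dil s (em l x))))).trans
        (mul_le_mul_of_nonneg_left e1 hC0)
      have hxy' : ((X l R).dist x y : ℝ) ≤ R' := by exact_mod_cast hxy
      have e4 : ga ((dil s (em l x))⁻¹ * dil s (em l y)) ≤ C := by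
        rw [hdif]
        have f1 : ga ((em l x)⁻¹ * em l y) ≤ C * ((R' : ℝ) + 1) :=
          (h1 x y).trans (mul_le_mul_of_nonneg_left (by linarith) (by linarith))
        calc s * ga ((em l x)⁻¹ * em l y) ≤ s * (C * ((R' : ℝ) + 1)) :=
              mul_le_mul_of_nonneg_left f1 hs0.le
          _ = C * (s * ((R' : ℝ) + 1)) := by ring
          _ = C := by rw [hsR, mul_one]
      have e5 := ga3 hC₀ hm (((dil s (em l x))⁻¹ * em l (rd l (dil s (em l x))))⁻¹)
        ((dil s (em l x))⁻¹ * dil s (em l y)) ((dil s (em l y))⁻¹ * em l i)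
      rw [← e] at e5
      have e6 : C₀ ^ 2 * (ga (((dil s (em l x))⁻¹ * em l (rd l (dil s (em l x))))⁻¹) +
          ga ((dil s (em l x))⁻¹ * dil s (em l y))) ≤ C₀ ^ 2 * (C₀ + C) :=
        mul_le_mul_of_nonneg_left (by linarith) (sq_nonneg C₀)
      have e7 := mul_le_mul_of_nonneg_left e2 hC0
      have e8 : ga ((em l (rd l (dil s (em l x))))⁻¹ * em l i) ≤ C₀ ^ 2 * (C₀ + C) + C₀ := by
        linarith
      exact e8.trans (Nat.le_ceil _)
    have hf := hC₂ ⌈C₀ ^ 2 * (C₀ + C) + C₀⌉₊ (rd l (dil s (em l x)))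
    exact ⟨hf.1.subset hsub, ((Set.ncard_le_ncard hsub hf.1).trans hf.2).trans (Nat.le_succ _)⟩

end Pool.Agent.Helper52K9.CG
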