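import Pool.Agent.Helper52K9.CG.Xm

/-!
# Project CG: the graph is coarsely transitive
-/

set_option autoImplicit false

namespace Pool.Agent.Helper52K9.CG

open XmL

theorem xct (hrd : S_RD) (hga : S_GA) : S_XCT := by
  intro l R C hC _ h1 h2
  obtain ⟨hr, hre, -⟩ := hrd l
  obtain ⟨C₀, hC₀, hm, hi, -⟩ := hga l
  have hC0 : 0 ≤ C₀ := by linarith
  have hCC : 0 < C := by linarith
  have hC03 : 1 ≤ C₀ ^ 3 := one_le_pow₀ hC₀
  have hC023 : C₀ ^ 2 ≤ C₀ ^ 3 := by nlinarith [sq_nonneg C₀]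
  have hC01 : C₀ ≤ C₀ ^ 3 := by nlinarith [sq_nonneg C₀]
  obtain ⟨K, hK⟩ : ∃ K : ℝ, K = 3 * C ^ 2 * C₀ ^ 3 := ⟨_, rfl⟩
  have hK0 : 0 < K := by rw [hK]; positivity
  have hKC : 3 * C * C₀ ^ 3 ≤ K := by
    rw [hK]
    have : 3 * C ≤ 3 * C ^ 2 := by nlinarith
    exact mul_le_mul_of_nonneg_right this (by positivity)
  refine ⟨K, K, hK0, fun x y => ?_⟩
  obtain ⟨g, hg⟩ : ∃ g : NN l, g = em l y * (em l x)⁻¹ := ⟨_, rfl⟩
  refine ⟨fun a => rd l (g * em l a), fun a b => ?_, fun z => ?_, ?_⟩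
  · have ha := hr (g * em l a)
    have hb := hr (g * em l b)
    have ha' := (hi _).trans (mul_le_mul_of_nonneg_left ha hC0)
    have hb' := (hi _).trans (mul_le_mul_of_nonneg_left hb hC0)
    have G0 := ga_nonneg ((em l a)⁻¹ * em l b)
    have G1 := ga_nonneg ((em l (rd l (g * em l a)))⁻¹ * em l (rd l (g * em l b)))
    have hup : ga ((em l (rd l (g * em l a)))⁻¹ * em l (rd l (g * em l b))) ≤
        C₀ ^ 2 * (C₀ + ga ((em l a)⁻¹ * em l b)) + C₀ := by
      have e : (em l (rd l (g * em l a)))⁻¹ * em l (rd l (g * em l b)) =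
          ((g * em l a)⁻¹ * em l (rd l (g * em l a)))⁻¹ * ((em l a)⁻¹ * em l b) *
            ((g * em l b)⁻¹ * em l (rd l (g * em l b))) := by group
      have e5 := ga3 hC₀ hm (((g * em l a)⁻¹ * em l (rd l (g * em l a)))⁻¹)
        ((em l a)⁻¹ * em l b) ((g * em l b)⁻¹ * em l (rd l (g * em l b)))
      rw [← e] at e5
      have e6 := mul_le_mul_of_nonneg_left
        (show ga (((g * em l a)⁻¹ * em l (rd l (g * em l a)))⁻¹) + ga ((em l a)⁻¹ * em l b) ≤
          C₀ + ga ((em l a)⁻¹ * em l b) by linarith) (sq_nonneg C₀)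
      have e7 := mul_le_mul_of_nonneg_left hb hC0
      linarith
    have hlo : ga ((em l a)⁻¹ * em l b) ≤ C₀ ^ 2 * (1 +
        ga ((em l (rd l (g * em l a)))⁻¹ * em l (rd l (g * em l b)))) + C₀ * C₀ := by
      have e : (em l a)⁻¹ * em l b = ((g * em l a)⁻¹ * em l (rd l (g * em l a))) *
          ((em l (rd l (g * em l a)))⁻¹ * em l (rd l (g * em l b))) *
            ((g * em l b)⁻¹ * em l (rd l (g * em l b)))⁻¹ := by group
      have e5 := ga3 hC₀ hm ((g * em l a)⁻¹ * em l (rd l (g * em l a)))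
        ((em l (rd l (g * em l a)))⁻¹ * em l (rd l (g * em l b)))
        (((g * em l b)⁻¹ * em l (rd l (g * em l b)))⁻¹)
      rw [← e] at e5
      have e6 := mul_le_mul_of_nonneg_left
        (show ga ((g * em l a)⁻¹ * em l (rd l (g * em l a))) +
          ga ((em l (rd l (g * em l a)))⁻¹ * em l (rd l (g * em l b))) ≤
          1 + ga ((em l (rd l (g * em l a)))⁻¹ * em l (rd l (g * em l b))) by linarith)
        (sq_nonneg C₀)
      have e7 := mul_le_mul_of_nonneg_left hb' hC0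
      linarith
    have d1 := h1 a b
    have d2 := h2 a b
    have d3 := h1 (rd l (g * em l a)) (rd l (g * em l b))
    have d4 := h2 (rd l (g * em l a)) (rd l (g * em l b))
    generalize ga ((em l (rd l (g * em l a)))⁻¹ * em l (rd l (g * em l b))) = G' at *
    generalize ga ((em l a)⁻¹ * em l b) = G at *
    generalize ((X l R).dist (rd l (g * em l a)) (rd l (g * em l b)) : ℝ) = D' at *
    generalize ((X l R).dist a b : ℝ) = D at *
    have hG' : G' + 1 ≤ 3 * C₀ ^ 3 * (G + 1) := by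
      have : C₀ ^ 2 * (C₀ + G) + C₀ + 1 = C₀ ^ 3 + C₀ ^ 2 * G + C₀ + 1 := by ring
      nlinarith
    have hG : G + 1 ≤ 3 * C₀ ^ 3 * (G' + 1) := by nlinarith
    constructor
    · rw [sub_le_iff_le_add, div_le_iff₀ hK0]
      have a1 : D ≤ C * (3 * C₀ ^ 3 * (C * D' + 1)) := by
        refine d2.trans (mul_le_mul_of_nonneg_left (hG.trans ?_) hCC.le)
        apply mul_le_mul_of_nonneg_left (by linarith)
        positivity
      have a2 : C * (3 * C₀ ^ 3 * (C * D' + 1)) = K * D' + 3 * C * C₀ ^ 3 := by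
        rw [hK]; ring
      have a3 : 1 ≤ K := le_trans (by nlinarith) hKC
      nlinarith
    · have a1 : D' ≤ C * (3 * C₀ ^ 3 * (C * D + 1)) := by
        refine d4.trans (mul_le_mul_of_nonneg_left (hG'.trans ?_) hCC.le)
        apply mul_le_mul_of_nonneg_left (by linarith)
        positivity
      have a2 : C * (3 * C₀ ^ 3 * (C * D + 1)) = K * D + 3 * C * C₀ ^ 3 := by
        rw [hK]; ring
      linarith
  · refine ⟨rd l (g⁻¹ * em l z), ?_⟩
    rw [SimpleGraph.dist_comm]
    refine (h2 _ _).trans ?_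
    set a := rd l (g⁻¹ * em l z) with ha
    have e1 := hr (g⁻¹ * em l z)
    rw [← ha] at e1
    have e2 := hr (g * em l a)
    have e : (em l z)⁻¹ * em l (rd l (g * em l a)) = ((g⁻¹ * em l z)⁻¹ * em l a) *
        ((g * em l a)⁻¹ * em l (rd l (g * em l a))) := by group
    have e3 : ga ((em l z)⁻¹ * em l (rd l (g * em l a))) ≤ C₀ * (1 + 1) := by
      rw [e]
      exact (hm _ _).trans (mul_le_mul_of_nonneg_left (by linarith) hC0)
    have e4 : C * (ga ((em l z)⁻¹ * em l (rd l (g * em l a))) + 1) ≤ C * (3 * C₀ ^ 3) :=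
      mul_le_mul_of_nonneg_left (by linarith) hCC.le
    linarith
  · have e : g * em l x = em l y := by rw [hg]; group
    show ((X l R).dist (rd l (g * em l x)) y : ℝ) ≤ K
    rw [e, hre, SimpleGraph.dist_self]
    simpa using hK0.le

end Pool.Agent.Helper52K9.CG
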