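import Pool.Agent.Helper52K9.CG.Xm

/-!
# Project CG: local finiteness and polynomial growth of the graph
-/

set_option autoImplicit false

namespace Pool.Agent.Helper52K9.CG

open XmL

theorem xlf (hrd : S_RD) : S_XLF := by
  intro l R C hC _ h1 _
  obtain ⟨-, -, C₂, hC₂⟩ := hrd l
  refine ⟨fun v => ?_, 0, C₂ * (⌈C⌉₊ + 1) ^ 12, 12, fun r => ?_⟩
  · refine (hC₂ ⌈C⌉₊ v).1.subset fun w hw => ?_
    have hd : (X l R).dist v w = 1 := SimpleGraph.dist_eq_one_iff_adj.2 hw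
    have h := h1 v w
    rw [hd, Nat.cast_one, mul_one] at h
    exact h.trans (Nat.le_ceil C)
  · have hsub : {w | (X l R).dist 0 w ≤ r} ⊆
        {b : Pt | ga ((em l 0)⁻¹ * em l b) ≤ ((⌈C⌉₊ * r : ℕ) : ℝ)} := by
      intro w hw
      have hw' : ((X l R).dist 0 w : ℝ) ≤ r := by exact_mod_cast hw
      have h2 : C * ((X l R).dist 0 w : ℝ) ≤ ⌈C⌉₊ * r :=
        mul_le_mul (Nat.le_ceil C) hw' (Nat.cast_nonneg _) (Nat.cast_nonneg _)
      have h3 : ga ((em l 0)⁻¹ * em l w) ≤ ((⌈C⌉₊ * r : ℕ) : ℝ) := by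
        push_cast
        exact (h1 0 w).trans h2
      exact h3
    have h4 := Set.ncard_le_ncard hsub (hC₂ (⌈C⌉₊ * r) 0).1
    refine h4.trans ((hC₂ (⌈C⌉₊ * r) 0).2.trans ?_)
    rw [mul_assoc, ← mul_pow]
    apply Nat.mul_le_mul_left
    apply Nat.pow_le_pow_left
    nlinarith

end Pool.Agent.Helper52K9.CG
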