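import Pool.Agent.Helper52K9.CG.Stm

/-!
# Project CG: the graph distance against the gauge
-/

set_option autoImplicit false

namespace Pool.Agent.Helper52K9.CG.XmL

variable {l : ℝ}

/-- gauge of a product of three elements -/
lemma ga3 {C₀ : ℝ} (hC : 1 ≤ C₀) (hm : ∀ x y : NN l, ga (x * y) ≤ C₀ * (ga x + ga y))
    (x y w : NN l) : ga (x * y * w) ≤ C₀ ^ 2 * (ga x + ga y) + C₀ * ga w := by
  have h1 := hm (x * y) w
  have h2 := mul_le_mul_of_nonneg_left (hm x y) (show 0 ≤ C₀ by linarith)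
  nlinarith

lemma ga_nonneg (x : NN l) : 0 ≤ ga x := by
  unfold ga
  exact le_max_of_le_right (Real.sqrt_nonneg _)

/-- the step from the rounding of `P` to the rounding of `P x` -/
lemma step {C₀ : ℝ} (hC : 1 ≤ C₀) (hm : ∀ x y : NN l, ga (x * y) ≤ C₀ * (ga x + ga y))
    (hi : ∀ x : NN l, ga x⁻¹ ≤ C₀ * ga x) (hr : ∀ w : NN l, ga (w⁻¹ * em l (rd l w)) ≤ 1)
    (P x : NN l) : ga ((em l (rd l P))⁻¹ * em l (rd l (P * x))) ≤
      C₀ ^ 2 * (C₀ + ga x) + C₀ := by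
  have e : (em l (rd l P))⁻¹ * em l (rd l (P * x)) =
      (P⁻¹ * em l (rd l P))⁻¹ * x * ((P * x)⁻¹ * em l (rd l (P * x))) := by group
  rw [e]
  refine (ga3 hC hm _ _ _).trans ?_
  have h1 := (hi (P⁻¹ * em l (rd l P))).trans
    (mul_le_mul_of_nonneg_left (hr P) (show 0 ≤ C₀ by linarith))
  have h2 := mul_le_mul_of_nonneg_left (hr (P * x)) (show 0 ≤ C₀ by linarith)
  have h3 := mul_le_mul_of_nonneg_left (add_le_add_left h1 (ga x)) (sq_nonneg C₀)
  rw [mul_one] at h1 h2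
  nlinarith

lemma walk {C₀ R : ℝ} (hC : 1 ≤ C₀) (hm : ∀ x y : NN l, ga (x * y) ≤ C₀ * (ga x + ga y))
    (hi : ∀ x : NN l, ga x⁻¹ ≤ C₀ * ga x) (hr : ∀ w : NN l, ga (w⁻¹ * em l (rd l w)) ≤ 1)
    (hR : C₀ ^ 2 * (C₀ + 1) + C₀ ≤ R) (L : List (NN l)) (hL : ∀ x ∈ L, ga x ≤ 1) :
    ∀ P : NN l, ∃ p : (X l R).Walk (rd l P) (rd l (P * L.prod)), p.length ≤ L.length := by
  induction L with
  | nil =>
    intro P
    rw [List.prod_nil, mul_one]
    exact ⟨SimpleGraph.Walk.nil, le_rfl⟩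
  | cons x L ih =>
    intro P
    obtain ⟨p, hp⟩ := ih (fun y hy => hL y (List.mem_cons_of_mem _ hy)) (P * x)
    rw [List.prod_cons, ← mul_assoc]
    by_cases h : rd l P = rd l (P * x)
    · rw [h]
      exact ⟨p, hp.trans (by simp)⟩
    · have hadj : (X l R).Adj (rd l P) (rd l (P * x)) := by
        unfold X
        rw [SimpleGraph.fromRel_adj]
        refine ⟨h, Or.inl ?_⟩
        refine (step hC hm hi hr P x).trans (le_trans ?_ hR)
        have := hL x List.mem_cons_self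
        nlinarith
      exact ⟨SimpleGraph.Walk.cons hadj p, by simpa using hp⟩

lemma path {C₀ R : ℝ} (hC : 1 ≤ C₀) (hi : ∀ x : NN l, ga x⁻¹ ≤ C₀ * ga x) (hR : 0 ≤ R)
    {a b : Pt} (p : (X l R).Walk a b) : ∃ L : List (NN l), L.prod = (em l a)⁻¹ * em l b ∧
      L.length = p.length ∧ ∀ x ∈ L, ga x ≤ C₀ * R := by
  induction p with
  | nil => exact ⟨[], by simp, rfl, by simp⟩
  | cons h p ih =>
    rename_i u v w
    obtain ⟨L, h1, h2, h3⟩ := ih
    refine ⟨((em l u)⁻¹ * em l v) :: L, ?_, ?_, ?_⟩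
    · rw [List.prod_cons, h1]
      group
    · simp [h2]
    · intro x hx
      rcases List.mem_cons.1 hx with hx | hx
      · rw [hx]
        unfold X at h
        rw [SimpleGraph.fromRel_adj] at h
        rcases h.2 with h' | h'
        · nlinarith
        · have e : (em l u)⁻¹ * em l v = ((em l v)⁻¹ * em l u)⁻¹ := by group
          rw [e]
          exact (hi _).trans (mul_le_mul_of_nonneg_left h' (by linarith))
      · exact h3 x hx

end Pool.Agent.Helper52K9.CG.XmL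

namespace Pool.Agent.Helper52K9.CG

open XmL

theorem xm (hga : S_GA) (hfac : S_FAC) (hrd : S_RD) : S_XM := by
  intro l
  obtain ⟨C₀, hC, hm, hi, hl⟩ := hga l
  obtain ⟨C₁, hC₁⟩ := hfac l
  obtain ⟨hr, hre, -⟩ := hrd l
  have hC0 : 0 ≤ C₀ := by linarith
  set R := C₀ ^ 2 * (C₀ + 1) + C₀ with hR
  have hR0 : 0 ≤ R := by rw [hR]; positivity
  have key : ∀ a b : Pt, ∃ p : (X l R).Walk a b,
      (p.length : ℝ) ≤ 2 * C₁ * (ga ((em l a)⁻¹ * em l b) + 1) := by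
    intro a b
    have hg := ga_nonneg ((em l a)⁻¹ * em l b)
    obtain ⟨L, h1, h2, h3⟩ := hC₁ ((em l a)⁻¹ * em l b) ⌈ga ((em l a)⁻¹ * em l b)⌉₊
      (Nat.le_ceil _)
    have hw := walk hC hm hi hr hR.ge L h2 (em l a)
    rw [h3, mul_inv_cancel_left, hre, hre] at hw
    obtain ⟨p, hp⟩ := hw
    refine ⟨p, ?_⟩
    have h4 : (p.length : ℝ) ≤ C₁ * ((⌈ga ((em l a)⁻¹ * em l b)⌉₊ : ℝ) + 1) := by
      exact_mod_cast hp.trans h1
    have h5 := Nat.ceil_lt_add_one hg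
    have h6 : (0 : ℝ) ≤ C₁ := Nat.cast_nonneg _
    have h7 : (C₁ : ℝ) * ((⌈ga ((em l a)⁻¹ * em l b)⌉₊ : ℝ) + 1) ≤
        C₁ * (2 * (ga ((em l a)⁻¹ * em l b) + 1)) :=
      mul_le_mul_of_nonneg_left (by linarith) h6
    linarith
  have hconn : (X l R).Connected := by
    have : Nonempty Pt := ⟨0⟩
    exact ⟨fun a b => (key a b).choose.reachable⟩
  refine ⟨R, max 1 (max (2 * C₁) (C₀ ^ 2 * R)), le_max_left _ _, hconn, fun a b => ?_,
    fun a b => ?_⟩
  · obtain ⟨p, hp⟩ := (hconn.preconnected a b).exists_walk_length_eq_dist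
    obtain ⟨L, h1, h2, h3⟩ := path hC hi hR0 p
    have h4 := hl L (C₀ * R) (by positivity) h3
    rw [h1, h2, hp] at h4
    refine h4.trans ?_
    have h5 : C₀ ^ 2 * R ≤ max 1 (max (2 * (C₁ : ℝ)) (C₀ ^ 2 * R)) :=
      (le_max_right _ _).trans (le_max_right _ _)
    have h6 := mul_le_mul_of_nonneg_right h5 (Nat.cast_nonneg (α := ℝ) ((X l R).dist a b))
    calc C₀ * ((X l R).dist a b : ℝ) * (C₀ * R) = C₀ ^ 2 * R * ((X l R).dist a b : ℝ) := by ring
      _ ≤ _ := h6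
  · obtain ⟨p, hp⟩ := key a b
    have h1 : ((X l R).dist a b : ℝ) ≤ p.length := by exact_mod_cast SimpleGraph.dist_le p
    have h5 : 2 * (C₁ : ℝ) ≤ max 1 (max (2 * (C₁ : ℝ)) (C₀ ^ 2 * R)) :=
      (le_max_left _ _).trans (le_max_right _ _)
    have hg := ga_nonneg ((em l a)⁻¹ * em l b)
    have h6 := mul_le_mul_of_nonneg_right h5
      (show 0 ≤ ga ((em l a)⁻¹ * em l b) + 1 by linarith)
    linarith

end Pool.Agent.Helper52K9.CG
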