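import Pool.Agent.Helper52K9.CG.Top
import Pool.Agent.Helper52K9.CG.Gro
import Pool.Agent.Helper52K9.CG.Toz
import Pool.Agent.Helper52K9.CG.Linr
import Pool.Agent.Helper52K9.CG.Linc
import Pool.Agent.Helper52K9.CG.Mil
import Pool.Agent.Helper52K9.CG.Mw
import Pool.Agent.Helper52K9.CG.Hall
import Pool.Agent.Helper52K9.CG.Chr
import Pool.Agent.Helper52K9.CG.Ht
import Pool.Agent.Helper52K9.CG.Gns
import Pool.Agent.Helper52K9.CG.Ext
import Pool.Agent.Helper52K9.CG.Cnt
import Pool.Agent.Helper52K9.CG.Rat
import Pool.Agent.Helper52K9.CG.Fin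
import Pool.Agent.Helper52K9.CG.A4
import Pool.Agent.Helper52K9.CG.Ga
import Pool.Agent.Helper52K9.CG.Fac
import Pool.Agent.Helper52K9.CG.Rd
import Pool.Agent.Helper52K9.CG.Dil
import Pool.Agent.Helper52K9.CG.Xm
import Pool.Agent.Helper52K9.CG.Xlf
import Pool.Agent.Helper52K9.CG.Xas
import Pool.Agent.Helper52K9.CG.Xct
import Pool.Agent.Helper52K9.CG.Ex0
import Pool.Agent.Helper52K9.CG.Dec
import Pool.Agent.Helper52K9.CG.Ind
import Pool.Agent.Helper52K9.CG.Clo
import Pool.Agent.Helper52K9.CG.Cup
import Pool.Agent.Helper52K9.CG.Coh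
import Pool.Agent.Helper52K9.CG.Subl
import Pool.Agent.Helper52K9.CG.Qsub
import Pool.Agent.Helper52K9.CG.Uni
import Pool.Agent.Helper52K9.CG.A1
import Pool.Agent.Helper52K9.CG.Qg
import Pool.Agent.Helper52K9.CG.A2
import Pool.Agent.Helper52K9.CG.Gr

/-!
# Project CG: assembly of the leaves
-/

set_option autoImplicit false

namespace Pool.Agent.Helper52K9.CG

/-- **Gromov's theorem** on groups of polynomial growth: a finitely generated group of polynomial
growth has a nilpotent subgroup of finite index. -/
theorem gromov : S_GRO := gro (toz (linr linc)) mil (mw chr uni hall)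

/-- There are `l` and `R` such that the graph `X l R` is connected, locally finite, coarsely
transitive, of polynomial growth and of finite asymptotic dimension, and not quasi-isometric to a
Cayley graph of a finitely generated group. -/
theorem asm : S_TOP := by
  have hdec : S_DEC := dec gns ht
  have hga : S_GA := ga'
  have hrd : S_RD := rd'
  have hgr : S_GR := gr hga hrd
  exact top gromov (coh ex0 ext (subl hdec) (cup hdec clo))
    (ind (cnt hga hrd) hgr) (a4 a1 a2 rat fin) (qsub hga) hgr (xm hga fac hrd) (xlf hrd)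
    (xas hrd hga dil_) (xct hrd hga) (qg hga hrd)

end Pool.Agent.Helper52K9.CG
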