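import Pool.Agent.Helper52K9.CG.Stm
import Pool.Agent.Helper52K9.CG.Mean

set_option autoImplicit false

namespace Pool.Agent.Helper52K9.CG

open scoped Pointwise

namespace CohL

variable {l : ℝ} {Γ : Type} [Group Γ]

theorem co_mul (j : Fin 4 ⊕ Fin 4) (x y : NN l) : co j (x * y) = co j x + co j y := by
  rcases j with j | j <;> simp [co]

theorem co_le (j : Fin 4 ⊕ Fin 4) (x : NN l) : |co j x| ≤ ga x := by
  rcases j with j | j
  · exact (norm_le_pi_norm x.p j).trans ((le_max_left _ _).trans (le_max_left _ _))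
  · exact (norm_le_pi_norm x.q j).trans ((le_max_right _ _).trans (le_max_left _ _))

theorem z_le (k : Fin 2) (x : NN l) : |x.z k| ≤ ga x ^ 2 := by
  have h1 : Real.sqrt ‖x.z‖ ≤ ga x := le_max_right _ _
  have h2 : ‖x.z‖ ≤ ga x ^ 2 := by
    rw [← Real.sq_sqrt (norm_nonneg x.z)]
    exact pow_le_pow_left₀ (Real.sqrt_nonneg _) h1 2
  exact (norm_le_pi_norm x.z k).trans h2

theorem ga_nonneg (x : NN l) : 0 ≤ ga x := (Real.sqrt_nonneg _).trans (le_max_right _ _)

/-- the displacement -/
def F (f : Γ → NN l) (g x : Γ) : NN l := (f x)⁻¹ * f (x * g)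

theorem F_mul (f : Γ → NN l) (g h x : Γ) : F f (g * h) x = F f g x * F f h (x * g) := by
  unfold F
  rw [mul_assoc x g h |>.symm]
  group

variable {f : Γ → NN l} (hf : ∀ g, ∃ C : ℝ, ∀ x, ga ((f x)⁻¹ * f (x * g)) ≤ C)

include hf in
theorem coc_co (j : Fin 4 ⊕ Fin 4) : Coc fun g x => co j (F f g x) := by
  refine ⟨fun g => ?_, fun g h x => by
    show co j (F f (g * h) x) = co j (F f g x) + co j (F f h (x * g))
    rw [F_mul, co_mul]⟩
  obtain ⟨C, hC⟩ := hf g
  exact ⟨C, fun x => (co_le j _).trans (hC x)⟩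

include hf in
theorem bd_z (k : Fin 2) (g : Γ) : Bd fun x => (F f g x).z k := by
  obtain ⟨C, hC⟩ := hf g
  exact ⟨C ^ 2, fun x => (z_le k _).trans (pow_le_pow_left₀ (ga_nonneg _) (hC x) 2)⟩

theorem coc_sum {ι : Type} (s : Finset ι) (c : ι → ℝ) {b : ι → Γ → Γ → ℝ}
    (hb : ∀ i, Coc (b i)) : Coc fun g x => ∑ i ∈ s, c i * b i g x := by
  refine ⟨fun g => Bd.sum s fun i _ => ((hb i).1 g).smul (c i), fun g h x => ?_⟩
  rw [← Finset.sum_add_distrib]
  exact Finset.sum_congr rfl fun i _ => by rw [(hb i).2]; ring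

theorem null_add {c c' : Γ → Γ → ℝ} (h : Null c) (h' : Null c') :
    Null fun g h => c g h + c' g h := by
  obtain ⟨ζ, hζ⟩ := h
  obtain ⟨ζ', hζ'⟩ := h'
  exact ⟨fun g => ζ g + ζ' g, fun g h => by
    show c g h + c' g h = ζ g + ζ' g + (ζ h + ζ' h) - (ζ (g * h) + ζ' (g * h))
    rw [hζ, hζ']; ring⟩

theorem null_smul (t : ℝ) {c : Γ → Γ → ℝ} (h : Null c) : Null fun g h => t * c g h := by
  obtain ⟨ζ, hζ⟩ := h
  exact ⟨fun g => t * ζ g, fun g h => by
    show t * c g h = t * ζ g + t * ζ h - t * ζ (g * h)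
    rw [hζ]; ring⟩

theorem null_sum {ι : Type} (s : Finset ι) {c : ι → Γ → Γ → ℝ} (h : ∀ i, Null (c i)) :
    Null fun g h => ∑ i ∈ s, c i g h := by
  classical
  induction s using Finset.induction_on with
  | empty => exact ⟨fun _ => 0, fun g h => by simp⟩
  | insert a s ha ih =>
    simp only [Finset.sum_insert ha]
    exact null_add (h a) ih

end CohL

open CohL

theorem coh (ex0 : S_EX0) (ext : S_EXT) (subl : S_SUBL) (cup : S_CUP) : S_COH := by
  intro l d Γ _ _ _ f hpg hf
  obtain ⟨μ, hμ⟩ := ext Γ (ex0 d Γ hpg)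
  refine ⟨μ, fun j => ?_, fun k => ?_, fun c S ε hε => ?_⟩
  · intro g h
    have hb := coc_co hf j
    have e : (fun x => co j ((f x)⁻¹ * f (x * (g * h)))) =
        fun x => co j (F f g x) + co j (F f h (x * g)) := funext fun x => hb.2 g h x
    show μ.m (fun x => co j ((f x)⁻¹ * f (x * (g * h)))) = μ.m (fun x => co j (F f g x)) +
      μ.m (fun x => co j (F f h x))
    rw [e, μ.add _ _ (hb.1 g) ((hb.1 h).shift g),
      μ.inv (fun x => co j (F f h x)) g (hb.1 h)]
  · -- the products of the means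
    have h1 : ∀ i : Fin 4, Null fun g h => cf l k i *
        (μ.m (fun x => co (Sum.inl i) (F f g x) * co (Sum.inr i) (F f h (x * g))) -
          μ.m (fun x => co (Sum.inl i) (F f g x)) * μ.m (fun x => co (Sum.inr i) (F f h x))) :=
      fun i => null_smul _ (cup Γ μ hμ _ _ (coc_co hf (Sum.inl i)) (coc_co hf (Sum.inr i)))
    obtain ⟨ζ, hζ⟩ := null_sum Finset.univ h1
    refine ⟨fun g => -ζ g - μ.m (fun x => (F f g x).z k), fun g h => ?_⟩
    have h2 := hζ g h
    -- the central coordinate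
    have h3 : μ.m (fun x => (F f (g * h) x).z k) = μ.m (fun x => (F f g x).z k) +
        μ.m (fun x => (F f h x).z k) + ∑ i : Fin 4, cf l k i *
          μ.m (fun x => co (Sum.inl i) (F f g x) * co (Sum.inr i) (F f h (x * g))) := by
      have e : (fun x => (F f (g * h) x).z k) = fun x => ((F f g x).z k + (F f h (x * g)).z k) +
          ∑ i : Fin 4, cf l k i *
            (co (Sum.inl i) (F f g x) * co (Sum.inr i) (F f h (x * g))) := by
        funext x
        rw [F_mul, mul_z]
        congr 1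
        exact Finset.sum_congr rfl fun i _ => by simp only [co, Sum.elim_inl, Sum.elim_inr]; ring
      have hp : ∀ i : Fin 4, Bd fun x =>
          co (Sum.inl i) (F f g x) * co (Sum.inr i) (F f h (x * g)) := fun i =>
        ((coc_co hf (Sum.inl i)).1 g).mul (((coc_co hf (Sum.inr i)).1 h).shift g)
      rw [e, μ.add _ _ ((bd_z hf k g).add ((bd_z hf k h).shift g))
        (Bd.sum _ fun i _ => (hp i).smul _), μ.add _ _ (bd_z hf k g) ((bd_z hf k h).shift g),
        μ.inv (fun x => (F f h x).z k) g (bd_z hf k h),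
        μ.sum _ fun i _ => (hp i).smul _]
      congr 1
      exact Finset.sum_congr rfl fun i _ => μ.smul _ _ (hp i)
    have h4 : ∑ i : Fin 4, cf l k i *
        (μ.m (fun x => co (Sum.inl i) (F f g x) * co (Sum.inr i) (F f h (x * g))) -
          μ.m (fun x => co (Sum.inl i) (F f g x)) * μ.m (fun x => co (Sum.inr i) (F f h x))) =
        (∑ i : Fin 4, cf l k i *
          μ.m (fun x => co (Sum.inl i) (F f g x) * co (Sum.inr i) (F f h (x * g)))) -
        ∑ i : Fin 4, cf l k i *
          μ.m (fun x => co (Sum.inl i) (F f g x)) * μ.m (fun x => co (Sum.inr i) (F f h x)) := by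
      rw [← Finset.sum_sub_distrib]
      exact Finset.sum_congr rfl fun i _ => by ring
    have h5 : (∑ i : Fin 4, cf l k i *
          μ.m (fun x => co (Sum.inl i) (F f g x)) * μ.m (fun x => co (Sum.inr i) (F f h x))) =
        (-ζ g - μ.m (fun x => (F f g x).z k)) + (-ζ h - μ.m (fun x => (F f h x).z k)) -
          (-ζ (g * h) - μ.m (fun x => (F f (g * h) x).z k)) := by
      have h6 := h4.symm.trans h2
      linarith
    exact h5
  · have hb := coc_sum Finset.univ c (fun j => coc_co hf j)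
    obtain ⟨C, hC⟩ := subl Γ μ hμ _ hb S ε hε
    refine ⟨C, fun n g hg => ?_⟩
    have h1 := hC n g hg
    have e : μ.m (fun x => ∑ j, c j * co j (F f g x)) =
        ∑ j, c j * μ.m (fun x => co j (F f g x)) := by
      rw [μ.sum _ fun j _ => ((coc_co hf j).1 g).smul _]
      exact Finset.sum_congr rfl fun j _ => μ.smul _ _ ((coc_co hf j).1 g)
    rw [e] at h1
    exact h1

end Pool.Agent.Helper52K9.CG
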