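import Mathlib
import Pool.Agent.TH719.ED.Defs

/-!
# Project CG (helper52, MP_616471_al, frozen S01673): definitions

A net in a ten-dimensional two-step nilpotent Lie group `NN l` (`l` transcendental) is coarsely
transitive, of polynomial growth and finite asymptotic dimension, and not quasi-isometric to any
finitely generated group.
-/

set_option autoImplicit false

namespace Pool.Agent.Helper52K9.CG

open scoped Pointwise

/-- the polynomial growth of `Pool.Agent.TH719.ED`: all finite subsets -/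
abbrev PG (G : Type) [Group G] (d : ℕ) : Prop := Pool.Agent.TH719.ED.PolyGrowth G d

/-- the coefficients of the two forms -/
def cf (l : ℝ) : Fin 2 → Fin 4 → ℝ := ![![1, 0, 1, 1], ![0, 1, 1, l]]

/-- the group with the coordinates `p_i`, `q_i` (`i < 4`) and a two-dimensional centre -/
@[ext] structure NN (l : ℝ) where
  p : Fin 4 → ℝ
  q : Fin 4 → ℝ
  z : Fin 2 → ℝ

variable {l : ℝ}

instance : Mul (NN l) :=
  ⟨fun x y => ⟨x.p + y.p, x.q + y.q, fun k => x.z k + y.z k + ∑ i, cf l k i * x.p i * y.q i⟩⟩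
instance : One (NN l) := ⟨⟨0, 0, 0⟩⟩
instance : Inv (NN l) :=
  ⟨fun x => ⟨-x.p, -x.q, fun k => -x.z k + ∑ i, cf l k i * x.p i * x.q i⟩⟩

@[simp] theorem mul_p (x y : NN l) : (x * y).p = x.p + y.p := rfl
@[simp] theorem mul_q (x y : NN l) : (x * y).q = x.q + y.q := rfl
@[simp] theorem mul_z (x y : NN l) (k : Fin 2) :
    (x * y).z k = x.z k + y.z k + ∑ i, cf l k i * x.p i * y.q i := rfl
@[simp] theorem one_p : (1 : NN l).p = 0 := rfl
@[simp] theorem one_q : (1 : NN l).q = 0 := rfl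
@[simp] theorem one_z : (1 : NN l).z = 0 := rfl
@[simp] theorem inv_p (x : NN l) : (x⁻¹).p = -x.p := rfl
@[simp] theorem inv_q (x : NN l) : (x⁻¹).q = -x.q := rfl
@[simp] theorem inv_z (x : NN l) (k : Fin 2) :
    (x⁻¹).z k = -x.z k + ∑ i, cf l k i * x.p i * x.q i := rfl

instance : Group (NN l) where
  mul_assoc x y w := by
    ext k
    · simp [add_assoc]
    · simp [add_assoc]
    · simp only [mul_z, mul_p, mul_q, Pi.add_apply, Fin.sum_univ_four]
      ring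
  one_mul x := by
    ext k
    · simp
    · simp
    · simp
  mul_one x := by
    ext k
    · simp
    · simp
    · simp
  inv_mul_cancel x := by
    ext k
    · simp
    · simp
    · simp only [mul_z, inv_z, inv_p, Pi.neg_apply, one_z, Pi.zero_apply, Fin.sum_univ_four]
      ring

/-- the gauge (homogeneous quasi-norm) -/
noncomputable def ga (x : NN l) : ℝ := max (max ‖x.p‖ ‖x.q‖) (Real.sqrt ‖x.z‖)

/-- the eight horizontal coordinates -/
def co (j : Fin 4 ⊕ Fin 4) (x : NN l) : ℝ := Sum.elim x.p x.q j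

/-- the vertices of the graph -/
abbrev Pt := (Fin 4 → ℤ) × (Fin 4 → ℤ) × (Fin 2 → ℤ)

/-- the vertices as points of the group -/
def em (l : ℝ) (a : Pt) : NN l := ⟨fun i => a.1 i, fun i => a.2.1 i, fun i => a.2.2 i⟩

/-- rounding -/
noncomputable def rd (l : ℝ) (w : NN l) : Pt :=
  (fun i => ⌊w.p i⌋, fun i => ⌊w.q i⌋,
    fun k => ⌊w.z k + ∑ i, cf l k i * w.p i * ((⌊w.q i⌋ : ℝ) - w.q i)⌋)

/-- the dilation by `t` -/
def dil (t : ℝ) (w : NN l) : NN l := ⟨fun i => t * w.p i, fun i => t * w.q i,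
  fun k => t ^ 2 * w.z k⟩

/-- the graph -/
def X (l R : ℝ) : SimpleGraph Pt :=
  SimpleGraph.fromRel fun a b => ga ((em l a)⁻¹ * em l b) ≤ R

/-- bounded functions -/
def Bd {Γ : Type} (u : Γ → ℝ) : Prop := ∃ C : ℝ, ∀ x, |u x| ≤ C

/-- a right invariant mean -/
structure RMean (Γ : Type) [Group Γ] where
  m : (Γ → ℝ) → ℝ
  add : ∀ u v, Bd u → Bd v → m (fun x => u x + v x) = m u + m v
  smul : ∀ (c : ℝ) u, Bd u → m (fun x => c * u x) = c * m u
  nonneg : ∀ u, Bd u → (∀ x, 0 ≤ u x) → 0 ≤ m u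
  one : m (fun _ => 1) = 1
  inv : ∀ u g, Bd u → m (fun x => u (x * g)) = m u

/-- ergodicity: almost invariant Cauchy sequences of bounded functions are almost constant -/
def Erg {Γ : Type} [Group Γ] (μ : RMean Γ) : Prop :=
  ∀ u : ℕ → Γ → ℝ, (∀ n, Bd (u n)) →
    (∀ ε : ℝ, 0 < ε → ∃ N, ∀ n ≥ N, ∀ k ≥ N, μ.m (fun x => (u n x - u k x) ^ 2) ≤ ε) →
    (∀ g : Γ, ∀ ε : ℝ, 0 < ε → ∃ N, ∀ n ≥ N, μ.m (fun x => (u n (x * g) - u n x) ^ 2) ≤ ε) →
    ∀ ε : ℝ, 0 < ε → ∃ N, ∀ n ≥ N, μ.m (fun x => u n x ^ 2) - μ.m (u n) ^ 2 ≤ ε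

/-- the 2-cochain `c` is a coboundary -/
def Null {Γ : Type} [Group Γ] (c : Γ → Γ → ℝ) : Prop :=
  ∃ ζ : Γ → ℝ, ∀ g h, c g h = ζ g + ζ h - ζ (g * h)

/-- `b` is a cocycle with values in the functions on the group with the right translations -/
def Coc {Γ : Type} [Group Γ] (b : Γ → Γ → ℝ) : Prop :=
  (∀ g, Bd (b g)) ∧ ∀ g h x, b (g * h) x = b g x + b h (x * g)

/-- homomorphisms to the reals -/
def IsHom {Γ : Type} [Group Γ] (T : Γ → ℝ) : Prop := ∀ g h, T (g * h) = T g + T h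

/-- data of a quasi-isometry of a group with the finite generating set `S` to `NN l` -/
structure QID (l : ℝ) {Γ : Type} [Group Γ] (S : Finset Γ) (f : Γ → NN l) (K : ℝ) : Prop where
  one_mem : (1 : Γ) ∈ S
  inv_mem : ∀ x ∈ S, x⁻¹ ∈ S
  gen : Subgroup.closure (S : Set Γ) = ⊤
  up : ∀ n : ℕ, ∀ g ∈ (S : Set Γ) ^ n, ∀ x, ga ((f x)⁻¹ * f (x * g)) ≤ K * (n + 1)
  low : ∀ x y : Γ, ∀ r : ℕ, ga ((f x)⁻¹ * f y) ≤ r →
    ∃ n : ℕ, (n : ℝ) ≤ K * (r + 1) ∧ x⁻¹ * y ∈ (S : Set Γ) ^ n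
  surj : ∀ w : NN l, ∃ x, ga ((f x)⁻¹ * w) ≤ K

/-- the matrices of the two alternating forms -/
noncomputable def Wm (l : ℝ) (k : Fin 2) : Matrix (Fin 4 ⊕ Fin 4) (Fin 4 ⊕ Fin 4) ℝ :=
  Matrix.fromBlocks 0 (Matrix.diagonal (cf l k)) (-(Matrix.diagonal (cf l k))) 0

/-- a rational matrix as a real matrix -/
noncomputable def rm {m n : Type} (A : Matrix m n ℚ) : Matrix m n ℝ := A.map fun x => (x : ℝ)

end Pool.Agent.Helper52K9.CG
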