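import Pool.Agent.Helper52K9.CG.Stm

/-!
# Project CG: `l` is algebraic if the pencil is rational
-/

set_option autoImplicit false

namespace Pool.Agent.Helper52K9.CG

open Module Polynomial

namespace FinL

/-- the matrix of the alternating form with the coefficients `c` -/
noncomputable def Wc (c : Fin 4 → ℝ) : Matrix (Fin 4 ⊕ Fin 4) (Fin 4 ⊕ Fin 4) ℝ :=
  Matrix.fromBlocks 0 (Matrix.diagonal c) (-(Matrix.diagonal c)) 0

lemma Wc_add (c c' : Fin 4 → ℝ) : Wc (c + c') = Wc c + Wc c' := by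
  have h : Matrix.diagonal (c + c') = Matrix.diagonal c + Matrix.diagonal c' :=
    (Matrix.diagonal_add c c').symm
  rw [Wc, Wc, Wc, Matrix.fromBlocks_add, h, neg_add, add_zero]

lemma Wc_smul (x : ℝ) (c : Fin 4 → ℝ) : Wc (x • c) = x • Wc c := by
  rw [Wc, Wc, Matrix.fromBlocks_smul, smul_zero, smul_neg, ← Matrix.diagonal_smul]

lemma sum_Wm (l : ℝ) (s : Fin 2 → ℝ) : ∑ k, s k • Wm l k = Wc (fun i => ∑ k, s k * cf l k i) := by
  have h1 : (fun i => ∑ k, s k * cf l k i) = s 0 • cf l 0 + s 1 • cf l 1 := by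
    funext i
    rw [Fin.sum_univ_two]
    rfl
  rw [h1, Wc_add, Wc_smul, Wc_smul, Fin.sum_univ_two]
  rfl

lemma det_Wc_zero {c : Fin 4 → ℝ} {i : Fin 4} (h : c i = 0) : (Wc c).det = 0 := by
  refine Matrix.det_eq_zero_of_row_eq_zero (Sum.inl i) fun j => ?_
  rcases j with j | j
  · rfl
  · rw [Wc, Matrix.fromBlocks_apply₁₂, Matrix.diagonal_apply]
    split_ifs
    · exact h
    · rfl

lemma det_Wc_ne {c : Fin 4 → ℝ} (h : ∀ i, c i ≠ 0) : (Wc c).det ≠ 0 := by
  have h1 : Wc c * Matrix.fromBlocks 0 (-(Matrix.diagonal fun i => (c i)⁻¹))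
      (Matrix.diagonal fun i => (c i)⁻¹) 0 = 1 := by
    rw [Wc, Matrix.fromBlocks_multiply]
    simp only [zero_mul, mul_zero, add_zero, zero_add, neg_mul, mul_neg, neg_neg,
      Matrix.diagonal_mul_diagonal, neg_zero]
    have h2 : (fun i => c i * (c i)⁻¹) = fun _ => (1 : ℝ) := by
      funext i
      exact mul_inv_cancel₀ (h i)
    rw [h2, Matrix.diagonal_one, Matrix.fromBlocks_one]
  intro h0
  have h3 := congrArg Matrix.det h1
  rw [Matrix.det_mul, h0, zero_mul, Matrix.det_one] at h3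
  exact zero_ne_one h3

/-- a zero of the pencil is algebraic -/
lemma alg_root {N M : Matrix (Fin 4 ⊕ Fin 4) (Fin 4 ⊕ Fin 4) ℚ} (hN : (rm N).det ≠ 0) {t : ℝ}
    (ht : (rm M - t • rm N).det = 0) : IsAlgebraic ℚ t := by
  have hmap : ∀ P : Matrix (Fin 4 ⊕ Fin 4) (Fin 4 ⊕ Fin 4) ℚ,
      rm P = (algebraMap ℚ ℝ).mapMatrix P := fun P => rfl
  have hdet : ∀ P : Matrix (Fin 4 ⊕ Fin 4) (Fin 4 ⊕ Fin 4) ℚ,
      (rm P).det = ((P.det : ℚ) : ℝ) := by
    intro P
    rw [hmap, ← RingHom.map_det]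
    rfl
  have hN' : IsUnit N.det := by
    rw [isUnit_iff_ne_zero]
    intro h0
    apply hN
    rw [hdet, h0, Rat.cast_zero]
  let Q := N⁻¹ * M
  have h1 : rm N * rm Q = rm M := by
    rw [hmap, hmap, hmap, ← map_mul, ← mul_assoc, Matrix.mul_nonsing_inv _ hN', one_mul]
  have h2 : (Matrix.scalar (Fin 4 ⊕ Fin 4) t - rm Q).det = 0 := by
    have h3 : rm N * (Matrix.scalar (Fin 4 ⊕ Fin 4) t - rm Q) = -(rm M - t • rm N) := by
      rw [mul_sub, h1, neg_sub]
      congr 1
      rw [Matrix.scalar_apply, ← Matrix.smul_one_eq_diagonal, Matrix.mul_smul, mul_one]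
    have h4 := congrArg Matrix.det h3
    rw [Matrix.det_mul, Matrix.det_neg, ht, mul_zero] at h4
    exact (mul_eq_zero.1 h4).resolve_left hN
  refine ⟨Q.charpoly, Q.charpoly_monic.ne_zero, ?_⟩
  have h5 : (rm Q).charpoly = Q.charpoly.map (algebraMap ℚ ℝ) := by
    rw [hmap]
    exact Matrix.charpoly_map Q (algebraMap ℚ ℝ)
  rw [aeval_def, ← eval_map, ← h5, Matrix.eval_charpoly]
  exact h2

/-- four lines which avoid a rational point -/
lemma exists_m {c c' : Fin 4 → ℝ} (h : ∀ i, c i ≠ 0 ∨ c' i ≠ 0) :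
    ∃ m : ℕ, ∀ i, c i + m * c' i ≠ 0 := by
  classical
  by_contra hcon
  push Not at hcon
  choose f hf using hcon
  have hinj : Function.Injective (fun m : Fin 5 => f m) := by
    intro a b hab
    have h1 := hf a
    have h2 := hf b
    simp only at hab
    rw [← hab] at h2
    have h3 : ((a : ℕ) : ℝ) * c' (f a) = ((b : ℕ) : ℝ) * c' (f a) := by linarith
    by_cases h4 : c' (f a) = 0
    · rw [h4, mul_zero, add_zero] at h1
      rcases h (f a) with h5 | h5
      · exact absurd h1 h5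
      · exact absurd h4 h5
    · have h5 := mul_right_cancel₀ h4 h3
      exact Fin.ext (by exact_mod_cast h5)
  have := Fintype.card_le_of_injective _ hinj
  simp at this

end FinL

open FinL in
theorem fin : S_FIN := by
  intro l τ hτ A hA hs
  choose s hs using hs
  -- the coefficients
  have hW : ∀ a, rm (A a) = τ.transpose * Wc (fun i => ∑ k, s a k * cf l k i) * τ := by
    intro a
    rw [hs a, ← sum_Wm, Matrix.mul_sum, Matrix.sum_mul]
    refine Finset.sum_congr rfl fun k _ => ?_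
    rw [Matrix.mul_smul, Matrix.smul_mul]
  have hlin : ∀ x y : ℝ, x • rm (A 0) + y • rm (A 1) =
      τ.transpose * Wc (x • (fun i => ∑ k, s 0 k * cf l k i) +
        y • (fun i => ∑ k, s 1 k * cf l k i)) * τ := by
    intro x y
    rw [hW 0, hW 1, Wc_add, Wc_smul, Wc_smul, Matrix.mul_add, Matrix.add_mul, Matrix.mul_smul,
      Matrix.mul_smul, Matrix.smul_mul, Matrix.smul_mul]
  have hA' : ∀ x y : ℝ, x • rm (A 0) + y • rm (A 1) = 0 → x = 0 ∧ y = 0 := by
    have h1 : LinearIndependent ℝ ![rm (A 0), rm (A 1)] := by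
      convert hA using 1
      funext a
      fin_cases a <;> rfl
    exact LinearIndependent.pair_iff.1 h1
  -- the values of the coefficients
  have e0 : ∀ a, (∑ k, s a k * cf l k 0) = s a 0 := by
    intro a; rw [Fin.sum_univ_two]; simp [cf]
  have e1 : ∀ a, (∑ k, s a k * cf l k 1) = s a 1 := by
    intro a; rw [Fin.sum_univ_two]; simp [cf]
  have e2 : ∀ a, (∑ k, s a k * cf l k 2) = s a 0 + s a 1 := by
    intro a; rw [Fin.sum_univ_two]; simp [cf]
  have e3 : ∀ a, (∑ k, s a k * cf l k 3) = s a 0 + s a 1 * l := by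
    intro a; rw [Fin.sum_univ_two]; simp [cf]
  have hzero : ∀ c : Fin 4 → ℝ, c = 0 → τ.transpose * Wc c * τ = 0 := by
    rintro c rfl
    have : Wc 0 = 0 := by
      have h := Wc_smul 0 (0 : Fin 4 → ℝ)
      rw [zero_smul, zero_smul] at h
      exact h
    rw [this, Matrix.mul_zero, Matrix.zero_mul]
  have hD : s 0 0 * s 1 1 - s 1 0 * s 0 1 ≠ 0 := by
    intro hD
    have h1 : s 1 1 • rm (A 0) + (-s 0 1) • rm (A 1) = 0 := by
      rw [hlin]
      apply hzero
      funext i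
      simp only [Pi.add_apply, Pi.smul_apply, smul_eq_mul, Pi.zero_apply, Fin.sum_univ_two]
      linear_combination (cf l 0 i) * hD
    have h2 : s 1 0 • rm (A 0) + (-s 0 0) • rm (A 1) = 0 := by
      rw [hlin]
      apply hzero
      funext i
      simp only [Pi.add_apply, Pi.smul_apply, smul_eq_mul, Pi.zero_apply, Fin.sum_univ_two]
      linear_combination (-cf l 1 i) * hD
    obtain ⟨h3, h4⟩ := hA' _ _ h1
    obtain ⟨h5, h6⟩ := hA' _ _ h2
    have h7 : (1 : ℝ) • rm (A 0) + (0 : ℝ) • rm (A 1) = 0 := by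
      rw [hlin]
      apply hzero
      funext i
      simp only [Pi.add_apply, Pi.smul_apply, smul_eq_mul, Pi.zero_apply, Fin.sum_univ_two]
      rw [neg_eq_zero] at h4 h6
      rw [h4, h6]
      ring
    exact one_ne_zero (hA' _ _ h7).1
  set c : Fin 4 → ℝ := fun i => ∑ k, s 0 k * cf l k i with hc
  set c' : Fin 4 → ℝ := fun i => ∑ k, s 1 k * cf l k i with hc'
  have c0 : c 0 = s 0 0 := e0 0
  have c1 : c 1 = s 0 1 := e1 0
  have c2 : c 2 = s 0 0 + s 0 1 := e2 0
  have c3 : c 3 = s 0 0 + s 0 1 * l := e3 0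
  have c0' : c' 0 = s 1 0 := e0 1
  have c1' : c' 1 = s 1 1 := e1 1
  have c2' : c' 2 = s 1 0 + s 1 1 := e2 1
  have c3' : c' 3 = s 1 0 + s 1 1 * l := e3 1
  have hne : ∀ i, c i ≠ 0 ∨ c' i ≠ 0 := by
    intro i
    by_contra hcon
    push Not at hcon
    obtain ⟨h1, h2⟩ := hcon
    apply hD
    fin_cases i
    · change c 0 = 0 at h1
      change c' 0 = 0 at h2
      rw [c0] at h1; rw [c0'] at h2
      rw [h1, h2]; ring
    · change c 1 = 0 at h1
      change c' 1 = 0 at h2
      rw [c1] at h1; rw [c1'] at h2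
      rw [h1, h2]; ring
    · change c 2 = 0 at h1
      change c' 2 = 0 at h2
      rw [c2] at h1; rw [c2'] at h2
      linear_combination s 1 1 * h1 - s 0 1 * h2
    · change c 3 = 0 at h1
      change c' 3 = 0 at h2
      rw [c3] at h1; rw [c3'] at h2
      linear_combination s 1 1 * h1 - s 0 1 * h2
  obtain ⟨m, hm⟩ := exists_m hne
  let N : Matrix (Fin 4 ⊕ Fin 4) (Fin 4 ⊕ Fin 4) ℚ := A 0 + (m : ℚ) • A 1
  have hN : rm N = (1 : ℝ) • rm (A 0) + (m : ℝ) • rm (A 1) := by
    ext i j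
    simp [N, rm]
  have hNdet : (rm N).det ≠ 0 := by
    rw [hN, hlin, Matrix.det_mul, Matrix.det_mul, Matrix.det_transpose]
    refine mul_ne_zero (mul_ne_zero hτ (det_Wc_ne fun i => ?_)) hτ
    have := hm i
    simpa using this
  have halg : ∀ i, IsAlgebraic ℚ (c' i / (c i + m * c' i)) := by
    intro i
    apply alg_root (M := A 1) hNdet
    have h1 : rm (A 1) - (c' i / (c i + m * c' i)) • rm N =
        (-(c' i / (c i + m * c' i))) • rm (A 0) +
          (1 - (c' i / (c i + m * c' i)) * m) • rm (A 1) := by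
      rw [hN]
      module
    rw [h1, hlin, Matrix.det_mul, Matrix.det_mul, det_Wc_zero (i := i), mul_zero, zero_mul]
    simp only [Pi.add_apply, Pi.smul_apply, smul_eq_mul]
    have h2 := div_mul_cancel₀ (c' i) (hm i)
    linear_combination -h2
  set t : Fin 4 → ℝ := fun i => c' i / (c i + m * c' i) with ht
  have hdiff : ∀ i j, t j - t i = (c' j * c i - c' i * c j) /
      ((c i + m * c' i) * (c j + m * c' j)) := by
    intro i j
    have h1 := hm i
    have h2 := hm j
    simp only [ht]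
    rw [div_sub_div _ _ h2 h1, mul_comm (c j + m * c' j) (c i + m * c' i)]
    congr 1
    ring
  have hl : l = ((t 3 - t 0) * (t 2 - t 1)) / ((t 2 - t 0) * (t 3 - t 1)) := by
    have k0 := hm 0
    have k1 := hm 1
    have k2 := hm 2
    have k3 := hm 3
    have d03 : c' 3 * c 0 - c' 0 * c 3 = l * (s 0 0 * s 1 1 - s 1 0 * s 0 1) := by
      rw [c3', c0, c0', c3]; ring
    have d12 : c' 2 * c 1 - c' 1 * c 2 = -(s 0 0 * s 1 1 - s 1 0 * s 0 1) := by
      rw [c2', c1, c1', c2]; ring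
    have d02 : c' 2 * c 0 - c' 0 * c 2 = s 0 0 * s 1 1 - s 1 0 * s 0 1 := by
      rw [c2', c0, c0', c2]; ring
    have d13 : c' 3 * c 1 - c' 1 * c 3 = -(s 0 0 * s 1 1 - s 1 0 * s 0 1) := by
      rw [c3', c1, c1', c3]; ring
    rw [hdiff 0 3, hdiff 1 2, hdiff 0 2, hdiff 1 3, d03, d12, d02, d13]
    generalize s 0 0 * s 1 1 - s 1 0 * s 0 1 = D at hD
    field_simp
  rw [hl]
  exact (((halg 3).sub (halg 0)).mul ((halg 2).sub (halg 1))).mul
    (((halg 2).sub (halg 0)).mul ((halg 3).sub (halg 1))).inv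

end Pool.Agent.Helper52K9.CG
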