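import Pool.Agent.Helper52K9.CG.Defs

/-!
# Project CG: the leaves

For a leaf `S_XX` prove `theorem xx : S_XX` (or `theorem xx (h : S_YY) ... : S_XX` with the
hypotheses allowed in its docstring) in the namespace `Pool.Agent.Helper52K9.CG`.
-/

set_option autoImplicit false

namespace Pool.Agent.Helper52K9.CG

open scoped Pointwise

/-! ## Part A: Gromov's theorem on groups of polynomial growth -/

/-- [LINC] Adapt `Pool.Agent.TH719.ED.H730.main` (`TH730/UT/Main.lean`, there the group is torsion):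
induction on the dimension. The subgroup `H` generated by the elements near `1` has finite index. If
its generators act by scalars, done. Otherwise `chain_false` gives a nonscalar `h` in `H` commuting
with the image of `H`; its eigenspace `W` and `Wᗮ` are invariant of smaller dimension: apply the
induction to both and intersect. -/
def S_LINC : Prop := ∀ (d : ℕ) (G : Type) [Group G] [Group.FG G], PG G d →
  ∀ (E : Type) [NormedAddCommGroup E] [InnerProductSpace ℂ E] [FiniteDimensional ℂ E]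
    (ρ : G →* (E ≃ₗᵢ[ℂ] E)),
    ∃ H : Subgroup G, H.FiniteIndex ∧ ∀ g ∈ H, ∀ h ∈ H, ρ (g * h) = ρ (h * g)

/-- [LINR] (may assume S_LINC) complexification as in `Pool.Agent.TH142.ED.Orth`
(`orthogonal_torsion`). -/
def S_LINR : Prop := ∀ (d : ℕ) (G : Type) [Group G] [Group.FG G], PG G d →
  ∀ (V : Type) [NormedAddCommGroup V] [InnerProductSpace ℝ V] [FiniteDimensional ℝ V]
    (ρ : G →* (V ≃ₗᵢ[ℝ] V)),
    ∃ H : Subgroup G, H.FiniteIndex ∧ ∀ g ∈ H, ∀ h ∈ H, ρ (g * h) = ρ (h * g)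

/-- [TOZ] (may assume S_LINR) see the proof of `Pool.Agent.TH719.ED.finite_of_poly`
(`TH719/ED/FinPoly.lean`): `exists_harmonic`, `entropy_facts`, `harmonic_rep` give a finite
dimensional orthogonal representation `ρ` with a nonzero harmonic cocycle `b`. Take `H` of finite
index with commuting `ρ(H)`. If `ρ(H)` is infinite, it is an infinite finitely generated abelian
group. If it is finite, then `b` is a homomorphism on the kernel (of finite index); it is not zero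
there, since otherwise `b` has finitely many values and a harmonic function with finitely many
values is constant. -/
def S_TOZ : Prop := ∀ (d : ℕ) (G : Type) [Group G] [Group.FG G] [Infinite G], PG G d →
  ∃ H : Subgroup G, H.FiniteIndex ∧ ∃ χ : H →* Multiplicative ℤ, Function.Surjective χ

/-- [MIL] Milnor's lemma. Let `χ t = 1`. For `e` in the kernel the `2 ^ n` products
`e ^ ε_0 (t e t⁻¹) ^ ε_1 ... (t ^ n e t ^ (-n)) ^ ε_n` have length `O(n)`, so two are equal and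
`t ^ k e t ^ (-k)` lies in the subgroup generated by `t ^ j e t ^ (-j)`, `0 ≤ j < k`, for some `k`;
the same with `t⁻¹`. So the kernel is finitely generated. Growth: `n |F ^ n|` elements `x t ^ j`,
`j < n`. -/
def S_MIL : Prop := ∀ (d : ℕ) (G : Type) [Group G] [Group.FG G] (χ : G →* Multiplicative ℤ),
  Function.Surjective χ → PG G d → Group.FG χ.ker ∧ ∃ d' : ℕ, d = d' + 1 ∧ PG χ.ker d'

/-- [CHR] intersection of all subgroups of the same index (finitely many in a finitely generated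
group); subgroups of finite index of finitely generated groups are finitely generated (Mathlib). -/
def S_CHR : Prop := ∀ (K : Type) [Group K] [Group.FG K] (H : Subgroup K), H.FiniteIndex →
  Group.IsNilpotent H → ∃ N : Subgroup K, N.Characteristic ∧ N.FiniteIndex ∧
    Group.IsNilpotent N ∧ Group.FG N

/-- [UNI] `α` acts on `A / torsion = ℤ ^ r` by an integral matrix. If `μ` is a complex eigenvalue of
modulus larger than 1, take `m` with `|μ ^ m| ≥ 2`, and a coordinate functional: the `2 ^ n` sums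
`∑ ε_j α ^ (m j) a` are different. So all eigenvalues have modulus at most 1, they are nonzero
algebraic integers: roots of unity (Kronecker). A power of `α` is unipotent on `ℤ ^ r`, and a power
is trivial on the torsion subgroup. -/
def S_UNI : Prop := ∀ (A : Type) [AddCommGroup A] [AddGroup.FG A] (α : A ≃+ A) (d : ℕ),
  (∀ a : A, ∃ C : ℕ, ∀ n : ℕ,
    Set.ncard {x : A | ∃ e : ℕ → ℕ, (∀ j, e j ≤ 1) ∧
      x = ∑ j ∈ Finset.range n, e j • (α^[j]) a} ≤ C * (n + 1) ^ d) →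
  ∃ k n : ℕ, 0 < k ∧ ∀ a : A, ((fun x => (α^[k]) x - x)^[n]) a = 0

/-- [HALL] Hall's criterion. -/
def S_HALL : Prop := ∀ (G : Type) [Group G] (N : Subgroup G) [N.Normal],
  Group.IsNilpotent N → Group.IsNilpotent (G ⧸ ⁅N, N⁆) → Group.IsNilpotent G

/-- [MW] (may assume S_CHR, S_UNI, S_HALL) the step of Milnor and Wolf. Take `N` characteristic
nilpotent of finite index in `K = ker χ`, `t` with `χ t = 1`; conjugation by `t` on `A = N / [N, N]`
satisfies the hypothesis of UNI since the products of the `t ^ j a ^ (ε_j) t ^ (-j)` have length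
`O(n)`. So `N ⟨t ^ k⟩` modulo `[N, N]` is nilpotent, and `N ⟨t ^ k⟩` is nilpotent by HALL and of
finite index. -/
def S_MW : Prop := ∀ (d : ℕ) (G : Type) [Group G] [Group.FG G] (χ : G →* Multiplicative ℤ),
  Function.Surjective χ → PG G d → Group.FG χ.ker →
  (∃ H : Subgroup χ.ker, H.FiniteIndex ∧ Group.IsNilpotent H) →
  ∃ H : Subgroup G, H.FiniteIndex ∧ Group.IsNilpotent H

/-- [GRO] (may assume S_TOZ, S_MIL, S_MW) Gromov's theorem, by induction on `d`. -/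
def S_GRO : Prop := ∀ (d : ℕ) (G : Type) [Group G] [Group.FG G], PG G d →
  ∃ H : Subgroup G, H.FiniteIndex ∧ Group.IsNilpotent H

/-! ## Part B: means, reduced cohomology, cup products -/

/-- [EX0] existence of a right invariant mean on a finitely generated group of polynomial growth
(see `Pool.Agent.TH595.exists_mean`, or directly: averages over the balls `S ^ n` along an
ultrafilter of radii with `|S ^ (n + 1)| ≤ (1 + ε) |S ^ n|`). -/
def S_EX0 : Prop := ∀ (d : ℕ) (Γ : Type) [Group Γ] [Group.FG Γ], PG Γ d → Nonempty (RMean Γ)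

/-- [EXT] an extreme point (Krein-Milman, Banach-Alaoglu) of the set of the right invariant means is
ergodic: let `u n` be as in `Erg`, `φ : ℝ → [0, 1]` Lipschitz; then `m₁ v = lim m (v φ(u n))` is
invariant and `0 ≤ m₁ ≤ m`, so `m₁ = m₁(1) m` by extremality, and so
`m (v φ(u n)) - m v m (φ (u n)) → 0` for all bounded `v`, hence (`v = φ(u k)`)
`m (φ (u n) ^ 2) - m (φ (u n)) ^ 2 → 0`. Take `φ` = clipping at height `R`, rescaled; in square mean
`u n` differs from its clipping by little for all large `n` (compare with a fixed `u N`, which is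
bounded). (It may be easier to use the Hilbert space of S_GNS, which may be assumed.) -/
def S_EXT : Prop := ∀ (Γ : Type) [Group Γ], Nonempty (RMean Γ) → ∃ μ : RMean Γ, Erg μ

/-- [GNS] the Hilbert space of a mean: completion of the bounded functions with the semi-inner
product `m (u v)`. -/
def S_GNS : Prop := ∀ (Γ : Type) [Group Γ] (μ : RMean Γ),
  ∃ (H : Type) (_ : NormedAddCommGroup H) (_ : InnerProductSpace ℝ H) (_ : CompleteSpace H)
    (π : Γ →* (H ≃ₗᵢ[ℝ] H)) (j : (Γ → ℝ) → H),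
    (∀ u v, Bd u → Bd v → j (fun x => u x + v x) = j u + j v) ∧
    (∀ (c : ℝ) u, Bd u → j (fun x => c * u x) = c • j u) ∧
    (∀ u v, Bd u → Bd v → inner ℝ (j u) (j v) = μ.m (fun x => u x * v x)) ∧
    (∀ g u, Bd u → π g (j u) = j (fun x => u (x * g))) ∧
    ∀ (h : H) (ε : ℝ), 0 < ε → ∃ u, Bd u ∧ ‖h - j u‖ ≤ ε

/-- [HT] reduced cohomology of nilpotent groups (Guichardet, Shalom). `c g` is the projection of
`b g` to the invariant vectors. Induction on the nilpotency class, for all `H`, `π`, `b`; it is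
enough to treat `b - c`, which has values in the complement of the invariant vectors. Let `Z` be the
centre, `H = H^Z ⊕ H₁`. On `H₁` no vector is `Z`-invariant, so (Alaoglu-Birkhoff: the element of
minimal norm of the closed convex hull of the `Z`-orbit of the vector `(b g)_{g ∈ F}` of `H₁ ^ F` is
`Z`-invariant, hence zero) there are `z_i ∈ Z` and convex coefficients `c_i` with
`‖∑ c_i π(z_i) b g‖ ≤ ε` for all `g ∈ F`; `v = ∑ c_i b(z_i)` is as required since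
`b(z) - π(g) b(z) = b(g) - π(z) b(g)`. On `H^Z` (without invariant vectors of `Γ`) `b(z)` is
`Γ`-invariant for `z ∈ Z`, so zero, and `π`, `b` factor over `Γ / Z`. -/
def S_HT : Prop := ∀ (Γ : Type) [Group Γ] [Group.IsNilpotent Γ] (H : Type)
  [NormedAddCommGroup H] [InnerProductSpace ℝ H] [CompleteSpace H] (π : Γ →* (H ≃ₗᵢ[ℝ] H))
  (b : Γ → H), (∀ g h, b (g * h) = b g + π g (b h)) →
  ∃ c : Γ → H, (∀ g h, π h (c g) = c g) ∧ (∀ g h, c (g * h) = c g + c h) ∧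
    ∀ (F : Finset Γ) (ε : ℝ), 0 < ε → ∃ v : H, ∀ g ∈ F, ‖b g - c g - (v - π g v)‖ ≤ ε

/-- [DEC] (may assume S_GNS, S_HT) By ergodicity the invariant vectors are the multiples of `j 1`
(approximate an invariant vector by bounded functions), so `c g = m (b g) • j 1`; replace `v` by a
bounded function. -/
def S_DEC : Prop := ∀ (Γ : Type) [Group Γ] [Group.IsNilpotent Γ] (μ : RMean Γ), Erg μ →
  ∀ b : Γ → Γ → ℝ, Coc b → ∀ (F : Finset Γ) (ε : ℝ), 0 < ε →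
  ∃ v, Bd v ∧ ∀ g ∈ F, μ.m (fun x => (b g x - μ.m (b g) - (v x - v (x * g))) ^ 2) ≤ ε

/-- [SUBL] (may assume S_DEC) the triangle inequality along a word. -/
def S_SUBL : Prop := ∀ (Γ : Type) [Group Γ] [Group.IsNilpotent Γ] (μ : RMean Γ), Erg μ →
  ∀ b : Γ → Γ → ℝ, Coc b → ∀ (S : Finset Γ) (ε : ℝ), 0 < ε →
  ∃ C : ℝ, ∀ n : ℕ, ∀ g ∈ (S : Set Γ) ^ n,
    μ.m (fun x => (b g x - μ.m (b g)) ^ 2) ≤ (ε * n + C) ^ 2

/-- [CLO] the coboundaries are closed for pointwise convergence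
(`LinearMap.range_dualMap_eq_dualAnnihilator_ker` for `∂ : (Γ × Γ →₀ ℝ) → (Γ →₀ ℝ)`). -/
def S_CLO : Prop := ∀ (Γ : Type) [Group Γ] (c : Γ → Γ → ℝ),
  (∀ (F : Finset Γ) (ε : ℝ), 0 < ε → ∃ ζ : Γ → ℝ, ∀ g ∈ F, ∀ h ∈ F,
    |c g h - (ζ g + ζ h - ζ (g * h))| ≤ ε) → Null c

/-- [CUP] (may assume S_DEC, S_CLO) with `b₀ = b - m b`, `b₀' = b' - m b'`, `v` for `b` by DEC:
`m (b₀ g(x) b₀' h(x g))` is nearly `m ((v(x) - v(x g)) b₀' h (x g)) = ζ g + ζ h - ζ (g h)` up to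
the sign, `ζ g = m (v b₀' g)`. -/
def S_CUP : Prop := ∀ (Γ : Type) [Group Γ] [Group.IsNilpotent Γ] (μ : RMean Γ), Erg μ →
  ∀ b b' : Γ → Γ → ℝ, Coc b → Coc b' →
  Null fun g h => μ.m (fun x => b g x * b' h (x * g)) - μ.m (b g) * μ.m (b' h)

/-- [COH] (may assume S_EX0, S_EXT, S_SUBL, S_CUP) apply the above to the coordinates of
`F g x = (f x)⁻¹ * f (x * g)`, `F (g h) x = F g x * F h (x g)`; for the second statement take the
mean of the central coordinates. -/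
def S_COH : Prop := ∀ (l : ℝ) (d : ℕ) (Γ : Type) [Group Γ] [Group.FG Γ] [Group.IsNilpotent Γ]
  (f : Γ → NN l), PG Γ d → (∀ g, ∃ C : ℝ, ∀ x, ga ((f x)⁻¹ * f (x * g)) ≤ C) →
  ∃ μ : RMean Γ,
    (∀ j, IsHom fun g => μ.m (fun x => co j ((f x)⁻¹ * f (x * g)))) ∧
    (∀ k : Fin 2, Null fun g h => ∑ i : Fin 4, cf l k i *
      μ.m (fun x => co (Sum.inl i) ((f x)⁻¹ * f (x * g))) *
      μ.m (fun x => co (Sum.inr i) ((f x)⁻¹ * f (x * h)))) ∧
    ∀ (c : Fin 4 ⊕ Fin 4 → ℝ) (S : Finset Γ) (ε : ℝ), 0 < ε → ∃ C : ℝ, ∀ n : ℕ,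
      ∀ g ∈ (S : Set Γ) ^ n, μ.m (fun x => ((∑ j, c j * co j ((f x)⁻¹ * f (x * g))) -
        ∑ j, c j * μ.m (fun x => co j ((f x)⁻¹ * f (x * g)))) ^ 2) ≤ (ε * n + C) ^ 2

/-- [IND] (may assume S_CNT, S_GR) linear independence: if `∑ c j T j = 0`, average the third
statement of COH over `g ∈ S ^ n` and compare with CNT and `|S ^ n| ≤ C (n + 1) ^ 12`. -/
def S_IND : Prop := ∀ (l : ℝ) (Γ : Type) [Group Γ] (S : Finset Γ) (f : Γ → NN l) (K : ℝ),
  QID l S f K → ∀ μ : RMean Γ,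
    (∀ (c : Fin 4 ⊕ Fin 4 → ℝ) (S : Finset Γ) (ε : ℝ), 0 < ε → ∃ C : ℝ, ∀ n : ℕ,
      ∀ g ∈ (S : Set Γ) ^ n, μ.m (fun x => ((∑ j, c j * co j ((f x)⁻¹ * f (x * g))) -
        ∑ j, c j * μ.m (fun x => co j ((f x)⁻¹ * f (x * g)))) ^ 2) ≤ (ε * n + C) ^ 2) →
    ∀ c : Fin 4 ⊕ Fin 4 → ℝ,
      (∀ g, ∑ j, c j * μ.m (fun x => co j ((f x)⁻¹ * f (x * g))) = 0) → c = 0

/-! ## Part C: algebra -/

/-- [A1] the abelianisation modulo torsion. -/
def S_A1 : Prop := ∀ (Γ : Type) [Group Γ] [Group.FG Γ], ∃ (m : ℕ) (ψ : Γ → Fin m → ℤ),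
  (∀ g h, ψ (g * h) = ψ g + ψ h) ∧ Function.Surjective ψ ∧
  ∀ T : Γ → ℝ, IsHom T → ∃ τ : Fin m → ℝ, ∀ g, T g = ∑ i, τ i * (ψ g i : ℝ)

/-- [A2] lower bound for the growth. Let `Φ a = - ζ a` for the cochains of the null cocycles, so
`Φ (g h) = Φ g + Φ h + B(ψ g, ψ h)` and `Φ [g, h] = B(ψ g, ψ h) - B(ψ h, ψ g)`. Choose `g_j, h_j`
(`j < k`) such that the vectors `Φ [g_j, h_j] ∈ ℝ ^ k` are a basis, and `x_i` with `ψ x_i = e_i`;
the elements `∏ x_i ^ (n_i) ∏ [g_j ^ r, h_j ^ (q_j)] [g_j, h_j ^ (s_j)]`, all `n_i, q_j, s_j < r`,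
are different and of length `O(r)`. -/
def S_A2 : Prop := ∀ (Γ : Type) [Group Γ] (S : Finset Γ), (1 : Γ) ∈ S → (∀ x ∈ S, x⁻¹ ∈ S) →
  Subgroup.closure (S : Set Γ) = ⊤ → ∀ (m : ℕ) (ψ : Γ → Fin m → ℤ),
  (∀ g h, ψ (g * h) = ψ g + ψ h) → Function.Surjective ψ →
  ∀ (k : ℕ) (B : Fin k → Matrix (Fin m) (Fin m) ℝ),
    (∀ a, Null fun g h => ∑ i, ∑ j, B a i j * (ψ g i : ℝ) * (ψ h j : ℝ)) →
    LinearIndependent ℝ (fun a => B a - (B a).transpose) →
    ∃ δ : ℝ, 0 < δ ∧ ∀ n : ℕ, δ * (n : ℝ) ^ (m + 2 * k) ≤ (((S : Set Γ) ^ n).ncard : ℝ)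

/-- [RAT] rationality: write `Ω k = ∑ r_j A_j` with `r_j` linearly independent over `ℚ` and `A_j`
rational (`A_j = φ_j (Ω k)` entrywise). -/
def S_RAT : Prop := ∀ (n : Type) [Fintype n] [DecidableEq n] (Ω : Fin 2 → Matrix n n ℝ),
  LinearIndependent ℝ Ω →
  (∀ (φ : ℝ →ₗ[ℚ] ℚ) (k : Fin 2),
    (Ω k).map (fun x => ((φ x : ℚ) : ℝ)) ∈ Submodule.span ℝ (Set.range Ω)) →
  ∃ A : Fin 2 → Matrix n n ℚ, LinearIndependent ℝ (fun a => rm (A a)) ∧
    ∀ a, rm (A a) ∈ Submodule.span ℝ (Set.range Ω)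

/-- [FIN] `A a = τᵀ (∑ g_(a k) W k) τ` with an invertible real matrix `g`. Some rational combination
of the `A a` is invertible (`det (x A 0 + y A 1)` is a nonzero polynomial, a product of the squares
of the linear forms `s, t, s + t, s + l t` in `(s, t) = (x, y) g`, up to a constant); so assume `A 0`
invertible. The eigenvalues of the rational matrix `(A 0)⁻¹ A 1` are algebraic; they are
`c / a`, `d / b`, `(c + d) / (a + b)`, `(c + d l) / (a + b l)` for `g = (a b; c d)`. -/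
def S_FIN : Prop := ∀ (l : ℝ) (τ : Matrix (Fin 4 ⊕ Fin 4) (Fin 4 ⊕ Fin 4) ℝ), τ.det ≠ 0 →
  ∀ A : Fin 2 → Matrix (Fin 4 ⊕ Fin 4) (Fin 4 ⊕ Fin 4) ℚ,
    LinearIndependent ℝ (fun a => rm (A a)) →
    (∀ a, ∃ s : Fin 2 → ℝ, rm (A a) = ∑ k, s k • (τ.transpose * Wm l k * τ)) → IsAlgebraic ℚ l

/-- [A4] (may assume S_A1, S_A2, S_RAT, S_FIN) `T j = τ j ∘ ψ`, `m ≥ 8`; the forms
`∑ cf l k i τ_(inl i) ⊗ τ_(inr i)` are null and their antisymmetrisations independent, so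
`m + 4 ≤ 12` by A2, `m = 8`, `τ` is invertible; a third null form with independent
antisymmetrisation would give growth `≥ n ^ 14`. If `B` is null then so is `φ(B)` for every
`ℚ`-linear `φ : ℝ → ℚ` (apply `φ` to the cochain), so RAT applies, then FIN. -/
def S_A4 : Prop := ∀ (l : ℝ) (Γ : Type) [Group Γ] (S : Finset Γ), (1 : Γ) ∈ S →
  (∀ x ∈ S, x⁻¹ ∈ S) → Subgroup.closure (S : Set Γ) = ⊤ →
  (∃ C : ℕ, ∀ n : ℕ, ((S : Set Γ) ^ n).ncard ≤ C * (n + 1) ^ 12) →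
  ∀ T : Fin 4 ⊕ Fin 4 → Γ → ℝ, (∀ j, IsHom (T j)) →
    (∀ c : Fin 4 ⊕ Fin 4 → ℝ, (∀ g, ∑ j, c j * T j g = 0) → c = 0) →
    (∀ k : Fin 2, Null fun g h => ∑ i : Fin 4, cf l k i * T (Sum.inl i) g * T (Sum.inr i) h) →
    IsAlgebraic ℚ l

/-! ## Part D: geometry of `NN l` -/

/-- [GA] gauge estimates. -/
def S_GA : Prop := ∀ l : ℝ, ∃ C : ℝ, 1 ≤ C ∧ (∀ x y : NN l, ga (x * y) ≤ C * (ga x + ga y)) ∧
  (∀ x : NN l, ga x⁻¹ ≤ C * ga x) ∧
  ∀ (L : List (NN l)) (a : ℝ), 0 ≤ a → (∀ x ∈ L, ga x ≤ a) → ga L.prod ≤ C * L.length * a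

/-- [FAC] factorisation: horizontal part in unit steps; centre by the commutators
`(a e_i, 0, 0) (0, b e_i, 0) (-a e_i, 0, 0) (0, -b e_i, 0) = (0, 0, a b u_i)`, `i = 0, 1`. -/
def S_FAC : Prop := ∀ l : ℝ, ∃ C : ℕ, ∀ (w : NN l) (r : ℕ), ga w ≤ r →
  ∃ L : List (NN l), L.length ≤ C * (r + 1) ∧ (∀ x ∈ L, ga x ≤ 1) ∧ L.prod = w

/-- [RD] rounding and counting. -/
def S_RD : Prop := ∀ l : ℝ, (∀ w : NN l, ga (w⁻¹ * em l (rd l w)) ≤ 1) ∧
  (∀ a : Pt, rd l (em l a) = a) ∧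
  ∃ C : ℕ, ∀ (r : ℕ) (a : Pt), {b : Pt | ga ((em l a)⁻¹ * em l b) ≤ r}.Finite ∧
    {b : Pt | ga ((em l a)⁻¹ * em l b) ≤ r}.ncard ≤ C * (r + 1) ^ 12

/-- [DIL] dilations. -/
def S_DIL : Prop := ∀ (l t : ℝ), 0 < t → (∀ x y : NN l, dil t (x * y) = dil t x * dil t y) ∧
  (∀ x : NN l, dil t x⁻¹ = (dil t x)⁻¹) ∧ ∀ x : NN l, ga (dil t x) = t * ga x

/-- [XM] (may assume S_GA, S_FAC, S_RD) the graph distance against the gauge. Connect `a` to `b` by
the roundings of the points `em a * (x_1 ... x_i)`. -/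
def S_XM : Prop := ∀ l : ℝ, ∃ R C : ℝ, 1 ≤ C ∧ (X l R).Connected ∧
  (∀ a b : Pt, ga ((em l a)⁻¹ * em l b) ≤ C * (X l R).dist a b) ∧
  ∀ a b : Pt, ((X l R).dist a b : ℝ) ≤ C * (ga ((em l a)⁻¹ * em l b) + 1)

/-- [XLF] (may assume S_RD, S_GA; the hypotheses on `R` are those of S_XM) -/
def S_XLF : Prop := ∀ l R C : ℝ, 1 ≤ C → (X l R).Connected →
  (∀ a b : Pt, ga ((em l a)⁻¹ * em l b) ≤ C * (X l R).dist a b) →
  (∀ a b : Pt, ((X l R).dist a b : ℝ) ≤ C * (ga ((em l a)⁻¹ * em l b) + 1)) →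
  (∀ v, ((X l R).neighborSet v).Finite) ∧ ∃ (v₀ : Pt) (c d : ℕ), ∀ r : ℕ,
          Set.ncard {w | (X l R).dist v₀ w ≤ r} ≤ c * (r + 1) ^ d

/-- [XAS] (may assume S_RD, S_GA, S_DIL) asymptotic dimension: `ι = Pt`,
`U i = {x | rd l (dil (1 / (R' + 1)) (em l x)) = i}`. -/
def S_XAS : Prop := ∀ l R C : ℝ, 1 ≤ C → (X l R).Connected →
  (∀ a b : Pt, ga ((em l a)⁻¹ * em l b) ≤ C * (X l R).dist a b) →
  (∀ a b : Pt, ((X l R).dist a b : ℝ) ≤ C * (ga ((em l a)⁻¹ * em l b) + 1)) →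
  ∃ n : ℕ, ∀ R' : ℕ, ∃ (ι : Type) (U : ι → Set Pt) (D : ℕ),
          (∀ i, ∀ x ∈ U i, ∀ y ∈ U i, (X l R).dist x y ≤ D) ∧
          (∀ x, ∃ i, x ∈ U i) ∧
          ∀ x, {i | ∃ y ∈ U i, (X l R).dist x y ≤ R'}.Finite ∧
            Set.ncard {i | ∃ y ∈ U i, (X l R).dist x y ≤ R'} ≤ n + 1

/-- [XCT] (may assume S_RD, S_GA) coarse transitivity: `f a = rd l (em y * (em x)⁻¹ * em a)`. -/
def S_XCT : Prop := ∀ l R C : ℝ, 1 ≤ C → (X l R).Connected →
  (∀ a b : Pt, ga ((em l a)⁻¹ * em l b) ≤ C * (X l R).dist a b) →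
  (∀ a b : Pt, ((X l R).dist a b : ℝ) ≤ C * (ga ((em l a)⁻¹ * em l b) + 1)) →
  ∃ K C : ℝ, 0 < K ∧ ∀ x y : Pt, ∃ f : Pt → Pt,
          (∀ a b : Pt, ((X l R).dist a b : ℝ) / K - C ≤ ((X l R).dist (f a) (f b) : ℝ) ∧
              ((X l R).dist (f a) (f b) : ℝ) ≤ K * ((X l R).dist a b : ℝ) + C) ∧
          (∀ z : Pt, ∃ a : Pt, ((X l R).dist (f a) z : ℝ) ≤ C) ∧
          ((X l R).dist (f x) y : ℝ) ≤ C

/-! ## Part E: quasi-isometries -/

/-- [QG] (may assume S_GA, S_RD) from a quasi-isometry of the graph to a Cayley graph: put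
`f h = em a` for some `a` with `φ a` near `h`, and `S' = {1} ∪ S ∪ S⁻¹`. -/
def S_QG : Prop := ∀ l R C : ℝ, 1 ≤ C → (X l R).Connected →
  (∀ a b : Pt, ga ((em l a)⁻¹ * em l b) ≤ C * (X l R).dist a b) →
  (∀ a b : Pt, ((X l R).dist a b : ℝ) ≤ C * (ga ((em l a)⁻¹ * em l b) + 1)) →
  ∀ (H : Type) [Group H] (S : Set H), S.Finite → Subgroup.closure S = ⊤ →
    (∃ (φ : Pt → H) (K C : ℝ), 0 < K ∧
          (∀ a b : Pt,
              ((X l R).dist a b : ℝ) / K - C ≤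
                ((SimpleGraph.fromRel (fun g h : H => ∃ s ∈ S, h = g * s)).dist (φ a) (φ b) : ℝ) ∧
              ((SimpleGraph.fromRel (fun g h : H => ∃ s ∈ S, h = g * s)).dist (φ a) (φ b) : ℝ) ≤
                K * ((X l R).dist a b : ℝ) + C) ∧
          (∀ h : H, ∃ a : Pt,
              ((SimpleGraph.fromRel (fun g h : H => ∃ s ∈ S, h = g * s)).dist (φ a) h : ℝ) ≤ C)) →
    ∃ (S' : Finset H) (f : H → NN l) (K : ℝ), QID l S' f K

/-- [QSUB] (may assume S_GA) restriction to a subgroup of finite index (Schreier generators, one for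
each letter: `x⁻¹ y ∈ S ^ n ∩ Γ` implies `x⁻¹ y ∈ S' ^ n`). -/
def S_QSUB : Prop := ∀ (l : ℝ) (H : Type) [Group H] (S : Finset H) (f : H → NN l) (K : ℝ),
  QID l S f K → ∀ Γ : Subgroup H, Γ.FiniteIndex →
  ∃ (S' : Finset Γ) (f' : Γ → NN l) (K' : ℝ), QID l S' f' K'

/-- [GR] (may assume S_GA, S_RD) growth: `g ↦ rd ((f 1)⁻¹ * f g)` has bounded fibres. -/
def S_GR : Prop := ∀ (l : ℝ) (Γ : Type) [Group Γ] (S : Finset Γ) (f : Γ → NN l) (K : ℝ),
  QID l S f K → (∃ C : ℕ, ∀ n : ℕ, ((S : Set Γ) ^ n).ncard ≤ C * (n + 1) ^ 12) ∧ PG Γ 12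

/-- [CNT] (may assume S_GA, S_RD) counting: the points `f x * em w`, `w ∈ Pt` with one horizontal
coordinate (where `|c j|` is maximal) of size about `κ n`, the others at most `κ' n`, the central
ones at most `κ n ^ 2`, are near points `f (x * g)`, `g ∈ S ^ n`, and a point `g` is used at most a
bounded number of times. -/
def S_CNT : Prop := ∀ (l : ℝ) (Γ : Type) [Group Γ] (S : Finset Γ) (f : Γ → NN l) (K : ℝ),
  QID l S f K → ∀ c : Fin 4 ⊕ Fin 4 → ℝ, c ≠ 0 → ∃ δ : ℝ, 0 < δ ∧ ∃ R : ℕ, ∀ n ≥ R, ∀ x : Γ,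
    ∃ A : Finset Γ, (A : Set Γ) ⊆ (S : Set Γ) ^ n ∧ δ * (n : ℝ) ^ 12 ≤ A.card ∧
      ∀ g ∈ A, δ * n ≤ |∑ j, c j * co j ((f x)⁻¹ * f (x * g))|

/-! ## the theorem -/

/-- the frozen statement S01673 for the graph `X l R` -/
def S_TOP : Prop := ∃ l R : ℝ,
      (X l R).Connected ∧ (∀ v, ((X l R).neighborSet v).Finite) ∧
      (∃ (v₀ : Pt) (c d : ℕ), ∀ r : ℕ,
          Set.ncard {w | (X l R).dist v₀ w ≤ r} ≤ c * (r + 1) ^ d) ∧
      (∃ n : ℕ, ∀ R' : ℕ, ∃ (ι : Type) (U : ι → Set Pt) (D : ℕ),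
          (∀ i, ∀ x ∈ U i, ∀ y ∈ U i, (X l R).dist x y ≤ D) ∧
          (∀ x, ∃ i, x ∈ U i) ∧
          ∀ x, {i | ∃ y ∈ U i, (X l R).dist x y ≤ R'}.Finite ∧
            Set.ncard {i | ∃ y ∈ U i, (X l R).dist x y ≤ R'} ≤ n + 1) ∧
      (∃ K C : ℝ, 0 < K ∧ ∀ x y : Pt, ∃ f : Pt → Pt,
          (∀ a b : Pt, ((X l R).dist a b : ℝ) / K - C ≤ ((X l R).dist (f a) (f b) : ℝ) ∧
              ((X l R).dist (f a) (f b) : ℝ) ≤ K * ((X l R).dist a b : ℝ) + C) ∧
          (∀ z : Pt, ∃ a : Pt, ((X l R).dist (f a) z : ℝ) ≤ C) ∧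
          ((X l R).dist (f x) y : ℝ) ≤ C) ∧
      ∀ (H : Type) [Group H] (S : Set H), S.Finite → Subgroup.closure S = ⊤ →
        ¬ ∃ (φ : Pt → H) (K C : ℝ), 0 < K ∧
          (∀ a b : Pt,
              ((X l R).dist a b : ℝ) / K - C ≤
                ((SimpleGraph.fromRel (fun g h : H => ∃ s ∈ S, h = g * s)).dist (φ a) (φ b) : ℝ) ∧
              ((SimpleGraph.fromRel (fun g h : H => ∃ s ∈ S, h = g * s)).dist (φ a) (φ b) : ℝ) ≤
                K * ((X l R).dist a b : ℝ) + C) ∧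
          (∀ h : H, ∃ a : Pt,
              ((SimpleGraph.fromRel (fun g h : H => ∃ s ∈ S, h = g * s)).dist (φ a) h : ℝ) ≤ C)

end Pool.Agent.Helper52K9.CG
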