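import Pool.Agent.Helper52K9.CG.Stm

/-!
# Project CG: assembly
-/

set_option autoImplicit false

namespace Pool.Agent.Helper52K9.CG

open scoped Pointwise

/-- there is a transcendental real number -/
theorem exists_transcendental : ∃ l : ℝ, Transcendental ℚ l := by
  by_contra h
  push Not at h
  have h1 : ∀ x : ℝ, IsAlgebraic ℚ x := fun x => by
    by_contra hx
    exact h x hx
  have h2 : Set.Countable {x : ℝ | IsAlgebraic ℚ x} := Algebraic.countable ℚ ℝ
  have h3 : {x : ℝ | IsAlgebraic ℚ x} = Set.univ := Set.eq_univ_of_forall h1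
  rw [h3] at h2
  exact Cardinal.not_countable_real h2

/-- no finitely generated group is quasi-isometric to `NN l`, `l` transcendental -/
theorem no_group (gro : S_GRO) (coh : S_COH) (ind : S_IND) (a4 : S_A4) (qsub : S_QSUB)
    (gr : S_GR) {l : ℝ} (hl : Transcendental ℚ l) (H : Type) [Group H] (S : Finset H)
    (f : H → NN l) (K : ℝ) (hq : QID l S f K) : False := by
  have hfg : Group.FG H := ⟨⟨S, hq.gen⟩⟩
  obtain ⟨Γ, hΓ, hnil⟩ := gro 12 H (gr l H S f K hq).2
  obtain ⟨S', f', K', hq'⟩ := qsub l H S f K hq Γ hΓ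
  have hfg' : Group.FG Γ := ⟨⟨S', hq'.gen⟩⟩
  obtain ⟨hgr1, hgr2⟩ := gr l Γ S' f' K' hq'
  have hb : ∀ g : Γ, ∃ C : ℝ, ∀ x, ga ((f' x)⁻¹ * f' (x * g)) ≤ C := by
    intro g
    -- every element lies in a power of `S'`
    have hg : ∃ n : ℕ, g ∈ (S' : Set Γ) ^ n := by
      have hg : g ∈ Subgroup.closure (S' : Set Γ) := by rw [hq'.gen]; trivial
      induction hg using Subgroup.closure_induction with
      | mem x hx => exact ⟨1, by simpa using hx⟩
      | one => exact ⟨0, by simp⟩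
      | mul x y _ _ hx hy =>
        obtain ⟨a, ha⟩ := hx
        obtain ⟨b, hb⟩ := hy
        exact ⟨a + b, by rw [pow_add]; exact Set.mul_mem_mul ha hb⟩
      | inv x _ hx =>
        obtain ⟨a, ha⟩ := hx
        refine ⟨a, ?_⟩
        have h1 : ((S' : Set Γ))⁻¹ = (S' : Set Γ) := by
          ext y
          simp only [Set.mem_inv, Finset.mem_coe]
          exact ⟨fun h => by simpa using hq'.inv_mem _ h, fun h => hq'.inv_mem _ h⟩
        have h2 : x⁻¹ ∈ ((S' : Set Γ) ^ a)⁻¹ := by simpa using ha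
        rwa [← inv_pow, h1] at h2
    obtain ⟨n, hn⟩ := hg
    exact ⟨_, hq'.up n g hn⟩
  obtain ⟨μ, h1, h2, h3⟩ := coh l 12 Γ f' hgr2 hb
  have h4 := ind l Γ S' f' K' hq' μ h3
  exact hl (a4 l Γ S' hq'.one_mem hq'.inv_mem hq'.gen hgr1
    (fun j g => μ.m (fun x => co j ((f' x)⁻¹ * f' (x * g)))) h1 h4 h2)

theorem top (gro : S_GRO) (coh : S_COH) (ind : S_IND) (a4 : S_A4) (qsub : S_QSUB)
    (gr : S_GR) (xm : S_XM) (xlf : S_XLF) (xas : S_XAS) (xct : S_XCT) (qg : S_QG) : S_TOP := by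
  obtain ⟨l, hl⟩ := exists_transcendental
  obtain ⟨R, C, hC, hcon, h1, h2⟩ := xm l
  refine ⟨l, R, hcon, (xlf l R C hC hcon h1 h2).1, (xlf l R C hC hcon h1 h2).2,
    xas l R C hC hcon h1 h2, xct l R C hC hcon h1 h2, ?_⟩
  intro H _ S hS hgen hφ
  obtain ⟨S', f, K, hq⟩ := qg l R C hC hcon h1 h2 H S hS hgen hφ
  exact no_group gro coh ind a4 qsub gr hl H S' f K hq

end Pool.Agent.Helper52K9.CG
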